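import Pool.Agent.NEX.Stmts

set_option autoImplicit false

/-!
# NEX, module BAS: the period matrix at the CM point is a diagonal matrix times a matrix with
entries in a number field
-/

open scoped BigOperators Topology
open Metric Set

namespace Pool.Agent.NEX

open Pool.Agent.HGP (Ix Simil Idx fvec)
open Pool.Agent.GPH (f0 P2 pol CPath num perMat fus Ord EE fz refP Tm polz)
open Pool.Agent.DG2 (cC Yv NmC NmQ Sep Ref Ht)

namespace BAS_

noncomputable section

lemma simil_tr {G : ℕ} {lam : ℂ} (hl : lam ≠ 0) {M : Matrix (Ix G) (Ix G) ℂ} (h : Simil lam M) :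
    M * Matrix.J (Fin G) ℂ * M.transpose = lam • Matrix.J (Fin G) ℂ := by
  unfold Simil at h
  have hJ : Matrix.J (Fin G) ℂ * Matrix.J (Fin G) ℂ = -1 := Matrix.J_squared (Fin G) ℂ
  have h1 : (lam⁻¹ • (-(Matrix.J (Fin G) ℂ * M.transpose * Matrix.J (Fin G) ℂ))) * M = 1 := by
    have h2 : Matrix.J (Fin G) ℂ * M.transpose * Matrix.J (Fin G) ℂ * M =
        Matrix.J (Fin G) ℂ * (M.transpose * Matrix.J (Fin G) ℂ * M) := by
      simp only [Matrix.mul_assoc]
    rw [Matrix.smul_mul, Matrix.neg_mul, h2, h, Matrix.mul_smul, hJ, smul_neg, smul_neg, smul_neg, neg_neg,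
      smul_smul, inv_mul_cancel₀ hl, one_smul]
  have h3 : M * (lam⁻¹ • (-(Matrix.J (Fin G) ℂ * M.transpose * Matrix.J (Fin G) ℂ))) = 1 :=
    mul_eq_one_comm.1 h1
  have h4 : M * (-(Matrix.J (Fin G) ℂ * M.transpose * Matrix.J (Fin G) ℂ)) = lam • 1 := by
    have h5 := congrArg (fun X => lam • X) h3
    simp only [Matrix.mul_smul, smul_smul, mul_inv_cancel₀ hl, one_smul] at h5
    exact h5
  have h6 := congrArg (fun X => X * Matrix.J (Fin G) ℂ) h4
  simp only [Matrix.smul_mul, Matrix.one_mul] at h6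
  rw [← h6, Matrix.mul_neg, Matrix.neg_mul]
  have h7 : M * (Matrix.J (Fin G) ℂ * M.transpose * Matrix.J (Fin G) ℂ) * Matrix.J (Fin G) ℂ =
      M * Matrix.J (Fin G) ℂ * M.transpose * (Matrix.J (Fin G) ℂ * Matrix.J (Fin G) ℂ) := by
    simp only [Matrix.mul_assoc]
  rw [h7, hJ, Matrix.mul_neg, Matrix.mul_one, neg_neg]

lemma f0_ce (g : ℕ) (hg : 0 < g) (e : ℚ) :
    f0 (ce g e) = Polynomial.X ^ (2 * g + 1) + Polynomial.C e * Polynomial.X := by
  unfold f0
  congr 1
  rw [Finset.sum_eq_single (⟨0, by omega⟩ : Fin (2 * g))]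
  · simp [ce]
  · intro k _ hk
    have : (k : ℕ) ≠ 0 := fun h => hk (Fin.ext h)
    simp [ce, this]
  · intro h; exact absurd (Finset.mem_univ _) h

lemma f0_cce (g : ℕ) (hg : 0 < g) (e : ℚ) :
    f0 (cC (ce g e)) = Polynomial.X ^ (2 * g + 1) + Polynomial.C (e : ℂ) * Polynomial.X := by
  unfold f0
  congr 1
  rw [Finset.sum_eq_single (⟨0, by omega⟩ : Fin (2 * g))]
  · simp [ce, cC]
  · intro k _ hk
    have : (k : ℕ) ≠ 0 := fun h => hk (Fin.ext h)
    simp [ce, cC, this]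
  · intro h; exact absurd (Finset.mem_univ _) h

lemma coeff_f0 (g : ℕ) (hg : 0 < g) (e : ℚ) (n : ℕ) (hn : 2 ≤ n) :
    (f0 (ce g e)).coeff n = if n = 2 * g + 1 then 1 else 0 := by
  rw [f0_ce g hg, Polynomial.coeff_add, Polynomial.coeff_X_pow, Polynomial.coeff_C_mul,
    Polynomial.coeff_X, if_neg (by omega : ¬ 1 = n), mul_zero, add_zero]

/-- The index of the row of the second kind. -/
def ix2 (g : ℕ) (j : Fin g) : Fin (2 * g) := ⟨2 * g - 1 - j, by have := j.2; omega⟩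

def ix1 (g : ℕ) (j : Fin g) : Fin (2 * g) := ⟨j, by have := j.2; omega⟩

lemma NmC_inl (g : ℕ) (c : Fin (2 * g) → ℚ) (j : Fin g) (l : Fin (2 * g)) :
    NmC g c (.inl j) l = if l = ix1 g j then 1 else 0 := by
  show ((NmQ g c (.inl j) l : ℚ) : ℂ) = _
  have h : NmQ g c (.inl j) l = if (l : ℕ) = (j : ℕ) then 1 else 0 := rfl
  rw [h]
  by_cases h2 : (l : ℕ) = (j : ℕ)
  · rw [if_pos h2, if_pos (Fin.ext h2)]; norm_num
  · rw [if_neg h2, if_neg (fun h3 => h2 (congrArg Fin.val h3))]; norm_num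

lemma NmC_inr (g : ℕ) (hg : 0 < g) (e : ℚ) (j : Fin g) (l : Fin (2 * g)) :
    NmC g (ce g e) (.inr j) l =
      if l = ix2 g j then (2 * (g : ℂ) - 1 - 2 * ((j : ℕ) : ℂ)) / 4 else 0 := by
  show ((NmQ g (ce g e) (.inr j) l : ℚ) : ℂ) = _
  have hj := j.2
  have h : NmQ g (ce g e) (.inr j) l = if (j : ℕ) < (l : ℕ) then
        (((l : ℕ) : ℚ) - ((j : ℕ) : ℚ)) / 4 * (f0 (ce g e)).coeff ((l : ℕ) + (j : ℕ) + 2) else 0 :=
    rfl
  rw [h, coeff_f0 g hg e _ (by omega)]
  by_cases h2 : l = ix2 g j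
  · have h3 : (l : ℕ) = 2 * g - 1 - j := congrArg Fin.val h2
    rw [if_pos h2, if_pos (by omega), if_pos (by omega)]
    have h4 : ((l : ℕ) : ℚ) = 2 * (g : ℚ) - 1 - ((j : ℕ) : ℚ) := by
      rw [h3, Nat.cast_sub (by omega), Nat.cast_sub (by omega)]
      push_cast
      ring
    rw [h4]
    push_cast
    ring
  · rw [if_neg h2]
    have h3 : (l : ℕ) ≠ 2 * g - 1 - j := fun h3 => h2 (Fin.ext h3)
    by_cases h4 : (j : ℕ) < (l : ℕ)
    · rw [if_pos h4, if_neg (by omega), mul_zero, Rat.cast_zero]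
    · rw [if_neg h4, Rat.cast_zero]

/-- The diagonal. -/
def th (g : ℕ) (β : ℕ → ℂ) : Ix g → ℂ := Sum.elim (fun j => β (ix1 g j)) (fun j => β (ix2 g j))

/-- The algebraic part. -/
def Va (g : ℕ) (U : Matrix (Fin (2 * g)) (Ix g) ℂ) : Matrix (Ix g) (Ix g) ℂ :=
  Matrix.of fun k c => match k with
    | .inl j => U (ix1 g j) c
    | .inr j => (2 * (g : ℂ) - 1 - 2 * ((j : ℕ) : ℂ)) / 4 * U (ix2 g j) c

lemma Nm_mul (g : ℕ) (hg : 0 < g) (e : ℚ) (β : ℕ → ℂ) (U : Matrix (Fin (2 * g)) (Ix g) ℂ) :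
    NmC g (ce g e) * (Matrix.diagonal (fun l : Fin (2 * g) => β l) * U) =
      Matrix.diagonal (th g β) * Va g U := by
  ext k c
  rw [Matrix.mul_apply, Matrix.diagonal_mul]
  rcases k with j | j
  · rw [Finset.sum_eq_single (ix1 g j)]
    · rw [NmC_inl, if_pos rfl, one_mul, Matrix.diagonal_mul]
      rfl
    · intro l _ hl
      rw [NmC_inl, if_neg hl, zero_mul]
    · intro h; exact absurd (Finset.mem_univ _) h
  · rw [Finset.sum_eq_single (ix2 g j)]
    · rw [NmC_inr g hg, if_pos rfl, Matrix.diagonal_mul]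
      show _ = β (ix2 g j) * ((2 * (g : ℂ) - 1 - 2 * ((j : ℕ) : ℂ)) / 4 * U (ix2 g j) c)
      ring
    · intro l _ hl
      rw [NmC_inr g hg, if_neg hl, zero_mul]
    · intro h; exact absurd (Finset.mem_univ _) h

lemma mul_memL {m n k : Type} [Fintype n] (L : IntermediateField ℚ ℂ) {A : Matrix m n ℂ}
    {B : Matrix n k ℂ} (hA : ∀ i j, A i j ∈ L) (hB : ∀ i j, B i j ∈ L) (i : m) (j : k) :
    (A * B) i j ∈ L := by
  rw [Matrix.mul_apply]
  exact L.sum_mem fun l _ => L.mul_mem (hA i l) (hB l j)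

lemma J_lr (g : ℕ) (j : Fin g) : Matrix.J (Fin g) ℂ (.inl j) (.inr j) = -1 := by
  simp [Matrix.J]

lemma J_mem (L : IntermediateField ℚ ℂ) (g : ℕ) (p q : Ix g) : Matrix.J (Fin g) ℂ p q ∈ L := by
  rcases p with p | p <;> rcases q with q | q
  · simp [Matrix.J, L.zero_mem]
  · simp only [Matrix.J, Matrix.fromBlocks_apply₁₂, Matrix.neg_apply, Matrix.one_apply]
    split_ifs
    · exact L.neg_mem L.one_mem
    · exact L.neg_mem L.zero_mem
  · simp only [Matrix.J, Matrix.fromBlocks_apply₂₁, Matrix.one_apply]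
    split_ifs
    · exact L.one_mem
    · exact L.zero_mem
  · simp [Matrix.J, L.zero_mem]

/-- The linear algebra part. -/
lemma split (g : ℕ) (lam : ℂ) (hl : lam ≠ 0) (L : IntermediateField ℚ ℂ) (θ : Ix g → ℂ)
    (V : Matrix (Ix g) (Ix g) ℂ) (hV : ∀ i j, V i j ∈ L)
    (hs : Simil lam (Matrix.diagonal θ * V)) :
    ∃ Θ V' : Matrix (Ix g) (Ix g) ℂ, Θ.IsDiag ∧ Simil lam Θ ∧ (∀ i j, V' i j ∈ L) ∧
      Matrix.diagonal θ * V = Θ * V' := by
  have h1 := simil_tr hl hs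
  obtain ⟨X, hX⟩ : ∃ X, X = V * Matrix.J (Fin g) ℂ * V.transpose := ⟨_, rfl⟩
  have hXL : ∀ i j, X i j ∈ L := by
    rw [hX]
    exact mul_memL L (mul_memL L hV (J_mem L g)) (fun i j => hV j i)
  have h2 : Matrix.diagonal θ * X * Matrix.diagonal θ = lam • Matrix.J (Fin g) ℂ := by
    rw [← h1, hX, Matrix.transpose_mul, Matrix.diagonal_transpose]
    simp only [Matrix.mul_assoc]
  have h3 : ∀ j : Fin g, θ (.inl j) * X (.inl j) (.inr j) * θ (.inr j) = -lam := by
    intro j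
    have h4 := congrFun (congrFun h2 (.inl j)) (.inr j)
    rw [Matrix.mul_diagonal, Matrix.diagonal_mul, Matrix.smul_apply, J_lr, smul_eq_mul] at h4
    rw [h4]
    ring
  have hθ : ∀ j : Fin g, θ (.inl j) ≠ 0 := by
    intro j h
    have h4 := h3 j
    rw [h, zero_mul, zero_mul] at h4
    exact hl (neg_eq_zero.1 h4.symm)
  have hX0 : ∀ j : Fin g, X (.inl j) (.inr j) ≠ 0 := by
    intro j h
    have h4 := h3 j
    rw [h, mul_zero, zero_mul] at h4
    exact hl (neg_eq_zero.1 h4.symm)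
  refine ⟨Matrix.diagonal (Sum.elim (fun j => θ (.inl j)) (fun j => lam / θ (.inl j))),
    Matrix.of fun k c => match k with
      | .inl j => V (.inl j) c
      | .inr j => -(X (.inl j) (.inr j))⁻¹ * V (.inr j) c, ?_, ?_, ?_, ?_⟩
  · exact Matrix.isDiag_diagonal _
  · unfold Simil
    rw [Matrix.diagonal_transpose]
    ext p q
    rw [Matrix.mul_diagonal, Matrix.diagonal_mul, Matrix.smul_apply, smul_eq_mul]
    rcases p with p | p <;> rcases q with q | q
    · simp [Matrix.J]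
    · by_cases hpq : p = q
      · subst hpq
        rw [J_lr]
        show θ (.inl p) * -1 * (lam / θ (.inl p)) = lam * -1
        have := hθ p
        field_simp
      · simp [Matrix.J, hpq]
    · by_cases hpq : p = q
      · subst hpq
        have hJ : Matrix.J (Fin g) ℂ (.inr p) (.inl p) = 1 := by simp [Matrix.J]
        rw [hJ]
        show lam / θ (.inl p) * 1 * θ (.inl p) = lam * 1
        have := hθ p
        field_simp
      · simp [Matrix.J, hpq]
    · simp [Matrix.J]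
  · intro k c
    rcases k with j | j
    · exact hV _ _
    · exact L.mul_mem (L.neg_mem (L.inv_mem (hXL _ _))) (hV _ _)
  · ext k c
    rw [Matrix.diagonal_mul, Matrix.diagonal_mul]
    rcases k with j | j
    · rfl
    · show θ (.inr j) * V (.inr j) c = lam / θ (.inl j) * (-(X (.inl j) (.inr j))⁻¹ * V (.inr j) c)
      have h4 := h3 j
      have h5 : lam = -(θ (.inl j) * X (.inl j) (.inr j) * θ (.inr j)) := by rw [h4]; ring
      have h6 := hθ j
      have h7 := hX0 j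
      rw [h5]
      field_simp

end

end BAS_

open BAS_ in
theorem bas_proof (h1 : Stmt_REF) (h2 : Stmt_EEV) (h3 : DG2.Stmt_NmQ) (h4 : Stmt_CRV) :
    Stmt_BAS := by
  intro g e hg he
  have hsep : Sep (ce g e) ((0 : ℚ) : ℂ) := by
    rw [(h4 g hg e he).2, Rat.cast_zero, zero_pow (by omega)]
    intro h
    have h5 : (2 * (g : ℂ) + 1) ≠ 0 := by
      have : ((2 * g + 1 : ℕ) : ℂ) ≠ 0 := Nat.cast_ne_zero.2 (by omega)
      push_cast at this
      exact this
    have h6 : (2 * (g : ℂ)) ≠ 0 := by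
      have : ((2 * g : ℕ) : ℂ) ≠ 0 := Nat.cast_ne_zero.2 (by omega)
      push_cast at this
      exact this
    have h7 : (e : ℂ) ≠ 0 := by exact_mod_cast he
    have h8 : -((2 * g : ℂ) ^ (2 * g) * (e : ℂ) ^ (2 * g + 1)) / (2 * g + 1) ^ (2 * g + 1) ≠ 0 :=
      div_ne_zero (neg_ne_zero.2 (mul_ne_zero (pow_ne_zero _ h6) (pow_ne_zero _ h7)))
        (pow_ne_zero _ h5)
    exact h8 h.symm
  obtain ⟨R, W, κ, z, K, hRef, hOrd, hfus, hW⟩ := h1 g (ce g e) 0 hg hsep
  obtain ⟨β, hβ⟩ := h2 g (e : ℂ) hg (by exact_mod_cast he)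
  have hfz : ∀ x, fz (2 * g + 1) z x = x ^ (2 * g + 1) + e * x := by
    intro x
    have h5 := congrArg (Polynomial.eval x) hfus
    rw [(h3 g (ce g e)).2.1, f0_cce g hg] at h5
    simp only [Polynomial.eval_add, Polynomial.eval_pow, Polynomial.eval_X, Polynomial.eval_mul,
      Polynomial.eval_C, Rat.cast_zero, add_zero] at h5
    rw [h5]
    unfold polz fz
    rw [Polynomial.eval_prod]
    refine Finset.prod_congr rfl fun i _ => ?_
    rw [Polynomial.eval_sub, Polynomial.eval_X, Polynomial.eval_C]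
  have hz : ∀ i, i < 2 * g + 1 → IsIntegral ℚ (z i) := by
    intro i hi
    have h5 : z i ^ (2 * g + 1) + e * z i = 0 := by
      rw [← hfz]
      unfold fz
      exact Finset.prod_eq_zero (Finset.mem_range.2 hi) (sub_self _)
    refine IsAlgebraic.isIntegral ⟨Polynomial.X ^ (2 * g + 1) + Polynomial.C e * Polynomial.X, ?_, ?_⟩
    · intro h6
      have h7 := congrArg (fun p => Polynomial.coeff p 1) h6
      simp only [Polynomial.coeff_add, Polynomial.coeff_X_pow, Polynomial.coeff_C_mul,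
        Polynomial.coeff_X, Polynomial.coeff_zero] at h7
      rw [if_neg (by omega)] at h7
      simp at h7
      exact he h7
    · rw [map_add, map_pow, map_mul, Polynomial.aeval_X, Polynomial.aeval_C]
      exact h5
  have hE : ∀ m : Fin (2 * g), ∃ ε a b q : ℂ, ε ^ 4 = 1 ∧ a ^ 2 = z m ∧ b ^ 2 = z (m + 1) ∧
      q ^ 2 = e ∧ ∀ l, EE (2 * g + 1) z m l = ε * β l * (b * z (m + 1) ^ l - a * z m ^ l) / q :=
    fun m => hβ κ z hOrd hfz m (by have := m.2; omega)
  choose ε a b q hε ha hb hq hE using hE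
  obtain ⟨S, hS⟩ : ∃ S : Set ℂ, S = {Complex.I} ∪ (Set.range ε ∪ (Set.range a ∪ (Set.range b ∪
    Set.range q))) := ⟨_, rfl⟩
  have hSf : Finite S := by
    rw [hS]
    exact ((Set.finite_singleton _).union ((Set.finite_range _).union ((Set.finite_range _).union
      ((Set.finite_range _).union (Set.finite_range _))))).to_subtype
  obtain ⟨L, hL⟩ : ∃ L, L = IntermediateField.adjoin ℚ S := ⟨_, rfl⟩
  have hSL : ∀ x ∈ S, x ∈ L := fun x hx => by
    rw [hL]; exact IntermediateField.subset_adjoin ℚ S hx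
  have hI : Complex.I ∈ L := hSL _ (by rw [hS]; exact Or.inl rfl)
  have hεL : ∀ m, ε m ∈ L := fun m => hSL _ (by rw [hS]; exact Or.inr (Or.inl ⟨m, rfl⟩))
  have haL : ∀ m, a m ∈ L := fun m => hSL _ (by rw [hS]; exact Or.inr (Or.inr (Or.inl ⟨m, rfl⟩)))
  have hbL : ∀ m, b m ∈ L := fun m =>
    hSL _ (by rw [hS]; exact Or.inr (Or.inr (Or.inr (Or.inl ⟨m, rfl⟩))))
  have hqL : ∀ m, q m ∈ L := fun m =>
    hSL _ (by rw [hS]; exact Or.inr (Or.inr (Or.inr (Or.inr ⟨m, rfl⟩))))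
  have hfin : FiniteDimensional ℚ L := by
    rw [hL]
    refine IntermediateField.finiteDimensional_adjoin ?_
    intro x hx
    rw [hS] at hx
    rcases hx with hx | ⟨m, rfl⟩ | ⟨m, rfl⟩ | ⟨m, rfl⟩ | ⟨m, rfl⟩
    · rw [Set.mem_singleton_iff] at hx
      rw [hx]
      refine IsIntegral.of_pow (n := 4) (by norm_num) ?_
      rw [Complex.I_pow_four]
      exact isIntegral_one
    · refine IsIntegral.of_pow (n := 4) (by norm_num) ?_
      rw [hε]
      exact isIntegral_one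
    · refine IsIntegral.of_pow (n := 2) (by norm_num) ?_
      rw [ha]
      exact hz m (by have := m.2; omega)
    · refine IsIntegral.of_pow (n := 2) (by norm_num) ?_
      rw [hb]
      exact hz (m + 1) (by have := m.2; omega)
    · refine IsIntegral.of_pow (n := 2) (by norm_num) ?_
      rw [hq]
      exact isIntegral_algebraMap (R := ℚ) (A := ℂ) (x := e)
  obtain ⟨P, hP⟩ : ∃ P : Matrix (Fin (2 * g)) (Fin (2 * g)) ℂ, P = Matrix.of fun (l m : Fin (2 * g)) =>
    2 * Complex.I ^ (m : ℕ) * (ε m * (b m * z (m + 1) ^ (l : ℕ) - a m * z m ^ (l : ℕ)) / q m) :=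
    ⟨_, rfl⟩
  have hPL : ∀ l m, P l m ∈ L := by
    intro l m
    rw [hP]
    show 2 * Complex.I ^ (m : ℕ) *
      (ε m * (b m * z (m + 1) ^ (l : ℕ) - a m * z m ^ (l : ℕ)) / q m) ∈ L
    rw [← ha, ← hb]
    have h2L : (2 : ℂ) ∈ L := by
      exact L.algebraMap_mem 2
    exact L.mul_mem (L.mul_mem h2L (pow_mem hI _)) (L.div_mem (L.mul_mem (hεL m)
      (L.sub_mem (L.mul_mem (hbL m) (pow_mem (pow_mem (hbL m) _) _))
        (L.mul_mem (haL m) (pow_mem (pow_mem (haL m) _) _)))) (hqL m))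
  have hrefP : (refP g z).transpose = Matrix.diagonal (fun l : Fin (2 * g) => β l) * P := by
    ext l m
    rw [Matrix.diagonal_mul, hP]
    show 2 * Complex.I ^ (m : ℕ) * EE (2 * g + 1) z m l = β l * (2 * Complex.I ^ (m : ℕ) *
      (ε m * (b m * z (m + 1) ^ (l : ℕ) - a m * z m ^ (l : ℕ)) / q m))
    rw [hE]
    ring
  have hWd : W ((0 : ℚ) : ℂ) = Matrix.diagonal (fun l : Fin (2 * g) => β l) *
      (P * (Tm g).transpose * K.map (fun x : ℤ => (x : ℂ))) := by
    rw [hW, hrefP]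
    simp only [Matrix.mul_assoc]
  have hTL : ∀ i j, (Tm g).transpose i j ∈ L := by
    intro i j
    show Tm g j i ∈ L
    rcases j with j | j
    · show (if (i : ℕ) = 2 * (j : ℕ) then (1 : ℂ) else 0) ∈ L
      split_ifs
      · exact L.one_mem
      · exact L.zero_mem
    · show (if (i : ℕ) % 2 = 1 ∧ 2 * (j : ℕ) < (i : ℕ) then (1 : ℂ) else 0) ∈ L
      split_ifs
      · exact L.one_mem
      · exact L.zero_mem
  have hKL : ∀ i j, (K.map (fun x : ℤ => (x : ℂ))) i j ∈ L := by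
    intro i j
    show ((K i j : ℤ) : ℂ) ∈ L
    exact intCast_mem L _
  have hUL := mul_memL L (mul_memL L hPL hTL) hKL
  have hVL : ∀ i j, Va g (P * (Tm g).transpose * K.map (fun x : ℤ => (x : ℂ))) i j ∈ L := by
    intro i j
    rcases i with i | i
    · exact hUL _ _
    · refine L.mul_mem ?_ (hUL _ _)
      have h5 : (2 * (g : ℂ) - 1 - 2 * ((i : ℕ) : ℂ)) / 4 =
          (((2 * (g : ℚ) - 1 - 2 * ((i : ℕ) : ℚ)) / 4 : ℚ) : ℂ) := by push_cast; ring
      rw [h5]
      exact L.algebraMap_mem _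
  have hM := Nm_mul g hg e β (P * (Tm g).transpose * K.map (fun x : ℤ => (x : ℂ)))
  have hpi : (2 * Real.pi * Complex.I : ℂ) ≠ 0 := Complex.two_pi_I_ne_zero
  have hsim := hRef.simil ((0 : ℚ) : ℂ) (mem_ball_self hRef.pos)
  rw [hWd, hM] at hsim
  obtain ⟨Θ, V, hD, hS1, hV1, hE1⟩ := split g _ hpi L _ _ hVL hsim
  refine ⟨R, W, L, Θ, V, hRef, hfin, hD, hS1, hV1, ?_⟩
  rw [hWd, hM, hE1]

end Pool.Agent.NEX
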