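import Pool.Agent.NEX.Stmts

set_option autoImplicit false

/-!
# NEX, module BRK: the Lie algebra is closed under brackets
-/

open scoped BigOperators

namespace Pool.Agent.NEX

open Pool.Agent.HGP (Ix Simil Idx fvec)
open Pool.Agent.UBD (Pt Crd Pol ev InG GrpS Dns Inf1 Lie nv sg1 ex)

noncomputable section

namespace BRK_

attribute [local instance] Matrix.linftyOpNormedRing Matrix.linftyOpNormedAlgebra

variable {m : Type} [Fintype m] [DecidableEq m]

theorem deriv_exp (X : Matrix m m ℂ) :
    HasDerivAt (fun t : ℂ => NormedSpace.exp (t • X)) X 0 := by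
  have h := hasDerivAt_exp_smul_const X (0 : ℂ)
  rw [zero_smul, NormedSpace.exp_zero, one_mul] at h
  exact h

theorem deriv_exp_neg (X : Matrix m m ℂ) :
    HasDerivAt (fun t : ℂ => NormedSpace.exp ((-t) • X)) (-X) 0 := by
  have h := deriv_exp (-X)
  have e : (fun t : ℂ => NormedSpace.exp (t • (-X))) =
      fun t : ℂ => NormedSpace.exp ((-t) • X) := by
    funext t
    rw [smul_neg, neg_smul]
  rw [e] at h
  exact h

theorem deriv_conj (X Y : Matrix m m ℂ) :
    HasDerivAt (fun t : ℂ => NormedSpace.exp (t • X) * Y * NormedSpace.exp ((-t) • X))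
      (X * Y - Y * X) 0 := by
  refine (((deriv_exp X).mul_const Y).mul (deriv_exp_neg X)).congr_deriv ?_
  simp [sub_eq_add_neg]

variable {r : ℕ} {g : Fin r → ℕ}

theorem deriv_pt (X Y : Pt g) :
    HasDerivAt (fun t : ℂ => ex t X * Y * ex (-t) X) (X * Y - Y * X) 0 := by
  have h1 : HasDerivAt (fun t : ℂ => (ex t X * Y * ex (-t) X).1) (X * Y - Y * X).1 0 := by
    have e : (fun t : ℂ => (ex t X * Y * ex (-t) X).1) = fun _ => Y.1 := by
      funext t
      change Complex.exp (t * X.1) * Y.1 * Complex.exp (-t * X.1) = Y.1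
      have e2 : Complex.exp (t * X.1) * Complex.exp (-t * X.1) = 1 := by
        rw [← Complex.exp_add]
        have : t * X.1 + -t * X.1 = 0 := by ring
        rw [this, Complex.exp_zero]
      linear_combination Y.1 * e2
    rw [e]
    have e3 : (X * Y - Y * X).1 = 0 := by
      change X.1 * Y.1 - Y.1 * X.1 = 0
      ring
    rw [e3]
    exact hasDerivAt_const _ _
  have h2 : HasDerivAt (fun t : ℂ => (ex t X * Y * ex (-t) X).2) (X * Y - Y * X).2 0 := by
    refine hasDerivAt_pi.2 ?_
    intro i
    exact deriv_conj (X.2 i) (Y.2 i)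
  exact h1.prodMk h2

end BRK_

open BRK_ in
attribute [local instance] Matrix.linftyOpNormedRing Matrix.linftyOpNormedAlgebra in
theorem brk_proof (h1 : UBD.Stmt_LIEA) (h2 : UBD.Stmt_ADJ) : Stmt_BRK := by
  intro r g w H hH X hX Y hY
  have h0 : (0 : Pt g) ∈ Lie H := by
    intro t
    have : ex t (0 : Pt g) = 1 := by
      refine Prod.ext ?_ ?_
      · change Complex.exp (t * 0) = 1
        rw [mul_zero, Complex.exp_zero]
      · funext i
        change NormedSpace.exp (t • (0 : Matrix (Ix (g i)) (Ix (g i)) ℂ)) = 1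
        rw [smul_zero, NormedSpace.exp_zero]
    rw [this]
    exact hH.one
  let W : Submodule ℂ (Pt g) :=
    { carrier := Lie H
      add_mem' := by
        intro a b ha hb
        have := h1 r g w H hH a ha b hb 1
        rwa [one_smul] at this
      zero_mem' := h0
      smul_mem' := by
        intro c a ha
        have := h1 r g w H hH 0 h0 a ha c
        rwa [zero_add] at this }
  have hconj : ∀ t : ℂ, ex t X * Y * ex (-t) X ∈ W := by
    intro t
    have e1 : ex t X * ex (-t) X = 1 := by
      refine Prod.ext ?_ ?_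
      · change Complex.exp (t * X.1) * Complex.exp (-t * X.1) = 1
        rw [← Complex.exp_add]
        have : t * X.1 + -t * X.1 = 0 := by ring
        rw [this, Complex.exp_zero]
      · funext i
        change NormedSpace.exp (t • X.2 i) * NormedSpace.exp ((-t) • X.2 i) = 1
        rw [← Matrix.exp_add_of_commute]
        · rw [← add_smul, add_neg_cancel, zero_smul, NormedSpace.exp_zero]
        · exact ((Commute.refl (X.2 i)).smul_left t).smul_right (-t)
    have e2 : ex (-t) X * ex t X = 1 := by
      refine Prod.ext ?_ ?_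
      · change Complex.exp (-t * X.1) * Complex.exp (t * X.1) = 1
        rw [← Complex.exp_add]
        have : -t * X.1 + t * X.1 = 0 := by ring
        rw [this, Complex.exp_zero]
      · funext i
        change NormedSpace.exp ((-t) • X.2 i) * NormedSpace.exp (t • X.2 i) = 1
        rw [← Matrix.exp_add_of_commute]
        · rw [← add_smul, neg_add_cancel, zero_smul, NormedSpace.exp_zero]
        · exact ((Commute.refl (X.2 i)).smul_left (-t)).smul_right t
    exact (h2 r g w H hH).1 Y hY (ex t X) (hX t) (ex (-t) X) e1 e2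
  change X * Y - Y * X ∈ W
  by_contra hcon
  obtain ⟨l, hl2, hl1⟩ := Submodule.exists_le_ker_of_notMem hcon
  have h3 : HasDerivAt (fun t : ℂ => l.toContinuousLinearMap (ex t X * Y * ex (-t) X))
      (l.toContinuousLinearMap (X * Y - Y * X)) 0 :=
    (l.toContinuousLinearMap).hasFDerivAt.comp_hasDerivAt 0 (deriv_pt X Y)
  have h4 : (fun t : ℂ => l.toContinuousLinearMap (ex t X * Y * ex (-t) X)) = fun _ => 0 := by
    funext t
    exact hl1 (hconj t)
  rw [h4] at h3
  exact hl2 (h3.unique (hasDerivAt_const _ _))

end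

end Pool.Agent.NEX
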