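import Pool.Agent.NEX.YStmts
import Pool.Agent.NEX.BAS
import Pool.Agent.CYP.REC
import Pool.Agent.CYP.PSER
import Pool.Agent.CYP.ODED
import Pool.Agent.CYP.CAUC
import Pool.Agent.CYP.GEO
import Pool.Agent.CYP.YX

set_option autoImplicit false

/-!
# NEX, module BSY: the period matrix at the Fermat point
-/

open scoped BigOperators Topology
open Metric Set

namespace Pool.Agent.NEX

open Pool.Agent.HGP (Ix Simil Idx fvec)
open Pool.Agent.CYP (IsF IsE Ps Mx Rm zt acf pc Yx prd)
open Pool.Agent.CYD (RefY)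

namespace BSY_

noncomputable section

/-- The value of the matrix `Mx` at `0`. -/
theorem Mx_zero (n : ℕ) (l j : Fin n) : Mx n 0 l j = ((l : ℕ).factorial : ℂ) * pc n j l := by
  have hb0 : (0 : ℂ) ∈ ball (0 : ℂ) 1 := mem_ball_self one_pos
  obtain ⟨C, hC⟩ := CYP.ODED_.pc_bdd CYP.rec_proof n j
  have h5 := (CYP.pser_proof (pc n j) C hC).2 l 0 hb0
  have h6 : Mx n 0 l j = iteratedDeriv (l : ℕ) (fun z => ∑' m : ℕ, pc n j m * z ^ m) 0 := by
    unfold Mx
    rw [Matrix.of_apply]
    have hev : Yx n j =ᶠ[𝓝 (0 : ℂ)] prd n j := by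
      filter_upwards [isOpen_ball.mem_nhds hb0] with w hw using
        ((CYP.yx_proof CYP.cauc_proof CYP.geo_proof) n j).2 w hw
    exact hev.iteratedDeriv_eq l
  rw [h6]
  have h7 : HasSum (fun m : ℕ => ((m + (l : ℕ)).descFactorial (l : ℕ) : ℂ) * pc n j (m + l) *
      (0 : ℂ) ^ m) (((l : ℕ).factorial : ℂ) * pc n j l) := by
    have h8 := hasSum_single (f := fun m : ℕ => ((m + (l : ℕ)).descFactorial (l : ℕ) : ℂ) *
      pc n j (m + l) * (0 : ℂ) ^ m) 0 (by
        intro m hm
        simp [hm])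
    simpa [Nat.descFactorial_self] using h8
  exact h5.unique h7

/-- The row indices. -/
def idx (g : ℕ) : Ix g → Fin (2 * g) := Sum.elim (BAS_.ix1 g) (BAS_.ix2 g)

/-- The signs. -/
def sg (g : ℕ) : Ix g → ℂ := Sum.elim (fun _ => 1) (fun j => (-1) ^ (j : ℕ))

/-- The monomial matrix. -/
def P (g : ℕ) : Matrix (Fin (2 * g)) (Ix g) ℂ :=
  Matrix.of fun k c => if k = idx g c then sg g c else 0

theorem PT_mul {g : ℕ} {m : Type} (X : Matrix (Fin (2 * g)) m ℂ) :
    (P g).transpose * X = Matrix.of fun c b => sg g c * X (idx g c) b := by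
  ext c b
  rw [Matrix.mul_apply, Finset.sum_eq_single (idx g c)]
  · simp [P]
  · intro k _ hk
    simp [P, hk]
  · intro h; exact absurd (Finset.mem_univ _) h

theorem mul_P {g : ℕ} {m : Type} (X : Matrix m (Fin (2 * g)) ℂ) :
    X * P g = Matrix.of fun a c => X a (idx g c) * sg g c := by
  ext a c
  rw [Matrix.mul_apply, Finset.sum_eq_single (idx g c)]
  · simp [P]
  · intro k _ hk
    simp [P, hk]
  · intro h; exact absurd (Finset.mem_univ _) h

theorem idx_inj (g : ℕ) : Function.Injective (idx g) := by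
  intro c d h
  have h1 := congrArg Fin.val h
  rcases c with i | i <;> rcases d with j | j
  · simp only [idx, Sum.elim_inl, BAS_.ix1] at h1
    exact congrArg Sum.inl (Fin.ext h1)
  · simp only [idx, Sum.elim_inl, Sum.elim_inr, BAS_.ix1, BAS_.ix2] at h1
    have := i.2
    have := j.2
    omega
  · simp only [idx, Sum.elim_inl, Sum.elim_inr, BAS_.ix1, BAS_.ix2] at h1
    have := i.2
    have := j.2
    omega
  · simp only [idx, Sum.elim_inr, BAS_.ix2] at h1
    have := i.2
    have := j.2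
    exact congrArg Sum.inr (Fin.ext (by omega))

theorem sg_sq (g : ℕ) (c : Ix g) : sg g c * sg g c = 1 := by
  rcases c with i | i
  · simp [sg]
  · simp only [sg, Sum.elim_inr]
    rw [← mul_pow]
    norm_num

theorem PT_P (g : ℕ) : (P g).transpose * P g = 1 := by
  rw [PT_mul]
  ext c d
  simp only [Matrix.of_apply, P]
  by_cases h : c = d
  · subst h
    simp [sg_sq]
  · rw [if_neg (fun h' => h (idx_inj g h')), Matrix.one_apply_ne h, mul_zero]

theorem P_PT (g : ℕ) : P g * (P g).transpose = 1 := by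
  have h : Fintype.card (Fin (2 * g)) = Fintype.card (Ix g) := by
    simp only [Fintype.card_sum, Fintype.card_fin]
    omega
  exact (Matrix.mul_eq_one_comm_of_card_eq (Fin (2 * g)) (Ix g) ℂ h).2 (PT_P g)

theorem Rm_eq (g : ℕ) (a b : Fin (2 * g)) (h : (a : ℕ) + b + 1 = 2 * g) :
    Rm (2 * g) 0 a b = (-1) ^ (b : ℕ) := by
  unfold Rm
  rw [Matrix.of_apply, zero_pow (by omega), zero_mul, sub_zero, if_pos h]

theorem Rm_ne (g : ℕ) (a b : Fin (2 * g)) (h : (a : ℕ) + b + 1 ≠ 2 * g) :
    Rm (2 * g) 0 a b = 0 := by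
  unfold Rm
  rw [Matrix.of_apply, zero_pow (by omega), zero_mul, sub_zero, if_neg h]

theorem idx_inl (g : ℕ) (i : Fin g) : ((idx g (Sum.inl i) : Fin (2 * g)) : ℕ) = i := rfl
theorem idx_inr (g : ℕ) (i : Fin g) : ((idx g (Sum.inr i) : Fin (2 * g)) : ℕ) = 2 * g - 1 - i := rfl
theorem sg_inl (g : ℕ) (i : Fin g) : sg g (Sum.inl i) = 1 := rfl
theorem sg_inr (g : ℕ) (i : Fin g) : sg g (Sum.inr i) = (-1) ^ (i : ℕ) := rfl

theorem PT_R_P (g : ℕ) : (P g).transpose * Rm (2 * g) 0 * P g = Matrix.J (Fin g) ℂ := by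
  rw [PT_mul, mul_P]
  ext c d
  simp only [Matrix.of_apply]
  rcases c with i | i <;> rcases d with j | j
  · have hi := i.2
    have hj := j.2
    rw [Rm_ne g _ _ (by rw [idx_inl, idx_inl]; omega)]
    simp [Matrix.J]
  · have hi := i.2
    have hj := j.2
    by_cases h : i = j
    · subst h
      rw [Rm_eq g _ _ (by rw [idx_inl, idx_inr]; omega), BAS_.J_lr, sg_inl, sg_inr, idx_inr, one_mul, ← pow_add]
      have : 2 * g - 1 - (i : ℕ) + i = 2 * (g - 1) + 1 := by omega
      rw [this, pow_succ, pow_mul]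
      norm_num
    · have h' : (i : ℕ) ≠ j := fun h' => h (Fin.ext h')
      rw [Rm_ne g _ _ (by rw [idx_inl, idx_inr]; omega)]
      simp [Matrix.J, h]
  · have hi := i.2
    have hj := j.2
    by_cases h : i = j
    · subst h
      rw [Rm_eq g _ _ (by rw [idx_inl, idx_inr]; omega), sg_inl, sg_inr, idx_inl, mul_one, ← mul_pow]
      simp [Matrix.J]
    · have h' : (i : ℕ) ≠ j := fun h' => h (Fin.ext h')
      rw [Rm_ne g _ _ (by rw [idx_inl, idx_inr]; omega)]
      simp [Matrix.J, h]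
  · have hi := i.2
    have hj := j.2
    rw [Rm_ne g _ _ (by rw [idx_inr, idx_inr]; omega)]
    simp [Matrix.J]

end

end BSY_

open BSY_ in
theorem bsy_proof : Stmt_BSY := by
  intro g hg F F' E E' hR
  obtain ⟨L, hL⟩ : ∃ L, L = IntermediateField.adjoin ℚ {zt (2 * g)} := ⟨_, rfl⟩
  have hzL : zt (2 * g) ∈ L := by
    rw [hL]; exact IntermediateField.subset_adjoin ℚ _ (Set.mem_singleton _)
  have hfin : FiniteDimensional ℚ L := by
    rw [hL]
    refine IntermediateField.adjoin.finiteDimensional ?_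
    refine IsIntegral.of_pow (n := 2 * g + 1) (by omega) ?_
    rw [CYP.ODED_.zt_pow]
    exact isIntegral_one
  -- the matrices
  set F0 := CYP.ev F 0 with hF0
  have hrel : F0 * Matrix.J (Fin g) ℂ * F0.transpose = Rm (2 * g) 0 := hR.isF.rel 0
  set B : Matrix (Ix g) (Ix g) ℂ := F0.transpose * P g with hB
  have hBs : Simil 1 B := by
    unfold Simil
    rw [one_smul, hB, Matrix.transpose_mul, Matrix.transpose_transpose]
    have h1 : (P g).transpose * F0 * Matrix.J (Fin g) ℂ * (F0.transpose * P g) =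
        (P g).transpose * (F0 * Matrix.J (Fin g) ℂ * F0.transpose) * P g := by
      simp only [Matrix.mul_assoc]
    rw [h1, hrel, PT_R_P g]
  set b : Fin (2 * g) → ℂ := fun k => ((k : ℕ).factorial : ℂ) * (2 * Real.pi * Complex.I)⁻¹ *
    (acf (2 * g) k : ℂ) with hb
  set V0 : Matrix (Fin (2 * g)) (Fin (2 * g)) ℂ := Matrix.of fun k j =>
    zt (2 * g) ^ ((j : ℕ) * ((k : ℕ) + 1)) * (1 - zt (2 * g) ^ ((k : ℕ) + 1)) ^ (2 * g + 1) with hV0
  have hMx : Mx (2 * g) 0 = Matrix.diagonal b * V0 := by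
    ext k j
    rw [Matrix.diagonal_mul, Mx_zero]
    simp only [hb, hV0, Matrix.of_apply, pc]
    ring
  set V : Matrix (Ix g) (Ix g) ℂ := Matrix.of fun c d => BSY_.sg g c * (V0 * CYP.cx E') (idx g c) d with hV
  have hPs : Ps F E' 0 (Mx (2 * g) 0) = B * (Matrix.diagonal (fun c => b (idx g c)) * V) := by
    have h1 : Matrix.diagonal (fun c => b (idx g c)) * V = (P g).transpose * (Mx (2 * g) 0 * CYP.cx E') := by
      rw [PT_mul, hMx, Matrix.mul_assoc]
      ext c d
      rw [Matrix.diagonal_mul]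
      simp only [hV, Matrix.of_apply, Matrix.diagonal_mul]
      ring
    rw [h1, hB]
    unfold Ps
    have h2 : F0.transpose * P g * ((P g).transpose * (Mx (2 * g) 0 * CYP.cx E')) =
        F0.transpose * (P g * (P g).transpose) * (Mx (2 * g) 0 * CYP.cx E') := by
      simp only [Matrix.mul_assoc]
    rw [h2, P_PT, Matrix.mul_one, ← hF0, Matrix.mul_assoc]
  have hS : Simil ((2 * Real.pi * Complex.I) ^ (2 * g - 1))
      (Matrix.diagonal (fun c => b (idx g c)) * V) := by
    have h1 := hR.simil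
    rw [hPs] at h1
    unfold Simil at h1 hBs ⊢
    rw [← h1, Matrix.transpose_mul B]
    rw [one_smul] at hBs
    rw [show (Matrix.diagonal (fun c => b (idx g c)) * V).transpose * B.transpose * Matrix.J (Fin g) ℂ *
      (B * (Matrix.diagonal (fun c => b (idx g c)) * V)) =
      (Matrix.diagonal (fun c => b (idx g c)) * V).transpose * (B.transpose * Matrix.J (Fin g) ℂ * B) *
      (Matrix.diagonal (fun c => b (idx g c)) * V) by simp only [Matrix.mul_assoc], hBs]
  have hsgL : ∀ c, BSY_.sg g c ∈ L := by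
    intro c
    rcases c with i | i
    · exact L.one_mem
    · exact _root_.pow_mem (L.neg_mem L.one_mem) _
  have hVL : ∀ i j, V i j ∈ L := by
    intro c d
    refine L.mul_mem (hsgL c) (BAS_.mul_memL L ?_ ?_ _ _)
    · intro k j
      exact L.mul_mem (_root_.pow_mem hzL _) (_root_.pow_mem (L.sub_mem L.one_mem (_root_.pow_mem hzL _)) _)
    · intro k j
      exact L.algebraMap_mem (E' k j)
  obtain ⟨Θ, V', hΘd, hΘs, hV'L, hΘV⟩ := BAS_.split g _ (pow_ne_zero _ (by
    simp [Real.pi_ne_zero])) L _ V hVL hS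
  refine ⟨L, B, Θ, V', hfin, hBs, ?_, hΘd, hΘs, hV'L, ?_⟩
  · refine BAS_.mul_memL L ?_ ?_
    · intro c k
      change Polynomial.aeval (0 : ℂ) (F k c) ∈ L
      rw [Polynomial.aeval_def, Polynomial.eval₂_at_zero]
      exact intCast_mem L _
    · intro k c
      change (if k = idx g c then BSY_.sg g c else 0) ∈ L
      split_ifs
      · exact hsgL c
      · exact L.zero_mem
  · rw [hPs, hΘV]
    exact (Matrix.mul_assoc B Θ V').symm

end Pool.Agent.NEX
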