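import Pool.Agent.NEX.Stmts
import Pool.Agent.UBD.FUL
import Pool.Agent.UBD.TRL
import Pool.Agent.UBD.LIEA

set_option autoImplicit false

/-!
# NEX, module CEN: a proper closed subgroup is contained in a proper closed subgroup which
contains the center
-/

open scoped BigOperators

namespace Pool.Agent.NEX

open Pool.Agent.HGP (Ix Simil)
open Pool.Agent.UBD (Pt Crd Pol ev InG GrpS Dns Inf1 Lie nv sg1 ex)
open Pool.Agent.DRD (pinv mul_pinv pinv_mul subR ev_subR simil_mul simil_inv det_ne)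

namespace CEN_

noncomputable section

variable {r : ℕ} {g w : Fin r → ℕ}

lemma ev_C (z : ℂ) (a : Pt g) : ev (MvPolynomial.C z : Pol g) a = z := by simp [ev]

lemma ev_add (P Q : Pol g) (a : Pt g) : ev (P + Q) a = ev P a + ev Q a := by simp [ev]

lemma ev_mul (P Q : Pol g) (a : Pt g) : ev (P * Q) a = ev P a * ev Q a := by simp [ev]

lemma ev_X (o : Crd g) (a : Pt g) : ev (MvPolynomial.X o : Pol g) a = HGP.tpt a.1 a.2 o := by
  simp [ev]

/-- Functions which are polynomials up to a power of `mu`. -/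
def Good (w : Fin r → ℕ) (φ : Pt g → ℂ) : Prop :=
  ∃ (R : Pol g) (N : ℕ), ∀ x, InG w x → ev R x = x.1 ^ N * φ x

lemma good_congr {φ ψ : Pt g → ℂ} (h : Good w φ) (he : ∀ x, InG w x → ψ x = φ x) :
    Good w ψ := by
  obtain ⟨R, N, hR⟩ := h
  exact ⟨R, N, fun x hx => by rw [hR x hx, he x hx]⟩

lemma good_const (c : ℂ) : Good w (fun _ : Pt g => c) :=
  ⟨MvPolynomial.C c, 0, fun x _ => by rw [ev_C, pow_zero, one_mul]⟩

lemma Good.add {φ ψ : Pt g → ℂ} (h1 : Good w φ) (h2 : Good w ψ) :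
    Good w (fun x => φ x + ψ x) := by
  obtain ⟨R, N, hR⟩ := h1
  obtain ⟨S, M, hS⟩ := h2
  refine ⟨MvPolynomial.X none ^ M * R + MvPolynomial.X none ^ N * S, N + M, fun x hx => ?_⟩
  have hp : ∀ n : ℕ, ev ((MvPolynomial.X none : Pol g) ^ n) x = x.1 ^ n := by
    intro n
    simp [ev, HGP.tpt]
  rw [ev_add, ev_mul, ev_mul, hp, hp, hR x hx, hS x hx]
  ring

lemma Good.mul {φ ψ : Pt g → ℂ} (h1 : Good w φ) (h2 : Good w ψ) :
    Good w (fun x => φ x * ψ x) := by
  obtain ⟨R, N, hR⟩ := h1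
  obtain ⟨S, M, hS⟩ := h2
  refine ⟨R * S, N + M, fun x hx => ?_⟩
  rw [ev_mul, hR x hx, hS x hx]
  ring

lemma good_fst : Good w (fun x : Pt g => x.1) :=
  ⟨MvPolynomial.X none, 0, fun x _ => by
    rw [ev_X, pow_zero, one_mul]
    rfl⟩

lemma good_inv : Good w (fun x : Pt g => (x.1)⁻¹) :=
  ⟨MvPolynomial.C 1, 1, fun x hx => by
    rw [ev_C, pow_one, mul_inv_cancel₀ hx.1]⟩

lemma good_entry (i : Fin r) (p q : Ix (g i)) : Good w (fun x : Pt g => x.2 i p q) :=
  ⟨MvPolynomial.X (some ⟨i, (p, q)⟩), 0, fun x _ => by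
    rw [ev_X, pow_zero, one_mul]
    rfl⟩

lemma Good.sum {ι : Type} (s : Finset ι) (φ : ι → Pt g → ℂ) (h : ∀ i ∈ s, Good w (φ i)) :
    Good w (fun x => ∑ i ∈ s, φ i x) := by
  classical
  induction s using Finset.induction_on with
  | empty =>
    have h0 := good_const (g := g) (w := w) 0
    simpa using h0
  | insert a s ha ih =>
    have h1 := (h a (Finset.mem_insert_self a s)).add
      (ih fun i hi => h i (Finset.mem_insert_of_mem hi))
    exact good_congr h1 fun x _ => Finset.sum_insert ha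

lemma Good.pow {φ : Pt g → ℂ} (h : Good w φ) (n : ℕ) : Good w (fun x => φ x ^ n) := by
  induction n with
  | zero => exact good_congr (good_const 1) fun x _ => pow_zero _
  | succ n ih => exact good_congr (ih.mul h) fun x _ => pow_succ _ _

lemma good_mul {k : ℕ} {A B : Pt g → Matrix (Ix k) (Ix k) ℂ}
    (hA : ∀ p q, Good w (fun x => A x p q)) (hB : ∀ p q, Good w (fun x => B x p q))
    (p q : Ix k) : Good w (fun x => (A x * B x) p q) := by
  refine good_congr (Good.sum Finset.univ (fun l x => A x p l * B x l q)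
    fun l _ => (hA p l).mul (hB l q)) fun x _ => ?_
  rw [Matrix.mul_apply]

lemma inv_eq {k : ℕ} {c : ℂ} (hc : c ≠ 0) {M : Matrix (Ix k) (Ix k) ℂ} (h : Simil c M) :
    M⁻¹ = (-c⁻¹) • (Matrix.J (Fin k) ℂ * M.transpose * Matrix.J (Fin k) ℂ) := by
  refine Matrix.inv_eq_left_inv ?_
  unfold Simil at h
  rw [Matrix.smul_mul]
  have h1 : Matrix.J (Fin k) ℂ * M.transpose * Matrix.J (Fin k) ℂ * M =
      Matrix.J (Fin k) ℂ * (M.transpose * Matrix.J (Fin k) ℂ * M) := by
    simp only [Matrix.mul_assoc]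
  rw [h1, h, Matrix.mul_smul, Matrix.J_squared, smul_smul, smul_neg, neg_mul,
    inv_mul_cancel₀ hc, neg_smul, one_smul, neg_neg]

lemma good_inv_entry (i : Fin r) (p q : Ix (g i)) :
    Good w (fun x : Pt g => (x.2 i)⁻¹ p q) := by
  have h1 : ∀ p q, Good w (fun x : Pt g =>
      (Matrix.J (Fin (g i)) ℂ * (x.2 i).transpose * Matrix.J (Fin (g i)) ℂ) p q) := by
    intro p q
    refine good_mul (A := fun x : Pt g => Matrix.J (Fin (g i)) ℂ * (x.2 i).transpose)
      (B := fun _ => Matrix.J (Fin (g i)) ℂ) (fun p q => ?_) (fun p q => good_const _) p q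
    refine good_mul (A := fun _ : Pt g => Matrix.J (Fin (g i)) ℂ)
      (B := fun x : Pt g => (x.2 i).transpose) (fun p q => good_const _) (fun p q => ?_) p q
    exact good_entry i q p
  refine good_congr (((good_const (-1)).mul (good_inv.pow (w i))).mul (h1 p q)) fun x hx => ?_
  rw [inv_eq (pow_ne_zero _ hx.1) (hx.2 i), Matrix.smul_apply, smul_eq_mul]
  congr 1
  rw [inv_pow]
  ring

lemma good_comp (f : Pt g → Pt g)
    (h : ∀ o, Good w (fun x => HGP.tpt (f x).1 (f x).2 o)) (P : Pol g) :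
    Good w (fun x => ev P (f x)) := by
  induction P using MvPolynomial.induction_on with
  | C z => exact good_congr (good_const z) fun x _ => ev_C z _
  | add P Q hP hQ => exact good_congr (hP.add hQ) fun x _ => ev_add P Q _
  | mul_X P o hP =>
    refine good_congr (hP.mul (h o)) fun x _ => ?_
    rw [ev_mul, ev_X]

/-- Inverses. -/
lemma good_pinv (P : Pol g) : Good w (fun x => ev P (pinv x)) := by
  refine good_comp _ (fun o => ?_) P
  cases o with
  | none => exact good_inv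
  | some p => exact good_inv_entry p.1 p.2.1 p.2.2

/-- Commutators. -/
lemma good_comm (b : Pt g) (P : Pol g) :
    Good w (fun x => ev P (x * b * pinv x * pinv b)) := by
  refine good_comp _ (fun o => ?_) P
  cases o with
  | none =>
    exact ((good_fst.mul (good_const b.1)).mul good_inv).mul (good_const (b.1)⁻¹)
  | some p =>
    obtain ⟨i, p, q⟩ := p
    exact good_mul (A := fun x : Pt g => x.2 i * b.2 i * (x.2 i)⁻¹)
      (B := fun _ : Pt g => (b.2 i)⁻¹)
      (good_mul (A := fun x : Pt g => x.2 i * b.2 i) (B := fun x : Pt g => (x.2 i)⁻¹)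
        (good_mul (A := fun x : Pt g => x.2 i) (B := fun _ : Pt g => b.2 i)
          (fun p q => good_entry i p q) (fun p q => good_const _))
        (fun p q => good_inv_entry i p q)) (fun p q => good_const _) p q

/-- Left multiplication. -/
lemma good_left (a : Pt g) (P : Pol g) : Good w (fun x => ev P (a * x)) := by
  refine good_comp _ (fun o => ?_) P
  cases o with
  | none => exact (good_const a.1).mul good_fst
  | some p =>
    obtain ⟨i, p, q⟩ := p
    exact good_mul (A := fun _ : Pt g => a.2 i) (B := fun x : Pt g => x.2 i)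
      (fun p q => good_const _) (fun p q => good_entry i p q) p q

/-- Right multiplication. -/
lemma good_right (a : Pt g) (P : Pol g) : Good w (fun x => ev P (x * a)) := by
  refine good_comp _ (fun o => ?_) P
  cases o with
  | none => exact good_fst.mul (good_const a.1)
  | some p =>
    obtain ⟨i, p, q⟩ := p
    exact good_mul (A := fun x : Pt g => x.2 i) (B := fun _ : Pt g => a.2 i)
      (fun p q => good_entry i p q) (fun p q => good_const _) p q

/-- The closure. -/
def clo (w : Fin r → ℕ) (M : Set (Pt g)) : Set (Pt g) :=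
  {a | InG w a ∧ ∀ P : Pol g, (∀ m ∈ M, ev P m = 0) → ev P a = 0}

/-- A good function which vanishes on `M` vanishes on the closure. -/
lemma clo_good {M : Set (Pt g)} (hM : ∀ m ∈ M, InG w m) {φ : Pt g → ℂ} (hφ : Good w φ)
    (h : ∀ m ∈ M, φ m = 0) {a : Pt g} (ha : a ∈ clo w M) : φ a = 0 := by
  obtain ⟨R, N, hR⟩ := hφ
  have h1 := ha.2 R fun m hm => by rw [hR m (hM m hm), h m hm, mul_zero]
  rw [hR a ha.1] at h1
  exact (mul_eq_zero.1 h1).resolve_left (pow_ne_zero _ ha.1.1)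

lemma sub_clo {M : Set (Pt g)} (hM : ∀ m ∈ M, InG w m) : M ⊆ clo w M :=
  fun m hm => ⟨hM m hm, fun _ hP => hP m hm⟩

lemma clo_grp {M : Set (Pt g)} (hM : ∀ m ∈ M, InG w m) (h1 : (1 : Pt g) ∈ M)
    (hmul : ∀ a ∈ M, ∀ b ∈ M, a * b ∈ M) (hinv : ∀ a ∈ M, pinv a ∈ M) :
    GrpS w (clo w M) := by
  have hl : ∀ m ∈ M, ∀ a ∈ clo w M, m * a ∈ clo w M := by
    intro m hm a ha
    refine ⟨DRD.InG.mul (hM m hm) ha.1, fun P hP => ?_⟩
    exact clo_good hM (good_left m P) (fun b hb => hP _ (hmul m hm b hb)) ha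
  refine ⟨fun a ha => ha.1, sub_clo hM h1, ?_, ?_, ?_⟩
  · intro a ha b hb
    refine ⟨DRD.InG.mul ha.1 hb.1, fun P hP => ?_⟩
    exact clo_good hM (good_right b P) (fun m hm => (hl m hm b hb).2 P hP) ha
  · intro a ha
    refine ⟨pinv a, ⟨DRD.InG.pinv ha.1, fun P hP => ?_⟩, mul_pinv ha.1.1 (DRD.InG.det ha.1),
      pinv_mul ha.1.1 (DRD.InG.det ha.1)⟩
    exact clo_good hM (good_pinv P) (fun m hm => hP _ (hinv m hm)) ha
  · intro a ha hP
    exact ⟨ha, fun P hPM => hP P fun k hk => hk.2 P hPM⟩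

/-! ## The center -/

lemma cen_comm (s : ℂ) (a : Pt g) : cen w s * a = a * cen w s := by
  refine Prod.ext (mul_comm _ _) (funext fun i => ?_)
  change ((s ^ w i) • (1 : Matrix (Ix (g i)) (Ix (g i)) ℂ)) * a.2 i =
    a.2 i * ((s ^ w i) • (1 : Matrix (Ix (g i)) (Ix (g i)) ℂ))
  rw [Matrix.smul_mul, Matrix.mul_smul, Matrix.one_mul, Matrix.mul_one]

lemma cen_mul (s t : ℂ) : (cen w s : Pt g) * cen w t = cen w (s * t) := by
  refine Prod.ext ?_ (funext fun i => ?_)
  · change s ^ 2 * t ^ 2 = (s * t) ^ 2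
    rw [mul_pow]
  · change ((s ^ w i) • (1 : Matrix (Ix (g i)) (Ix (g i)) ℂ)) * ((t ^ w i) • 1) =
      ((s * t) ^ w i) • 1
    rw [Matrix.smul_mul, Matrix.one_mul, smul_smul, mul_pow]

lemma cen_one : (cen w 1 : Pt g) = 1 := by
  refine Prod.ext ?_ (funext fun i => ?_)
  · change (1 : ℂ) ^ 2 = 1
    rw [one_pow]
  · change (((1 : ℂ) ^ w i) • (1 : Matrix (Ix (g i)) (Ix (g i)) ℂ)) = 1
    rw [one_pow, one_smul]

lemma cen_inG {s : ℂ} (hs : s ≠ 0) : InG w (cen w s : Pt g) := by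
  refine ⟨pow_ne_zero 2 hs, fun i => ?_⟩
  change Simil ((s ^ 2) ^ w i) ((s ^ w i) • (1 : Matrix (Ix (g i)) (Ix (g i)) ℂ))
  unfold Simil
  rw [Matrix.transpose_smul, Matrix.transpose_one, Matrix.smul_mul, Matrix.smul_mul,
    Matrix.one_mul, Matrix.mul_smul, Matrix.mul_one, smul_smul, ← pow_mul, ← pow_add]
  congr 2
  ring

lemma mc (a b : Pt g) (s t : ℂ) : a * cen w s * (b * cen w t) = a * b * cen w (s * t) := by
  rw [← cen_mul, ← mul_assoc, mul_assoc a (cen w s) b, cen_comm s b]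
  simp only [mul_assoc]

lemma pinv_unique {a b : Pt g} (ha : InG w a) (h : a * b = 1) : pinv a = b := by
  calc pinv a = pinv a * (a * b) := by rw [h, mul_one]
    _ = b := by rw [← mul_assoc, pinv_mul ha.1 (DRD.InG.det ha), one_mul]

lemma pinv_cen {a : Pt g} (ha : InG w a) {s : ℂ} (hs : s ≠ 0) :
    pinv (a * cen w s) = pinv a * cen w s⁻¹ := by
  refine pinv_unique (w := w) (DRD.InG.mul ha (cen_inG hs)) ?_
  rw [mc, mul_pinv ha.1 (DRD.InG.det ha), mul_inv_cancel₀ hs, cen_one, mul_one]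

lemma grp_pinv {H : Set (Pt g)} (hH : GrpS w H) {a : Pt g} (ha : a ∈ H) : pinv a ∈ H := by
  obtain ⟨b, hb, h1, _⟩ := hH.inv a ha
  rw [pinv_unique (hH.sub a ha) h1]
  exact hb

/-- `H` times the center. -/
def HC (w : Fin r → ℕ) (H : Set (Pt g)) : Set (Pt g) :=
  {m | ∃ h ∈ H, ∃ s : ℂ, s ≠ 0 ∧ m = h * cen w s}

lemma hc_inG {H : Set (Pt g)} (hH : GrpS w H) : ∀ m ∈ HC w H, InG w m := by
  rintro m ⟨h, hh, s, hs, rfl⟩
  exact DRD.InG.mul (hH.sub h hh) (cen_inG hs)

lemma hc_grp {H : Set (Pt g)} (hH : GrpS w H) : GrpS w (clo w (HC w H)) := by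
  refine clo_grp (hc_inG hH) ⟨1, hH.one, 1, one_ne_zero, by rw [cen_one, mul_one]⟩ ?_ ?_
  · rintro _ ⟨h, hh, s, hs, rfl⟩ _ ⟨h', hh', s', hs', rfl⟩
    exact ⟨h * h', hH.mul h hh h' hh', s * s', mul_ne_zero hs hs', mc _ _ _ _⟩
  · rintro _ ⟨h, hh, s, hs, rfl⟩
    exact ⟨pinv h, grp_pinv hH hh, s⁻¹, inv_ne_zero hs, pinv_cen (hH.sub h hh) hs⟩

/-- Commutators of `H` times the center are in `H`. -/
lemma hc_comm {H : Set (Pt g)} (hH : GrpS w H) : ∀ x ∈ HC w H, ∀ b ∈ HC w H,
    x * b * pinv x * pinv b ∈ H := by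
  rintro _ ⟨h, hh, s, hs, rfl⟩ _ ⟨h', hh', s', hs', rfl⟩
  rw [pinv_cen (hH.sub h hh) hs, pinv_cen (hH.sub h' hh') hs', mc, mc, mc]
  have e : s * s' * s⁻¹ * s'⁻¹ = 1 := by
    field_simp
  rw [e, cen_one, mul_one]
  exact hH.mul _ (hH.mul _ (hH.mul _ hh _ hh') _ (grp_pinv hH hh)) _ (grp_pinv hH hh')

lemma comm_ext {H : Set (Pt g)} (hH : GrpS w H) (hK : ∀ a, InG w a → a ∈ clo w (HC w H))
    {b : Pt g} (hb : InG w b) (h : ∀ x ∈ HC w H, x * b * pinv x * pinv b ∈ H) :
    ∀ x, InG w x → x * b * pinv x * pinv b ∈ H := by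
  intro x hx
  refine hH.closed _ (DRD.InG.mul (DRD.InG.mul (DRD.InG.mul hx hb) (DRD.InG.pinv hx))
    (DRD.InG.pinv hb)) fun P hP => ?_
  exact clo_good (hc_inG hH) (good_comm b P) (fun m hm => hP _ (h m hm)) (hK x hx)

lemma comm_all {H : Set (Pt g)} (hH : GrpS w H) (hK : ∀ a, InG w a → a ∈ clo w (HC w H)) :
    ∀ b, InG w b → ∀ x, InG w x → x * b * pinv x * pinv b ∈ H := by
  intro b hb
  refine comm_ext hH hK hb fun x hx => ?_
  have hxG := hc_inG hH x hx
  have h1 := comm_ext hH hK hxG (fun y hy => hc_comm hH y hy x hx) b hb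
  have h2 := grp_pinv hH h1
  have h3 : pinv (b * x * pinv b * pinv x) = x * b * pinv x * pinv b := by
    refine pinv_unique (w := w) (hH.sub _ h1) ?_
    calc b * x * pinv b * pinv x * (x * b * pinv x * pinv b)
        = b * x * pinv b * (pinv x * x) * b * pinv x * pinv b := by simp only [mul_assoc]
      _ = b * x * (pinv b * b) * pinv x * pinv b := by
          rw [pinv_mul hxG.1 (DRD.InG.det hxG), mul_one]
          simp only [mul_assoc]
      _ = b * (x * pinv x) * pinv b := by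
          rw [pinv_mul hb.1 (DRD.InG.det hb), mul_one]
          simp only [mul_assoc]
      _ = 1 := by
          rw [mul_pinv hxG.1 (DRD.InG.det hxG), mul_one, mul_pinv hb.1 (DRD.InG.det hb)]
  rw [h3] at h2
  exact h2

/-! ## Transvections are commutators -/

open Matrix

lemma exists_scale {k : ℕ} {v : Ix k → ℂ} (hv : v ≠ 0) :
    ∃ T : Matrix (Ix k) (Ix k) ℂ, Simil 1 T ∧ T.mulVec v = (2 : ℂ) • v := by
  obtain ⟨p, hp⟩ := UBD.TRL_.exists_dot hv
  set a : ℂ := (Matrix.J (Fin k) ℂ).mulVec v ⬝ᵥ p with ha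
  set u : Ix k → ℂ := a⁻¹ • p with hu
  have h1 : (Matrix.J (Fin k) ℂ).mulVec v ⬝ᵥ u = 1 := by
    rw [hu, dotProduct_smul, ← ha, smul_eq_mul, inv_mul_cancel₀ hp]
  have h2 : (Matrix.J (Fin k) ℂ).mulVec u ⬝ᵥ v = -1 := by
    rw [UBD.TRL_.J_dot_comm, h1]
  have h3 := UBD.TRL_.J_dot_self v
  have h4 := UBD.TRL_.J_dot_self u
  set A : Ix k → ℂ := (Matrix.J (Fin k) ℂ).mulVec v with hA
  set B : Ix k → ℂ := (Matrix.J (Fin k) ℂ).mulVec u with hB
  have hvJ : ∀ x : Ix k → ℂ, x ᵥ* Matrix.J (Fin k) ℂ = -(Matrix.J (Fin k) ℂ).mulVec x := by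
    intro x
    rw [← Matrix.mulVec_transpose, Matrix.J_transpose, Matrix.neg_mulVec]
  refine ⟨1 - vecMulVec v B - (1 / 2 : ℂ) • vecMulVec u A, ?_, ?_⟩
  · unfold Simil
    have e1 : (1 - vecMulVec v B - (1 / 2 : ℂ) • vecMulVec u A).transpose * Matrix.J (Fin k) ℂ =
        Matrix.J (Fin k) ℂ + vecMulVec B A + (1 / 2 : ℂ) • vecMulVec A B := by
      rw [Matrix.transpose_sub, Matrix.transpose_sub, Matrix.transpose_one,
        Matrix.transpose_smul, Matrix.transpose_vecMulVec, Matrix.transpose_vecMulVec,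
        Matrix.sub_mul, Matrix.sub_mul, Matrix.one_mul, Matrix.smul_mul, Matrix.vecMulVec_mul,
        Matrix.vecMulVec_mul, hvJ, hvJ, ← hA, ← hB, Matrix.vecMulVec_neg, Matrix.vecMulVec_neg,
        smul_neg, sub_neg_eq_add, sub_neg_eq_add]
    have e2 : ∀ x y : Ix k → ℂ, vecMulVec x y * (1 - vecMulVec v B - (1 / 2 : ℂ) • vecMulVec u A)
        = vecMulVec x y - (y ⬝ᵥ v) • vecMulVec x B - ((1 / 2 : ℂ) * (y ⬝ᵥ u)) •
          vecMulVec x A := by
      intro x y
      rw [Matrix.mul_sub, Matrix.mul_sub, Matrix.mul_one, Matrix.mul_smul,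
        Matrix.vecMulVec_mul_vecMulVec, Matrix.vecMulVec_mul_vecMulVec, ← smul_smul]
      congr 1
      · congr 1
        ext i j
        simp [Matrix.vecMulVec_apply]
        ring
      · congr 1
        ext i j
        simp [Matrix.vecMulVec_apply]
        ring
    have e3 : Matrix.J (Fin k) ℂ * (1 - vecMulVec v B - (1 / 2 : ℂ) • vecMulVec u A) =
        Matrix.J (Fin k) ℂ - vecMulVec A B - (1 / 2 : ℂ) • vecMulVec B A := by
      rw [Matrix.mul_sub, Matrix.mul_sub, Matrix.mul_one, Matrix.mul_smul,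
        Matrix.mul_vecMulVec, Matrix.mul_vecMulVec]
    rw [e1, Matrix.add_mul, Matrix.add_mul, Matrix.smul_mul, e2, e2, e3, h1, h2, h3, h4]
    ext i j
    simp only [Matrix.add_apply, Matrix.sub_apply, Matrix.smul_apply, smul_eq_mul]
    ring
  · rw [Matrix.sub_mulVec, Matrix.sub_mulVec, Matrix.one_mulVec, Matrix.smul_mulVec,
      Matrix.vecMulVec_mulVec, Matrix.vecMulVec_mulVec, h2, h3]
    ext i
    simp
    ring

lemma scale_comm {k : ℕ} {v : Ix k → ℂ} {T : Matrix (Ix k) (Ix k) ℂ} (hT : Simil 1 T)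
    (hv : T.mulVec v = (2 : ℂ) • v) (c : ℂ) :
    T * (1 + c • nv v) = (1 + (3 * c) • nv v) * ((1 + c • nv v) * T) := by
  have h1 : T * nv v = (2 : ℂ) • nv v := by
    unfold nv
    rw [Matrix.mul_vecMulVec, hv, Matrix.smul_vecMulVec]
  have h2 : T.transpose.mulVec ((Matrix.J (Fin k) ℂ).mulVec v) =
      (1 / 2 : ℂ) • (Matrix.J (Fin k) ℂ).mulVec v := by
    unfold Simil at hT
    have h3 : (T.transpose * Matrix.J (Fin k) ℂ * T).mulVec v =
        (Matrix.J (Fin k) ℂ).mulVec v := by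
      rw [hT, one_smul]
    rw [← Matrix.mulVec_mulVec, hv, Matrix.mulVec_smul, ← Matrix.mulVec_mulVec] at h3
    generalize T.transpose.mulVec ((Matrix.J (Fin k) ℂ).mulVec v) = z at h3 ⊢
    rw [← h3, smul_smul]
    norm_num
  have h3 : nv v * T = (1 / 2 : ℂ) • nv v := by
    unfold nv
    rw [Matrix.vecMulVec_mul, ← Matrix.mulVec_transpose, h2, Matrix.vecMulVec_smul]
  have h4 := UBD.TRL_.nv_sq v
  rw [← Matrix.mul_assoc, Matrix.mul_add, Matrix.mul_one, Matrix.mul_smul, h1]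
  have h5 : (1 + (3 * c) • nv v) * (1 + c • nv v) = 1 + (4 * c) • nv v := by
    rw [Matrix.add_mul, Matrix.one_mul, Matrix.mul_add, Matrix.mul_one, Matrix.smul_mul,
      Matrix.mul_smul, h4, smul_zero, smul_zero, add_zero, add_assoc, ← add_smul]
    congr 2
    ring
  rw [h5, Matrix.add_mul, Matrix.one_mul, Matrix.smul_mul, h3, smul_smul, smul_smul]
  congr 2
  ring

end

end CEN_

open CEN_ in
theorem cen_proof (hSPG : UBD.Stmt_SPG) (hCLO : UBD.Stmt_CLO) : Stmt_CEN := by
  intro r g w H hH hinf hex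
  refine ⟨clo w (HC w H), hc_grp hH, ?_, ?_, ?_⟩
  · intro h hh
    exact sub_clo (hc_inG hH) ⟨h, hh, 1, one_ne_zero, by rw [cen_one, mul_one]⟩
  · intro s hs
    exact sub_clo (hc_inG hH) ⟨1, hH.one, s, hs, by rw [one_mul]⟩
  · by_contra hcon
    have hK : ∀ a, InG w a → a ∈ clo w (HC w H) := by
      intro a ha
      by_contra hn
      exact hcon ⟨a, ha, hn⟩
    have hcomm := comm_all hH hK
    obtain ⟨a₀, ha₀, hna₀⟩ := hex
    apply hna₀
    refine hCLO r g w H hH hinf (fun a ha1 ha2 => ?_) a₀ ha₀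
    refine UBD.ful_proof hSPG r g w H hH Set.univ (fun i _ v t => ?_) a ha1 ha2
      (fun i hi => absurd (Set.mem_univ i) hi)
    have hin : ∀ M : Matrix (Ix (g i)) (Ix (g i)) ℂ, Simil 1 M →
        InG w ((1, Function.update 1 i M) : Pt g) := by
      intro M hM
      refine ⟨one_ne_zero, fun j => ?_⟩
      change Simil ((1 : ℂ) ^ w j) (Function.update (1 : ∀ j, Matrix (Ix (g j)) (Ix (g j)) ℂ) i M j)
      rw [one_pow]
      by_cases hj : j = i
      · subst hj
        rw [Function.update_self]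
        exact hM
      · rw [Function.update_of_ne hj]
        exact DRD.simil_one (g j)
    have hmm : ∀ M N : Matrix (Ix (g i)) (Ix (g i)) ℂ,
        ((1, Function.update 1 i M) : Pt g) * ((1, Function.update 1 i N) : Pt g) =
          ((1, Function.update 1 i (M * N)) : Pt g) := by
      intro x y
      refine Prod.ext ?_ ?_
      · simp
      · funext j
        by_cases hj : j = i
        · subst hj
          simp
        · simp [Function.update_of_ne hj]
    have e : ex t (sg1 i (nv v)) = ((1, Function.update 1 i (1 + t • nv v)) : Pt g) := by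
      unfold ex sg1
      refine Prod.ext ?_ ?_
      · simp
      · funext j
        by_cases hj : j = i
        · subst hj
          simp only [Pi.single_eq_same, Function.update_self]
          exact UBD.FUL_.exp_sq _ (UBD.FUL_.nv_sq v) t
        · simp only [Pi.single_eq_of_ne hj, Function.update_of_ne hj, smul_zero, Pi.one_apply]
          exact NormedSpace.exp_zero
    rw [e]
    by_cases hv : v = 0
    · rw [hv, UBD.TRL_.nv_zero, smul_zero, add_zero, Function.update_eq_self_iff.2 (by simp)]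
      exact hH.one
    · obtain ⟨T, hT, hTv⟩ := exists_scale hv
      have hb := hin _ (UBD.TRL_.simil_tv v (t / 3))
      have hx := hin _ hT
      have h1 := hcomm _ hb _ hx
      have h2 : ((1, Function.update 1 i T) : Pt g) *
          ((1, Function.update 1 i (1 + (t / 3) • nv v)) : Pt g) =
          ((1, Function.update 1 i (1 + t • nv v)) : Pt g) *
            (((1, Function.update 1 i (1 + (t / 3) • nv v)) : Pt g) *
              ((1, Function.update 1 i T) : Pt g)) := by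
        rw [hmm, hmm, hmm, scale_comm hT hTv]
        have h3 : 3 * (t / 3) = t := by ring
        rw [h3]
      rw [h2] at h1
      rw [mul_assoc _ (_ * _) (pinv _), mul_assoc _ _ (pinv ((1, Function.update 1 i T) : Pt g)),
        mul_pinv hx.1 (DRD.InG.det hx), mul_one, mul_assoc, mul_pinv hb.1 (DRD.InG.det hb),
        mul_one] at h1
      exact h1

end Pool.Agent.NEX
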