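import Pool.Agent.NEX.Stmts
import Mathlib.Combinatorics.Nullstellensatz

set_option autoImplicit false

/-!
# NEX, module CNT: a homogeneous combination which vanishes on `Z T_J`
-/

open scoped BigOperators

namespace Pool.Agent.NEX

open Pool.Agent.HGP (Ix)
open Pool.Agent.UBD (Pt Crd Pol ev)

noncomputable section

namespace CNT_

open MvPolynomial

/-- Scaling of the arguments of a homogeneous polynomial. -/
theorem scale {n k : ℕ} {p : MvPolynomial (Fin n) ℂ} (hp : p.IsHomogeneous k) (s : ℂ)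
    (y : Fin n → ℂ) : eval (fun l => s * y l) p = s ^ k * eval y p := by
  rw [eval_eq', eval_eq', Finset.mul_sum]
  refine Finset.sum_congr rfl fun d hd => ?_
  have hdeg : ∑ i, d i = k := by
    have h := hp (mem_support_iff.1 hd)
    rw [← h, Finsupp.weight_apply, Finsupp.sum_fintype]
    · refine Finset.sum_congr rfl fun i _ => ?_
      simp
    · intro i
      simp
  rw [show (fun i => (s * y i) ^ d i) = fun i => s ^ d i * y i ^ d i from
    funext fun i => mul_pow _ _ _, Finset.prod_mul_distrib, Finset.prod_pow_eq_pow_sum, hdeg]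
  ring

theorem eval_aeval' {σ : Type*} {n : ℕ} (v : σ → ℂ) (G : Fin n → MvPolynomial σ ℂ)
    (p : MvPolynomial (Fin n) ℂ) : eval v (aeval G p) = eval (fun l => eval v (G l)) p := by
  induction p using MvPolynomial.induction_on with
  | C a => simp
  | add p q hp hq => rw [map_add, map_add, map_add, hp, hq]
  | mul_X p l hp => rw [map_mul, map_mul, map_mul, hp, aeval_X, eval_X]

/-- The exponent attached to a function `a`. -/
def expo (m s : ℕ) (a : Fin (m + 1) → Fin (s + 1)) : Fin (m + 2) →₀ ℕ :=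
  Finsupp.equivFunOnFinite.symm
    (Fin.cons ((m + 1) * s - ∑ i, (a i : ℕ)) (fun i => (a i : ℕ)) : Fin (m + 2) → ℕ)

theorem expo_succ {m s : ℕ} (a : Fin (m + 1) → Fin (s + 1)) (i : Fin (m + 1)) :
    expo m s a i.succ = a i := by
  simp [expo]

theorem expo_inj (m s : ℕ) : Function.Injective (expo m s) := by
  intro a b h
  funext i
  apply Fin.ext
  rw [← expo_succ a i, ← expo_succ b i, h]

theorem sum_le {m s : ℕ} (a : Fin (m + 1) → Fin (s + 1)) : ∑ i, (a i : ℕ) ≤ (m + 1) * s := by
  calc ∑ i, (a i : ℕ) ≤ ∑ _i : Fin (m + 1), s :=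
        Finset.sum_le_sum fun i _ => Nat.lt_succ_iff.1 (a i).2
    _ = (m + 1) * s := by simp

theorem expo_sum {m s : ℕ} (a : Fin (m + 1) → Fin (s + 1)) :
    ∑ i, expo m s a i = (m + 1) * s := by
  rw [Fin.sum_univ_succ]
  have h0 : expo m s a 0 = (m + 1) * s - ∑ i, (a i : ℕ) := by simp [expo]
  rw [h0, Finset.sum_congr rfl fun i _ => expo_succ a i]
  exact Nat.sub_add_cancel (sum_le a)

/-- Counting: a homogeneous relation of degree `(m + 1) * s` between `m + 2` polynomials in `m`
variables, of degree at most `C` in each variable. -/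
theorem count {T : Type*} [Fintype T] [DecidableEq T] (C : ℕ) :
    ∃ k : ℕ, ∀ G : Fin (Fintype.card T + 2) → MvPolynomial T ℂ,
      (∀ l t, degreeOf t (G l) ≤ C) →
      ∃ p : MvPolynomial (Fin (Fintype.card T + 2)) ℂ, p.IsHomogeneous k ∧ p ≠ 0 ∧
        aeval G p = 0 := by
  classical
  set m := Fintype.card T with hm
  set s := (C * (m + 1) + 1) ^ m with hs
  refine ⟨(m + 1) * s, fun G hG => ?_⟩
  set k := (m + 1) * s with hk
  let mon : (Fin (m + 1) → Fin (s + 1)) → MvPolynomial T ℂ := fun a =>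
    ∏ l, G l ^ expo m s a l
  have hmon : ∀ a t, degreeOf t (mon a) ≤ C * k := by
    intro a t
    calc degreeOf t (mon a) ≤ ∑ l, degreeOf t (G l ^ expo m s a l) :=
          degreeOf_prod_le t Finset.univ _
      _ ≤ ∑ l, expo m s a l * C := by
          refine Finset.sum_le_sum fun l _ => ?_
          exact (degreeOf_pow_le t (G l) _).trans (Nat.mul_le_mul_left _ (hG l t))
      _ = C * k := by
          rw [← Finset.sum_mul, expo_sum]
          ring
  let pt : (T → Fin (C * k + 1)) → T → ℂ := fun v t => ((v t : ℕ) : ℂ)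
  let Ψ : ((Fin (m + 1) → Fin (s + 1)) → ℂ) →ₗ[ℂ] ((T → Fin (C * k + 1)) → ℂ) :=
    { toFun := fun c v => ∑ a, c a * eval (pt v) (mon a)
      map_add' := by
        intro c c'
        funext v
        simp only [Pi.add_apply, add_mul, Finset.sum_add_distrib]
      map_smul' := by
        intro r c
        funext v
        simp only [Pi.smul_apply, smul_eq_mul, RingHom.id_apply, Finset.mul_sum, mul_assoc] }
  have hlt : Module.finrank ℂ ((T → Fin (C * k + 1)) → ℂ) <
      Module.finrank ℂ ((Fin (m + 1) → Fin (s + 1)) → ℂ) := by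
    rw [Module.finrank_fintype_fun_eq_card, Module.finrank_fintype_fun_eq_card]
    simp only [Fintype.card_fun, Fintype.card_fin]
    rw [← hm]
    have h1 : C * k + 1 ≤ (C * (m + 1) + 1) * (s + 1) := by
      rw [hk]
      nlinarith [Nat.zero_le (C * (m + 1)), Nat.zero_le s]
    calc (C * k + 1) ^ m ≤ ((C * (m + 1) + 1) * (s + 1)) ^ m := Nat.pow_le_pow_left h1 m
      _ = s * (s + 1) ^ m := by rw [mul_pow]
      _ < (s + 1) * (s + 1) ^ m := by
          refine Nat.mul_lt_mul_of_pos_right (Nat.lt_succ_self s) ?_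
          exact pow_pos (Nat.succ_pos s) m
      _ = (s + 1) ^ (m + 1) := by rw [pow_succ]; ring
  have hker := LinearMap.ker_ne_bot_of_finrank_lt (f := Ψ) hlt
  obtain ⟨c, hc, hc0⟩ := (Submodule.ne_bot_iff _).1 hker
  let p : MvPolynomial (Fin (m + 2)) ℂ := ∑ a, monomial (expo m s a) (c a)
  have hco : ∀ a, coeff (expo m s a) p = c a := by
    intro a
    simp only [p, coeff_sum, coeff_monomial]
    rw [Finset.sum_eq_single a]
    · simp
    · intro b _ hb
      rw [if_neg]
      intro h
      exact hb (expo_inj m s h)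
    · intro h
      exact absurd (Finset.mem_univ a) h
  refine ⟨p, ?_, ?_, ?_⟩
  · refine IsHomogeneous.sum _ _ _ fun a _ => isHomogeneous_monomial _ ?_
    rw [Finsupp.degree_eq_sum, expo_sum]
  · intro h
    apply hc0
    funext a
    rw [← hco a, h]
    simp
  · have hp : aeval G p = ∑ a, c a • mon a := by
      simp only [p, map_sum]
      refine Finset.sum_congr rfl fun a _ => ?_
      rw [aeval_monomial, Algebra.smul_def]
      congr 1
      rw [Finsupp.prod_fintype]
      intro i
      exact pow_zero _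
    rw [hp]
    refine eq_zero_of_eval_zero_at_prod_finset _
      (fun _ => Finset.univ.image fun j : Fin (C * k + 1) => ((j : ℕ) : ℂ)) ?_ ?_
    · intro t
      have hcard : (Finset.univ.image fun j : Fin (C * k + 1) => ((j : ℕ) : ℂ)).card =
          C * k + 1 := by
        rw [Finset.card_image_of_injective]
        · simp
        · intro i j hij
          have h : ((i : ℕ) : ℂ) = ((j : ℕ) : ℂ) := hij
          exact Fin.ext (Nat.cast_injective h)
      rw [hcard]
      refine Nat.lt_succ_of_le ?_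
      refine (degreeOf_sum_le t _ _).trans (Finset.sup_le fun a _ => ?_)
      rw [smul_eq_C_mul]
      exact (degreeOf_C_mul_le _ _ _).trans (hmon a t)
    · intro x hx
      have hx' : ∀ t, ∃ j : Fin (C * k + 1), ((j : ℕ) : ℂ) = x t := by
        intro t
        have h := hx t
        simpa using h
      choose v hv using hx'
      have hxv : x = pt v := by
        funext t
        exact (hv t).symm
      have h := congrFun (LinearMap.mem_ker.1 hc) v
      have h' : ∑ a, c a * eval (pt v) (mon a) = 0 := h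
      rw [hxv, map_sum, ← h']
      refine Finset.sum_congr rfl fun a _ => ?_
      rw [smul_eval]

variable {r : ℕ} {g : Fin r → ℕ}

/-- The index type of the variables. -/
abbrev TT (g : Fin r → ℕ) (J : Finset (Fin r)) : Type := Σ i : {i // i ∈ J}, Fin (g i)

theorem card_TT (g : Fin r → ℕ) (J : Finset (Fin r)) : Fintype.card (TT g J) = ∑ i ∈ J, g i := by
  rw [Fintype.card_sigma]
  simp only [Fintype.card_fin]
  exact Finset.sum_coe_sort J g

/-- The values of the variables. -/
def vt (J : Finset (Fin r)) (τ : ∀ i, Fin (g i) → ℂ) : TT g J → ℂ := fun t => τ t.1 t.2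

/-- The product of all variables. -/
def allX (J : Finset (Fin r)) : MvPolynomial (TT g J) ℂ := ∏ t, X t

theorem deg_prod_le (J : Finset (Fin r)) (S : Finset (TT g J)) (t : TT g J) :
    degreeOf t (∏ u ∈ S, X u : MvPolynomial (TT g J) ℂ) ≤ 1 := by
  classical
  refine (degreeOf_prod_le t S _).trans ?_
  simp only [degreeOf_X]
  rw [Finset.sum_ite_eq]
  split_ifs <;> simp

theorem eval_allX (J : Finset (Fin r)) (τ : ∀ i, Fin (g i) → ℂ) :
    eval (vt J τ) (allX J) = ∏ t, vt J τ t := by
  rw [allX, map_prod]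
  simp only [eval_X]

/-- The coordinates of `Z * dg J τ`. -/
theorem coord (J : Finset (Fin r)) (Z : Pt g) (c : Crd g) :
    ∃ C : MvPolynomial (TT g J) ℂ, (∀ t, degreeOf t C ≤ 2) ∧
      ∀ τ : (∀ i, Fin (g i) → ℂ), (∀ i j, τ i j ≠ 0) →
        eval (vt J τ) C = (∏ t, vt J τ t) * HGP.tpt (Z * dg J τ).1 (Z * dg J τ).2 c := by
  classical
  rcases c with _ | ⟨i, p, q⟩
  · refine ⟨C Z.1 * allX J, fun t => ?_, fun τ _ => ?_⟩
    · exact (degreeOf_C_mul_le _ _ _).trans ((deg_prod_le J _ t).trans (by norm_num))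
    · rw [map_mul, eval_C, eval_allX]
      simp [HGP.tpt, dg, mul_comm]
  · by_cases hi : i ∈ J
    · rcases q with j | j
      · refine ⟨C (Z.2 i p (Sum.inl j)) * (X ⟨⟨i, hi⟩, j⟩ * allX J), fun t => ?_, fun τ _ => ?_⟩
        · refine (degreeOf_C_mul_le _ _ _).trans ((degreeOf_mul_le _ _ _).trans ?_)
          have h1 : degreeOf t (X ⟨⟨i, hi⟩, j⟩ : MvPolynomial (TT g J) ℂ) ≤ 1 := by
            rw [degreeOf_X]
            split_ifs <;> simp
          have h2 := deg_prod_le J Finset.univ t
          have h2' : degreeOf t (allX J : MvPolynomial (TT g J) ℂ) ≤ 1 := h2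
          omega
        · rw [map_mul, map_mul, eval_C, eval_allX, eval_X]
          simp only [HGP.tpt, dg, Option.elim_some, Prod.snd_mul, Pi.mul_apply, if_pos hi,
            Matrix.mul_diagonal, Sum.elim_inl, vt]
          ring
      · refine ⟨C (Z.2 i p (Sum.inr j)) * ∏ u ∈ Finset.univ.erase (⟨⟨i, hi⟩, j⟩ : TT g J), X u,
          fun t => ?_, fun τ hτ => ?_⟩
        · exact (degreeOf_C_mul_le _ _ _).trans ((deg_prod_le J _ t).trans (by norm_num))
        · rw [map_mul, eval_C, map_prod]
          simp only [eval_X]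
          rw [← Finset.mul_prod_erase Finset.univ (vt J τ) (Finset.mem_univ ⟨⟨i, hi⟩, j⟩)]
          simp only [HGP.tpt, dg, Option.elim_some, Prod.snd_mul, Pi.mul_apply, if_pos hi,
            Matrix.mul_diagonal, Sum.elim_inr]
          have hv : vt J τ ⟨⟨i, hi⟩, j⟩ = τ i j := rfl
          rw [hv]
          have h0 := hτ i j
          field_simp
    · refine ⟨C (Z.2 i p q) * allX J, fun t => ?_, fun τ _ => ?_⟩
      · exact (degreeOf_C_mul_le _ _ _).trans ((deg_prod_le J _ t).trans (by norm_num))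
      · rw [map_mul, eval_C, eval_allX]
        simp only [HGP.tpt, dg, Option.elim_some, Prod.snd_mul, Pi.mul_apply, if_neg hi, mul_one]
        ring

/-- The function `F (Z * dg J τ)`, cleared of denominators. -/
theorem laur (J : Finset (Fin r)) (Z : Pt g) (B : ℕ) (F : Pol g) (hF : F.totalDegree ≤ B) :
    ∃ G : MvPolynomial (TT g J) ℂ, (∀ t, degreeOf t G ≤ 2 * B) ∧
      ∀ τ : (∀ i, Fin (g i) → ℂ), (∀ i j, τ i j ≠ 0) →
        eval (vt J τ) G = (∏ t, vt J τ t) ^ B * ev F (Z * dg J τ) := by
  classical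
  choose Co hCo1 hCo2 using coord J Z
  refine ⟨∑ d ∈ F.support, C (coeff d F) * (allX J ^ (B - ∑ c, d c) * ∏ c, Co c ^ d c),
    fun t => ?_, fun τ hτ => ?_⟩
  · refine (degreeOf_sum_le t _ _).trans (Finset.sup_le fun d hd => ?_)
    have hd' : ∑ c, d c ≤ B := by
      have h := le_totalDegree hd
      rw [Finsupp.sum_fintype _ _ (fun _ => rfl)] at h
      exact h.trans hF
    refine (degreeOf_C_mul_le _ _ _).trans ((degreeOf_mul_le _ _ _).trans ?_)
    have h1 : degreeOf t (allX J ^ (B - ∑ c, d c) : MvPolynomial (TT g J) ℂ) ≤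
        (B - ∑ c, d c) * 1 := by
      refine (degreeOf_pow_le _ _ _).trans (Nat.mul_le_mul_left _ ?_)
      exact deg_prod_le J Finset.univ t
    have h2 : degreeOf t (∏ c, Co c ^ d c) ≤ ∑ c, d c * 2 := by
      refine (degreeOf_prod_le t _ _).trans (Finset.sum_le_sum fun c _ => ?_)
      exact (degreeOf_pow_le _ _ _).trans (Nat.mul_le_mul_left _ (hCo1 c t))
    rw [← Finset.sum_mul] at h2
    omega
  · rw [map_sum, ev, eval_eq', Finset.mul_sum]
    refine Finset.sum_congr rfl fun d hd => ?_
    have hd' : ∑ c, d c ≤ B := by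
      have h := le_totalDegree hd
      rw [Finsupp.sum_fintype _ _ (fun _ => rfl)] at h
      exact h.trans hF
    rw [map_mul, map_mul, eval_C, map_pow, eval_allX, map_prod]
    simp only [map_pow, hCo2 _ τ hτ, mul_pow]
    rw [Finset.prod_mul_distrib, Finset.prod_pow_eq_pow_sum]
    have hB : (∏ t, vt J τ t) ^ B = (∏ t, vt J τ t) ^ (B - ∑ c, d c) *
        (∏ t, vt J τ t) ^ (∑ c, d c) := by
      rw [← pow_add, Nat.sub_add_cancel hd']
    rw [hB]
    ring

end CNT_

open CNT_ in
theorem cnt_proof : Stmt_CNT := by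
  intro r g B J
  obtain ⟨k, hk⟩ := count (T := TT g J) (2 * B)
  rw [card_TT] at hk
  refine ⟨k, fun F hF Z => ?_⟩
  choose G hG1 hG2 using fun l => laur J Z B (F l) (hF l)
  obtain ⟨p, hp1, hp2, hp3⟩ := hk G hG1
  refine ⟨p, hp1, hp2, fun τ hτ => ?_⟩
  have h1 : MvPolynomial.eval (fun l => (∏ t, vt J τ t) ^ B * ev (F l) (Z * dg J τ)) p = 0 := by
    have h2 : (fun l => (∏ t, vt J τ t) ^ B * ev (F l) (Z * dg J τ)) =
        fun l => MvPolynomial.eval (vt J τ) (G l) := by
      funext l
      exact (hG2 l τ hτ).symm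
    rw [h2]
    have h3 : MvPolynomial.eval (vt J τ) (MvPolynomial.aeval G p) = 0 := by
      rw [hp3, map_zero]
    rw [← h3, eval_aeval']
  have h4 := CNT_.scale hp1 ((∏ t, vt J τ t) ^ B) (fun l => ev (F l) (Z * dg J τ))
  rw [h1] at h4
  have h5 : ((∏ t, vt J τ t) ^ B) ^ k ≠ 0 := by
    refine pow_ne_zero _ (pow_ne_zero _ (Finset.prod_ne_zero_iff.2 fun t _ => ?_))
    exact hτ _ _
  have h6 : MvPolynomial.eval (fun l => ev (F l) (Z * dg J τ)) p = 0 := by
    rcases mul_eq_zero.1 h4.symm with h | h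
    · exact absurd h h5
    · exact h
  rw [ev, eval_aeval']
  exact h6

end

end Pool.Agent.NEX
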