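import Pool.Agent.NEX.Stmts

set_option autoImplicit false

/-!
# COD: the codimension of a subalgebra of a product of symplectic Lie algebras
-/

open scoped BigOperators

namespace Pool.Agent.NEX

open Pool.Agent.HGP (Ix)
open Pool.Agent.UBD (nv)

namespace COD_

/-- brackets of symplectic matrices -/
lemma br_mem {k : ℕ} {X Y : Matrix (Ix k) (Ix k) ℂ} (hX : X ∈ spS k) (hY : Y ∈ spS k) :
    X * Y - Y * X ∈ spS k := by
  have hXs := mem_spS.1 hX
  have hYs := mem_spS.1 hY
  rw [mem_spS]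
  have e1 : X.transpose * Matrix.J (Fin k) ℂ = -(Matrix.J (Fin k) ℂ * X) :=
    eq_neg_of_add_eq_zero_left hXs
  have e2 : Y.transpose * Matrix.J (Fin k) ℂ = -(Matrix.J (Fin k) ℂ * Y) :=
    eq_neg_of_add_eq_zero_left hYs
  have e3 : Y.transpose * X.transpose * Matrix.J (Fin k) ℂ = Matrix.J (Fin k) ℂ * Y * X := by
    rw [Matrix.mul_assoc, e1, Matrix.mul_neg, ← Matrix.mul_assoc, e2, Matrix.neg_mul, neg_neg]
  have e4 : X.transpose * Y.transpose * Matrix.J (Fin k) ℂ = Matrix.J (Fin k) ℂ * X * Y := by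
    rw [Matrix.mul_assoc, e2, Matrix.mul_neg, ← Matrix.mul_assoc, e1, Matrix.neg_mul, neg_neg]
  rw [Matrix.transpose_sub, Matrix.transpose_mul, Matrix.transpose_mul, Matrix.sub_mul,
    Matrix.mul_sub, e3, e4, ← Matrix.mul_assoc, ← Matrix.mul_assoc]
  abel

/-- rank and nullity of a restriction -/
lemma rn {V W : Type*} [AddCommGroup V] [Module ℂ V] [AddCommGroup W] [Module ℂ W]
    [FiniteDimensional ℂ V] (N : Submodule ℂ V) (f : V →ₗ[ℂ] W) :
    Module.finrank ℂ N = Module.finrank ℂ (N.map f) +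
      Module.finrank ℂ (N ⊓ LinearMap.ker f : Submodule ℂ V) := by
  have h := LinearMap.finrank_range_add_finrank_ker (f.domRestrict N)
  rw [LinearMap.range_domRestrict] at h
  rw [← h]
  congr 1
  have e : (N ⊓ LinearMap.ker f : Submodule ℂ V) =
      (LinearMap.ker (f.domRestrict N)).map N.subtype := by
    ext x
    simp only [Submodule.mem_inf, LinearMap.mem_ker, Submodule.mem_map, Submodule.coe_subtype,
      Subtype.exists, exists_and_right, exists_eq_right]
    constructor
    · rintro ⟨h1, h2⟩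
      exact ⟨h1, h2⟩
    · rintro ⟨h1, h2⟩
      exact ⟨h1, h2⟩
  rw [e]
  exact (Submodule.finrank_map_subtype_eq _ _).symm

variable {r : ℕ} {g : Fin r → ℕ}

/-- families of symplectic matrices supported on `A` -/
def gS (g : Fin r → ℕ) (A : Finset (Fin r)) : Submodule ℂ (Fam g) :=
  Submodule.pi Set.univ fun i => if i ∈ A then spS (g i) else ⊥

lemma mem_gS {A : Finset (Fin r)} {X : Fam g} :
    X ∈ gS g A ↔ (∀ i ∈ A, X i ∈ spS (g i)) ∧ ∀ i, i ∉ A → X i = 0 := by
  unfold gS
  rw [Submodule.mem_pi]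
  constructor
  · intro h
    refine ⟨fun i hi => ?_, fun i hi => ?_⟩
    · have := h i (Set.mem_univ i)
      rw [if_pos hi] at this
      exact this
    · have := h i (Set.mem_univ i)
      rw [if_neg hi] at this
      exact (Submodule.mem_bot ℂ).1 this
  · rintro ⟨h1, h2⟩ i -
    by_cases hi : i ∈ A
    · rw [if_pos hi]
      exact h1 i hi
    · rw [if_neg hi]
      exact (Submodule.mem_bot ℂ).2 (h2 i hi)

/-- closed under brackets -/
def LC (N : Submodule ℂ (Fam g)) : Prop := ∀ X ∈ N, ∀ Y ∈ N, X * Y - Y * X ∈ N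

/-- the projection -/
abbrev pr (g : Fin r → ℕ) (i : Fin r) : Fam g →ₗ[ℂ] Matrix (Ix (g i)) (Ix (g i)) ℂ :=
  LinearMap.proj i

/-- the inclusion -/
abbrev sl (g : Fin r → ℕ) (i : Fin r) : Matrix (Ix (g i)) (Ix (g i)) ℂ →ₗ[ℂ] Fam g :=
  LinearMap.single ℂ (fun i => Matrix (Ix (g i)) (Ix (g i)) ℂ) i

lemma sl_apply (i : Fin r) (X : Matrix (Ix (g i)) (Ix (g i)) ℂ) :
    sl g i X = (Pi.single i X : Fam g) := rfl

lemma sl_same (i : Fin r) (X : Matrix (Ix (g i)) (Ix (g i)) ℂ) : sl g i X i = X := by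
  rw [sl_apply, Pi.single_eq_same]

lemma sl_ne {i j : Fin r} (h : j ≠ i) (X : Matrix (Ix (g i)) (Ix (g i)) ℂ) : sl g i X j = 0 := by
  rw [sl_apply, Pi.single_eq_of_ne h]

lemma br_sl (Z : Fam g) (i : Fin r) (Y : Matrix (Ix (g i)) (Ix (g i)) ℂ) :
    Z * sl g i Y - sl g i Y * Z = sl g i (Z i * Y - Y * Z i) := by
  funext l
  by_cases h : l = i
  · subst h
    simp only [Pi.sub_apply, Pi.mul_apply, sl_same]
  · simp only [Pi.sub_apply, Pi.mul_apply, sl_ne h, mul_zero, zero_mul, sub_zero]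

/-- dimension of the big algebra -/
lemma dim_insert {i : Fin r} {B : Finset (Fin r)} (hi : i ∉ B) :
    Module.finrank ℂ (gS g (insert i B)) =
      Module.finrank ℂ (spS (g i)) + Module.finrank ℂ (gS g B) := by
  rw [rn (gS g (insert i B)) (pr g i)]
  have e1 : (gS g (insert i B)).map (pr g i) = spS (g i) := by
    ext Y
    rw [Submodule.mem_map]
    constructor
    · rintro ⟨X, hX, rfl⟩
      exact (mem_gS.1 hX).1 i (Finset.mem_insert_self i B)
    · intro hY
      refine ⟨sl g i Y, mem_gS.2 ⟨fun l hl => ?_, fun l hl => ?_⟩, sl_same i Y⟩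
      · by_cases h : l = i
        · subst h
          rw [sl_same]
          exact hY
        · rw [sl_ne h]
          exact Submodule.zero_mem _
      · exact sl_ne (fun h => hl (by rw [h]; exact Finset.mem_insert_self i B)) Y
  have e2 : gS g (insert i B) ⊓ LinearMap.ker (pr g i) = gS g B := by
    ext X
    rw [Submodule.mem_inf, LinearMap.mem_ker, mem_gS, mem_gS]
    constructor
    · rintro ⟨⟨h1, h2⟩, h3⟩
      refine ⟨fun l hl => h1 l (Finset.mem_insert_of_mem hl), fun l hl => ?_⟩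
      by_cases h : l = i
      · rw [h]
        exact h3
      · exact h2 l (fun hl' => (Finset.mem_insert.1 hl').elim h hl)
    · rintro ⟨h1, h2⟩
      refine ⟨⟨fun l hl => ?_, fun l hl => h2 l (fun h => hl (Finset.mem_insert_of_mem h))⟩,
        h2 i hi⟩
      by_cases h : l ∈ B
      · exact h1 l h
      · rw [h2 l h]
        exact Submodule.zero_mem _
  rw [e1, e2]

/-- all `nv v` in `N` implies the whole factor in `N` -/
lemma full_of_nv (hSPI : Stmt_SPI) {j : Fin r} (hg : 0 < g j) {N : Submodule ℂ (Fam g)}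
    (h : ∀ v : Ix (g j) → ℂ, (Pi.single j (nv v) : Fam g) ∈ N) :
    ∀ X ∈ spS (g j), sl g j X ∈ N := by
  intro X hX
  have h1 := (hSPI (g j) hg).2.1 X hX
  have h2 : Submodule.span ℂ (Set.range (nv : (Ix (g j) → ℂ) →
      Matrix (Ix (g j)) (Ix (g j)) ℂ)) ≤ N.comap (sl g j) := by
    rw [Submodule.span_le]
    rintro _ ⟨v, rfl⟩
    exact h v
  exact h2 h1

/-- the key case: the projection to the factor `i` is onto, the intersection is zero -/
lemma caseb (hSPI : Stmt_SPI) (hg : ∀ i, 2 ≤ g i) {i : Fin r} {N : Submodule ℂ (Fam g)}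
    (hLC : LC N) (honto : ∀ X ∈ spS (g i), ∃ Z ∈ N, Z i = X)
    (hin : ∀ Z ∈ N, ∀ l, Z l ∈ spS (g l))
    {j : Fin r} (hj : j ≠ i)
    (hjR : ∀ Y ∈ spS (g j), ∃ X, sl g i X + sl g j Y ∈ N)
    (hjN : ∃ v : Ix (g j) → ℂ, (Pi.single j (nv v) : Fam g) ∉ N) :
    (Module.finrank ℂ (spS (g j)) ≤ Module.finrank ℂ (spS (g i))) ∧
    ∀ X ∈ spS (g i), ∃ Y ∈ spS (g j), sl g i X + sl g j Y ∈ N := by
  have hgj : 0 < g j := by have := hg j; omega
  have hgi : 0 < g i := by have := hg i; omega
  have hcj : ∀ (X : Matrix (Ix (g i)) (Ix (g i)) ℂ) (Y : Matrix (Ix (g j)) (Ix (g j)) ℂ),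
      (sl g i X + sl g j Y) j = Y := by
    intro X Y
    rw [Pi.add_apply, sl_ne hj, sl_same, zero_add]
  have hci : ∀ (X : Matrix (Ix (g i)) (Ix (g i)) ℂ) (Y : Matrix (Ix (g j)) (Ix (g j)) ℂ),
      (sl g i X + sl g j Y) i = X := by
    intro X Y
    rw [Pi.add_apply, sl_ne hj.symm, sl_same, add_zero]
  -- the submodule `W`
  obtain ⟨W, hW⟩ : ∃ W : Submodule ℂ (Fam g), ∀ Z, Z ∈ W ↔
      Z ∈ N ∧ Z j ∈ spS (g j) ∧ ∀ l, l ≠ i → l ≠ j → Z l = 0 := by
    refine ⟨N ⊓ ((spS (g j)).comap (pr g j) ⊓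
      Submodule.pi {l | l ≠ i ∧ l ≠ j} fun l => (⊥ : Submodule ℂ _)), fun Z => ?_⟩
    rw [Submodule.mem_inf, Submodule.mem_inf, Submodule.mem_comap, Submodule.mem_pi]
    constructor
    · rintro ⟨h1, h2, h3⟩
      exact ⟨h1, h2, fun l hl hl' => (Submodule.mem_bot ℂ).1 (h3 l ⟨hl, hl'⟩)⟩
    · rintro ⟨h1, h2, h3⟩
      exact ⟨h1, h2, fun l hl => (Submodule.mem_bot ℂ).2 (h3 l hl.1 hl.2)⟩
  have hWeq : ∀ Z ∈ W, Z = sl g i (Z i) + sl g j (Z j) := by
    intro Z hZ
    funext l
    by_cases h1 : l = i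
    · subst h1
      rw [hci]
    · by_cases h2 : l = j
      · subst h2
        rw [hcj]
      · rw [((hW Z).1 hZ).2.2 l h1 h2, Pi.add_apply, sl_ne h1, sl_ne h2, add_zero]
  -- the kernel of `W → spS (g i)`
  have hker : ∀ Y ∈ spS (g j), sl g j Y ∈ N → Y = 0 := by
    obtain ⟨K, hK⟩ : ∃ K : Submodule ℂ (Matrix (Ix (g j)) (Ix (g j)) ℂ), ∀ Y, Y ∈ K ↔
        Y ∈ spS (g j) ∧ sl g j Y ∈ N :=
      ⟨spS (g j) ⊓ N.comap (sl g j), fun Y => by rw [Submodule.mem_inf, Submodule.mem_comap]⟩
    by_cases hK0 : K = ⊥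
    · intro Y hY hYN
      have : Y ∈ K := (hK Y).2 ⟨hY, hYN⟩
      rw [hK0] at this
      exact (Submodule.mem_bot ℂ).1 this
    · exfalso
      have hid : ∀ X ∈ spS (g j), ∀ Y ∈ K, X * Y - Y * X ∈ K := by
        intro X hX Y hY
        obtain ⟨X', hX'⟩ := hjR X hX
        have h1 := hLC _ hX' _ ((hK Y).1 hY).2
        rw [br_sl, hcj] at h1
        exact (hK _).2 ⟨br_mem hX ((hK Y).1 hY).1, h1⟩
      have hfull := (hSPI (g j) hgj).2.2.1 K (fun Y hY => ((hK Y).1 hY).1) hid hK0
      obtain ⟨v, hv⟩ := hjN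
      have hvs := (hSPI (g j) hgj).1 v
      rw [← hfull] at hvs
      exact hv ((hK _).1 hvs).2
  have hmapj : spS (g j) ≤ W.map (pr g j) := by
    intro Y hY
    obtain ⟨X, hX⟩ := hjR Y hY
    refine ⟨sl g i X + sl g j Y, (hW _).2 ⟨hX, by rw [hcj]; exact hY, fun l h1 h2 => ?_⟩,
      hcj X Y⟩
    rw [Pi.add_apply, sl_ne h1, sl_ne h2, add_zero]
  have hmapi : W.map (pr g i) ≤ spS (g i) := by
    rintro _ ⟨Z, hZ, rfl⟩
    exact hin Z ((hW Z).1 hZ).1 i
  have hinj : W ⊓ LinearMap.ker (pr g i) = ⊥ := by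
    rw [eq_bot_iff]
    rintro Z ⟨hZ, hZ0⟩
    rw [Submodule.mem_bot]
    have h0 : Z i = 0 := hZ0
    have h1 := hWeq Z hZ
    rw [h0, map_zero, zero_add] at h1
    have h2 := hker (Z j) ((hW Z).1 hZ).2.1 (by rw [← h1]; exact ((hW Z).1 hZ).1)
    rw [h1, h2, map_zero]
  constructor
  · have r1 := rn W (pr g i)
    have r2 := rn W (pr g j)
    rw [hinj, finrank_bot, add_zero] at r1
    have m1 := Submodule.finrank_mono hmapj
    have m2 := Submodule.finrank_mono hmapi
    omega
  · -- the image in `spS (g i)` is an ideal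
    have hid : ∀ X ∈ spS (g i), ∀ Y ∈ W.map (pr g i), X * Y - Y * X ∈ W.map (pr g i) := by
      rintro X hX _ ⟨Z, hZ, rfl⟩
      obtain ⟨X', hX', hX'i⟩ := honto X hX
      refine ⟨X' * Z - Z * X', (hW _).2 ⟨hLC _ hX' _ ((hW Z).1 hZ).1, ?_, ?_⟩, ?_⟩
      · rw [Pi.sub_apply, Pi.mul_apply, Pi.mul_apply]
        exact br_mem (hin X' hX' j) ((hW Z).1 hZ).2.1
      · intro l h1 h2
        rw [Pi.sub_apply, Pi.mul_apply, Pi.mul_apply, ((hW Z).1 hZ).2.2 l h1 h2, mul_zero,
          zero_mul, sub_zero]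
      · show (X' * Z - Z * X') i = _
        rw [Pi.sub_apply, Pi.mul_apply, Pi.mul_apply, hX'i]
        rfl
    have hne : W.map (pr g i) ≠ ⊥ := by
      intro h0
      obtain ⟨v, hv⟩ := hjN
      have hvs := (hSPI (g j) hgj).1 v
      obtain ⟨X, hX⟩ := hjR _ hvs
      have hXW : sl g i X + sl g j (nv v) ∈ W :=
        (hW _).2 ⟨hX, by rw [hcj]; exact hvs, fun l h1 h2 => by
          rw [Pi.add_apply, sl_ne h1, sl_ne h2, add_zero]⟩
      have h2 : X ∈ W.map (pr g i) := ⟨_, hXW, hci X _⟩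
      rw [h0, Submodule.mem_bot] at h2
      rw [h2, map_zero, zero_add] at hX
      exact hv hX
    have hfull := (hSPI (g i) hgi).2.2.1 _ hmapi hid hne
    intro X hX
    rw [← hfull] at hX
    obtain ⟨Z, hZ, hZX⟩ := hX
    have hZX' : Z i = X := hZX
    refine ⟨Z j, ((hW Z).1 hZ).2.1, ?_⟩
    rw [← hZX', ← hWeq Z hZ]
    exact ((hW Z).1 hZ).1

/-- the main induction -/
lemma main (hSPI : Stmt_SPI) (hSPO : Stmt_SPO) (hg : ∀ i, 2 ≤ g i) :
    ∀ (A : Finset (Fin r)) (N : Submodule ℂ (Fam g)), N ≤ gS g A → LC N →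
      ∀ J : Finset (Fin r), J ⊆ A →
      (∀ j ∈ J, ∃ v : Ix (g j) → ℂ, (Pi.single j (nv v) : Fam g) ∉ N) →
      Module.finrank ℂ N + ∑ j ∈ J, (g j + 1) ≤ Module.finrank ℂ (gS g A) := by
  classical
  intro A
  induction A using Finset.induction_on with
  | empty =>
    intro N hN _ J hJ _
    rw [Finset.subset_empty.1 hJ, Finset.sum_empty, add_zero]
    exact Submodule.finrank_mono hN
  | insert i B hi ih =>
    intro N hN hLC J hJ hJN
    have hgi : 0 < g i := by have := hg i; omega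
    rw [dim_insert hi]
    have hdimN := rn N (pr g i)
    have hN' : N ⊓ LinearMap.ker (pr g i) ≤ gS g B := by
      rintro X ⟨hX, hX0⟩
      have h0 : X i = 0 := hX0
      have h1 := mem_gS.1 (hN hX)
      refine mem_gS.2 ⟨fun l hl => h1.1 l (Finset.mem_insert_of_mem hl), fun l hl => ?_⟩
      by_cases h : l = i
      · rw [h]
        exact h0
      · exact h1.2 l (fun hl' => (Finset.mem_insert.1 hl').elim h hl)
    have hLC' : LC (N ⊓ LinearMap.ker (pr g i)) := by
      rintro X ⟨hX, hX0⟩ Y ⟨hY, hY0⟩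
      have h0 : X i = 0 := hX0
      have h1 : Y i = 0 := hY0
      refine ⟨hLC X hX Y hY, ?_⟩
      show (X * Y - Y * X) i = 0
      rw [Pi.sub_apply, Pi.mul_apply, Pi.mul_apply, h0, h1, mul_zero, sub_zero]
    have hJB : J.erase i ⊆ B := by
      intro j hj
      rw [Finset.mem_erase] at hj
      exact (Finset.mem_insert.1 (hJ hj.2)).resolve_left hj.1
    have hJ' : ∀ j ∈ J.erase i, ∃ v : Ix (g j) → ℂ,
        (Pi.single j (nv v) : Fam g) ∉ N ⊓ LinearMap.ker (pr g i) := by
      intro j hj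
      obtain ⟨v, hv⟩ := hJN j (Finset.mem_of_mem_erase hj)
      exact ⟨v, fun h => hv h.1⟩
    have ihN' := ih _ hN' hLC' (J.erase i) hJB hJ'
    have hsum : ∑ j ∈ J, (g j + 1) ≤ (g i + 1) + ∑ j ∈ J.erase i, (g j + 1) := by
      by_cases h : i ∈ J
      · rw [← Finset.add_sum_erase J _ h]
      · rw [Finset.erase_eq_of_notMem h]
        omega
    have hin : ∀ Z ∈ N, ∀ l, Z l ∈ spS (g l) := by
      intro Z hZ l
      by_cases h : l ∈ insert i B
      · exact (mem_gS.1 (hN hZ)).1 l h
      · rw [(mem_gS.1 (hN hZ)).2 l h]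
        exact Submodule.zero_mem _
    have hpN : N.map (pr g i) ≤ spS (g i) := by
      rintro _ ⟨Z, hZ, rfl⟩
      exact hin Z hZ i
    by_cases hcase : N.map (pr g i) = spS (g i)
    · -- the projection is onto
      have honto : ∀ X ∈ spS (g i), ∃ Z ∈ N, Z i = X := by
        intro X hX
        rw [← hcase] at hX
        obtain ⟨Z, hZ, hZX⟩ := hX
        exact ⟨Z, hZ, hZX⟩
      obtain ⟨K, hK⟩ : ∃ K : Submodule ℂ (Matrix (Ix (g i)) (Ix (g i)) ℂ), ∀ Y, Y ∈ K ↔
          Y ∈ spS (g i) ∧ sl g i Y ∈ N :=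
        ⟨spS (g i) ⊓ N.comap (sl g i), fun Y => by rw [Submodule.mem_inf, Submodule.mem_comap]⟩
      have hKid : ∀ X ∈ spS (g i), ∀ Y ∈ K, X * Y - Y * X ∈ K := by
        intro X hX Y hY
        obtain ⟨Z, hZ, hZX⟩ := honto X hX
        have h1 := hLC _ hZ _ ((hK Y).1 hY).2
        rw [br_sl, hZX] at h1
        exact (hK _).2 ⟨br_mem hX ((hK Y).1 hY).1, h1⟩
      by_cases hK0 : K = ⊥
      swap
      · -- the whole factor is contained in `N`
        have hfull := (hSPI (g i) hgi).2.2.1 K (fun Y hY => ((hK Y).1 hY).1) hKid hK0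
        have hiJ : i ∉ J := by
          intro hiJ
          obtain ⟨v, hv⟩ := hJN i hiJ
          have hvs := (hSPI (g i) hgi).1 v
          rw [← hfull] at hvs
          exact hv ((hK _).1 hvs).2
        rw [Finset.erase_eq_of_notMem hiJ] at ihN'
        rw [hcase] at hdimN
        omega
      · have hzero : ∀ Y, sl g i Y ∈ N → Y = 0 := by
          intro Y hY
          have h1 := hin _ hY i
          rw [sl_same] at h1
          have h2 : Y ∈ K := (hK Y).2 ⟨h1, hY⟩
          rw [hK0] at h2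
          exact (Submodule.mem_bot ℂ).1 h2
        -- the projection forgetting the factor `i`
        obtain ⟨q, hq⟩ : ∃ q : Fam g →ₗ[ℂ] Fam g, ∀ X, q X = X - sl g i (X i) :=
          ⟨LinearMap.id - (sl g i).comp (pr g i), fun X => rfl⟩
        have hqi : ∀ X, (q X) i = 0 := by
          intro X
          rw [hq, Pi.sub_apply, sl_same, sub_self]
        have hql : ∀ X l, l ≠ i → (q X) l = X l := by
          intro X l hl
          rw [hq, Pi.sub_apply, sl_ne hl, sub_zero]
        have hqX : ∀ X, X = sl g i (X i) + q X := by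
          intro X
          rw [hq]
          abel
        have hR : N.map q ≤ gS g B := by
          rintro _ ⟨X, hX, rfl⟩
          refine mem_gS.2 ⟨fun l hl => ?_, fun l hl => ?_⟩
          · have hli : l ≠ i := fun h => hi (h ▸ hl)
            rw [hql X l hli]
            exact hin X hX l
          · by_cases h : l = i
            · rw [h]
              exact hqi X
            · rw [hql X l h]
              exact (mem_gS.1 (hN hX)).2 l (fun hl' => (Finset.mem_insert.1 hl').elim h hl)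
        have hRLC : LC (N.map q) := by
          rintro _ ⟨X, hX, rfl⟩ _ ⟨Y, hY, rfl⟩
          refine ⟨X * Y - Y * X, hLC X hX Y hY, ?_⟩
          funext l
          by_cases h : l = i
          · subst h
            rw [hqi, Pi.sub_apply, Pi.mul_apply, Pi.mul_apply, hqi, hqi, mul_zero, sub_zero]
          · rw [hql _ l h, Pi.sub_apply, Pi.mul_apply, Pi.mul_apply, Pi.sub_apply, Pi.mul_apply,
              Pi.mul_apply, hql _ l h, hql _ l h]
        have hdimR := rn N q
        have hkerq : N ⊓ LinearMap.ker q = ⊥ := by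
          rw [eq_bot_iff]
          rintro X ⟨hX, hX0⟩
          have h0 : q X = 0 := hX0
          have h1 := hqX X
          rw [h0, add_zero] at h1
          have h2 := hzero (X i) (by rw [← h1]; exact hX)
          rw [Submodule.mem_bot, h1, h2, map_zero]
        rw [hkerq, finrank_bot, add_zero] at hdimR
        obtain ⟨JR, hJR⟩ : ∃ JR : Finset (Fin r), JR = (J.erase i).filter fun j =>
            ∃ v : Ix (g j) → ℂ, (Pi.single j (nv v) : Fam g) ∉ N.map q := ⟨_, rfl⟩
        have ihR := ih _ hR hRLC JR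
          (by rw [hJR]; exact (Finset.filter_subset _ _).trans hJB)
          (by rw [hJR]; exact fun j hj => (Finset.mem_filter.1 hj).2)
        obtain ⟨JS, hJS⟩ : ∃ JS : Finset (Fin r), JS = (J.erase i).filter fun j =>
            ¬ ∃ v : Ix (g j) → ℂ, (Pi.single j (nv v) : Fam g) ∉ N.map q := ⟨_, rfl⟩
        have hsplit : ∑ j ∈ J.erase i, (g j + 1) = ∑ j ∈ JR, (g j + 1) + ∑ j ∈ JS, (g j + 1) := by
          rw [hJR, hJS]
          exact (Finset.sum_filter_add_sum_filter_not _ _ _).symm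
        -- facts on the elements of `JS`
        have hS : ∀ j ∈ JS, j ≠ i ∧
            (Module.finrank ℂ (spS (g j)) ≤ Module.finrank ℂ (spS (g i))) ∧
            ∀ X ∈ spS (g i), ∃ Y ∈ spS (g j), sl g i X + sl g j Y ∈ N := by
          intro j hj
          rw [hJS, Finset.mem_filter, Finset.mem_erase] at hj
          obtain ⟨⟨hji, hjJ⟩, hj3⟩ := hj
          push Not at hj3
          have hjR : ∀ Y ∈ spS (g j), ∃ X, sl g i X + sl g j Y ∈ N := by
            intro Y hY
            have hgj : 0 < g j := by have := hg j; omega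
            obtain ⟨X, hX, hXY⟩ := full_of_nv hSPI hgj hj3 Y hY
            refine ⟨X i, ?_⟩
            rw [← hXY, ← hqX X]
            exact hX
          exact ⟨hji, caseb hSPI hg hLC honto hin hji hjR (hJN j hjJ)⟩
        have hcard : JS.card ≤ 1 := by
          rw [Finset.card_le_one]
          intro j hj j' hj'
          by_contra hne
          obtain ⟨hji, -, hj3⟩ := hS j hj
          obtain ⟨hji', -, hj3'⟩ := hS j' hj'
          obtain ⟨X, hX, Y, hY, hXY⟩ := (hSPI (g i) hgi).2.2.2.1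
          obtain ⟨X', -, hX'⟩ := hj3 X hX
          obtain ⟨Y', -, hY'⟩ := hj3' Y hY
          have h1 := hLC _ hX' _ hY'
          have h2 : (sl g i X + sl g j X') * (sl g i Y + sl g j' Y') -
              (sl g i Y + sl g j' Y') * (sl g i X + sl g j X') = sl g i (X * Y - Y * X) := by
            funext l
            by_cases hl : l = i
            · subst hl
              simp only [Pi.sub_apply, Pi.mul_apply, Pi.add_apply, sl_same, sl_ne hji.symm,
                sl_ne hji'.symm, add_zero]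
            · by_cases hlj : l = j
              · subst hlj
                simp only [Pi.sub_apply, Pi.mul_apply, Pi.add_apply, sl_ne hl, sl_ne hne,
                  add_zero, mul_zero, zero_mul, sub_zero]
              · simp only [Pi.sub_apply, Pi.mul_apply, Pi.add_apply, sl_ne hl, sl_ne hlj,
                  add_zero, mul_zero, zero_mul, sub_zero]
          rw [h2] at h1
          exact hXY (hzero _ h1)
        have hdimi := (hSPI (g i) hgi).2.2.2.2 (hg i)
        have hfin : (g i + 1) + ∑ j ∈ JS, (g j + 1) ≤ Module.finrank ℂ (spS (g i)) := by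
          rcases Nat.lt_or_ge JS.card 1 with h | h
          · have : JS = ∅ := Finset.card_eq_zero.1 (by omega)
            rw [this, Finset.sum_empty]
            omega
          · obtain ⟨j, hj⟩ := Finset.card_eq_one.1 (le_antisymm hcard h)
            rw [hj, Finset.sum_singleton]
            have hjS : j ∈ JS := by rw [hj]; exact Finset.mem_singleton_self j
            have h1 := (hS j hjS).2.1
            have hgj : 0 < g j := by have := hg j; omega
            have h2 := (hSPI (g j) hgj).2.2.2.2 (hg j)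
            omega
        omega
    · -- the projection is not onto
      have hex : ∃ v : Ix (g i) → ℂ, nv v ∉ N.map (pr g i) := by
        by_contra hc
        push Not at hc
        apply hcase
        refine le_antisymm hpN fun X hX => ?_
        have h1 := (hSPI (g i) hgi).2.1 X hX
        have h2 : Submodule.span ℂ (Set.range (nv : (Ix (g i) → ℂ) →
            Matrix (Ix (g i)) (Ix (g i)) ℂ)) ≤ N.map (pr g i) := by
          rw [Submodule.span_le]
          rintro _ ⟨v, rfl⟩
          exact hc v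
        exact h2 h1
      have hbr : ∀ X ∈ N.map (pr g i), ∀ Y ∈ N.map (pr g i), X * Y - Y * X ∈ N.map (pr g i) := by
        rintro _ ⟨X, hX, rfl⟩ _ ⟨Y, hY, rfl⟩
        exact ⟨X * Y - Y * X, hLC X hX Y hY, rfl⟩
      have h3 := hSPO (g i) (hg i) _ hpN hbr hex
      omega

end COD_

open COD_

theorem cod_proof (h1 : Stmt_SPI) (h2 : Stmt_SPO) : Stmt_COD := by
  intro r g hg N hN hLC J hJ
  have e : gS g Finset.univ = Submodule.pi Set.univ fun i => spS (g i) := by
    unfold gS
    simp only [Finset.mem_univ, if_true]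
  have h := main h1 h2 hg Finset.univ N (fun X hX => mem_gS.2
    ⟨fun i _ => hN X hX i, fun i hi => absurd (Finset.mem_univ i) hi⟩) hLC J
    (Finset.subset_univ J) hJ
  rw [e] at h
  exact h

end Pool.Agent.NEX
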