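import Pool.Agent.NEX.Stmts

set_option autoImplicit false

/-!
# NEX, module CRV: the singular fibres of the family `x ^ (2 g + 1) + e x + t`
-/

open scoped BigOperators

namespace Pool.Agent.NEX

open Pool.Agent.GPH (P2)
open Pool.Agent.DG2 (Sep critVals crv)

namespace CRV_

open Polynomial

/-- All coefficients of the polynomial. -/
def fe (g : ℕ) (e : ℚ) : Fin (2 * g + 1) → ℚ := fun k => if (k : ℕ) = 1 then e else 0

theorem fe_succ (g : ℕ) (e : ℚ) : (fun k : Fin (2 * g) => fe g e k.succ) = ce g e := by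
  funext k
  unfold fe ce
  rw [Fin.val_succ]
  by_cases h : (k : ℕ) = 0
  · rw [if_pos h, if_pos (by omega)]
  · rw [if_neg h, if_neg (by omega)]

theorem fe_zero (g : ℕ) (e : ℚ) : fe g e 0 = 0 := by
  unfold fe
  rw [if_neg]
  rw [Fin.val_zero]
  omega

/-- The polynomial. -/
theorem crv_fe (g : ℕ) (hg : 0 < g) (e : ℚ) :
    crv g (fe g e) 0 = X ^ (2 * g + 1) + C (e : ℂ) * X := by
  unfold crv Pool.Agent.GPH.pol
  have h1 : ∑ k : Fin (2 * g + 1), C ((fe g e k : ℚ) : ℂ) * X ^ (k : ℕ) =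
      C (e : ℂ) * X := by
    rw [Finset.sum_eq_single (⟨1, by omega⟩ : Fin (2 * g + 1))]
    · unfold fe
      simp
    · intro b _ hb
      have hb' : (b : ℕ) ≠ 1 := by
        intro h
        apply hb
        apply Fin.ext
        exact h
      unfold fe
      rw [if_neg hb']
      simp
    · intro h
      exact absurd (Finset.mem_univ _) h
  rw [h1, Rat.cast_zero, C_0, add_zero]

/-- The right hand side. -/
noncomputable def kap (g : ℕ) (e : ℚ) : ℂ :=
  -((2 * g : ℂ) ^ (2 * g) * (e : ℂ) ^ (2 * g + 1)) / (2 * g + 1) ^ (2 * g + 1)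

theorem den_ne (g : ℕ) : (2 * (g : ℂ) + 1) ≠ 0 := by
  exact_mod_cast Nat.succ_ne_zero (2 * g)

theorem kap_ne (g : ℕ) (hg : 0 < g) (e : ℚ) (he : e ≠ 0) : kap g e ≠ 0 := by
  unfold kap
  have h1 : (g : ℂ) ≠ 0 := by exact_mod_cast hg.ne'
  have h2 : (e : ℂ) ≠ 0 := by exact_mod_cast he
  exact div_ne_zero (neg_ne_zero.mpr (mul_ne_zero (pow_ne_zero _ (mul_ne_zero two_ne_zero h1))
    (pow_ne_zero _ h2))) (pow_ne_zero _ (den_ne g))

theorem crit_iff (g : ℕ) (hg : 0 < g) (e : ℚ) (he : e ≠ 0) (v : ℂ) :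
    v ∈ critVals (crv g (fe g e) 0) ↔ v ^ (2 * g) = kap g e := by
  rw [crv_fe g hg e]
  have h1 : (g : ℂ) ≠ 0 := by exact_mod_cast hg.ne'
  have h2 : (e : ℂ) ≠ 0 := by exact_mod_cast he
  have h3 := den_ne g
  have hd : ∀ x : ℂ, (derivative (X ^ (2 * g + 1) + C (e : ℂ) * X)).eval x =
      (2 * g + 1) * x ^ (2 * g) + e := by
    intro x
    simp
  have hv : ∀ x : ℂ, (X ^ (2 * g + 1) + C (e : ℂ) * X).eval x = x ^ (2 * g) * x + e * x := by
    intro x
    simp [pow_succ]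
  have hcr : ∀ x : ℂ, (2 * g + 1) * x ^ (2 * g) + e = 0 ↔ x ^ (2 * g) = -e / (2 * g + 1) := by
    intro x
    rw [eq_div_iff h3]
    constructor
    · intro h
      linear_combination h
    · intro h
      linear_combination h
  have hw : (2 * (g : ℂ) * e / (2 * g + 1)) ≠ 0 :=
    div_ne_zero (mul_ne_zero (mul_ne_zero two_ne_zero h1) h2) h3
  have hk : kap g e = (-e / (2 * g + 1)) * (2 * (g : ℂ) * e / (2 * g + 1)) ^ (2 * g) := by
    unfold kap
    rw [div_pow, mul_pow, mul_pow (2 * (g : ℂ)), mul_pow, pow_succ (e : ℂ), pow_succ (2 * (g : ℂ) + 1)]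
    field_simp
  constructor
  · rintro ⟨x, hx1, hx2⟩
    rw [hd] at hx1
    rw [hv] at hx2
    have h4 := (hcr x).mp hx1
    have h5 : v = x * (2 * (g : ℂ) * e / (2 * g + 1)) := by
      rw [← hx2, h4]
      field_simp
      ring
    rw [h5, mul_pow, h4, hk]
  · intro h
    refine ⟨v / (2 * (g : ℂ) * e / (2 * g + 1)), ?_, ?_⟩
    · rw [hd, hcr, div_pow, h, hk, mul_div_assoc, div_self (pow_ne_zero _ hw), mul_one]
    · have h4 : (v / (2 * (g : ℂ) * e / (2 * g + 1))) ^ (2 * g) = -e / (2 * g + 1) := by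
        rw [div_pow, h, hk, mul_div_assoc, div_self (pow_ne_zero _ hw), mul_one]
      rw [hv, h4]
      field_simp
      ring

theorem card_roots (n : ℕ) (hn : 0 < n) (κ : ℂ) (hκ : κ ≠ 0) : {v : ℂ | v ^ n = κ}.ncard = n := by
  classical
  have hζ := Complex.isPrimitiveRoot_exp n hn.ne'
  have h1 : {v : ℂ | v ^ n = κ} = ((nthRoots n κ).toFinset : Set ℂ) := by
    ext v
    rw [Finset.mem_coe, Multiset.mem_toFinset, mem_nthRoots hn]
    rfl
  rw [h1, Set.ncard_coe_finset, Multiset.toFinset_card_of_nodup (hζ.nthRoots_nodup hκ),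
    hζ.card_nthRoots, if_pos]
  obtain ⟨w, hw⟩ := IsAlgClosed.exists_pow_nat_eq κ hn
  exact ⟨w, hw⟩

end CRV_

open CRV_ in
/-- Module CRV. -/
theorem crv_proof (hCvP : Pool.Agent.DG2.Stmt_CvP) : Stmt_CRV := by
  intro g hg e he
  obtain ⟨h1, h2⟩ := hCvP g (fe g e)
  rw [fe_succ] at h1 h2
  constructor
  · apply h1
    have h3 : critVals (crv g (fe g e) 0) = {v : ℂ | v ^ (2 * g) = kap g e} := by
      ext v
      exact crit_iff g hg e he v
    rw [h3]
    exact card_roots (2 * g) (by omega) _ (kap_ne g hg e he)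
  · intro z
    have h3 := h2 z
    rw [fe_zero, Rat.cast_zero, zero_add, crit_iff g hg e he, Even.neg_pow (even_two_mul g)] at h3
    exact h3

end Pool.Agent.NEX
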