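import Pool.Agent.NEX.Stmts
import Pool.Agent.GPH.SEG

set_option autoImplicit false

/-!
# NEX, EEV: the reference integrals of the curve `y ^ 2 = x ^ (2 g + 1) + e x`
-/

open scoped BigOperators Topology
open Metric Set

namespace Pool.Agent.NEX

open Pool.Agent.HGP (csq)
open Pool.Agent.GPH (Ord EE fz mid rst)

namespace EEV_

lemma csq_der {z : ℂ} (hz : z ∈ Complex.slitPlane) : HasDerivAt csq (1 / (2 * csq z)) z := by
  have h := (HGP.csq_differentiableAt hz).hasDerivAt
  have h2 := h.mul h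
  have h3 : (csq * csq) = fun z => z := by
    funext z; exact HGP.csq_mul_self z
  rw [h3] at h2
  have h4 := h2.unique (hasDerivAt_id z)
  have h5 : csq z ≠ 0 := HGP.csq_ne_zero (Complex.slitPlane_ne_zero hz)
  have h6 : deriv csq z = 1 / (2 * csq z) := by
    field_simp
    linear_combination h4
  rwa [h6] at h

lemma root_cases {g : ℕ} {e z : ℂ} (h : z ^ (2 * g + 1) + e * z = 0) :
    z = 0 ∨ z ^ (2 * g) = -e := by
  have h1 : z * (z ^ (2 * g) + e) = 0 := by rw [← h]; ring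
  rcases mul_eq_zero.1 h1 with h | h
  · left; exact h
  · right; exact eq_neg_of_add_eq_zero_left h

/-- The half plane which contains the open segment. -/
lemma side {N : ℕ} {κ : ℂ} {z : ℕ → ℂ} (h : Ord N κ z) {m : ℕ} (hm : m + 1 < N) {i0 : ℕ}
    (hi0 : i0 < N) (hz : z i0 = 0) : ∃ u : ℂ, u ≠ 0 ∧
      (∀ φ : ℝ, mid z m φ = 0 ∨ 0 < (u * mid z m φ).re) ∧
      ∀ φ ∈ Ioo (0 : ℝ) Real.pi, 0 < (u * mid z m φ).re := by
  have hκ : κ ≠ 0 := by
    rintro rfl
    exact absurd h.1 (by simp)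
  have key : ∀ φ : ℝ, (κ * mid z m φ).re = (1 - GPH.SEG.sp φ) * (κ * z m).re +
      GPH.SEG.sp φ * (κ * z (m + 1)).re := by
    intro φ
    have e : κ * mid z m φ = ((1 - GPH.SEG.sp φ : ℝ) : ℂ) * (κ * z m) +
        ((GPH.SEG.sp φ : ℝ) : ℂ) * (κ * z (m + 1)) := by
      rw [GPH.SEG.mid_eq]; push_cast; ring
    rw [e, Complex.add_re, Complex.re_ofReal_mul, Complex.re_ofReal_mul]
  rcases Nat.lt_or_ge m i0 with hlt | hle
  · -- the root 0 is on the right
    have hA : (κ * z m).re < 0 := by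
      have := h.2 m i0 hlt hi0
      rw [hz, zero_sub, mul_neg, Complex.neg_re] at this
      linarith
    have hB : z (m + 1) = 0 ∨ (κ * z (m + 1)).re < 0 := by
      rcases Nat.lt_or_ge (m + 1) i0 with h1 | h1
      · right
        have := h.2 (m + 1) i0 h1 hi0
        rw [hz, zero_sub, mul_neg, Complex.neg_re] at this
        linarith
      · left
        have : i0 = m + 1 := by omega
        rw [← this, hz]
    have hB' : (κ * z (m + 1)).re ≤ 0 := by
      rcases hB with hB | hB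
      · rw [hB]; simp
      · exact hB.le
    refine ⟨-κ, neg_ne_zero.2 hκ, ?_, ?_⟩
    · intro φ
      rw [neg_mul, Complex.neg_re, key]
      have a := GPH.SEG.sp_nonneg φ
      have b := GPH.SEG.sp_le_one φ
      by_cases c : GPH.SEG.sp φ = 1
      · rcases hB with hB | hB
        · left
          rw [GPH.SEG.mid_eq, c, hB]; push_cast; ring
        · right
          rw [c]; linarith
      · right
        have h1 : 0 < 1 - GPH.SEG.sp φ := by
          rcases lt_or_eq_of_le b with h | h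
          · linarith
          · exact absurd h c
        nlinarith
    · intro φ hφ
      rw [neg_mul, Complex.neg_re, key]
      have hs := GPH.SEG.sp_mem_Ioo hφ
      have h1 : 0 < 1 - GPH.SEG.sp φ := by linarith [hs.2]
      have h2 : 0 < GPH.SEG.sp φ := hs.1
      nlinarith
  · have hB : 0 < (κ * z (m + 1)).re := by
      have := h.2 i0 (m + 1) (by omega) hm
      rwa [hz, sub_zero] at this
    have hA : z m = 0 ∨ 0 < (κ * z m).re := by
      rcases Nat.lt_or_ge i0 m with h1 | h1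
      · right
        have := h.2 i0 m h1 (by omega)
        rwa [hz, sub_zero] at this
      · left
        have : i0 = m := by omega
        rw [← this, hz]
    have hA' : 0 ≤ (κ * z m).re := by
      rcases hA with hA | hA
      · rw [hA]; simp
      · exact hA.le
    refine ⟨κ, hκ, ?_, ?_⟩
    · intro φ
      rw [key]
      have a := GPH.SEG.sp_nonneg φ
      have b := GPH.SEG.sp_le_one φ
      by_cases c : GPH.SEG.sp φ = 0
      · rcases hA with hA | hA
        · left
          rw [GPH.SEG.mid_eq, c, hA]; push_cast; ring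
        · right
          rw [c]; linarith
      · right
        have h1 : 0 < GPH.SEG.sp φ := by
          rcases lt_or_eq_of_le a with h | h
          · exact h
          · exact absurd h.symm c
        have h2 := mul_nonneg (sub_nonneg.2 b) hA'
        have h3 := mul_pos h1 hB
        linarith
    · intro φ hφ
      rw [key]
      have hs := GPH.SEG.sp_mem_Ioo hφ
      have h1 : 0 < 1 - GPH.SEG.sp φ := by linarith [hs.2]
      have h2 : 0 < GPH.SEG.sp φ := hs.1
      have h3 := mul_nonneg h1.le hA'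
      have h4 := mul_pos h2 hB
      linarith

/-- The norms on the segment. -/
lemma norm_seg {g : ℕ} {e : ℂ} (hg : 0 < g) {z : ℕ → ℂ} {m : ℕ} (hne : z m ≠ z (m + 1))
    (h0 : z m = 0 ∨ z m ^ (2 * g) = -e) (h1 : z (m + 1) = 0 ∨ z (m + 1) ^ (2 * g) = -e) :
    (∀ φ : ℝ, ‖mid z m φ‖ ^ (2 * g) ≤ ‖e‖) ∧
      ∀ φ ∈ Ioo (0 : ℝ) Real.pi, ‖mid z m φ‖ ^ (2 * g) < ‖e‖ := by
  have hn : ∀ w : ℂ, (w = 0 ∨ w ^ (2 * g) = -e) → ‖w‖ ^ (2 * g) ≤ ‖e‖ := by
    intro w hw
    rcases hw with hw | hw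
    · rw [hw, norm_zero, zero_pow (by omega)]; exact norm_nonneg _
    · rw [← norm_pow, hw, norm_neg]
  set r : ℝ := max ‖z m‖ ‖z (m + 1)‖ with hr
  have hr0 : 0 ≤ r := le_trans (norm_nonneg _) (le_max_left _ _)
  have hre : r ^ (2 * g) ≤ ‖e‖ := by
    rcases max_choice ‖z m‖ ‖z (m + 1)‖ with h | h
    · rw [hr, h]; exact hn _ h0
    · rw [hr, h]; exact hn _ h1
  have hmid : ∀ φ, mid z m φ = (1 - GPH.SEG.sp φ) • z m + GPH.SEG.sp φ • z (m + 1) := by
    intro φ
    rw [GPH.SEG.mid_eq, Complex.real_smul, Complex.real_smul]; push_cast; ring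
  constructor
  · intro φ
    refine le_trans (pow_le_pow_left₀ (norm_nonneg _) ?_ _) hre
    rw [hmid]
    have a := GPH.SEG.sp_nonneg φ
    have b := GPH.SEG.sp_le_one φ
    calc ‖(1 - GPH.SEG.sp φ) • z m + GPH.SEG.sp φ • z (m + 1)‖
        ≤ ‖(1 - GPH.SEG.sp φ) • z m‖ + ‖GPH.SEG.sp φ • z (m + 1)‖ := norm_add_le _ _
      _ = (1 - GPH.SEG.sp φ) * ‖z m‖ + GPH.SEG.sp φ * ‖z (m + 1)‖ := by
          rw [norm_smul, norm_smul, Real.norm_of_nonneg a, Real.norm_of_nonneg (by linarith)]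
      _ ≤ (1 - GPH.SEG.sp φ) * r + GPH.SEG.sp φ * r := by
          apply add_le_add
          · exact mul_le_mul_of_nonneg_left (le_max_left _ _) (by linarith)
          · exact mul_le_mul_of_nonneg_left (le_max_right _ _) a
      _ = r := by ring
  · intro φ hφ
    have hs := GPH.SEG.sp_mem_Ioo hφ
    refine lt_of_lt_of_le (pow_lt_pow_left₀ ?_ (norm_nonneg _) (by omega)) hre
    rw [hmid]
    exact norm_combo_lt_of_ne (le_max_left _ _) (le_max_right _ _) hne (by linarith [hs.2])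
      hs.1 (by ring)

end EEV_

open EEV_

theorem eev_proof (h1 : Stmt_PSI) : Stmt_EEV := by
  intro g e hg he
  obtain ⟨β, Ψ, Ψ', hc, hb, hd⟩ := h1 g e hg he
  refine ⟨β, ?_⟩
  intro κ z hO hf m hm
  have hroot : ∀ j < 2 * g + 1, z j = 0 ∨ z j ^ (2 * g) = -e := by
    intro j hj
    apply root_cases
    rw [← hf]
    unfold fz
    exact Finset.prod_eq_zero (Finset.mem_range.2 hj) (sub_self _)
  obtain ⟨i0, hi0, hz0⟩ : ∃ i0, i0 < 2 * g + 1 ∧ z i0 = 0 := by
    have h0 := hf 0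
    rw [zero_pow (by omega), mul_zero, add_zero] at h0
    unfold fz at h0
    rw [Finset.prod_eq_zero_iff] at h0
    obtain ⟨i, hi, h⟩ := h0
    refine ⟨i, Finset.mem_range.1 hi, ?_⟩
    rw [zero_sub, neg_eq_zero] at h
    exact h
  have hne : z m ≠ z (m + 1) := by
    intro h
    have := hO.2 m (m + 1) (by omega) hm
    rw [h, sub_self, mul_zero, Complex.zero_re] at this
    exact lt_irrefl _ this
  obtain ⟨u, hu0, hu1, hu2⟩ := side hO hm hi0 hz0
  obtain ⟨hn1, hn2⟩ := norm_seg hg hne (hroot m (by omega)) (hroot (m + 1) hm)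
  have hslit : ∀ w : ℂ, 0 < w.re → w ∈ Complex.slitPlane := fun w hw =>
    Complex.mem_slitPlane_iff.2 (Or.inl hw)
  have hcu : csq u ≠ 0 := HGP.csq_ne_zero hu0
  have hce : csq e ≠ 0 := HGP.csq_ne_zero he
  set R : ℂ → ℂ := fun x => csq (u * x) / csq u with hR
  have hR2 : ∀ x, R x ^ 2 = x := by
    intro x
    simp only [hR]
    rw [div_pow, HGP.csq_sq, HGP.csq_sq, mul_div_cancel_left₀ _ hu0]
  set S : ℂ → ℂ := fun x => csq (1 + x ^ (2 * g) / e) with hS
  set Y : ℂ → ℂ := fun x => csq e * R x * S x with hY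
  have hY2 : ∀ x, Y x ^ 2 = fz (2 * g + 1) z x := by
    intro x
    simp only [hY, hS]
    rw [mul_pow, mul_pow, HGP.csq_sq, hR2, HGP.csq_sq, hf]
    field_simp
    ring
  have hSs : ∀ x, ‖x‖ ^ (2 * g) < ‖e‖ → 1 + x ^ (2 * g) / e ∈ Complex.slitPlane := by
    intro x hx
    apply hslit
    have h2 : ‖x ^ (2 * g) / e‖ < 1 := by
      rw [norm_div, norm_pow, div_lt_one (norm_pos_iff.2 he)]
      exact hx
    have h3 := Complex.abs_re_le_norm (x ^ (2 * g) / e)
    rw [Complex.add_re, Complex.one_re]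
    have h4 := neg_abs_le (x ^ (2 * g) / e).re
    linarith
  -- continuity of `R`
  have hRc : ∀ x, (x = 0 ∨ 0 < (u * x).re) → ContinuousAt R x := by
    intro x hx
    simp only [hR]
    apply ContinuousAt.div_const
    have hm1 : ContinuousAt (fun x => u * x) x := by fun_prop
    have hm2 : ContinuousAt csq (u * x) := by
      rcases hx with hx | hx
      · rw [hx, mul_zero]; exact HGP.csq_continuousAt_zero
      · exact HGP.csq_continuousAt (hslit _ hx)
    exact ContinuousAt.comp (f := fun x => u * x) hm2 hm1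
  have hRd : ∀ x, 0 < (u * x).re → HasDerivAt R (1 / (2 * R x)) x := by
    intro x hx
    have h2 : HasDerivAt (fun x : ℂ => u * x) (u * 1) x := (hasDerivAt_id x).const_mul u
    have h3 := (csq_der (hslit _ hx)).comp x h2
    have h4 := h3.div_const (csq u)
    have h5 : csq (u * x) ≠ 0 := HGP.csq_ne_zero (Complex.slitPlane_ne_zero (hslit _ hx))
    refine h4.congr_deriv ?_
    have h6 : csq u * csq u = u := HGP.csq_mul_self u
    simp only [hR]
    field_simp
    rw [sq, h6]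
  have hYne : ∀ x, 0 < (u * x).re → ‖x‖ ^ (2 * g) < ‖e‖ → Y x ≠ 0 := by
    intro x hx hx2
    simp only [hY]
    refine mul_ne_zero (mul_ne_zero hce ?_) ?_
    · simp only [hR]
      exact div_ne_zero (HGP.csq_ne_zero (Complex.slitPlane_ne_zero (hslit _ hx))) hcu
    · exact HGP.csq_ne_zero (Complex.slitPlane_ne_zero (hSs x hx2))
  have hSc : ∀ x, ‖x‖ ^ (2 * g) < ‖e‖ → ContinuousAt S x := by
    intro x hx
    have hm1 : ContinuousAt (fun x : ℂ => 1 + x ^ (2 * g) / e) x := by fun_prop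
    exact ContinuousAt.comp (f := fun x : ℂ => 1 + x ^ (2 * g) / e)
      (HGP.csq_continuousAt (hSs x hx)) hm1
  -- the primitives
  set G : ℕ → ℂ → ℂ := fun l x => x ^ l * R x * Ψ l x / csq e with hG
  have hGd : ∀ l x, 0 < (u * x).re → ‖x‖ ^ (2 * g) < ‖e‖ →
      HasDerivAt (G l) (x ^ l / Y x) x := by
    intro l x hx hx2
    obtain ⟨hd1, hd2⟩ := hd l x hx2
    have h2 := (((hasDerivAt_pow l x).mul (hRd x hx)).mul hd1).div_const (csq e)
    have hRne : R x ≠ 0 := by
      simp only [hR]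
      exact div_ne_zero (HGP.csq_ne_zero (Complex.slitPlane_ne_zero (hslit _ hx))) hcu
    have hSne : S x ≠ 0 := HGP.csq_ne_zero (Complex.slitPlane_ne_zero (hSs x hx2))
    refine h2.congr_deriv ?_
    have hl : (l : ℂ) * x ^ (l - 1) * x = l * x ^ l := by
      rcases Nat.eq_zero_or_pos l with h | h
      · subst h; simp
      · rw [mul_assoc, ← pow_succ, Nat.sub_add_cancel h]
    have hRR := hR2 x
    simp only [hY]
    rw [div_eq_div_iff hce (mul_ne_zero (mul_ne_zero hce hRne) hSne)]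
    have e1 : (x ^ l : ℂ) * (1 / (2 * R x)) * R x = x ^ l / 2 := by
      field_simp
    have e2 : (((l : ℂ) + 1 / 2) * Ψ l x + x * Ψ' l x) * S x = 1 := by
      rw [hd2]
      simp only [hS]
      exact one_div_mul_cancel hSne
    simp only [Pi.mul_apply]
    have e3 : (((l : ℂ) * x ^ (l - 1) * R x + x ^ l * (1 / (2 * R x))) * Ψ l x +
        x ^ l * R x * Ψ' l x) * R x = x ^ l * (((l : ℂ) + 1 / 2) * Ψ l x + x * Ψ' l x) := by
      calc (((l : ℂ) * x ^ (l - 1) * R x + x ^ l * (1 / (2 * R x))) * Ψ l x +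
        x ^ l * R x * Ψ' l x) * R x
          = ((l : ℂ) * x ^ (l - 1) * (R x ^ 2) + x ^ l * (1 / (2 * R x)) * R x) * Ψ l x +
            x ^ l * R x ^ 2 * Ψ' l x := by ring
        _ = ((l : ℂ) * x ^ l + x ^ l / 2) * Ψ l x + x ^ l * x * Ψ' l x := by
            rw [e1, hRR, hl]
        _ = _ := by ring
    calc (((l : ℂ) * x ^ (l - 1) * R x + x ^ l * (1 / (2 * R x))) * Ψ l x +
        x ^ l * R x * Ψ' l x) * (csq e * R x * S x)
        = ((((l : ℂ) * x ^ (l - 1) * R x + x ^ l * (1 / (2 * R x))) * Ψ l x +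
            x ^ l * R x * Ψ' l x) * R x) * S x * csq e := by ring
      _ = x ^ l * (((((l : ℂ) + 1 / 2) * Ψ l x + x * Ψ' l x)) * S x) * csq e := by
          rw [e3]; ring
      _ = x ^ l * csq e := by rw [e2, mul_one]
  -- the ratio
  set ρ : ℝ → ℂ := fun φ => ((z (m + 1) - z m) / 2 * (Real.sin φ : ℝ) *
    rst (2 * g + 1) z m (mid z m φ)) / Y (mid z m φ) with hρ
  have hρc : ContinuousOn ρ (Ioo 0 Real.pi) := by
    apply ContinuousOn.div
    · apply Continuous.continuousOn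
      exact (continuous_const.mul (Complex.continuous_ofReal.comp Real.continuous_sin)).mul
        (GPH.SEG.rst_cont hO hm)
    · intro φ hφ
      apply ContinuousAt.continuousWithinAt
      have hm1 : ContinuousAt (mid z m) φ := (GPH.SEG.mid_cont z m).continuousAt
      have hm2 : ContinuousAt Y (mid z m φ) :=
        (continuousAt_const.mul (hRc _ (Or.inr (hu2 φ hφ)))).mul (hSc _ (hn2 φ hφ))
      exact ContinuousAt.comp (f := mid z m) hm2 hm1
    · intro φ hφ
      exact hYne _ (hu2 φ hφ) (hn2 φ hφ)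
  have hρs : ∀ φ ∈ Ioo (0 : ℝ) Real.pi, ρ φ ^ 2 = (-1) ^ (2 * g + 1 - 1 - m) := by
    intro φ hφ
    have h1 := hYne _ (hu2 φ hφ) (hn2 φ hφ)
    simp only [hρ]
    rw [div_pow, GPH.SEG.key_sq (2 * g + 1) z m hm φ, ← hY2]
    rw [mul_div_assoc, div_self (pow_ne_zero _ h1), mul_one]
  have hpi : Real.pi / 2 ∈ Ioo (0 : ℝ) Real.pi := by
    constructor <;> linarith [Real.pi_pos]
  have hs0 : ρ (Real.pi / 2) ^ 2 = (-1) ^ (2 * g + 1 - 1 - m) := hρs _ hpi
  have hne1 : ((-1 : ℂ)) ^ (2 * g + 1 - 1 - m) ≠ 0 := pow_ne_zero _ (by norm_num)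
  have hs0ne : ρ (Real.pi / 2) ≠ 0 := by
    intro h
    rw [h] at hs0
    apply hne1
    rw [← hs0]; norm_num
  obtain ⟨σ, hσ2, hσ⟩ : ∃ σ : ℂ, σ ^ 2 = (-1) ^ (2 * g + 1 - 1 - m) ∧
      ∀ φ ∈ Ioo (0 : ℝ) Real.pi, ρ φ = σ := by
    rcases isPreconnected_Ioo.eq_or_eq_neg_of_sq_eq hρc
      (continuousOn_const (c := ρ (Real.pi / 2)))
      (fun φ hφ => by simp only [Pi.pow_apply]; rw [hρs φ hφ, hs0])
      (fun {φ} _ => hs0ne) with h | h
    · exact ⟨ρ (Real.pi / 2), hs0, fun φ hφ => h hφ⟩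
    · exact ⟨-ρ (Real.pi / 2), by rw [neg_sq]; exact hs0, fun φ hφ => h hφ⟩
  have hσ4 : σ ^ 4 = 1 := by
    have : σ ^ 4 = (σ ^ 2) ^ 2 := by ring
    rw [this, hσ2, ← pow_mul, mul_comm, pow_mul]
    norm_num
  have hσ0 : σ ≠ 0 := by
    rintro rfl
    norm_num at hσ4
  have hmid0 : mid z m 0 = z m := by unfold mid; simp; ring
  have hmidpi : mid z m Real.pi = z (m + 1) := by unfold mid; simp; ring
  refine ⟨σ⁻¹, R (z m), R (z (m + 1)), csq e, ?_, hR2 _, hR2 _, HGP.csq_sq e, ?_⟩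
  · rw [inv_pow, hσ4, inv_one]
  intro l
  have hd : ∀ φ ∈ Ioo (0 : ℝ) Real.pi, HasDerivAt (fun φ : ℝ => G l (mid z m φ))
      (σ * (mid z m φ ^ l / rst (2 * g + 1) z m (mid z m φ))) φ := by
    intro φ hφ
    have h1 := (hGd l _ (hu2 φ hφ) (hn2 φ hφ)).scomp φ (GPH.SEG.mid_deriv z m φ)
    have h2 := hσ φ hφ
    simp only [hρ] at h2
    have h3 := hYne _ (hu2 φ hφ) (hn2 φ hφ)
    have h4 := GPH.SEG.rst_ne hO hm φ
    refine h1.congr_deriv ?_
    rw [smul_eq_mul, ← h2]
    field_simp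
  have hcG : ContinuousOn (fun φ : ℝ => G l (mid z m φ)) (Icc 0 Real.pi) := by
    have hcm : ContinuousOn (fun φ : ℝ => mid z m φ) (Icc 0 Real.pi) :=
      (GPH.SEG.mid_cont z m).continuousOn
    have hcR : ContinuousOn (fun φ : ℝ => R (mid z m φ)) (Icc 0 Real.pi) := by
      intro φ _
      apply ContinuousAt.continuousWithinAt
      have hm1 : ContinuousAt (mid z m) φ := (GPH.SEG.mid_cont z m).continuousAt
      exact ContinuousAt.comp (f := mid z m) (hRc _ (hu1 φ)) hm1
    have hcΨ : ContinuousOn (fun φ : ℝ => Ψ l (mid z m φ)) (Icc 0 Real.pi) :=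
      (hc l).comp hcm (fun φ _ => hn1 φ)
    exact (((hcm.pow l).mul hcR).mul hcΨ).div_const _
  have hi : Continuous (fun φ : ℝ => σ * (mid z m φ ^ l / rst (2 * g + 1) z m (mid z m φ))) := by
    apply continuous_const.mul
    exact ((GPH.SEG.mid_cont z m).pow l).div (GPH.SEG.rst_cont hO hm)
      (fun φ => GPH.SEG.rst_ne hO hm φ)
  have hft := intervalIntegral.integral_eq_sub_of_hasDerivAt_of_le Real.pi_pos.le hcG hd
    (hi.intervalIntegrable 0 Real.pi)
  rw [hmid0, hmidpi, intervalIntegral.integral_const_mul] at hft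
  have hval : ∀ j < 2 * g + 1, G l (z j) = β l * (R (z j) * z j ^ l) / csq e := by
    intro j hj
    simp only [hG]
    rcases hroot j hj with h | h
    · have : R (z j) = 0 := by
        have := hR2 (z j)
        rw [h] at this ⊢
        exact pow_eq_zero_iff (two_ne_zero) |>.1 this
      rw [this]; ring
    · rw [hb l _ h]; ring
  rw [hval m (by omega), hval (m + 1) hm] at hft
  have hEE : EE (2 * g + 1) z m l =
      ∫ φ in (0 : ℝ)..Real.pi, mid z m φ ^ l / rst (2 * g + 1) z m (mid z m φ) := rfl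
  rw [← hEE] at hft
  have : EE (2 * g + 1) z m l = σ⁻¹ * (σ * EE (2 * g + 1) z m l) := by
    rw [← mul_assoc, inv_mul_cancel₀ hσ0, one_mul]
  rw [this, hft]
  ring

end Pool.Agent.NEX
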