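import Pool.Agent.NEX.Stmts
import Pool.Agent.DRD.Full

set_option autoImplicit false

/-!
# NEX, module FIN: the final theorem
-/

open scoped BigOperators Topology
open Metric Set

namespace Pool.Agent.NEX

open Pool.Agent.HGP (Ix Simil Idx fvec)
open Pool.Agent.UBD (Pt Crd Pol ev InG GrpS Dns Inf1 Lie nv sg1 ex)
open Pool.Agent.GPH (f0 P2 pol CPath num perMat fus Ord EE fz refP Tm polz)
open Pool.Agent.DG2 (cC Yv NmC NmQ Sep Ref Ht)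
open Pool.Agent.DRD (GalL)

noncomputable section

namespace FIN_

theorem f0_ce (g : ℕ) (hg : 0 < g) (e : ℚ) :
    f0 (cC (ce g e)) = Polynomial.X ^ (2 * g + 1) + Polynomial.C (e : ℂ) * Polynomial.X := by
  unfold f0
  congr 1
  have h0 : 0 < 2 * g := by omega
  rw [Finset.sum_eq_single (⟨0, h0⟩ : Fin (2 * g))]
  · simp [cC, ce]
  · intro b _ hb
    have hb' : (b : ℕ) ≠ 0 := fun h => hb (Fin.ext h)
    simp [cC, ce, hb']
  · intro h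
    exact absurd (Finset.mem_univ _) h

theorem fus_ce (hN : DG2.Stmt_NmQ) (g : ℕ) (hg : 0 < g) (e t : ℚ) (z : ℂ) (hz : z = (t : ℂ)) :
    fus g (cC (ce g e)) z = crvE g e t := by
  rw [(hN g (ce g e)).2.1 z, f0_ce g hg, hz, crvE]

/-- inverse of the matrix of the numerators -/
theorem NmC_inv (hN : DG2.Stmt_NmQ) (g : ℕ) (c : Fin (2 * g) → ℚ) :
    ∃ B : Matrix (Fin (2 * g)) (Ix g) ℂ, B * NmC g c = 1 := by
  obtain ⟨B, -, hB⟩ := (hN g c).2.2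
  refine ⟨B.map (algebraMap ℚ ℂ), ?_⟩
  have h1 : NmC g c = (NmQ g c).map (algebraMap ℚ ℂ) := rfl
  rw [h1, ← Matrix.map_mul, hB]
  exact Matrix.map_one _ (map_zero _) (map_one _)

/-- the bound for small parameters -/
theorem small (ε : ℝ) (hε : 0 < ε) (δ : ℝ) (hδ : δ ≤ 1 / 2) : ∃ n₁ : ℕ, ∀ n : ℕ, n₁ ≤ n → 0 < n ∧
    ∀ ρ : ℚ, 0 < ρ → Ht n δ ρ → |(ρ : ℝ) / n| < ε := by
  have h1 : Filter.Tendsto (fun x : ℝ => x ^ (-(1 / 2 : ℝ))) Filter.atTop (nhds 0) :=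
    tendsto_rpow_neg_atTop (by norm_num)
  have h2 := (h1.comp tendsto_natCast_atTop_atTop).eventually (gt_mem_nhds hε)
  obtain ⟨n₁, hn₁⟩ := Filter.eventually_atTop.1 (h2.and (Filter.eventually_ge_atTop 1))
  refine ⟨n₁, fun n hn => ?_⟩
  obtain ⟨h3, h4⟩ := hn₁ n hn
  have hn0 : (0 : ℝ) < n := by exact_mod_cast h4
  have hn1 : (1 : ℝ) ≤ n := by exact_mod_cast h4
  refine ⟨h4, fun ρ hρ hH => ?_⟩
  have h5 : (0 : ℝ) < (ρ : ℝ) := by exact_mod_cast hρ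
  rw [abs_of_pos (div_pos h5 hn0)]
  refine lt_of_le_of_lt ?_ h3
  rw [div_le_iff₀ hn0]
  change (ρ : ℝ) ≤ (n : ℝ) ^ (-(1 / 2 : ℝ)) * n
  have h6 : (n : ℝ) ^ (-(1 / 2 : ℝ)) * n = (n : ℝ) ^ (1 / 2 : ℝ) := by
    nth_rewrite 2 [← Real.rpow_one (n : ℝ)]
    rw [← Real.rpow_add hn0]
    norm_num
  rw [h6]
  refine le_trans ?_ (Real.rpow_le_rpow_of_exponent_le hn1 hδ)
  refine le_trans ?_ hH.1
  have h7 : ρ ≤ (ρ.num : ℚ) := by
    have h8 : (0 : ℚ) ≤ (ρ.num : ℚ) := by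
      exact_mod_cast (Rat.num_pos.2 hρ).le
    have h9 : (1 : ℚ) ≤ (ρ.den : ℚ) := by exact_mod_cast ρ.pos
    calc ρ = (ρ.num : ℚ) / (ρ.den : ℚ) := (Rat.num_div_den ρ).symm
      _ ≤ (ρ.num : ℚ) := div_le_self h8 h9
  exact_mod_cast h7

end FIN_

open FIN_ in
theorem fin_proof (h1 : Stmt_INE) (h2 : Stmt_TOR) (h3 : Stmt_BAS) (h4 : Stmt_KEY)
    (h5 : DG2.Stmt_SerJ) (h6 : DG2.Stmt_NmQ) : Stmt_FIN := by
  intro nF G e hDif r φ D
  have hG : ∀ a, 0 < G a := fun a => lt_of_lt_of_le (by norm_num) (hDif.two a)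
  choose R W L₀ Θ V hRef hfd hΘd hΘs hV hNW using fun a => h3 (G a) (e a) (hG a) (hDif.ne a)
  choose hTp ε hε hεR hser using fun a => h5 (G a) (ce (G a) (e a)) 0 (R a) (W a) (hG a) (hRef a)
  have hfd' : FiniteDimensional ℚ (⨆ a, L₀ a : IntermediateField ℚ ℂ) := by
    have := hfd
    exact IntermediateField.finiteDimensional_iSup_of_finite
  obtain ⟨E, hE⟩ := h2 r (fun l => G (φ l)) (fun _ => 1) (fun l => hDif.two _) D (⨆ a, L₀ a) hfd'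
  obtain ⟨δ, hδ, n₀, hn₀⟩ := h1 nF G e hDif r φ E
  obtain ⟨ε₀, hε₀, hε₀'⟩ : ∃ ε₀ : ℝ, 0 < ε₀ ∧ ∀ a, ε₀ ≤ ε a := by
    by_cases hnF : nF = 0
    · subst hnF
      exact ⟨1, one_pos, fun a => a.elim0⟩
    · have : Nonempty (Fin nF) := ⟨⟨0, Nat.pos_of_ne_zero hnF⟩⟩
      obtain ⟨a, ha⟩ := Finite.exists_min ε
      exact ⟨ε a, hε a, ha⟩
  obtain ⟨n₁, hn₁⟩ := small ε₀ hε₀ (min δ (1 / 2)) (min_le_right _ _)
  refine ⟨min δ (1 / 2), lt_min hδ (by norm_num), max n₀ n₁, fun n hn' => ?_⟩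
  intro ρ hρ1 hρ2 L hLf hLD
  obtain ⟨hn0, hsm⟩ := hn₁ n ((le_max_right _ _).trans hn')
  have hn1 : (1 : ℝ) ≤ n := by exact_mod_cast hn0
  have hρ2' : ∀ i, 0 < ρ i ∧ Ht n δ (ρ i) := fun i =>
    ⟨(hρ2 i).1, (hρ2 i).2.1.trans (Real.rpow_le_rpow_of_exponent_le hn1 (min_le_left _ _)),
      (hρ2 i).2.2.trans (Real.rpow_le_rpow_of_exponent_le hn1 (min_le_left _ _))⟩
  -- the parameters
  have hw : ∀ l, |(ρ l : ℝ) / n| < ε (φ l) := fun l =>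
    lt_of_lt_of_le (hsm (ρ l) (hρ2 l).1 (hρ2 l).2) (hε₀' _)
  have hz : ∀ l, ((0 : ℚ) : ℂ) + (((ρ l : ℝ) / n : ℝ) : ℂ) = ((ρ l / n : ℚ) : ℂ) := by
    intro l
    push_cast
    ring
  have hball : ∀ l, ((0 : ℚ) : ℂ) + (((ρ l : ℝ) / n : ℝ) : ℂ) ∈ ball ((0 : ℚ) : ℂ) (R (φ l)) := by
    intro l
    rw [mem_ball, dist_eq_norm, add_sub_cancel_left, Complex.norm_real, Real.norm_eq_abs]
    exact lt_of_lt_of_le (hw l) (hεR _)
  -- the period matrices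
  have hleg : ∀ l, Simil (2 * Real.pi * Complex.I) (NmC (G (φ l)) (ce (G (φ l)) (e (φ l))) *
      W (φ l) (((0 : ℚ) : ℂ) + (((ρ l : ℝ) / n : ℝ) : ℂ))) ∧
      ∀ γ : CPath (crvE (G (φ l)) (e (φ l)) (ρ l / n)), ∃ K : Ix (G (φ l)) → ℤ, ∀ k,
        γ.per (num (G (φ l)) (crvE (G (φ l)) (e (φ l)) (ρ l / n)) k) =
          ∑ j, (NmC (G (φ l)) (ce (G (φ l)) (e (φ l))) *
            W (φ l) (((0 : ℚ) : ℂ) + (((ρ l : ℝ) / n : ℝ) : ℂ))) k j * K j := by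
    intro l
    refine ⟨(hRef (φ l)).simil _ (hball l), ?_⟩
    have hl := (hRef (φ l)).loops _ (hball l)
    rw [← fus_ce h6 (G (φ l)) (hG _) (e (φ l)) (ρ l / n) _ (hz l)]
    exact hl
  refine h4 r (fun l => G (φ l)) (fun l => crvE (G (φ l)) (e (φ l)) (ρ l / n))
    (fun l => ⟨_, (hleg l).1, (hleg l).2⟩) L hLf ?_
  intro γ hγ
  -- the matrices Z
  choose B hB using fun l : Fin r => NmC_inv h6 (G (φ l)) (ce (G (φ l)) (e (φ l)))
  set Z : Fam (fun l => G (φ l)) := fun l => NmC (G (φ l)) (ce (G (φ l)) (e (φ l))) *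
    Yv (ce (G (φ l)) (e (φ l))) 0 ((ρ l : ℝ) / n) * B l with hZ
  have hZN : ∀ l, Z l * NmC (G (φ l)) (ce (G (φ l)) (e (φ l))) =
      NmC (G (φ l)) (ce (G (φ l)) (e (φ l))) * Yv (ce (G (φ l)) (e (φ l))) 0 ((ρ l : ℝ) / n) := by
    intro l
    rw [hZ]
    simp only
    rw [Matrix.mul_assoc, hB l, Matrix.mul_one]
  obtain ⟨hZs, hZrel⟩ := hn₀ n ((le_max_left _ _).trans hn') ρ hρ1 hρ2' Z hZN
  have hM : ∀ l, NmC (G (φ l)) (ce (G (φ l)) (e (φ l))) *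
      W (φ l) (((0 : ℚ) : ℂ) + (((ρ l : ℝ) / n : ℝ) : ℂ)) = Z l * (Θ (φ l) * V (φ l)) := by
    intro l
    rw [((hser (φ l)) _ (hw l)).2, ← Matrix.mul_assoc, ← hZN l, Matrix.mul_assoc, hNW (φ l)]
  -- the integral matrices
  choose K hK using fun l : Fin r => fun κ' : Ix (G (φ l)) =>
    (hleg l).2 (γ l (DRH.ee (G (φ l)) κ'))
  have hsq : ∀ l, DRD.sq γ l = Z l * (Θ (φ l) * V (φ l)) *
      (Matrix.of fun j κ' => K l κ' j).map (fun z : ℤ => (z : ℂ)) := by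
    intro l
    rw [← hM l]
    ext κ κ'
    refine (hK l κ' κ).trans ?_
    rw [Matrix.mul_apply]
    rfl
  choose A hA using DRD.sq_inter (g := fun l => G (φ l)) (fun l => ⟨_, (hleg l).1, (hleg l).2⟩) γ
  refine hE L hLf hLD _ (1, Z) 1 (2 * Real.pi * Complex.I, fun l => Θ (φ l))
    (1, fun l => V (φ l) * (Matrix.of fun j κ' => K l κ' j).map (fun z : ℤ => (z : ℂ))) ?_ DRD.tr
    (DRD.sq_det hγ) ?_ rfl ?_ rfl ?_ ?_ (fun l => hΘd _) rfl ?_ A ?_ ?_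
  · apply Prod.ext
    · change 2 * Real.pi * Complex.I = 1 * 1 * (2 * Real.pi * Complex.I) * 1
      ring
    · funext l
      change DRD.sq γ l = Z l * 1 * Θ (φ l) *
        (V (φ l) * (Matrix.of fun j κ' => K l κ' j).map (fun z : ℤ => (z : ℂ)))
      rw [hsq l, Matrix.mul_one]
      simp only [Matrix.mul_assoc]
  · refine ⟨one_ne_zero, fun l => ?_⟩
    change Simil (1 ^ 1) (Z l)
    rw [pow_one]
    exact hZs l
  · refine ⟨one_ne_zero, fun l => ?_⟩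
    change Simil (1 ^ 1) (1 : Matrix _ _ ℂ)
    rw [pow_one]
    unfold Simil
    simp
  · intro l p q
    change (1 : Matrix (Ix (G (φ l))) (Ix (G (φ l))) ℂ) p q ∈ _
    rw [Matrix.one_apply]
    split_ifs
    · exact one_mem _
    · exact zero_mem _
  · refine ⟨DRH.two_pi_I_ne, fun l => ?_⟩
    change Simil ((2 * Real.pi * Complex.I) ^ 1) (Θ (φ l))
    rw [pow_one]
    exact hΘs (φ l)
  · intro l p q
    change (V (φ l) * (Matrix.of fun j κ' => K l κ' j).map (fun z : ℤ => (z : ℂ))) p q ∈ _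
    rw [Matrix.mul_apply]
    refine sum_mem fun j _ => mul_mem ?_ ?_
    · exact (le_iSup L₀ (φ l)) (hV (φ l) p j)
    · exact intCast_mem _ _
  · intro l
    change (DRD.sq γ l).transpose * Matrix.J (Fin (G (φ l))) ℂ * DRD.sq γ l =
      (2 * Real.pi * Complex.I : ℂ) ^ 1 • _
    rw [pow_one]
    exact hA l
  · exact hZrel

end

end Pool.Agent.NEX
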