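import Pool.Agent.NEX.YStmts
import Pool.Agent.DRC.Asm

set_option autoImplicit false

/-!
# NEX, module FIY: the final theorem for the Dwork families
-/

open scoped BigOperators Topology
open Metric Set

namespace Pool.Agent.NEX

open Pool.Agent.HGP (Ix Simil Idx fvec)
open Pool.Agent.UBD (Pt Crd Pol ev InG GrpS Dns Inf1 Lie nv sg1 ex)
open Pool.Agent.DG2 (Ht)
open Pool.Agent.CYP (IsF IsE Ps Pi' Mx Per Tors Qm Rm cx)
open Pool.Agent.CYP.FMAT_ (eq2)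
open Pool.Agent.CYD (Zm RefY)
open Pool.Agent.CYD.FINY_ (Amat ev_rat Pi_Ps Pi_rat)

noncomputable section

namespace FIY_

theorem map_alg {m n : Type} (M : Matrix m n ℚ) :
    M.map (algebraMap ℚ ℂ) = M.map (fun q : ℚ => (q : ℂ)) := by
  ext i j
  rw [Matrix.map_apply, Matrix.map_apply]
  exact eq_ratCast (algebraMap ℚ ℂ) _

theorem Amat_map {g : ℕ} (F' : Matrix (Fin (2 * g)) (Ix g) (Polynomial ℤ)) (q : ℚ) :
    (Amat F' q).map (fun x : ℚ => (x : ℂ)) =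
      ((1 - (q : ℂ) ^ (2 * g + 1)) ^ g)⁻¹ • CYP.ev F' (q : ℂ) := by
  rw [ev_rat]
  unfold Amat
  ext i j
  rw [Matrix.map_apply, Matrix.smul_apply, Matrix.smul_apply, Matrix.map_apply, Matrix.map_apply,
    Matrix.map_apply]
  simp only [smul_eq_mul]
  push_cast
  ring

/-- The rational matrix `A`. -/
def Ar {g : ℕ} (G : Matrix (Fin (2 * g)) (Ix g) ℚ)
    (F' : Matrix (Fin (2 * g)) (Ix g) (Polynomial ℤ)) (q : ℚ) : Matrix (Ix g) (Ix g) ℚ :=
  G.transpose * Amat F' q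

theorem qC_Ar {g : ℕ} (G : Matrix (Fin (2 * g)) (Ix g) ℚ)
    (F' : Matrix (Fin (2 * g)) (Ix g) (Polynomial ℤ)) (q : ℚ) :
    qC (Ar G F' q) = (G.map (algebraMap ℚ ℂ)).transpose *
      (Amat F' q).map (fun x : ℚ => (x : ℂ)) := by
  have h1 : qC (Ar G F' q) = (Ar G F' q).map (algebraMap ℚ ℂ) := (map_alg _).symm
  rw [h1, ← map_alg]
  unfold Ar
  rw [Matrix.map_mul, Matrix.transpose_map]

theorem Ar_simil {g : ℕ} {F F' : Matrix (Fin (2 * g)) (Ix g) (Polynomial ℤ)} (hF : IsF g F F')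
    (G : Matrix (Fin (2 * g)) (Ix g) ℚ) (q : ℚ) (hq : 1 - (q : ℂ) ^ (2 * g + 1) ≠ 0)
    (hG : G.map (algebraMap ℚ ℂ) * Matrix.J (Fin g) ℂ * (G.map (algebraMap ℚ ℂ)).transpose =
      Rm (2 * g) (q : ℂ)) : Simil 1 (qC (Ar G F' q)) := by
  have hc : (1 - (q : ℂ) ^ (2 * g + 1)) ^ g ≠ 0 := pow_ne_zero _ hq
  set c : ℂ := (1 - (q : ℂ) ^ (2 * g + 1)) ^ g with hcdef
  set GC := G.map (algebraMap ℚ ℂ) with hGC
  set X := CYP.ev F (q : ℂ) with hX
  set Y := CYP.ev F' (q : ℂ) with hY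
  have h1 : Y.transpose * X = c • (1 : Matrix (Ix g) (Ix g) ℂ) := hF.inv2 (q : ℂ)
  have h2 : X.transpose * Y = c • (1 : Matrix (Ix g) (Ix g) ℂ) := by
    have h3 := congrArg Matrix.transpose h1
    rw [Matrix.transpose_mul, Matrix.transpose_transpose, Matrix.transpose_smul,
      Matrix.transpose_one] at h3
    exact h3
  have h4 : X * Matrix.J (Fin g) ℂ * X.transpose = Rm (2 * g) (q : ℂ) := hF.rel (q : ℂ)
  unfold Simil
  rw [qC_Ar, Amat_map]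
  rw [Matrix.transpose_mul, Matrix.transpose_transpose, Matrix.transpose_smul, Matrix.smul_mul,
    Matrix.smul_mul, Matrix.smul_mul, Matrix.mul_smul, Matrix.mul_smul]
  have h5 : Y.transpose * GC * Matrix.J (Fin g) ℂ * (GC.transpose * Y) =
      c • c • Matrix.J (Fin g) ℂ := by
    calc Y.transpose * GC * Matrix.J (Fin g) ℂ * (GC.transpose * Y)
        = Y.transpose * (GC * Matrix.J (Fin g) ℂ * GC.transpose) * Y := by
          simp only [Matrix.mul_assoc]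
      _ = Y.transpose * (X * Matrix.J (Fin g) ℂ * X.transpose) * Y := by rw [hG, h4]
      _ = (Y.transpose * X) * Matrix.J (Fin g) ℂ * (X.transpose * Y) := by
          simp only [Matrix.mul_assoc]
      _ = c • c • Matrix.J (Fin g) ℂ := by
          rw [h1, h2, Matrix.smul_mul, Matrix.smul_mul, Matrix.mul_smul, Matrix.one_mul,
            Matrix.mul_one]
  rw [h5, smul_smul, smul_smul, smul_smul, one_smul]
  have h6 : c⁻¹ * c⁻¹ * c * c = 1 := by field_simp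
  rw [h6, one_smul]

theorem toIx_eq {g : ℕ} {F F' : Matrix (Fin (2 * g)) (Ix g) (Polynomial ℤ)}
    {E E' : Matrix (Fin (2 * g)) (Ix g) ℚ} (hR : RefY g F F' E E')
    (G : Matrix (Fin (2 * g)) (Ix g) ℚ) (q : ℚ) (hq : 1 - (q : ℂ) ^ (2 * g + 1) ≠ 0)
    (X : Matrix (Fin (2 * g)) (Fin (2 * g)) ℂ) :
    ((G.map (algebraMap ℚ ℂ)).transpose * X).submatrix id (eq2 g) =
      qC (Ar G F' q) * Ps F E' (q : ℂ) X * ((cx E).transpose).submatrix id (eq2 g) := by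
  have h1 : X = (Amat F' q).map (fun x : ℚ => (x : ℂ)) * Ps F E' (q : ℂ) X *
      (cx E).transpose := by
    have h2 := Pi_Ps hR.isF hR.isE hq X
    rw [Pi_rat] at h2
    exact h2.symm
  have h3 : ((G.map (algebraMap ℚ ℂ)).transpose * X) =
      qC (Ar G F' q) * Ps F E' (q : ℂ) X * (cx E).transpose := by
    rw [qC_Ar]
    nth_rewrite 1 [h1]
    simp only [Matrix.mul_assoc]
  rw [h3]
  rfl

theorem ratCast_mem (L : IntermediateField ℚ ℂ) (q : ℚ) : (q : ℂ) ∈ L := by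
  have h := L.algebraMap_mem q
  rwa [eq_ratCast] at h

end FIY_

open FIY_ in
/-- Module FIY. -/
theorem fiy_proof (h1 : Stmt_INY) (h2 : Stmt_TOR) (h3 : Stmt_BSY) (h4 : Stmt_KYY)
    (h5 : CYD.Stmt_RefY) : Stmt_FIY := by
  intro nF G hG r φ D
  have hG0 : ∀ a, 0 < G a := fun a => lt_of_lt_of_le (by norm_num) (hG a)
  choose F F' E E' hR using fun a => h5 (G a) (hG0 a)
  choose La Bz Θ V hLa hB hBL hΘd hΘs hVL hPs using
    fun a => h3 (G a) (hG0 a) (F a) (F' a) (E a) (E' a) (hR a)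
  -- the common field
  let L₀ : IntermediateField ℚ ℂ := ⨆ a, La a
  have : ∀ a, FiniteDimensional ℚ (La a) := hLa
  have hL₀ : FiniteDimensional ℚ L₀ := IntermediateField.finiteDimensional_iSup_of_finite
  have hle : ∀ a, La a ≤ L₀ := fun a => le_iSup La a
  obtain ⟨deg, hdeg⟩ := h2 r (fun l => G (φ l)) (DRC.wt (fun l => G (φ l))) (fun l => hG (φ l)) D
    L₀ hL₀
  obtain ⟨δ, hδ, n₀, hn₀⟩ := h1 nF G F F' hG0 (fun a => (hR a).isF) r φ deg
  refine ⟨δ, hδ, n₀, fun n hn ρ hinj hρ L hLf hLD => ?_⟩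
  obtain ⟨habs, hZs, hrel⟩ := hn₀ n hn ρ hinj (fun i => ⟨(hρ i).1, (hρ i).2.1, (hρ i).2.2⟩)
  have hcast : ∀ i, (((ρ i / n : ℚ)) : ℂ) = (((ρ i : ℝ) / n : ℝ) : ℂ) := by
    intro i
    push_cast
    ring
  have hball : ∀ i, ‖((ρ i / n : ℚ) : ℂ)‖ < 1 := by
    intro i
    rw [hcast, Complex.norm_real, Real.norm_eq_abs]
    exact habs i
  have hq0 : ∀ i, 1 - ((ρ i / n : ℚ) : ℂ) ^ (2 * G (φ i) + 1) ≠ 0 := by
    intro i h
    have h6 : ((ρ i / n : ℚ) : ℂ) ^ (2 * G (φ i) + 1) = 1 := (sub_eq_zero.1 h).symm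
    have h7 := congrArg norm h6
    rw [norm_pow, norm_one] at h7
    exact absurd h7 (ne_of_lt (pow_lt_one₀ (norm_nonneg _) (hball i) (Nat.succ_ne_zero _)))
  have hq1 : ∀ l, (ρ l / n) ^ (2 * G (φ l) + 1) ≠ 1 := by
    intro l h0
    apply hq0 l
    rw [← Rat.cast_pow, h0, Rat.cast_one, sub_self]
  choose FB EB hFE hEF hrl htri using fun l => DRC.cyFQ (G (φ l)) (ρ l / n) (hq1 l)
  let B : DRC.Bas (fun l => G (φ l)) (fun l => ρ l / n) := ⟨FB, EB, hFE, hEF, hrl, htri⟩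
  have hTl : ∀ l, Tors (2 * G (φ l)) ((ρ l / n : ℚ) : ℂ) (2 * Real.pi * Complex.I)
      (Per (2 * G (φ l)) ((ρ l / n : ℚ) : ℂ)) := fun l =>
    (CYP.Main.final 1 (fun _ => 2 * G (φ l)) (fun _ => ⟨Nat.mul_pos two_pos (hG0 (φ l)),
      even_two_mul _⟩)).1 0 _ (hball l)
  refine h4 r (fun l => G (φ l)) (fun l => ρ l / n) B (fun l => hG0 (φ l)) hTl L hLf ?_
  -- the point
  have hPer : ∀ i, Per (2 * G (φ i)) ((ρ i / n : ℚ) : ℂ) = Mx (2 * G (φ i)) ((ρ i / n : ℚ) : ℂ) :=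
    fun i => CYP.Main.link _ (Nat.mul_pos two_pos (hG0 _)) _ (by
      rw [mem_ball_zero_iff]
      exact hball i)
  let A : ∀ i, Matrix (Ix (G (φ i))) (Ix (G (φ i))) ℚ := fun i => Ar (FB i) (F' (φ i)) (ρ i / n)
  have hAs : ∀ i, Simil 1 (qC (A i)) := fun i =>
    Ar_simil (hR (φ i)).isF (FB i) (ρ i / n) (hq0 i) (hrl i)
  let Z : ∀ i, Matrix (Ix (G (φ i))) (Ix (G (φ i))) ℂ := fun i =>
    qC (A i) * Zm (F (φ i)) (F' (φ i)) ((ρ i : ℝ) / n)
  let EI : ∀ i, Matrix (Ix (G (φ i))) (Ix (G (φ i))) ℂ := fun i =>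
    ((cx (E (φ i))).transpose).submatrix id (eq2 (G (φ i)))
  have hcp : ∀ i, (DRC.cp B).2 i = Z i * Bz (φ i) * Θ (φ i) * (V (φ i) * EI i) := by
    intro i
    have e1 : (DRC.cp B).2 i = (((FB i).map (algebraMap ℚ ℂ)).transpose *
      Per (2 * G (φ i)) ((ρ i / n : ℚ) : ℂ)).submatrix id (eq2 (G (φ i))) := rfl
    have e2 := (CYD.zsy (G (φ i)) (F (φ i)) (F' (φ i)) (hG0 _) (hR (φ i)).isF).1
      ((ρ i : ℝ) / n) (habs i)
    have e3 := e2.2 (E' (φ i))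
    rw [← hcast] at e3
    rw [e1, hPer, toIx_eq (hR (φ i)) (FB i) (ρ i / n) (hq0 i), e3, hPs]
    simp only [Z, EI, A, Matrix.mul_assoc]
  refine hdeg L hLf hLD (DRC.cp B) ((1, Z) : Pt (fun l => G (φ l)))
    ((1, fun i => Bz (φ i)) : Pt (fun l => G (φ l)))
    ((2 * Real.pi * Complex.I, fun i => Θ (φ i)) : Pt (fun l => G (φ l)))
    ((1, fun i => V (φ i) * EI i) : Pt (fun l => G (φ l))) ?_ DRD.tr
    (fun l => DRC.cp_det B hTl CYP.Main.qdet l) ?_ rfl ?_ rfl ?_ ?_ ?_ rfl ?_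
    (fun l => (Qm (2 * G (φ l)) ℚ).submatrix (eq2 (G (φ l))) (eq2 (G (φ l))))
    (fun l => DRC.cp_rel B hTl l) ?_
  · refine Prod.ext ?_ (funext fun i => ?_)
    · change (2 * Real.pi * Complex.I : ℂ) = 1 * 1 * (2 * Real.pi * Complex.I) * 1
      rw [one_mul, one_mul, mul_one]
    · exact hcp i
  · refine ⟨one_ne_zero, fun i => ?_⟩
    change Simil (1 ^ _) (qC (A i) * Zm (F (φ i)) (F' (φ i)) ((ρ i : ℝ) / n))
    rw [one_pow]
    have e1 := hAs i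
    have e2 := hZs i
    unfold Simil at e1 e2 ⊢
    rw [one_smul] at e1 e2 ⊢
    rw [Matrix.transpose_mul]
    calc (Zm (F (φ i)) (F' (φ i)) ((ρ i : ℝ) / n)).transpose * (qC (A i)).transpose *
          Matrix.J (Fin (G (φ i))) ℂ * (qC (A i) * Zm (F (φ i)) (F' (φ i)) ((ρ i : ℝ) / n))
        = (Zm (F (φ i)) (F' (φ i)) ((ρ i : ℝ) / n)).transpose * ((qC (A i)).transpose *
          Matrix.J (Fin (G (φ i))) ℂ * qC (A i)) * Zm (F (φ i)) (F' (φ i)) ((ρ i : ℝ) / n) := by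
          simp only [Matrix.mul_assoc]
      _ = _ := by rw [e1, e2]
  · refine ⟨one_ne_zero, fun i => ?_⟩
    change Simil (1 ^ _) (Bz (φ i))
    rw [one_pow]
    exact hB (φ i)
  · intro i p q
    exact hle (φ i) (hBL (φ i) p q)
  · exact ⟨Complex.two_pi_I_ne_zero, fun i => hΘs (φ i)⟩
  · exact fun i => hΘd (φ i)
  · intro i p q
    change (V (φ i) * EI i) p q ∈ L₀
    rw [Matrix.mul_apply]
    refine sum_mem fun j _ => mul_mem (hle (φ i) (hVL (φ i) p j)) ?_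
    exact ratCast_mem L₀ _
  · intro Q hQ hQ0 M hM
    exact hrel A hAs Q hQ hQ0 M hM

end

end Pool.Agent.NEX
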