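import Pool.Agent.NEX.Stmts

set_option autoImplicit false

open scoped BigOperators Topology
open Filter Metric Set

namespace Pool.Agent.NEX

open Pool.Agent.HGP (Ix Simil Idx fvec)
open Pool.Agent.UBD (Pt Crd Pol ev InG GrpS Dns Inf1 Lie nv sg1 ex)

namespace IND_

variable {r : ℕ} {g : Fin r → ℕ}

section expo

attribute [local instance] Matrix.linftyOpNormedRing Matrix.linftyOpNormedAlgebra

/-- the coordinates of the exponential of a linear family are smooth -/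
lemma exp_cd {m : ℕ} {n : Type} [Fintype n] [DecidableEq n] (X : Fin m → Matrix n n ℂ) (i j : n) :
    ContDiff ℂ 1 (fun c : Fin m → ℂ => NormedSpace.exp ((1 : ℂ) • ∑ k, c k • X k) i j) := by
  have h1 : ContDiff ℂ 1 (NormedSpace.exp : Matrix n n ℂ → Matrix n n ℂ) :=
    contDiff_iff_contDiffAt.mpr fun x => (NormedSpace.exp_analytic (𝕂 := ℂ) x).contDiffAt
  have h2 : ContDiff ℂ 1 (fun c : Fin m → ℂ => (1 : ℂ) • ∑ k, c k • X k) := by
    refine ContDiff.const_smul _ (ContDiff.sum fun k _ => ?_)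
    exact (contDiff_apply ℂ ℂ k).smul contDiff_const
  let E : Matrix n n ℂ →L[ℂ] ℂ :=
    { toFun := fun M => M i j
      map_add' := fun _ _ => rfl
      map_smul' := fun _ _ => rfl
      cont := by
        have : Continuous fun M : Matrix n n ℂ => M i j := (continuous_apply j).comp (continuous_apply i)
        exact this }
  exact E.contDiff.comp (h1.comp h2)

end expo

/-- the function `c ↦ F (ex 1 (∑ c_k X_k))` -/
noncomputable def Φ {m : ℕ} (P : Pol g) (X : Fin m → Pt g) (c : Fin m → ℂ) : ℂ :=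
  ev P (ex 1 (∑ k, c k • X k))

lemma coord_cd {m : ℕ} (X : Fin m → Pt g) (o : Crd g) :
    ContDiff ℂ 1 (fun c : Fin m → ℂ => HGP.tpt (ex 1 (∑ k, c k • X k)).1 (ex 1 (∑ k, c k • X k)).2 o) := by
  rcases o with _ | ⟨i, a, b⟩
  · have h : (fun c : Fin m → ℂ => HGP.tpt (ex 1 (∑ k, c k • X k)).1 (ex 1 (∑ k, c k • X k)).2 none) =
        fun c : Fin m → ℂ => Complex.exp (1 * ∑ k, c k * (X k).1) := by
      funext c
      change Complex.exp (1 * (∑ k, c k • X k).1) = _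
      rw [Prod.fst_sum]
      rfl
    rw [h]
    refine Complex.contDiff_exp.comp (contDiff_const.mul (ContDiff.sum fun k _ => ?_))
    exact (contDiff_apply ℂ ℂ k).mul contDiff_const
  · have h : (fun c : Fin m → ℂ => HGP.tpt (ex 1 (∑ k, c k • X k)).1 (ex 1 (∑ k, c k • X k)).2
        (some ⟨i, a, b⟩)) = fun c : Fin m → ℂ => NormedSpace.exp ((1 : ℂ) • ∑ k, c k • (X k).2 i) a b := by
      funext c
      change NormedSpace.exp ((1 : ℂ) • (∑ k, c k • X k).2 i) a b = _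
      have : (∑ k, c k • X k).2 i = ∑ k, c k • (X k).2 i := by
        rw [Prod.snd_sum, Finset.sum_apply]
        rfl
      rw [this]
    rw [h]
    exact exp_cd _ a b

lemma Φ_cd {m : ℕ} (P : Pol g) (X : Fin m → Pt g) : ContDiff ℂ 1 (Φ P X) := by
  unfold Φ ev
  induction P using MvPolynomial.induction_on with
  | C a => simpa using contDiff_const
  | add p q hp hq => simpa using hp.add hq
  | mul_X p o hp => simpa using hp.mul (coord_cd X o)

lemma Φ_zero {m : ℕ} (P : Pol g) (X : Fin m → Pt g) : Φ P X 0 = ev P 1 := by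
  unfold Φ
  have h : (∑ k, (0 : Fin m → ℂ) k • X k) = 0 := by simp
  rw [h]
  have : ex 1 (0 : Pt g) = 1 := by
    unfold ex
    refine Prod.ext ?_ ?_
    · simp
    · funext i
      simp [NormedSpace.exp_zero]
  rw [this]

lemma ex_smul (t : ℂ) (Y : Pt g) : ex 1 (t • Y) = ex t Y := by
  unfold ex
  refine Prod.ext ?_ ?_
  · simp
  · funext i
    simp

lemma Φ_line {m : ℕ} (P : Pol g) (X : Fin m → Pt g) (c : Fin m → ℂ) (t : ℂ) :
    Φ P X (t • c) = ev P (ex t (∑ k, c k • X k)) := by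
  unfold Φ
  have h : (∑ k, (t • c) k • X k) = t • ∑ k, c k • X k := by
    rw [Finset.smul_sum]
    refine Finset.sum_congr rfl fun k _ => ?_
    rw [Pi.smul_apply, smul_eq_mul, mul_smul]
  rw [h, ex_smul]

lemma fderiv_Φ {m : ℕ} (P : Pol g) (X : Fin m → Pt g) (c : Fin m → ℂ) :
    fderiv ℂ (Φ P X) 0 c = dP P (∑ k, c k • X k) 1 := by
  have h1 : HasFDerivAt (Φ P X) (fderiv ℂ (Φ P X) 0) ((0 : ℂ) • c) := by
    rw [zero_smul]
    exact ((Φ_cd P X).differentiable (by norm_num) 0).hasFDerivAt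
  have h2 : HasDerivAt (fun t : ℂ => t • c) c 0 := by
    simpa using (hasDerivAt_id (0 : ℂ)).smul_const c
  have h3 := h1.comp_hasDerivAt (0 : ℂ) h2
  have h4 : (Φ P X ∘ fun t : ℂ => t • c) = fun t : ℂ => ev P (ex t (∑ k, c k • X k) * 1) := by
    funext t
    rw [Function.comp_apply, Φ_line, mul_one]
  rw [h4] at h3
  exact h3.deriv.symm

lemma eval_hom {m k : ℕ} (p : MvPolynomial (Fin m) ℂ) (hp : p.IsHomogeneous k) (a : ℂ) (x : Fin m → ℂ) :
    MvPolynomial.eval (fun i => a * x i) p = a ^ k * MvPolynomial.eval x p := by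
  rw [MvPolynomial.eval_eq', MvPolynomial.eval_eq', Finset.mul_sum]
  refine Finset.sum_congr rfl fun d hd => ?_
  have h1 : ∑ i, d i = k := by
    have := hp (MvPolynomial.mem_support_iff.mp hd)
    rw [Finsupp.weight_apply] at this
    rw [← this, Finsupp.sum_fintype _ _ (by simp)]
    simp
  have h2 : ∏ i, (a * x i) ^ d i = a ^ k * ∏ i, x i ^ d i := by
    simp_rw [mul_pow]
    rw [Finset.prod_mul_distrib, Finset.prod_pow_eq_pow_sum, h1]
  rw [h2]
  ring

lemma ev_aeval {n : ℕ} (F : Fin n → Pol g) (p : MvPolynomial (Fin n) ℂ) (a : Pt g) :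
    ev (MvPolynomial.aeval F p) a = MvPolynomial.eval (fun l => ev (F l) a) p := by
  unfold ev
  induction p using MvPolynomial.induction_on with
  | C c => simp
  | add p q hp hq => rw [map_add, map_add, hp, hq, map_add]
  | mul_X p o hp => rw [map_mul, map_mul, hp, map_mul, MvPolynomial.aeval_X, MvPolynomial.eval_X]

/-- the quotients -/
noncomputable def Ψ {m : ℕ} (F : Fin (m + 1) → Pol g) (X : Fin m → Pt g) (c : Fin m → ℂ) : Fin m → ℂ :=
  fun l => Φ (F l.succ) X c / Φ (F 0) X c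

lemma Ψ_cd {m : ℕ} (F : Fin (m + 1) → Pol g) (X : Fin m → Pt g) (h0 : ev (F 0) 1 ≠ 0) :
    ContDiffAt ℂ 1 (Ψ F X) 0 := by
  rw [contDiffAt_pi]
  intro l
  refine ((Φ_cd (F l.succ) X).contDiffAt).div ((Φ_cd (F 0) X).contDiffAt) ?_
  rw [Φ_zero]; exact h0

lemma Ψ_deriv {m : ℕ} (F : Fin (m + 1) → Pol g) (X : Fin m → Pt g) (h0 : ev (F 0) 1 ≠ 0)
    (c : Fin m → ℂ) (l : Fin m) : fderiv ℂ (Ψ F X) 0 c l =
    (dP (F l.succ) (∑ k, c k • X k) 1 * ev (F 0) 1 - ev (F l.succ) 1 * dP (F 0) (∑ k, c k • X k) 1) /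
      ev (F 0) 1 ^ 2 := by
  have h2 : HasDerivAt (fun t : ℂ => t • c) c 0 := by
    simpa using (hasDerivAt_id (0 : ℂ)).smul_const c
  have hΦ : ∀ P : Pol g, HasDerivAt (fun t : ℂ => Φ P X (t • c)) (dP P (∑ k, c k • X k) 1) 0 := by
    intro P
    have h1 : HasFDerivAt (Φ P X) (fderiv ℂ (Φ P X) 0) ((0 : ℂ) • c) := by
      rw [zero_smul]
      exact ((Φ_cd P X).differentiable (by norm_num) 0).hasFDerivAt
    have h3 := h1.comp_hasDerivAt (0 : ℂ) h2
    rw [fderiv_Φ] at h3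
    exact h3
  have h1 : HasFDerivAt (Ψ F X) (fderiv ℂ (Ψ F X) 0) ((0 : ℂ) • c) := by
    rw [zero_smul]
    exact ((Ψ_cd F X h0).differentiableAt (by norm_num)).hasFDerivAt
  have h3 := h1.comp_hasDerivAt (0 : ℂ) h2
  have h4 := (hasDerivAt_pi.mp h3) l
  have h5 := (hΦ (F l.succ)).div (hΦ (F 0)) (by
    rw [zero_smul, Φ_zero]; exact h0)
  have h6 : (fun t : ℂ => (Ψ F X ∘ fun t : ℂ => t • c) t l) =
      fun t : ℂ => Φ (F l.succ) X (t • c) / Φ (F 0) X (t • c) := rfl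
  rw [h6] at h4
  have h7 := h4.unique h5
  rw [h7, zero_smul, Φ_zero, Φ_zero]

end IND_

open IND_ in
theorem ind_proof : Stmt_IND := by
  intro r g m k F X h0 hinj p hp hp0
  by_contra hcon
  push Not at hcon
  have hz : ∀ c : Fin m → ℂ, MvPolynomial.eval (fun l => Φ (F l) X c) p = 0 := by
    intro c
    have := hcon c 1
    rw [ev_aeval] at this
    exact this
  have hs := (Ψ_cd F X h0).hasStrictFDerivAt (by norm_num)
  have hi : Function.Injective (fderiv ℂ (Ψ F X) 0 : (Fin m → ℂ) →ₗ[ℂ] (Fin m → ℂ)) := by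
    rw [← LinearMap.ker_eq_bot, LinearMap.ker_eq_bot']
    intro c hc
    refine hinj c fun l => ?_
    have h1 : fderiv ℂ (Ψ F X) 0 c l = 0 := by
      have : fderiv ℂ (Ψ F X) 0 c = 0 := hc
      rw [this]; rfl
    rw [Ψ_deriv F X h0 c l, div_eq_zero_iff] at h1
    rcases h1 with h1 | h1
    · linear_combination h1
    · exact absurd h1 (pow_ne_zero 2 h0)
  have hsur : Function.Surjective (fderiv ℂ (Ψ F X) 0) :=
    (LinearMap.injective_iff_surjective (f := (fderiv ℂ (Ψ F X) 0 : (Fin m → ℂ) →ₗ[ℂ] (Fin m → ℂ)))).mp hi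
  have hmap := hs.map_nhds_eq_of_surj (LinearMap.range_eq_top.mpr hsur)
  set U : Set (Fin m → ℂ) := {u | MvPolynomial.eval (Fin.cons 1 u : Fin (m + 1) → ℂ) p = 0} with hU
  have hUn : U ∈ 𝓝 (Ψ F X 0) := by
    rw [← hmap, Filter.mem_map]
    have hne : ∀ᶠ c in 𝓝 (0 : Fin m → ℂ), Φ (F 0) X c ≠ 0 := by
      have hc : Tendsto (Φ (F 0) X) (𝓝 0) (𝓝 (Φ (F 0) X 0)) := (Φ_cd (F 0) X).continuous.tendsto 0
      exact hc.eventually_ne (by rw [Φ_zero]; exact h0)
    filter_upwards [hne] with c hc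
    show MvPolynomial.eval (Fin.cons 1 (Ψ F X c) : Fin (m + 1) → ℂ) p = 0
    have h1 : (Fin.cons 1 (Ψ F X c) : Fin (m + 1) → ℂ) =
        fun i => (Φ (F 0) X c)⁻¹ * Φ (F i) X c := by
      funext i
      refine Fin.cases ?_ (fun l => ?_) i
      · rw [Fin.cons_zero, inv_mul_cancel₀ hc]
      · rw [Fin.cons_succ]
        change Φ (F l.succ) X c / Φ (F 0) X c = _
        rw [div_eq_inv_mul]
    rw [h1, eval_hom p hp, hz c, mul_zero]
  -- the box
  set y0 : Fin (m + 1) → ℂ := Fin.cons 1 (Ψ F X 0) with hy0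
  have hq : Tendsto (fun x : Fin (m + 1) → ℂ => fun l : Fin m => x l.succ / x 0) (𝓝 y0)
      (𝓝 (Ψ F X 0)) := by
    rw [tendsto_pi_nhds]
    intro l
    have h1 : Tendsto (fun x : Fin (m + 1) → ℂ => x l.succ) (𝓝 y0) (𝓝 (y0 l.succ)) :=
      (continuous_apply l.succ).tendsto y0
    have h2 : Tendsto (fun x : Fin (m + 1) → ℂ => x 0) (𝓝 y0) (𝓝 (y0 0)) :=
      (continuous_apply 0).tendsto y0
    have h3 : y0 0 = 1 := by rw [hy0, Fin.cons_zero]
    have h4 : y0 l.succ = Ψ F X 0 l := by rw [hy0, Fin.cons_succ]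
    have h5 := h1.div h2 (by rw [h3]; exact one_ne_zero)
    rw [h3, h4, div_one] at h5
    exact h5
  have hev : ∀ᶠ x in 𝓝 y0, (fun l : Fin m => x l.succ / x 0) ∈ U ∧ x 0 ≠ 0 := by
    refine (hq.eventually_mem hUn).and ?_
    have h2 : Tendsto (fun x : Fin (m + 1) → ℂ => x 0) (𝓝 y0) (𝓝 (y0 0)) :=
      (continuous_apply 0).tendsto y0
    exact h2.eventually_ne (by rw [hy0, Fin.cons_zero]; exact one_ne_zero)
  obtain ⟨ε, hε, hb⟩ := Metric.eventually_nhds_iff_ball.mp hev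
  apply hp0
  refine MvPolynomial.funext_set (fun i => ball (y0 i) ε)
    (fun i => infinite_of_mem_nhds (y0 i) (ball_mem_nhds (y0 i) hε)) fun x hx => ?_
  rw [map_zero]
  have hx' : x ∈ ball y0 ε := by
    rw [ball_pi y0 hε]; exact hx
  obtain ⟨h1, h2⟩ := hb x hx'
  have h3 : x = fun i => x 0 * (Fin.cons 1 (fun l : Fin m => x l.succ / x 0) : Fin (m + 1) → ℂ) i := by
    funext i
    refine Fin.cases ?_ (fun l => ?_) i
    · rw [Fin.cons_zero, mul_one]
    · rw [Fin.cons_succ, mul_div_cancel₀ _ h2]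
  have h4 : MvPolynomial.eval (Fin.cons 1 (fun l : Fin m => x l.succ / x 0) : Fin (m + 1) → ℂ) p = 0 := h1
  rw [h3, eval_hom p hp, h4, mul_zero]

end Pool.Agent.NEX
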