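import Pool.Agent.NEX.Stmts

/-!
# NEX.INE: the matrices `Z` of the families satisfy no relation of bounded degree
-/

set_option autoImplicit false

open scoped BigOperators Topology

namespace Pool.Agent.NEX

open Pool.Agent.DG2 (Yv NmC Sep Ht)
open Pool.Agent.GPH (P2)
open Pool.Agent.HGP (Ix Simil Idx fvec)

namespace INE_

/-- The right hand side of CRV. -/
noncomputable def kap (g : ℕ) (e : ℚ) : ℂ :=
  -((2 * g : ℂ) ^ (2 * g) * (e : ℂ) ^ (2 * g + 1)) / (2 * g + 1) ^ (2 * g + 1)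

lemma kap_ne (g : ℕ) (e : ℚ) (hg : 0 < g) (he : e ≠ 0) : kap g e ≠ 0 := by
  unfold kap
  have h1 : (g : ℂ) ≠ 0 := by exact_mod_cast hg.ne'
  have h2 : (e : ℂ) ≠ 0 := by exact_mod_cast he
  have h3 : (2 * (g : ℂ) + 1) ≠ 0 := by
    have : ((2 * g + 1 : ℕ) : ℂ) ≠ 0 := Nat.cast_ne_zero.2 (Nat.succ_ne_zero (2 * g))
    push_cast at this
    exact this
  have h4 : (2 * (g : ℂ)) ≠ 0 := mul_ne_zero two_ne_zero h1
  exact div_ne_zero (neg_ne_zero.2 (mul_ne_zero (pow_ne_zero _ h4) (pow_ne_zero _ h2)))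
    (pow_ne_zero _ h3)

lemma sep_zero (h : Stmt_CRV) (g : ℕ) (e : ℚ) (hg : 0 < g) (he : e ≠ 0) :
    Sep (ce g e) (((0 : ℚ) : ℂ)) := by
  rw [((h g hg e he).2 _)]
  intro hc
  have : ((0 : ℚ) : ℂ) ^ (2 * g) = 0 := by
    rw [Rat.cast_zero, zero_pow (by omega)]
  rw [this] at hc
  exact kap_ne g e hg he hc.symm

lemma exists_root (g : ℕ) (hg : 0 < g) (κ : ℂ) (ρ : ℚ) (hρ : 0 < ρ) :
    ∃ z : ℂ, ((ρ : ℂ) * z) ^ (2 * g) = κ := by
  obtain ⟨w, hw⟩ := IsAlgClosed.exists_pow_nat_eq κ (n := 2 * g) (by omega)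
  have h : (ρ : ℂ) ≠ 0 := by exact_mod_cast hρ.ne'
  exact ⟨w / ρ, by rw [mul_div_cancel₀ _ h, hw]⟩

/-- If the two root sets coincide then one exponent divides the other. -/
lemma dvd_aux (g g' : ℕ) (hg : 0 < g) (κ κ' : ℂ) (hκ' : κ' ≠ 0) (ρ ρ' : ℚ)
    (hρ : 0 < ρ)
    (h : ∀ z : ℂ, ((ρ : ℂ) * z) ^ (2 * g) = κ → ((ρ' : ℂ) * z) ^ (2 * g') = κ') :
    2 * g ∣ 2 * g' := by
  obtain ⟨z, hz⟩ := exists_root g hg κ ρ hρ
  have hz' := h z hz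
  have hprim := Complex.isPrimitiveRoot_exp (2 * g) (by omega)
  set ζ := Complex.exp (2 * Real.pi * Complex.I / ((2 * g : ℕ) : ℂ)) with hζ
  have h1 : ((ρ : ℂ) * (ζ * z)) ^ (2 * g) = κ := by
    have : (ρ : ℂ) * (ζ * z) = ζ * (ρ * z) := by ring
    rw [this, mul_pow, hprim.pow_eq_one, one_mul, hz]
  have h2 := h _ h1
  have h3 : (ρ' : ℂ) * (ζ * z) = ζ * (ρ' * z) := by ring
  rw [h3, mul_pow, hz'] at h2
  have h4 : ζ ^ (2 * g') = 1 := by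
    have := mul_right_cancel₀ hκ' (h2.trans (one_mul κ').symm)
    exact this
  exact hprim.dvd_of_pow_eq_one _ h4

/-- Two curves with the same exponent. -/
lemma same_aux (g : ℕ) (hg : 0 < g) (e e' : ℚ) (he : e ≠ 0) (he' : e' ≠ 0) (ρ ρ' : ℚ)
    (hρ : 0 < ρ) (hρ' : 0 < ρ')
    (h : ∀ z : ℂ, ((ρ : ℂ) * z) ^ (2 * g) = kap g e → ((ρ' : ℂ) * z) ^ (2 * g) = kap g e') :
    ρ ^ (2 * g) * e' ^ (2 * g + 1) = ρ' ^ (2 * g) * e ^ (2 * g + 1) := by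
  obtain ⟨z, hz⟩ := exists_root g hg (kap g e) ρ hρ
  have hz' := h z hz
  have hk := kap_ne g e hg he
  have hz0 : z ^ (2 * g) ≠ 0 := by
    intro h0
    rw [mul_pow, h0, mul_zero] at hz
    exact hk hz.symm
  rw [mul_pow] at hz hz'
  -- cross multiply
  have h1 : (ρ : ℂ) ^ (2 * g) * z ^ (2 * g) * ((ρ' : ℂ) ^ (2 * g) * z ^ (2 * g)) = _ := rfl
  have hg0 : (g : ℂ) ≠ 0 := by exact_mod_cast hg.ne'
  have hA : ((2 * g : ℂ) ^ (2 * g)) ≠ 0 := pow_ne_zero _ (mul_ne_zero two_ne_zero hg0)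
  have h3 : (2 * (g : ℂ) + 1) ≠ 0 := by
    have : ((2 * g + 1 : ℕ) : ℂ) ≠ 0 := Nat.cast_ne_zero.2 (Nat.succ_ne_zero (2 * g))
    push_cast at this
    exact this
  have hB : (2 * (g : ℂ) + 1) ^ (2 * g + 1) ≠ 0 := pow_ne_zero _ h3
  unfold kap at hz hz'
  rw [eq_div_iff hB] at hz hz'
  have key : z ^ (2 * g) * ((2 * g : ℂ) ^ (2 * g)) * ((2 * (g : ℂ) + 1) ^ (2 * g + 1)) *
      ((ρ : ℂ) ^ (2 * g) * (e' : ℂ) ^ (2 * g + 1)) =
      z ^ (2 * g) * ((2 * g : ℂ) ^ (2 * g)) * ((2 * (g : ℂ) + 1) ^ (2 * g + 1)) *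
      ((ρ' : ℂ) ^ (2 * g) * (e : ℂ) ^ (2 * g + 1)) := by
    calc z ^ (2 * g) * ((2 * g : ℂ) ^ (2 * g)) * ((2 * (g : ℂ) + 1) ^ (2 * g + 1)) *
        ((ρ : ℂ) ^ (2 * g) * (e' : ℂ) ^ (2 * g + 1))
        = ((2 * g : ℂ) ^ (2 * g)) * (e' : ℂ) ^ (2 * g + 1) *
          ((ρ : ℂ) ^ (2 * g) * z ^ (2 * g) * (2 * (g : ℂ) + 1) ^ (2 * g + 1)) := by ring
      _ = ((2 * g : ℂ) ^ (2 * g)) * (e : ℂ) ^ (2 * g + 1) *
          ((ρ' : ℂ) ^ (2 * g) * z ^ (2 * g) * (2 * (g : ℂ) + 1) ^ (2 * g + 1)) := by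
          rw [hz, hz']; ring
      _ = _ := by ring
  have key2 := mul_left_cancel₀ (mul_ne_zero (mul_ne_zero hz0 hA) hB) key
  exact_mod_cast key2

end INE_

open INE_

theorem ine_proof (h1 : DG2.Stmt_IndX) (h2 : DG2.Stmt_ZSm) (h3 : Stmt_SPC) (h4 : Stmt_CRV) :
    Stmt_INE := by
  intro nF G e hD r φ E
  obtain ⟨E', hE'⟩ := h3 r (fun i => G (φ i)) E
  have hpos : ∀ a, 0 < G a := fun a => by have := hD.two a; omega
  obtain ⟨δ1, hδ1, n1, hn1⟩ := h1 r (fun i => G (φ i)) (fun i => ce (G (φ i)) (e (φ i)))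
    (fun _ => 0) (fun k => hpos _) (fun k => (h4 _ (hpos _) _ (hD.ne _)).1)
    (fun k => sep_zero h4 _ _ (hpos _) (hD.ne _)) E'
  -- radius for ZSm
  have hz : ∀ i : Fin r, ∃ ρ : ℝ, 0 < ρ ∧ ∀ w : ℝ, |w| < ρ →
      ∀ Z : Matrix (Ix (G (φ i))) (Ix (G (φ i))) ℂ,
      Z * NmC (G (φ i)) (ce (G (φ i)) (e (φ i))) = NmC (G (φ i)) (ce (G (φ i)) (e (φ i))) *
        Yv (ce (G (φ i)) (e (φ i))) 0 w → Simil 1 Z ∧ Z.toBlocks₁₁.det ≠ 0 := fun i =>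
    h2 _ _ 0 (hpos _) (sep_zero h4 _ _ (hpos _) (hD.ne _))
  choose R hR hZR using hz
  have hev : ∀ i : Fin r, ∀ᶠ n : ℕ in Filter.atTop, ((n : ℝ)) ^ (-(1 / 2) : ℝ) < R i := by
    intro i
    have ht : Filter.Tendsto (fun n : ℕ => ((n : ℝ)) ^ (-(1 / 2) : ℝ)) Filter.atTop (nhds 0) :=
      (tendsto_rpow_neg_atTop (by norm_num : (0 : ℝ) < 1 / 2)).comp
        tendsto_natCast_atTop_atTop
    exact ht.eventually (gt_mem_nhds (hR i))
  obtain ⟨n2, hn2⟩ := Filter.eventually_atTop.1 (Filter.eventually_all.2 hev)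
  refine ⟨min δ1 (1 / 2), lt_min hδ1 (by norm_num), max (max n1 n2) 1, ?_⟩
  intro n hn ρ hρd hρ Z hZ
  have hn1' : n1 ≤ n := le_trans (le_trans (le_max_left _ _) (le_max_left _ _)) hn
  have hn2' : n2 ≤ n := le_trans (le_trans (le_max_right _ _) (le_max_left _ _)) hn
  have hn3 : 1 ≤ n := le_trans (le_max_right _ _) hn
  have hn3' : (1 : ℝ) ≤ n := by exact_mod_cast hn3
  have hnpos : (0 : ℝ) < n := by linarith
  have hsm : ∀ i, |((ρ i : ℝ) / n)| < R i := by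
    intro i
    have hp : (0 : ℝ) < ρ i := by exact_mod_cast (hρ i).1
    rw [abs_of_pos (by positivity)]
    have hle : (ρ i : ℝ) ≤ (n : ℝ) ^ (1 / 2 : ℝ) := by
      have h5 := (hρ i).2.1
      have h6 : (ρ i : ℝ) ≤ (ρ i).num := by
        have h7 : (ρ i : ℚ) = (ρ i).num / (ρ i).den := (Rat.num_div_den _).symm
        have h8 : (0 : ℚ) < (ρ i).den := by exact_mod_cast (ρ i).den_pos
        have h9 : (1 : ℚ) ≤ (ρ i).den := by exact_mod_cast (ρ i).den_pos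
        have h10 : (0 : ℚ) < (ρ i).num := by
          exact_mod_cast Rat.num_pos.2 (hρ i).1
        have h11 : (ρ i : ℚ) ≤ (ρ i).num := by
          conv_lhs => rw [h7]
          rw [div_le_iff₀ h8]
          nlinarith
        exact_mod_cast h11
      refine h6.trans (h5.trans ?_)
      exact Real.rpow_le_rpow_of_exponent_le hn3' (min_le_right _ _)
    refine lt_of_le_of_lt ?_ (hn2 n hn2' i)
    rw [div_le_iff₀ hnpos]
    have h12 : (n : ℝ) ^ (-(1 / 2) : ℝ) * n = (n : ℝ) ^ (1 / 2 : ℝ) := by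
      conv_lhs => rw [← Real.rpow_one (n : ℝ)]
      rw [← Real.rpow_mul hnpos.le, ← Real.rpow_add hnpos]
      norm_num
    rw [h12]
    exact hle
  have hS : ∀ i, Simil 1 (Z i) ∧ (Z i).toBlocks₁₁.det ≠ 0 := fun i =>
    hZR i _ (hsm i) (Z i) (hZ i)
  refine ⟨fun i => (hS i).1, ?_⟩
  intro Q hQ hQZ M hM
  by_contra hne
  obtain ⟨Q', hQ'0, hQ'd, hQ'z⟩ := hE' Z (fun i => (hS i).1) (fun i => (hS i).2) Q hQ hQZ
    ⟨M, hM, hne⟩
  refine hn1 n hn1' ρ ?_ ?_ Z hZ Q' hQ'0 hQ'd hQ'z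
  · intro k
    refine ⟨(hρ k).1, ?_, ?_⟩
    · exact (hρ k).2.1.trans (Real.rpow_le_rpow_of_exponent_le hn3' (min_le_left _ _))
    · exact (hρ k).2.2.trans (Real.rpow_le_rpow_of_exponent_le hn3' (min_le_left _ _))
  · intro k l hkl
    by_contra hcon
    push Not at hcon
    have hiff : ∀ z : ℂ, ((ρ k : ℂ) * z) ^ (2 * G (φ k)) = kap (G (φ k)) (e (φ k)) ↔
        ((ρ l : ℂ) * z) ^ (2 * G (φ l)) = kap (G (φ l)) (e (φ l)) := by
      intro z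
      have h := hcon z
      rw [((h4 _ (hpos _) _ (hD.ne _)).2 _), ((h4 _ (hpos _) _ (hD.ne _)).2 _)] at h
      simp only [Rat.cast_zero, zero_add] at h
      exact not_iff_not.1 h
    have hk := kap_ne _ _ (hpos (φ k)) (hD.ne (φ k))
    have hl := kap_ne _ _ (hpos (φ l)) (hD.ne (φ l))
    have d1 := dvd_aux (G (φ k)) (G (φ l)) (hpos _) _ _ hl (ρ k) (ρ l) (hρ k).1
      (fun z => (hiff z).1)
    have d2 := dvd_aux (G (φ l)) (G (φ k)) (hpos _) _ _ hk (ρ l) (ρ k) (hρ l).1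
      (fun z => (hiff z).2)
    have hGG : G (φ k) = G (φ l) := by
      have := Nat.dvd_antisymm d1 d2
      omega
    have hsame := same_aux (G (φ k)) (hpos _) (e (φ k)) (e (φ l)) (hD.ne _) (hD.ne _)
      (ρ k) (ρ l) (hρ k).1 (hρ l).1 (by
        intro z hz
        have := (hiff z).1 hz
        rw [← hGG] at this
        exact this)
    have he1 := hD.ne (φ k)
    have he2 := hD.ne (φ l)
    by_cases hφ : φ k = φ l
    · rw [← hφ] at hsame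
      have h5 := mul_right_cancel₀ (pow_ne_zero _ he1) hsame
      have h6 : ρ k = ρ l := by
        have h7 : (2 * G (φ k)) ≠ 0 := by have := hpos (φ k); omega
        exact (pow_left_inj₀ (hρ k).1.le (hρ l).1.le h7).1 h5
      exact hρd k l hkl hφ h6
    · have hρl := (hρ l).1.ne'
      refine hD.dif (φ k) (φ l) hφ hGG (ρ k * e (φ l) / (ρ l * e (φ k))) ?_
      rw [div_pow, mul_pow, mul_pow]
      have h8 : (ρ l ^ (2 * G (φ k)) * e (φ k) ^ (2 * G (φ k))) ≠ 0 :=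
        mul_ne_zero (pow_ne_zero _ hρl) (pow_ne_zero _ he1)
      rw [div_mul_eq_mul_div, eq_div_iff h8]
      have h9 : ρ k ^ (2 * G (φ k)) * e (φ l) ^ (2 * G (φ k)) * e (φ l) =
          ρ k ^ (2 * G (φ k)) * e (φ l) ^ (2 * G (φ k) + 1) := by ring
      rw [h9, hsame]
      ring

end Pool.Agent.NEX
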