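import Pool.Agent.NEX.YStmts

/-!
# NEX.INY: the matrices `A Z` of the Dwork families satisfy no relation of bounded degree
-/

set_option autoImplicit false

open scoped BigOperators Topology

namespace Pool.Agent.NEX

open Pool.Agent.DG2 (Ht)
open Pool.Agent.HGP (Ix Simil Idx fvec)
open Pool.Agent.CYP (IsF IsE Ps Mx)
open Pool.Agent.CYD (Zm)

namespace INY_

/-- The degree after a substitution by polynomials of degree at most one. -/
theorem totalDegree_bind_le {σ τ : Type} {R : Type} [CommRing R] (f : σ → MvPolynomial τ R)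
    (hf : ∀ s, (f s).totalDegree ≤ 1) (P : MvPolynomial σ R) :
    (MvPolynomial.bind₁ f P).totalDegree ≤ P.totalDegree := by
  classical
  have h1 : MvPolynomial.bind₁ f P
      = ∑ s ∈ P.support, MvPolynomial.C (P.coeff s) * ∏ i ∈ s.support, f i ^ s i := by
    rw [← MvPolynomial.aeval_eq_bind₁, MvPolynomial.aeval_def, MvPolynomial.eval₂_eq]
    rfl
  rw [h1]
  apply MvPolynomial.totalDegree_finsetSum_le
  intro s hs
  refine le_trans (MvPolynomial.totalDegree_mul _ _) ?_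
  rw [MvPolynomial.totalDegree_C, zero_add]
  refine le_trans (MvPolynomial.totalDegree_finsetProd _ _) ?_
  have h2 : ∑ i ∈ s.support, s i ≤ P.totalDegree := MvPolynomial.le_totalDegree hs
  refine le_trans (Finset.sum_le_sum (fun i _ => ?_)) h2
  refine le_trans (MvPolynomial.totalDegree_pow _ _) ?_
  calc s i * (f i).totalDegree ≤ s i * 1 := Nat.mul_le_mul_left _ (hf i)
    _ = s i := mul_one _

/-- The substitution `X i = A i * Y i`. -/
noncomputable def sub {r : ℕ} {g : Fin r → ℕ} (A : ∀ i, Matrix (Ix (g i)) (Ix (g i)) ℚ) :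
    CrF g → MvPolynomial (CrF g) ℚ := fun p =>
  ∑ a, MvPolynomial.C (A p.1 p.2.1 a) * MvPolynomial.X (⟨p.1, (a, p.2.2)⟩ : CrF g)

theorem sub_deg {r : ℕ} {g : Fin r → ℕ} (A : ∀ i, Matrix (Ix (g i)) (Ix (g i)) ℚ) (p : CrF g) :
    (sub A p).totalDegree ≤ 1 := by
  apply MvPolynomial.totalDegree_finsetSum_le
  intro a _
  refine le_trans (MvPolynomial.totalDegree_mul _ _) ?_
  rw [MvPolynomial.totalDegree_C, zero_add]
  exact le_of_eq (MvPolynomial.totalDegree_X _)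

theorem sub_ev {r : ℕ} {g : Fin r → ℕ} (A : ∀ i, Matrix (Ix (g i)) (Ix (g i)) ℚ) (M : Fam g)
    (Q : MvPolynomial (CrF g) ℚ) :
    (MvPolynomial.aeval (mpt M) (MvPolynomial.bind₁ (sub A) Q) : ℂ) =
      MvPolynomial.aeval (mpt (g := g) (fun i => qC (A i) * M i)) Q := by
  rw [MvPolynomial.aeval_bind₁]
  congr 2
  funext p
  unfold sub
  rw [map_sum]
  change _ = ∑ a, qC (A p.1) p.2.1 a * M p.1 a p.2.2
  refine Finset.sum_congr rfl fun a _ => ?_
  rw [map_mul, MvPolynomial.aeval_C, MvPolynomial.aeval_X]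
  rfl

end INY_

open INY_

theorem iny_proof (h1 : CYD.Stmt_IndY) (h2 : CYD.Stmt_ZsY) (h3 : Stmt_SPC) : Stmt_INY := by
  intro nF G F F' hG hF r φ E
  obtain ⟨E', hE'⟩ := h3 r (fun i => G (φ i)) E
  obtain ⟨δ1, hδ1, n1, hn1⟩ := h1 r (fun i => G (φ i)) (fun i => F (φ i)) (fun i => F' (φ i))
    (fun i => hG _) (fun i => hF _) E'
  have hz : ∀ i : Fin r, ∃ ρ : ℝ, 0 < ρ ∧ ρ ≤ 1 ∧ ∀ x : ℝ, |x| < ρ →
      (Zm (F (φ i)) (F' (φ i)) x).toBlocks₁₁.det ≠ 0 := fun i =>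
    (h2 _ _ _ (hG _) (hF _)).2
  choose R hR hR1 hZR using hz
  have hev : ∀ i : Fin r, ∀ᶠ n : ℕ in Filter.atTop, ((n : ℝ)) ^ (-(1 / 2) : ℝ) < R i := by
    intro i
    have ht : Filter.Tendsto (fun n : ℕ => ((n : ℝ)) ^ (-(1 / 2) : ℝ)) Filter.atTop (nhds 0) :=
      (tendsto_rpow_neg_atTop (by norm_num : (0 : ℝ) < 1 / 2)).comp
        tendsto_natCast_atTop_atTop
    exact ht.eventually (gt_mem_nhds (hR i))
  obtain ⟨n2, hn2⟩ := Filter.eventually_atTop.1 (Filter.eventually_all.2 hev)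
  refine ⟨min δ1 (1 / 2), lt_min hδ1 (by norm_num), max (max n1 n2) 1, ?_⟩
  intro n hn ρ hρi hρ
  have hn1' : n1 ≤ n := le_trans (le_trans (le_max_left _ _) (le_max_left _ _)) hn
  have hn2' : n2 ≤ n := le_trans (le_trans (le_max_right _ _) (le_max_left _ _)) hn
  have hn3 : 1 ≤ n := le_trans (le_max_right _ _) hn
  have hn3' : (1 : ℝ) ≤ n := by exact_mod_cast hn3
  have hnpos : (0 : ℝ) < n := by linarith
  have hsm : ∀ i, |((ρ i : ℝ) / n)| < R i := by
    intro i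
    have hp : (0 : ℝ) < ρ i := by exact_mod_cast (hρ i).1
    rw [abs_of_pos (by positivity)]
    have hle : (ρ i : ℝ) ≤ (n : ℝ) ^ (1 / 2 : ℝ) := by
      have h5 := (hρ i).2.1
      have h6 : (ρ i : ℝ) ≤ (ρ i).num := by
        have h7 : (ρ i : ℚ) = (ρ i).num / (ρ i).den := (Rat.num_div_den _).symm
        have h8 : (0 : ℚ) < (ρ i).den := by exact_mod_cast (ρ i).den_pos
        have h9 : (1 : ℚ) ≤ (ρ i).den := by exact_mod_cast (ρ i).den_pos
        have h10 : (0 : ℚ) < (ρ i).num := by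
          exact_mod_cast Rat.num_pos.2 (hρ i).1
        have h11 : (ρ i : ℚ) ≤ (ρ i).num := by
          conv_lhs => rw [h7]
          rw [div_le_iff₀ h8]
          nlinarith
        exact_mod_cast h11
      refine h6.trans (h5.trans ?_)
      exact Real.rpow_le_rpow_of_exponent_le hn3' (min_le_right _ _)
    refine lt_of_le_of_lt ?_ (hn2 n hn2' i)
    rw [div_le_iff₀ hnpos]
    have h12 : (n : ℝ) ^ (-(1 / 2) : ℝ) * n = (n : ℝ) ^ (1 / 2 : ℝ) := by
      conv_lhs => rw [← Real.rpow_one (n : ℝ)]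
      rw [← Real.rpow_mul hnpos.le, ← Real.rpow_add hnpos]
      norm_num
    rw [h12]
    exact hle
  have hlt1 : ∀ i, |((ρ i : ℝ) / n)| < 1 := fun i => lt_of_lt_of_le (hsm i) (hR1 i)
  have hS : ∀ i, Simil 1 (Zm (F (φ i)) (F' (φ i)) ((ρ i : ℝ) / n)) := fun i =>
    ((h2 _ _ _ (hG _) (hF _)).1 _ (hlt1 i)).1
  refine ⟨hlt1, hS, ?_⟩
  intro A hA Q hQ hQZ M hM
  by_contra hne
  have hinv : ∀ i, ∃ M' : Matrix (Ix (G (φ i))) (Ix (G (φ i))) ℂ, Simil 1 M' ∧
      qC (A i) * M' = M i := by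
    intro i
    have h5 := DRD.simil_inv one_ne_zero (hA i)
    have h6 : IsUnit (qC (A i)).det := isUnit_iff_ne_zero.2 (DRD.det_ne one_ne_zero (hA i))
    refine ⟨(qC (A i))⁻¹ * M i, ?_, ?_⟩
    · have h7 := DRD.simil_mul h5 (hM i)
      rwa [inv_one, mul_one] at h7
    · rw [← Matrix.mul_assoc, Matrix.mul_nonsing_inv _ h6, Matrix.one_mul]
  choose M' hM' hAM using hinv
  obtain ⟨Q', hQ'0, hQ'd, hQ'z⟩ := hE' (fun i => Zm (F (φ i)) (F' (φ i)) ((ρ i : ℝ) / n)) hS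
    (fun i => hZR i _ (hsm i)) (MvPolynomial.bind₁ (sub A) Q)
    ((totalDegree_bind_le _ (sub_deg A) Q).trans hQ) (by rw [sub_ev]; exact hQZ)
    ⟨M', hM', by
      rw [sub_ev]
      have : (fun i => qC (A i) * M' i) = M := funext hAM
      rw [this]
      exact hne⟩
  refine hn1 n hn1' ρ hρi (fun k => ⟨(hρ k).1, ?_, ?_⟩) Q' hQ'0 hQ'd hQ'z
  · exact (hρ k).2.1.trans (Real.rpow_le_rpow_of_exponent_le hn3' (min_le_left _ _))
  · exact (hρ k).2.2.trans (Real.rpow_le_rpow_of_exponent_le hn3' (min_le_left _ _))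

end Pool.Agent.NEX
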