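import Pool.Agent.NEX.Stmts
import Pool.Agent.DRD.Full
import Pool.Agent.DRD.Inv

set_option autoImplicit false

/-!
# KEY: from the abstract form to the torsors and classes of the curves
-/

open scoped BigOperators Topology

namespace Pool.Agent.NEX.KEY_

open Pool.Agent.HGP (Ix Simil)
open Pool.Agent.GPH (CPath perMat num tpt)
open Pool.Agent.UBD (Pt Crd Pol ev InG GrpS)
open Pool.Agent.DRH (tact mm pp ee ext ext_pp two_pi_I_ne tact_tact tact_one
  isHodge_of_finVal IsHodge)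
open Pool.Agent.DRD (IsBasis IsTorsor IsDRB Aut sq_det hodge_of_inv pinv mul_pinv pinv_mul
  InG.one InG.mul InG.det InG.pinv relS relS_aeval pt)

noncomputable section

variable {r n : ℕ} {g w : Fin r → ℕ}

/-- The main lemma: a tensor over `L` with values `c.1 ^ k b` at the point `c` is invariant. -/
theorem invariant (L : IntermediateField ℚ ℂ) (c : Pt g) (_hc0 : c.1 ≠ 0)
    (hdet : ∀ i, (c.2 i).det ≠ 0) (hNo : NoTor w L c)
    (k : ℤ) (i : Fin n → Fin r) (α : (∀ s, Ix (g (i s))) → ℂ) (hα : ∀ I, α I ∈ L)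
    (b : (∀ s, Ix (g (i s))) → ℚ)
    (hb : ∀ J, tact i c.2 α J = c.1 ^ k * ((b J : ℚ) : ℂ)) :
    ∀ a : Pt g, InG w a → tact i a.2 α = a.1 ^ k • α := by
  classical
  have tt : ∀ (M M' : ∀ l, Matrix (Ix (g l)) (Ix (g l)) ℂ) (β : (∀ s, Ix (g (i s))) → ℂ),
      tact i M' (tact i M β) = tact i (fun l => M l * M' l) β := fun M M' β =>
    tact_tact (ι := fun l => Ix (g l)) (κ := fun l => Ix (g l)) (τ := fun l => Ix (g l)) i M M' β
  have t1 : ∀ β : (∀ s, Ix (g (i s))) → ℂ,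
      tact i (fun l => (1 : Matrix (Ix (g l)) (Ix (g l)) ℂ)) β = β := fun β =>
    tact_one (ι := fun l => Ix (g l)) i β
  have hinj : ∀ (M : ∀ l, Matrix (Ix (g l)) (Ix (g l)) ℂ), (∀ l, (M l).det ≠ 0) →
      ∀ β β' : (∀ s, Ix (g (i s))) → ℂ, tact i M β = tact i M β' → β = β' := by
    intro M hM β β' he
    have h1 := congrArg (tact i (fun l => (M l)⁻¹)) he
    rw [tt, tt] at h1
    have h5 : (fun l => M l * (M l)⁻¹) = fun l => (1 : Matrix (Ix (g l)) (Ix (g l)) ℂ) := by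
      funext l
      exact Matrix.mul_nonsing_inv _ (isUnit_iff_ne_zero.2 (hM l))
    rw [h5, t1, t1] at h1
    exact h1
  let S : Set (Pt g) := {x | ∀ J, tact i x.2 α J = x.1 ^ k * ((b J : ℚ) : ℂ)}
  let α' : (∀ s, Ix (g (i s))) → L := fun I => ⟨α I, hα I⟩
  let E : Set (MvPolynomial (Crd g) L) :=
    {e | ∃ J, e = relS i k.toNat (-k).toNat α' J (algebraMap ℚ L (b J))}
  have hpw : ∀ lam : ℂ, lam ≠ 0 → lam ^ (-k).toNat * lam ^ k = lam ^ k.toNat := by
    intro lam hlam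
    rw [← zpow_natCast lam (-k).toNat, ← zpow_natCast lam k.toNat, ← zpow_add₀ hlam]
    congr 1
    omega
  -- membership of `a * c`
  have hS : ∀ a : Pt g, InG w a → (a * c ∈ S ↔ tact i a.2 α = a.1 ^ k • α) := by
    intro a ha
    have h1 : tact i (a * c).2 α = tact i c.2 (tact i a.2 α) := (tt _ _ _).symm
    constructor
    · intro h
      apply hinj c.2 hdet
      rw [DRH.tact_smul_right]
      funext J
      rw [Pi.smul_apply, smul_eq_mul, hb, ← h1, h J]
      change (a.1 * c.1) ^ k * _ = _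
      rw [mul_zpow]
      ring
    · intro h J
      rw [h1, h, DRH.tact_smul_right, Pi.smul_apply, smul_eq_mul, hb]
      change _ = (a.1 * c.1) ^ k * _
      rw [mul_zpow]
      ring
  have hSE : ∀ x : Pt g, x.1 ≠ 0 → (∀ i, (x.2 i).det ≠ 0) →
      (x ∈ S ↔ ∀ e ∈ E, MvPolynomial.aeval (HGP.tpt x.1 x.2) e = (0 : ℂ)) := by
    intro x hx _
    have h5 : (fun I => algebraMap L ℂ (α' I)) = α := rfl
    have h6 : ∀ J, algebraMap L ℂ (algebraMap ℚ L (b J)) = ((b J : ℚ) : ℂ) := fun J => by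
      rw [← IsScalarTower.algebraMap_apply ℚ L ℂ]
      rfl
    constructor
    · rintro h e ⟨J, rfl⟩
      rw [relS_aeval, h5, h6, h J, ← mul_assoc, hpw _ hx]
      ring
    · intro h J
      have h1 := h _ ⟨J, rfl⟩
      rw [relS_aeval, h5, h6] at h1
      apply mul_left_cancel₀ (pow_ne_zero (-k).toNat hx)
      rw [← mul_assoc, hpw _ hx]
      linear_combination h1
  have hcos : ∀ a b : Pt g, InG w a → InG w b → a * c ∈ S → b * c ∈ S →
      a * pinv b * c ∈ S ∧ a * b * c ∈ S := by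
    intro a b ha hb ha' hb'
    rw [hS a ha] at ha'
    rw [hS b hb] at hb'
    constructor
    · rw [hS _ (InG.mul ha (InG.pinv hb))]
      change tact i (fun l => a.2 l * (b.2 l)⁻¹) α = (a.1 * b.1⁻¹) ^ k • α
      apply hinj b.2 (InG.det hb)
      have h5 : (fun l => a.2 l * (b.2 l)⁻¹ * b.2 l) = a.2 := by
        funext l
        rw [Matrix.mul_assoc, Matrix.nonsing_inv_mul _ (isUnit_iff_ne_zero.2 (InG.det hb l)),
          Matrix.mul_one]
      rw [tt, h5, ha', DRH.tact_smul_right, hb', smul_smul, ← mul_zpow, mul_assoc,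
        inv_mul_cancel₀ hb.1, mul_one]
    · rw [hS _ (InG.mul ha hb)]
      change tact i (fun l => a.2 l * b.2 l) α = (a.1 * b.1) ^ k • α
      rw [← tt, ha', DRH.tact_smul_right, hb', smul_smul, ← mul_zpow]
  intro a ha
  rw [← hS a ha]
  exact hNo S E hSE hb hcos a ha

/-- The classes are Hodge classes. -/
theorem key2 {r : ℕ} (g : Fin r → ℕ) (F : Fin r → Polynomial ℂ)
    (L : IntermediateField ℚ ℂ) (hLalg : ∀ a ∈ L, IsAlgebraic ℚ a)
    (hNo : ∀ γ : ∀ l, Fin (2 * g l) → CPath (F l), IsBasis γ →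
      NoTor (fun _ => 1) L ((2 * Real.pi * Complex.I, DRD.sq γ) : Pt g))
    (n : ℕ) (k : ℤ) (i : Fin n → Fin r)
    (α : (∀ s, Ix (g (i s))) → ℂ) (hα : IsDRB F L n k i α) : IsHodge n k i α := by
  classical
  obtain ⟨hαL, γ, hγ, hb⟩ := hα
  choose b hb3 using fun J : (∀ s, Ix (g (i s))) => hb (fun s => ee (g (i s)) (J s))
  have hval : ∀ J, tact i (DRD.sq γ) α J = (2 * Real.pi * Complex.I) ^ k * ((b J : ℚ) : ℂ) := by
    intro J
    exact hb3 J
  refine hodge_of_inv (fun I => hLalg _ (hαL I)) ?_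
  intro mu h hmu hh
  refine invariant (w := fun _ => 1) L (2 * Real.pi * Complex.I, DRD.sq γ) two_pi_I_ne
    (sq_det hγ) (hNo γ hγ) k i α hαL b hval (mu, h) ⟨hmu, fun l => ?_⟩
  change Simil (mu ^ 1) (h l)
  rw [pow_one]
  exact hh l

/-- No proper subtorsor. -/
theorem key3 {r : ℕ} (g : Fin r → ℕ) (F : Fin r → Polynomial ℂ)
    (L : IntermediateField ℚ ℂ)
    (hNo : ∀ γ : ∀ l, Fin (2 * g l) → CPath (F l), IsBasis γ →
      NoTor (fun _ => 1) L ((2 * Real.pi * Complex.I, DRD.sq γ) : Pt g))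
    (γ : ∀ l, Fin (2 * g l) → CPath (F l)) (hγ : IsBasis γ) (H : Subgroup (Aut g))
    (hH : IsTorsor L γ H) (x : Aut g)
    (hx : ∀ l, Simil (x.1 : ℂ) (x.2 l : Matrix (Ix (g l)) (Ix (g l)) ℂ)) : x ∈ H := by
  classical
  obtain ⟨E, hE⟩ := hH
  set c : Pt g := (2 * Real.pi * Complex.I, DRD.sq γ) with hc
  have hc0 : c.1 ≠ 0 := two_pi_I_ne
  have hdet := sq_det hγ
  -- the coordinates
  let f : Option (Σ l : Fin r, Ix (g l) × Fin (2 * g l)) → Crd g :=
    Option.map fun p => ⟨p.1, (p.2.1, (ee (g p.1)).symm p.2.2)⟩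
  have hf : ∀ a : Pt g, HGP.tpt (a * c).1 (a * c).2 ∘ f =
      pt (a.1 * (2 * Real.pi * Complex.I)) (fun l => a.2 l * perMat (g l) (γ l)) := by
    intro a
    funext o
    cases o with
    | none => rfl
    | some p =>
      change (a.2 p.1 * DRD.sq γ p.1) p.2.1 ((ee (g p.1)).symm p.2.2) =
        (a.2 p.1 * perMat (g p.1) (γ p.1)) p.2.1 p.2.2
      rw [Matrix.mul_apply, Matrix.mul_apply]
      refine Finset.sum_congr rfl fun j _ => ?_
      congr 1
      unfold DRD.sq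
      rw [Matrix.submatrix_apply, Equiv.apply_symm_apply]
      rfl
  -- units
  have hu : ∀ a : Pt g, a.1 ≠ 0 → (∀ l, (a.2 l).det ≠ 0) → ∃ u : Aut g, (u.1 : ℂ) = a.1 ∧
      ∀ l, (u.2 l : Matrix (Ix (g l)) (Ix (g l)) ℂ) = a.2 l := fun a h1 h2 =>
    ⟨(Units.mk0 a.1 h1, fun l => Matrix.GeneralLinearGroup.mkOfDetNeZero (a.2 l) (h2 l)), rfl,
      fun l => rfl⟩
  let toPt : Aut g → Pt g := fun u => (u.1, fun l => (u.2 l : Matrix (Ix (g l)) (Ix (g l)) ℂ))
  have hinj : ∀ u v : Aut g, toPt u = toPt v → u = v := by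
    intro u v h
    apply Prod.ext
    · exact Units.ext (congrArg Prod.fst h)
    · funext l
      exact Units.ext (congrFun (congrArg Prod.snd h) l)
  have hmul : ∀ u v : Aut g, toPt (u * v) = toPt u * toPt v := fun u v => rfl
  have hinvu : ∀ u : Aut g, toPt u⁻¹ = pinv (toPt u) := by
    intro u
    apply Prod.ext
    · exact Units.val_inv_eq_inv_val u.1
    · funext l
      exact Matrix.coe_units_inv (u.2 l)
  let S : Set (Pt g) := {y | ∃ u ∈ H, y = toPt u * c}
  have hSu : ∀ u : Aut g, toPt u * c ∈ S ↔ u ∈ H := by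
    intro u
    constructor
    · rintro ⟨v, hv, h⟩
      have h1 := congrArg (fun z => z * pinv c) h
      simp only [mul_assoc, mul_pinv hc0 hdet, mul_one] at h1
      rw [hinj _ _ h1]
      exact hv
    · intro h
      exact ⟨u, h, rfl⟩
  have hSE : ∀ y : Pt g, y.1 ≠ 0 → (∀ i, (y.2 i).det ≠ 0) →
      (y ∈ S ↔ ∀ e ∈ (MvPolynomial.rename f) '' E,
        MvPolynomial.aeval (HGP.tpt y.1 y.2) e = (0 : ℂ)) := by
    intro y hy1 hy2
    obtain ⟨u, hu1, hu2⟩ := hu (y * pinv c) (mul_ne_zero hy1 (inv_ne_zero hc0)) (fun l => by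
      change (y.2 l * (c.2 l)⁻¹).det ≠ 0
      rw [Matrix.det_mul]
      refine mul_ne_zero (hy2 l) ?_
      have h1 := congrArg Matrix.det (Matrix.mul_nonsing_inv (c.2 l)
        (isUnit_iff_ne_zero.2 (hdet l)))
      rw [Matrix.det_mul, Matrix.det_one] at h1
      intro h2
      rw [h2, mul_zero] at h1
      exact zero_ne_one h1)
    have hyu : y = toPt u * c := by
      have h1 : toPt u = y * pinv c := Prod.ext hu1 (funext hu2)
      rw [h1, mul_assoc, pinv_mul hc0 hdet, mul_one]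
    rw [hyu, hSu, hE u]
    constructor
    · rintro h e ⟨e', he', rfl⟩
      rw [MvPolynomial.aeval_rename, hf]
      exact h e' he'
    · intro h e he
      have h1 := h _ ⟨e, he, rfl⟩
      rw [MvPolynomial.aeval_rename, hf] at h1
      exact h1
  have hInG : ∀ a : Pt g, InG (fun _ => 1) a → ∃ u : Aut g, toPt u = a := by
    intro a ha
    obtain ⟨u, hu1, hu2⟩ := hu a ha.1 (InG.det ha)
    exact ⟨u, Prod.ext hu1 (funext hu2)⟩
  have hcos : ∀ a b : Pt g, InG (fun _ => 1) a → InG (fun _ => 1) b → a * c ∈ S → b * c ∈ S →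
      a * pinv b * c ∈ S ∧ a * b * c ∈ S := by
    intro a b ha hb ha' hb'
    obtain ⟨u, rfl⟩ := hInG a ha
    obtain ⟨v, rfl⟩ := hInG b hb
    rw [hSu] at ha' hb'
    rw [← hinvu, ← hmul, ← hmul, hSu, hSu]
    exact ⟨H.mul_mem ha' (H.inv_mem hb'), H.mul_mem ha' hb'⟩
  have hcS : c ∈ S := by
    refine ⟨1, H.one_mem, ?_⟩
    change c = 1 * c
    rw [one_mul]
  have hfin := hNo γ hγ S _ hSE hcS hcos (toPt x) ⟨x.1.ne_zero, fun l => by
      rw [pow_one]
      exact hx l⟩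
  rwa [hSu] at hfin

end

end Pool.Agent.NEX.KEY_

namespace Pool.Agent.NEX

open Pool.Agent.HGP (Ix Simil)
open Pool.Agent.GPH (CPath perMat num tpt)

theorem key_proof : Stmt_KEY := by
  intro r g F hleg L hLf hNo
  have hLalg : ∀ a ∈ L, IsAlgebraic ℚ a := by
    intro a ha
    have h1 : IsAlgebraic ℚ (⟨a, ha⟩ : L) := Algebra.IsAlgebraic.isAlgebraic _
    exact h1.algebraMap (A := ℂ)
  exact ⟨fun γ hγ H hH x hx => KEY_.key3 g F L hNo γ hγ H hH x hx,
    fun m k i α hα => KEY_.key2 g F L hLalg hNo m k i α hα⟩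

end Pool.Agent.NEX
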