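import Pool.Agent.NEX.YStmts
import Pool.Agent.NEX.KEY
import Pool.Agent.DRC.CyMain
import Pool.Agent.CYP.Main

set_option autoImplicit false

/-!
# KYY: from the abstract form to the torsors and classes of the Dwork families
-/

open scoped BigOperators Topology

namespace Pool.Agent.NEX.KYY_

open Pool.Agent.HGP (Ix Simil)
open Pool.Agent.CYP (Rm Qm Tors Per)
open Pool.Agent.CYP.FMAT_ (eq2)
open Pool.Agent.UBD (Pt Crd Pol ev InG GrpS)
open Pool.Agent.DRD (pinv mul_pinv pinv_mul)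
open Pool.Agent.DRH (tact tact_tact tact_one tact_smul_right)
open Pool.Agent.DRC

noncomputable section

variable {r : ℕ} {g : Fin r → ℕ} {ψ : Fin r → ℚ}

/-- The classes are Hodge classes. -/
theorem cyClass (B : Bas g ψ) (hg : ∀ l, 0 < g l)
    (hT : ∀ l, Tors (2 * g l) (ψ l) (2 * Real.pi * Complex.I) (Per (2 * g l) (ψ l)))
    (hQ : ∀ n, Even n → (Qm n ℂ).det ≠ 0)
    (L : IntermediateField ℚ ℂ) (hNo : NoTor (wt g) L (cp B))
    (n : ℕ) (k : ℤ) (i : Fin n → Fin r) (α : (∀ s, Fin (2 * g (i s))) → ℂ)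
    (hα : IsDRB (fun l => 2 * g l) (fun l => (ψ l : ℂ)) L n k i α) :
    IsHodge (fun l => 2 * g l) (fun l => (ψ l : ℂ)) n k i α := by
  classical
  obtain ⟨hαL, hb⟩ := hα
  choose b hb using hb
  let Et : ∀ l, Matrix (Fin (2 * g l)) (Ix (g l)) ℂ :=
    fun l => ((B.E l).map (algebraMap ℚ ℂ)).transpose
  let Ft : ∀ l, Matrix (Ix (g l)) (Fin (2 * g l)) ℂ :=
    fun l => ((B.F l).map (algebraMap ℚ ℂ)).transpose
  have hEF : ∀ l, Et l * Ft l = 1 := fun l => by
    change ((B.E l).map (algebraMap ℚ ℂ)).transpose * ((B.F l).map (algebraMap ℚ ℂ)).transpose = 1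
    rw [← Matrix.transpose_mul, map_FE, Matrix.transpose_one]
  -- tensors
  have t1 : ∀ (N : ∀ l, Matrix (Fin (2 * g l)) (Fin (2 * g l)) ℂ)
      (M : ∀ l, Matrix (Fin (2 * g l)) (Ix (g l)) ℂ) (β : (∀ s, Fin (2 * g (i s))) → ℂ),
      tact i M (tact i N β) = tact i (fun l => N l * M l) β := fun N M β =>
    tact_tact (ι := fun l => Fin (2 * g l)) (κ := fun l => Fin (2 * g l))
      (τ := fun l => Ix (g l)) i N M β
  have t2 : ∀ (N : ∀ l, Matrix (Fin (2 * g l)) (Ix (g l)) ℂ)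
      (M : ∀ l, Matrix (Ix (g l)) (Ix (g l)) ℂ) (β : (∀ s, Fin (2 * g (i s))) → ℂ),
      tact i M (tact i N β) = tact i (fun l => N l * M l) β := fun N M β =>
    tact_tact (ι := fun l => Fin (2 * g l)) (κ := fun l => Ix (g l))
      (τ := fun l => Ix (g l)) i N M β
  have t3 : ∀ (N : ∀ l, Matrix (Fin (2 * g l)) (Ix (g l)) ℂ)
      (M : ∀ l, Matrix (Ix (g l)) (Fin (2 * g l)) ℂ) (β : (∀ s, Fin (2 * g (i s))) → ℂ),
      tact i M (tact i N β) = tact i (fun l => N l * M l) β := fun N M β =>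
    tact_tact (ι := fun l => Fin (2 * g l)) (κ := fun l => Ix (g l))
      (τ := fun l => Fin (2 * g l)) i N M β
  have t0 : ∀ β : (∀ s, Fin (2 * g (i s))) → ℂ,
      tact i (fun l => (1 : Matrix (Fin (2 * g l)) (Fin (2 * g l)) ℂ)) β = β := fun β =>
    tact_one (ι := fun l => Fin (2 * g l)) i β
  have hback : ∀ β : (∀ s, Fin (2 * g (i s))) → ℂ, tact i Ft (tact i Et β) = β := by
    intro β
    rw [t3]
    have h1 : (fun l => Et l * Ft l) =
        fun l => (1 : Matrix (Fin (2 * g l)) (Fin (2 * g l)) ℂ) := funext hEF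
    rw [h1, t0]
  -- the transformed tensor
  set α' : (∀ s, Ix (g (i s))) → ℂ := tact i Et α with hα'
  have hα'L : ∀ I, α' I ∈ L := by
    intro I
    rw [hα']
    unfold tact
    refine sum_mem fun J _ => mul_mem (hαL J) (prod_mem fun s _ => ?_)
    exact L.algebraMap_mem _
  have hval : ∀ J, tact i (cp B).2 α' J =
      (cp B).1 ^ k * ((b (fun s => eq2 (g (i s)) (J s)) : ℚ) : ℂ) := by
    intro J
    rw [hα', t2]
    have h1 : (fun l => Et l * (cp B).2 l) =
        fun l => (Per (2 * g l) (ψ l)).submatrix id (eq2 (g l)) := by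
      funext l
      change Et l * (((B.F l).map (algebraMap ℚ ℂ)).transpose *
        Per (2 * g l) (ψ l)).submatrix id (eq2 (g l)) = _
      have h2 : Et l * (((B.F l).map (algebraMap ℚ ℂ)).transpose *
        Per (2 * g l) (ψ l)).submatrix id (eq2 (g l)) =
        (Et l * (((B.F l).map (algebraMap ℚ ℂ)).transpose *
        Per (2 * g l) (ψ l))).submatrix id (eq2 (g l)) := rfl
      rw [h2, ← Matrix.mul_assoc]
      have h3 : Et l * ((B.F l).map (algebraMap ℚ ℂ)).transpose = 1 := hEF l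
      rw [h3, Matrix.one_mul]
    rw [h1]
    exact hb (fun s => eq2 (g (i s)) (J s))
  have hinv := Pool.Agent.NEX.KEY_.invariant (w := wt g) L (cp B) Complex.two_pi_I_ne_zero
    (cp_det B hT hQ) hNo k i α' hα'L (fun J => b (fun s => eq2 (g (i s)) (J s))) hval
  have hI : Inv (fun l => Rm (2 * g l) (ψ l : ℂ)) (wt g) k i α := by
    intro mu h hmu hh
    have h1 := hinv (mu, cj B h) ⟨hmu, fun l => (simil_cj B mu h l).2 (hh l)⟩
    change tact i (cj B h) α' = mu ^ k • α' at h1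
    rw [hα', t2] at h1
    have h2 : (fun l => Et l * cj B h l) = fun l => h l * Et l := by
      funext l
      change Et l * (((B.F l).map (algebraMap ℚ ℂ)).transpose * h l *
        ((B.E l).map (algebraMap ℚ ℂ)).transpose) = _
      have h3 : Et l * ((B.F l).map (algebraMap ℚ ℂ)).transpose = 1 := hEF l
      rw [← Matrix.mul_assoc, ← Matrix.mul_assoc, h3, Matrix.one_mul]
    rw [h2, ← t1, ← tact_smul_right] at h1
    have h4 := congrArg (tact i Ft) h1
    rw [hback, hback] at h4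
    exact h4
  refine ⟨fun mu h hmu hh I' => congrFun (hI mu h hmu hh) I', fun I hIne => ?_⟩
  have hw := weight hI I hIne
  have hty := type hI (fun l => (B.F l).map (algebraMap ℚ ℂ))
    (fun l => (B.E l).map (algebraMap ℚ ℂ)) (fun l => Matrix.J (Fin (g l)) ℂ)
    (map_FE B) (map_EF B) B.rel (fun l => pq (g l)) (fun l a => (a : ℕ))
    (fun l a b hab => J_pq (g l) a b hab) (fun l a b hab => B.tri l a b (by
      intro h0
      apply hab
      rw [Matrix.map_apply, h0, map_zero])) I hIne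
  refine ⟨hw, ?_⟩
  change k ≤ ((∑ s, (2 * g (i s) - 1 - (I s : ℕ)) : ℕ) : ℤ)
  have h5 : ∑ s, (2 * g (i s) - 1 - (I s : ℕ)) + ∑ s, (I s : ℕ) = ∑ s, (2 * g (i s) - 1) := by
    rw [← Finset.sum_add_distrib]
    refine Finset.sum_congr rfl fun s _ => ?_
    have h51 : (I s : ℕ) < 2 * g (i s) := (I s).2
    have h52 := hg (i s)
    omega
  have h6 : ((∑ s, (2 * g (i s) - 1 - (I s : ℕ)) : ℕ) : ℤ) + ((∑ s, (I s : ℕ) : ℕ) : ℤ) =
      ((∑ s, (2 * g (i s) - 1) : ℕ) : ℤ) := by exact_mod_cast h5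
  have h7 : ((∑ s, (2 * g (i s) - 1) : ℕ) : ℤ) = 2 * k := hw
  have h8 : ((∑ s, (I s : ℕ) : ℕ) : ℤ) ≤ k := hty
  omega

/-- No proper subtorsor. -/
theorem cyTorsor (B : Bas g ψ)
    (hT : ∀ l, Tors (2 * g l) (ψ l) (2 * Real.pi * Complex.I) (Per (2 * g l) (ψ l)))
    (hQ : ∀ n, Even n → (Qm n ℂ).det ≠ 0)
    (L : IntermediateField ℚ ℂ) (hNo : NoTor (wt g) L (cp B))
    (H : Subgroup (Aut (fun l => 2 * g l)))
    (hH : IsTorsor (fun l => 2 * g l) (fun l => (ψ l : ℂ)) L H) (x : Aut (fun l => 2 * g l))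
    (hx : ∀ l, SimilR (2 * g l) (ψ l) (x.1 : ℂ)
      (x.2 l : Matrix (Fin (2 * g l)) (Fin (2 * g l)) ℂ)) : x ∈ H := by
  obtain ⟨E, hE⟩ := hH
  have hdet := cp_det B hT hQ
  have hcS : cp B ∈ Sset B H := ⟨1, H.one_mem, by rw [tp_one, one_mul]⟩
  have hxG : InG (wt g) (tp B x) := ⟨x.1.ne_zero, fun l =>
    (simil_cj B (x.1 : ℂ) (fun l => (x.2 l : Matrix (Fin (2 * g l)) (Fin (2 * g l)) ℂ)) l).2
      (hx l)⟩
  have hcl := Sset_closed B hdet L H E hE
  have hfin := hNo (Sset B H) ((MvPolynomial.bind₁ (sE L B.E)) '' E) hcl hcS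
    (Sset_cos B hdet H) (tp B x) hxG
  exact (mem_Sset B hdet H x).1 hfin

end

end Pool.Agent.NEX.KYY_

namespace Pool.Agent.NEX

theorem kyy_proof : Stmt_KYY := by
  intro r g ψ B hg hT L _ hNo
  exact ⟨fun H hH x hx => KYY_.cyTorsor B hT CYP.Main.qdet L hNo H hH x hx,
    fun m k i α hα => KYY_.cyClass B hg hT CYP.Main.qdet L hNo m k i α hα⟩

end Pool.Agent.NEX
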