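import Pool.Agent.NEX.Stmts
import Pool.Agent.DGP.NF
import Pool.Agent.HGP.GENB
import Pool.Agent.HGP.PATH

set_option autoImplicit false

/-!
# NEX, module NRM: from relations over a number field to rational relations on the symplectic
group (polynomial parametrisation by products of transvections)
-/

open scoped BigOperators Topology
open MvPolynomial

namespace Pool.Agent.NEX

open Pool.Agent.HGP (Ix Simil tv)

noncomputable section

namespace NRM_

/-- Evaluation of a matrix of polynomials with rational coefficients. -/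
def evm {k : ℕ} {W : Type} (y : W → ℂ) (Ψ : Matrix (Ix k) (Ix k) (MvPolynomial W ℚ)) :
    Matrix (Ix k) (Ix k) ℂ := ((aeval y : MvPolynomial W ℚ →ₐ[ℚ] ℂ) : MvPolynomial W ℚ →+* ℂ).mapMatrix Ψ

lemma evm_apply {k : ℕ} {W : Type} (y : W → ℂ) (Ψ : Matrix (Ix k) (Ix k) (MvPolynomial W ℚ))
    (a b : Ix k) : evm y Ψ a b = aeval y (Ψ a b) := rfl

lemma evm_mul {k : ℕ} {W : Type} (y : W → ℂ) (Ψ Φ : Matrix (Ix k) (Ix k) (MvPolynomial W ℚ)) :
    evm y (Ψ * Φ) = evm y Ψ * evm y Φ := map_mul _ _ _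

lemma evm_one {k : ℕ} {W : Type} (y : W → ℂ) :
    evm y (1 : Matrix (Ix k) (Ix k) (MvPolynomial W ℚ)) = 1 := map_one _

lemma evm_rename {k : ℕ} {W W' : Type} (f : W → W') (y : W' → ℂ)
    (Ψ : Matrix (Ix k) (Ix k) (MvPolynomial W ℚ)) :
    evm y (Ψ.map (rename f)) = evm (y ∘ f) Ψ := by
  ext a b
  rw [evm_apply, evm_apply, Matrix.map_apply, aeval_rename]

/-- `M` lies on a polynomial family (with rational coefficients) of symplectic matrices. -/
def Good {k : ℕ} (M : Matrix (Ix k) (Ix k) ℂ) : Prop :=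
  ∃ (W : Type) (Ψ : Matrix (Ix k) (Ix k) (MvPolynomial W ℚ)) (w : W → ℂ),
    (∀ y : W → ℂ, Simil 1 (evm y Ψ)) ∧ evm w Ψ = M

lemma good_one {k : ℕ} : Good (1 : Matrix (Ix k) (Ix k) ℂ) := by
  refine ⟨Empty, 1, fun x => x.elim, fun y => ?_, evm_one _⟩
  rw [evm_one]
  unfold Simil
  simp

/-- the generic transvection -/
def gtv (k : ℕ) : Matrix (Ix k) (Ix k) (MvPolynomial (Option (Ix k)) ℚ) :=
  Matrix.of fun a b => (if a = b then 1 else 0) +
    X none * (X (some a) * ∑ c, Matrix.J (Fin k) (MvPolynomial (Option (Ix k)) ℚ) b c * X (some c))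

lemma aeval_J {k : ℕ} {W : Type} (y : W → ℂ) (a b : Ix k) :
    (aeval y (Matrix.J (Fin k) (MvPolynomial W ℚ) a b) : ℂ) = Matrix.J (Fin k) ℂ a b := by
  unfold Matrix.J
  rcases a with a | a <;> rcases b with b | b
  · simp
  · simp only [Matrix.fromBlocks_apply₁₂, Matrix.neg_apply, map_neg, Matrix.one_apply]
    split_ifs <;> simp
  · simp only [Matrix.fromBlocks_apply₂₁, Matrix.one_apply]
    split_ifs <;> simp
  · simp

lemma evm_gtv {k : ℕ} (y : Option (Ix k) → ℂ) :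
    evm y (gtv k) = tv (fun a => y (some a)) (y none) := by
  ext a b
  rw [evm_apply]
  unfold gtv tv
  simp only [Matrix.of_apply, map_add, map_mul, map_sum, aeval_X, aeval_J, Matrix.add_apply,
    Matrix.smul_apply, Matrix.vecMulVec_apply, smul_eq_mul, Matrix.mulVec, dotProduct,
    Matrix.one_apply]
  congr 1
  split_ifs <;> simp

lemma good_tv {k : ℕ} (v : Ix k → ℂ) (c : ℂ) : Good (tv v c) := by
  refine ⟨Option (Ix k), gtv k, fun o => o.elim c v, fun y => ?_, ?_⟩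
  · rw [evm_gtv]
    exact HGP.PATH_.simil_tv _ _
  · rw [evm_gtv]
    rfl

lemma good_mul {k : ℕ} {M N : Matrix (Ix k) (Ix k) ℂ} (hM : Good M) (hN : Good N) :
    Good (M * N) := by
  obtain ⟨W1, Ψ1, w1, h1, e1⟩ := hM
  obtain ⟨W2, Ψ2, w2, h2, e2⟩ := hN
  refine ⟨W1 ⊕ W2, Ψ1.map (rename Sum.inl) * Ψ2.map (rename Sum.inr), Sum.elim w1 w2,
    fun y => ?_, ?_⟩
  · rw [evm_mul, evm_rename, evm_rename]
    exact HGP.PATH_.simil_mul (h1 _) (h2 _)
  · rw [evm_mul, evm_rename, evm_rename, Sum.elim_comp_inl, Sum.elim_comp_inr, e1, e2]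

lemma good {k : ℕ} (M : Matrix (Ix k) (Ix k) ℂ) (hM : Simil 1 M) : Good M := by
  have h := HGP.genb_proof k M hM
  clear hM
  induction h using Submonoid.closure_induction with
  | mem N hN =>
    obtain ⟨v, c, rfl⟩ := hN
    exact good_tv v c
  | one => exact good_one
  | mul A B _ _ hA hB => exact good_mul hA hB

end NRM_

open NRM_ in
theorem nrm_proof : Stmt_NRM := by
  intro r g L hL Z P hZ hne
  obtain ⟨M, hM, hPM⟩ := hne
  choose W Ψ w hS hw using fun i => good (M i) (hM i)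
  obtain ⟨N, hNd, hNz, hNb⟩ := DGP.NF.norm_exists (τ' := Σ i, W i) P
  refine ⟨N, hNd, hNz _ hZ, ?_⟩
  by_contra hcon
  push Not at hcon
  -- the polynomial map
  set ψ : CrF g → MvPolynomial (Σ i, W i) ℚ := fun p =>
    rename (fun x : W p.1 => (⟨p.1, x⟩ : Σ i, W i)) (Ψ p.1 p.2.1 p.2.2) with hψ
  have hev : ∀ y : (Σ i, W i) → ℂ, (fun p => (aeval y (ψ p) : ℂ)) =
      mpt (fun i => evm (fun x => y ⟨i, x⟩) (Ψ i)) := by
    intro y
    funext p
    rw [hψ]
    change aeval y (rename (fun x : W p.1 => (⟨p.1, x⟩ : Σ i, W i)) (Ψ p.1 p.2.1 p.2.2)) = _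
    rw [aeval_rename]
    rfl
  have h1 : bind₁ ψ N = 0 := by
    apply MvPolynomial.funext
    intro z
    have h2 := hcon (fun i => evm (fun x => ((z ⟨i, x⟩ : ℚ) : ℂ)) (Ψ i)) (fun i => hS i _)
    have h3 := hev (fun s => ((z s : ℚ) : ℂ))
    rw [← h3, ← aeval_bind₁] at h2
    have h6 := aeval_algebraMap_apply (A := ℚ) (B := ℂ) z (bind₁ ψ N)
    simp only [eq_ratCast] at h6
    rw [aeval_eq_eval] at h6
    have h7 : ((eval z (bind₁ ψ N) : ℚ) : ℂ) = 0 := h6.symm.trans h2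
    rw [map_zero]
    exact_mod_cast h7
  have h4 := congrArg (aeval (fun s : Σ i, W i => w s.1 s.2) :
    MvPolynomial (Σ i, W i) L →ₐ[L] ℂ) (hNb ψ h1)
  rw [aeval_bind₁, map_zero] at h4
  have h5 : ∀ f : MvPolynomial (Σ i, W i) ℚ,
      (aeval (fun s : Σ i, W i => w s.1 s.2) (MvPolynomial.map (algebraMap ℚ L) f) : ℂ) =
        aeval (fun s : Σ i, W i => w s.1 s.2) f := by
    intro f
    rw [aeval_def, eval₂_map, aeval_def]
    congr 1
  simp only [h5] at h4
  rw [hev] at h4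
  have h8 : mpt (fun i => evm (fun x => w i x) (Ψ i)) = mpt M := by
    have h9 : (fun i => evm (fun x => w i x) (Ψ i)) = M := funext hw
    rw [h9]
  rw [h8] at h4
  exact hPM h4

end

end Pool.Agent.NEX
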