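import Pool.Agent.NEX.Stmts
import Pool.Agent.DG2.REFX

set_option autoImplicit false

/-!
# NEX, module REF: reference periods and the reference integrals at the base point
-/

open scoped BigOperators Topology
open Metric Set

namespace Pool.Agent.NEX.REF_

open Pool.Agent.GPH Pool.Agent.DG2
open Pool.Agent.HGP (Ix Simil Idx fvec opt)

noncomputable section

/-- The theorem for the complex coefficients. -/
theorem main2 (g : ℕ) (hg : 0 < g) (u : Fin (2 * g) → ℂ) (s0 : ℂ)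
    (hsep : (fus g u s0).Separable) :
    ∃ (R : ℝ) (W W' : ℂ → Matrix (Fin (2 * g)) (Ix g) ℂ) (κ : ℂ) (z : ℕ → ℂ)
      (K : Matrix (Ix g) (Ix g) ℤ), (Ord (2 * g + 1) κ z ∧ fus g u s0 = polz g z ∧
        W s0 = (refP g z).transpose * (Tm g).transpose * K.map (fun x : ℤ => (x : ℂ))) ∧ 0 < R ∧
      (∀ z ∈ ball s0 R, (fus g u z).Separable) ∧
      (∀ z ∈ ball s0 R, ∀ i j, HasDerivAt (fun z => W z i j) (W' z i j) z) ∧
      (∀ z ∈ ball s0 R, (z • (1 : Matrix (Fin (2 * g)) (Fin (2 * g)) ℂ) +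
        (Cop u).transpose) * W' z = (Dop u).transpose * W z) ∧
      (∀ z ∈ ball s0 R, Simil (2 * Real.pi * Complex.I) (Nm g (fus g u z) * W z)) ∧
      (Nm g (fus g u s0) * W s0).toBlocks₁₁.det ≠ 0 ∧
      (∀ z ∈ ball s0 R, ∀ γ : CPath (fus g u z), ∃ K : Ix g → ℤ, ∀ k,
        γ.per (num g (fus g u z) k) = ∑ j, (Nm g (fus g u z) * W z) k j * K j) := by
  obtain ⟨δ0, R0, κ, z, hδ0, hR0, -, hzd, hz⟩ := REFX_.locRoots g u s0 hsep
  have hu : u ∈ closedBall u δ0 := mem_closedBall_self hδ0.le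
  have hs0 : s0 ∈ ball s0 R0 := mem_ball_self hR0
  have hpi : (2 * Real.pi * Complex.I : ℂ) ≠ 0 := by
    simp [Real.pi_ne_zero, Complex.I_ne_zero]
  obtain ⟨W0', hd, ho⟩ := REFX_.ode REFX_.odeE cDid_proof g u κ s0 R0 (fun i s => z i u s)
    (fun i => hzd i u hu) (fun s hs => hz u hu s hs)
  have hMz : ∀ s ∈ ball s0 R0, Mz g (fun i => z i u s) =
      Nm g (fus g u s) * FIBERZ.Wm g (fun i => z i u s) := by
    intro s hs
    rw [FIBERZ.Mz_eq, ← (hz u hu s hs).2]
  have hsim := fun s hs => REFX_.rz g κ (fun i => z i u s) hg (hz u hu s hs).1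
  obtain ⟨K, hK, hKdet⟩ := LAG.thm g (Mz g (fun i => z i u s0)) _ hpi (hsim s0 hs0)
  obtain ⟨hKK, hKi⟩ := PIECE.inv_spec K hK
  set A := K.map (fun x : ℤ => (x : ℂ)) with hA
  set B := (PIECE.Kinv K).map (fun x : ℤ => (x : ℂ)) with hB
  refine ⟨R0, fun s => FIBERZ.Wm g (fun i => z i u s) * A, fun s => W0' s * A, κ,
    fun i => z i u s0, K, ⟨(hz u hu s0 hs0).1, (hz u hu s0 hs0).2, rfl⟩, hR0, ?_, ?_, ?_,
    ?_, ?_, ?_⟩
  · intro s hs
    rw [(hz u hu s hs).2]
    exact REFX_.sep g κ _ (hz u hu s hs).1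
  · intro s hs i j
    have h2 : (fun t => (FIBERZ.Wm g (fun i => z i u t) * A) i j) =
        fun t => ∑ l, FIBERZ.Wm g (fun i => z i u t) i l * A l j := by
      funext t
      rw [Matrix.mul_apply]
    have e1 : (W0' s * A) i j = ∑ l, W0' s i l * A l j := Matrix.mul_apply
    show HasDerivAt (fun t => (FIBERZ.Wm g (fun i => z i u t) * A) i j) ((W0' s * A) i j) s
    rw [h2, e1]
    refine HasDerivAt.fun_sum fun l _ => ?_
    exact (hd s hs i l).mul_const _
  · intro s hs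
    simp only
    rw [← Matrix.mul_assoc, ho s hs, Matrix.mul_assoc]
  · intro s hs
    simp only
    rw [← Matrix.mul_assoc, ← hMz s hs]
    exact PIECE.simil_mul (hsim s hs) hK
  · simp only
    rw [← Matrix.mul_assoc, ← hMz s0 hs0]
    exact hKdet
  · intro s hs
    simp only
    rw [← Matrix.mul_assoc, ← hMz s hs]
    obtain ⟨hord, hfus⟩ := hz u hu s hs
    rw [hfus]
    intro γ
    obtain ⟨L, hL⟩ := REFX_.loopM g κ (fun i => z i u s) hg hord γ
    refine ⟨(PIECE.Kinv K).mulVec L, ?_⟩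
    intro k
    rw [hL k]
    have h1 : ∀ c, (((PIECE.Kinv K).mulVec L c : ℤ) : ℂ) =
        B.mulVec (fun c => (L c : ℂ)) c := by
      intro c
      rw [Matrix.mulVec, Matrix.mulVec, dotProduct, dotProduct]
      push_cast
      rfl
    have h2 : ∑ c, (Mz g (fun i => z i u s) * A) k c *
        (((PIECE.Kinv K).mulVec L c : ℤ) : ℂ) =
        (Mz g (fun i => z i u s) * A).mulVec (B.mulVec (fun c => (L c : ℂ))) k := by
      rw [Matrix.mulVec, dotProduct]
      exact Finset.sum_congr rfl (fun c _ => by rw [h1 c])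
    rw [h2, Matrix.mulVec_mulVec, Matrix.mul_assoc, hKK, Matrix.mul_one]
    rfl

end

end Pool.Agent.NEX.REF_

namespace Pool.Agent.NEX

open Pool.Agent.DG2 in
/-- REF. -/
theorem ref_proof (hN : DG2.Stmt_NmQ) : Stmt_REF := by
  intro g c s hg hsep
  obtain ⟨hNm, hfus, -⟩ := hN g c
  have h0 : (GPH.fus g (cC c) (s : ℂ)).Separable := by
    rw [hfus]
    exact hsep
  obtain ⟨R, W, W', κ, z, K, ⟨k1, k2, k3⟩, hR, h1, h2, h3, h4, h5, h6⟩ :=
    REF_.main2 g hg (cC c) (s : ℂ) h0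
  refine ⟨R, W, κ, z, K, ⟨hR, ?_, ⟨W', h2, h3⟩, ?_, ?_, ?_⟩, k1, k2, k3⟩
  · intro z hz
    have := h1 z hz
    rw [hfus] at this
    exact this
  · intro z hz
    have := h4 z hz
    rw [hNm] at this
    exact this
  · have := h5
    rw [hNm] at this
    exact this
  · intro z hz
    have := h6 z hz
    rw [hNm] at this
    exact this

end Pool.Agent.NEX
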