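import Pool.Agent.NEX.Stmts

set_option autoImplicit false

/-! # NEX, module SEA -/

open scoped BigOperators Topology
open Metric Set

namespace Pool.Agent.NEX

open Pool.Agent.HGP (Ix Simil Idx fvec)
open Pool.Agent.UBD (Pt Crd Pol ev InG GrpS Dns Inf1 Lie nv sg1 ex)

noncomputable section

namespace SEA_

/-- A family which is independent modulo a subspace. -/
theorem indep_mod {E : Type} [AddCommGroup E] [Module ℂ E] [FiniteDimensional ℂ E]
    (n S : Submodule ℂ E) (h : n ≤ S) (m : ℕ)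
    (hm : Module.finrank ℂ n + m ≤ Module.finrank ℂ S) :
    ∃ X : Fin m → E, (∀ l, X l ∈ S) ∧ ∀ c : Fin m → ℂ, ∑ k, c k • X k ∈ n → c = 0 := by
  have e1 : Module.finrank ℂ (n.comap S.subtype) = Module.finrank ℂ n :=
    LinearEquiv.finrank_eq (Submodule.comapSubtypeEquivOfLe h)
  have e2 : Module.finrank ℂ (S ⧸ n.comap S.subtype) + Module.finrank ℂ (n.comap S.subtype) =
      Module.finrank ℂ S := Submodule.finrank_quotient_add_finrank _
  have e3 : m ≤ Module.finrank ℂ (S ⧸ n.comap S.subtype) := by omega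
  have b := Module.finBasis ℂ (S ⧸ n.comap S.subtype)
  have hsurj := Submodule.mkQ_surjective (n.comap S.subtype)
  choose y hy using fun k : Fin m => hsurj (b (Fin.castLE e3 k))
  refine ⟨fun k => (y k : E), fun l => (y l).2, fun c hc => ?_⟩
  have hli : LinearIndependent ℂ (fun k : Fin m => b (Fin.castLE e3 k)) :=
    b.linearIndependent.comp _ (Fin.castLE_injective e3)
  rw [Fintype.linearIndependent_iff] at hli
  have h0 : ∑ k, c k • b (Fin.castLE e3 k) = 0 := by
    have h1 : (∑ k, c k • y k : S) ∈ n.comap S.subtype := by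
      rw [Submodule.mem_comap, map_sum]
      simpa only [map_smul, Submodule.subtype_apply] using hc
    rw [← Submodule.Quotient.mk_eq_zero, ← Submodule.mkQ_apply, map_sum] at h1
    rw [← h1]
    refine Finset.sum_congr rfl fun k _ => ?_
    rw [map_smul, hy]
  funext k
  exact hli c h0 k

theorem ex_zero {r : ℕ} {g : Fin r → ℕ} (t : ℂ) : ex t (0 : Pt g) = 1 := by
  unfold ex
  refine Prod.ext ?_ ?_
  · simp
  · funext i
    simp

theorem brk_spS {k : ℕ} {X Y : Matrix (Ix k) (Ix k) ℂ} (hX : X ∈ spS k) (hY : Y ∈ spS k) :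
    X * Y - Y * X ∈ spS k := by
  rw [mem_spS] at *
  have h1 : X.transpose * Matrix.J (Fin k) ℂ = -(Matrix.J (Fin k) ℂ * X) :=
    eq_neg_of_add_eq_zero_left hX
  have h2 : Y.transpose * Matrix.J (Fin k) ℂ = -(Matrix.J (Fin k) ℂ * Y) :=
    eq_neg_of_add_eq_zero_left hY
  rw [Matrix.transpose_sub, Matrix.transpose_mul, Matrix.transpose_mul, Matrix.sub_mul,
    Matrix.mul_assoc, Matrix.mul_assoc, h1, h2, Matrix.mul_neg, Matrix.mul_neg,
    ← Matrix.mul_assoc, ← Matrix.mul_assoc, h1, h2, Matrix.neg_mul, Matrix.neg_mul,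
    Matrix.mul_sub, Matrix.mul_assoc, Matrix.mul_assoc]
  abel

end SEA_

open SEA_ in
theorem sea_proof (h1 : Stmt_COD) (h2 : Stmt_BRK) (h3 : UBD.Stmt_LIEA) (h4 : UBD.Stmt_FUL)
    (h5 : UBD.Stmt_CLO) : Stmt_SEA := by
  classical
  intro r g w hg N hN hcen hne
  obtain ⟨J, hJ⟩ : ∃ J : Finset (Fin r), ∀ j, j ∈ J ↔ ∃ v : Ix (g j) → ℂ,
      sg1 j (nv v) ∉ Lie N :=
    ⟨Finset.univ.filter fun j => ∃ v : Ix (g j) → ℂ, sg1 j (nv v) ∉ Lie N, fun j => by simp⟩
  have hfirst : ∀ a : Pt g, a.1 = 1 → (∀ i, Simil 1 (a.2 i)) → (∀ i ∈ J, a.2 i = 1) → a ∈ N := by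
    intro a ha ha' haJ
    refine h4 r g w N hN {i | i ∉ J} ?_ a ha ha' ?_
    · intro i hi v
      by_contra hcon
      exact hi ((hJ i).2 ⟨v, hcon⟩)
    · intro i hi
      refine haJ i ?_
      by_contra hcon
      exact hi hcon
  -- J is not empty
  have hJne : J.Nonempty := by
    rw [Finset.nonempty_iff_ne_empty]
    rintro rfl
    obtain ⟨a, ha, haN⟩ := hne
    refine haN (h5 r g w N hN ?_ (fun b hb hb' => hfirst b hb hb' (by simp)) a ha)
    have hsub : {x : ℂ | x ≠ 0} ⊆ {x : ℂ | ∃ h ∈ N, h.1 = x} := by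
      intro x hx
      obtain ⟨s, hs⟩ := IsSquare.exists_sq x (IsAlgClosed.exists_pow_nat_eq x (n := 2) (by norm_num)
        |>.elim fun z hz => ⟨z, by rw [← hz, sq]⟩)
      have hs0 : s ≠ 0 := by
        rintro rfl
        apply hx
        rw [hs]
        norm_num
      exact ⟨cen w s, hcen s hs0, hs.symm⟩
    refine Set.Infinite.mono hsub ?_
    have : {x : ℂ | x ≠ 0} = ({0} : Set ℂ)ᶜ := rfl
    rw [this]
    exact (Set.finite_singleton (0 : ℂ)).infinite_compl
  -- the subalgebra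
  let nn : Submodule ℂ (Fam g) :=
    { carrier := {X | (∀ i, X i ∈ spS (g i)) ∧ ((0, X) : Pt g) ∈ Lie N}
      add_mem' := by
        rintro X Y ⟨hX, hX'⟩ ⟨hY, hY'⟩
        refine ⟨fun i => (spS (g i)).add_mem (hX i) (hY i), ?_⟩
        have := h3 r g w N hN _ hX' _ hY' 1
        rw [one_smul, Prod.mk_add_mk, add_zero] at this
        exact this
      zero_mem' := by
        refine ⟨fun i => (spS (g i)).zero_mem, ?_⟩
        intro t
        have : ((0, 0) : Pt g) = 0 := rfl
        rw [this, ex_zero]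
        exact hN.one
      smul_mem' := by
        rintro c X ⟨hX, hX'⟩
        refine ⟨fun i => (spS (g i)).smul_mem c (hX i), ?_⟩
        have h0 : (0 : Pt g) ∈ Lie N := by
          intro t
          rw [ex_zero]
          exact hN.one
        have := h3 r g w N hN _ h0 _ hX' c
        rw [zero_add, Prod.smul_mk, smul_zero] at this
        exact this }
  have hnn : ∀ X : Fam g, X ∈ nn ↔ (∀ i, X i ∈ spS (g i)) ∧ ((0, X) : Pt g) ∈ Lie N :=
    fun X => Iff.rfl
  have hcod := h1 r g hg nn (fun X hX i => ((hnn X).1 hX).1 i)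
    (fun X hX Y hY => by
      rw [hnn] at *
      refine ⟨fun i => brk_spS (hX.1 i) (hY.1 i), ?_⟩
      have := h2 r g w N hN _ hX.2 _ hY.2
      rw [Prod.mk_mul_mk, Prod.mk_mul_mk, Prod.mk_sub_mk, mul_zero, sub_zero] at this
      exact this) J
    (fun j hj => by
      obtain ⟨v, hv⟩ := (hJ j).1 hj
      refine ⟨v, fun hcon => hv ?_⟩
      exact ((hnn _).1 hcon).2)
  have hle : nn ≤ Submodule.pi Set.univ fun i => spS (g i) := by
    intro X hX
    rw [Submodule.mem_pi]
    intro i _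
    exact ((hnn X).1 hX).1 i
  have hm : Module.finrank ℂ nn + ((∑ i ∈ J, g i) + 1) ≤
      Module.finrank ℂ (Submodule.pi Set.univ fun i => spS (g i)) := by
    have : ∑ j ∈ J, (g j + 1) = (∑ j ∈ J, g j) + J.card := by
      rw [Finset.sum_add_distrib]
      simp
    have hc : 1 ≤ J.card := hJne.card_pos
    omega
  obtain ⟨X, hX, hind⟩ := indep_mod nn _ hle _ hm
  have hXi : ∀ l i, X l i ∈ spS (g i) := by
    intro l i
    have := hX l
    rw [Submodule.mem_pi] at this
    exact this i (Set.mem_univ i)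
  refine ⟨J, fun l => (0, X l), hfirst, fun l => ⟨rfl, hXi l⟩, fun c hc => hind c ?_⟩
  rw [hnn]
  refine ⟨fun i => ?_, ?_⟩
  · rw [Finset.sum_apply]
    exact Submodule.sum_mem _ fun k _ => (spS (g i)).smul_mem _ (hXi k i)
  · have e : (∑ k, c k • ((0, X k) : Pt g)) = ((0, ∑ k, c k • X k) : Pt g) := by
      refine Prod.ext ?_ ?_
      · rw [Prod.fst_sum]
        simp
      · rw [Prod.snd_sum]
        simp
    rw [e] at hc
    exact hc

end

end Pool.Agent.NEX
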