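import Pool.Agent.NEX.STB

set_option autoImplicit false

/-!
# NEX, module SEB: functions which are multiplied by characters, with independent differentials
-/

open scoped BigOperators Topology

namespace Pool.Agent.NEX

open Pool.Agent.HGP (Ix Simil Idx fvec)
open Pool.Agent.UBD (Pt Crd Pol ev InG GrpS Dns Inf1 Lie nv sg1 ex)
open Pool.Agent.DRD (subR ev_subR deg_subR)

noncomputable section

namespace SEB_

section expo

attribute [local instance] Matrix.linftyOpNormedRing Matrix.linftyOpNormedAlgebra

theorem deriv_entry {m : Type} [Fintype m] [DecidableEq m] (X Y : Matrix m m ℂ) (p q : m) :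
    HasDerivAt (fun t : ℂ => (NormedSpace.exp (t • X) * Y) p q) ((X * Y) p q) 0 := by
  have h := hasDerivAt_exp_smul_const X (0 : ℂ)
  rw [zero_smul, NormedSpace.exp_zero, one_mul] at h
  have h2 := h.mul_const Y
  exact (LinearMap.toContinuousLinearMap
    (Matrix.entryLinearMap ℂ ℂ p q : Matrix m m ℂ →ₗ[ℂ] ℂ)).hasFDerivAt.comp_hasDerivAt (0 : ℂ) h2

end expo

variable {r : ℕ} {g w : Fin r → ℕ}

theorem hd (P : Pol g) (X y : Pt g) :
    HasDerivAt (fun t : ℂ => ev P (ex t X * y)) (dP P X y) 0 := by
  have h := STB_deriv P X y 0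
  rw [STB_ex_zero, one_mul] at h
  exact h

theorem at0 (P : Pol g) (X y : Pt g) : ev P (ex 0 X * y) = ev P y := by
  rw [STB_ex_zero, one_mul]

theorem ev_add (P Q : Pol g) (a : Pt g) : ev (P + Q) a = ev P a + ev Q a := by
  simp only [ev, map_add]

theorem ev_mul (P Q : Pol g) (a : Pt g) : ev (P * Q) a = ev P a * ev Q a := by
  simp only [ev, map_mul]

theorem ev_sum {ι : Type} (s : Finset ι) (P : ι → Pol g) (a : Pt g) :
    ev (∑ i ∈ s, P i) a = ∑ i ∈ s, ev (P i) a := by
  simp only [ev, map_sum]

theorem dP_add (P Q : Pol g) (X y : Pt g) : dP (P + Q) X y = dP P X y + dP Q X y := by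
  have h1 := (hd P X y).add (hd Q X y)
  have h2 := hd (P + Q) X y
  have e : (fun t : ℂ => ev (P + Q) (ex t X * y)) =
      (fun t : ℂ => ev P (ex t X * y)) + fun t : ℂ => ev Q (ex t X * y) := by
    funext t
    exact ev_add P Q _
  rw [e] at h2
  exact h2.unique h1

theorem dP_mul (P Q : Pol g) (X y : Pt g) :
    dP (P * Q) X y = dP P X y * ev Q y + ev P y * dP Q X y := by
  have h1 := (hd P X y).mul (hd Q X y)
  have h2 := hd (P * Q) X y
  have e : (fun t : ℂ => ev (P * Q) (ex t X * y)) =
      (fun t : ℂ => ev P (ex t X * y)) * fun t : ℂ => ev Q (ex t X * y) := by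
    funext t
    exact ev_mul P Q _
  rw [e] at h2
  have h3 := h2.unique h1
  rw [h3, at0, at0]

theorem dP_C (c : ℂ) (X y : Pt g) : dP (MvPolynomial.C c : Pol g) X y = 0 := by
  have h2 := hd (MvPolynomial.C c : Pol g) X y
  have e : (fun t : ℂ => ev (MvPolynomial.C c : Pol g) (ex t X * y)) = fun _ : ℂ => c := by
    funext t
    simp only [ev, MvPolynomial.eval_C]
  rw [e] at h2
  exact h2.unique (hasDerivAt_const _ _)

theorem dP_sum {ι : Type} (s : Finset ι) (P : ι → Pol g) (X y : Pt g) :
    dP (∑ i ∈ s, P i) X y = ∑ i ∈ s, dP (P i) X y := by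
  classical
  induction s using Finset.induction_on with
  | empty =>
    rw [Finset.sum_empty, Finset.sum_empty, ← MvPolynomial.C_0, dP_C]
  | insert a s ha ih => rw [Finset.sum_insert ha, Finset.sum_insert ha, dP_add, ih]

theorem dP_subR (P : Pol g) (X y z : Pt g) : dP (subR z P) X y = dP P X (y * z) := by
  unfold dP
  congr 1
  funext t
  rw [ev_subR, mul_assoc]

/-- The derivative is linear in the direction. -/
theorem dP_lin (P : Pol g) (y : Pt g) : ∃ L : Pt g →ₗ[ℂ] ℂ, ∀ X, dP P X y = L X := by
  induction P using MvPolynomial.induction_on with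
  | C c => exact ⟨0, fun X => by rw [dP_C, LinearMap.zero_apply]⟩
  | add P Q hP hQ =>
    obtain ⟨L, hL⟩ := hP
    obtain ⟨L', hL'⟩ := hQ
    exact ⟨L + L', fun X => by rw [dP_add, hL, hL', LinearMap.add_apply]⟩
  | mul_X P o hP =>
    obtain ⟨L, hL⟩ := hP
    have hX : ∃ L' : Pt g →ₗ[ℂ] ℂ, ∀ X, dP (MvPolynomial.X o : Pol g) X y = L' X := by
      rcases o with _ | ⟨i, p, q⟩
      · refine ⟨{ toFun := fun X => X.1 * y.1
                  map_add' := fun X X' => by
                    rw [Prod.fst_add, add_mul]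
                  map_smul' := fun c X => by
                    rw [Prod.smul_fst, smul_eq_mul, RingHom.id_apply, smul_eq_mul, mul_assoc] },
          fun X => ?_⟩
        have h1 := hd (MvPolynomial.X none : Pol g) X y
        have e : (fun t : ℂ => ev (MvPolynomial.X none : Pol g) (ex t X * y)) =
            fun t : ℂ => Complex.exp (t * X.1) * y.1 := by
          funext t
          simp only [ev, MvPolynomial.eval_X]
          rfl
        rw [e] at h1
        have h2 : HasDerivAt (fun t : ℂ => Complex.exp (t * X.1) * y.1)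
            (Complex.exp (0 * X.1) * (1 * X.1) * y.1) 0 :=
          (((hasDerivAt_id (0 : ℂ)).mul_const X.1).cexp).mul_const y.1
        rw [zero_mul, Complex.exp_zero, one_mul, one_mul] at h2
        exact h1.unique h2
      · refine ⟨{ toFun := fun X => (X.2 i * y.2 i) p q
                  map_add' := fun X X' => by
                    rw [Prod.snd_add, Pi.add_apply, Matrix.add_mul, Matrix.add_apply]
                  map_smul' := fun c X => by
                    rw [Prod.smul_snd, Pi.smul_apply, Matrix.smul_mul, Matrix.smul_apply,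
                      RingHom.id_apply] },
          fun X => ?_⟩
        have h1 := hd (MvPolynomial.X (some ⟨i, (p, q)⟩) : Pol g) X y
        have e : (fun t : ℂ => ev (MvPolynomial.X (some ⟨i, (p, q)⟩) : Pol g) (ex t X * y)) =
            fun t : ℂ => (NormedSpace.exp (t • X.2 i) * y.2 i) p q := by
          funext t
          simp only [ev, MvPolynomial.eval_X]
          rfl
        rw [e] at h1
        exact h1.unique (deriv_entry _ _ _ _)
    obtain ⟨L', hL'⟩ := hX
    exact ⟨ev (MvPolynomial.X o : Pol g) y • L + ev P y • L', fun X => by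
      rw [dP_mul, hL, hL', LinearMap.add_apply, LinearMap.smul_apply, LinearMap.smul_apply,
        smul_eq_mul, smul_eq_mul, mul_comm (L X)]⟩

/-- The value of a determinant. -/
theorem ev_det {d : ℕ} (A : Matrix (Fin d) (Fin d) (Pol g)) (a : Pt g) :
    ev A.det a = (Matrix.of fun i j => ev (A i j) a).det := by
  unfold ev
  rw [RingHom.map_det]
  rfl

theorem deg_det {d D : ℕ} (A : Matrix (Fin d) (Fin d) (Pol g))
    (hA : ∀ i j, (A i j).totalDegree ≤ D) : A.det.totalDegree ≤ d * D := by
  rw [Matrix.det_apply]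
  refine MvPolynomial.totalDegree_finsetSum_le fun σ _ => ?_
  have h1 : (∏ i, A (σ i) i).totalDegree ≤ d * D := by
    refine (MvPolynomial.totalDegree_finsetProd _ _).trans ?_
    calc ∑ i, (A (σ i) i).totalDegree ≤ ∑ _i : Fin d, D := Finset.sum_le_sum fun i _ => hA _ _
      _ = d * D := by rw [Finset.sum_const, Finset.card_univ, Fintype.card_fin, smul_eq_mul]
  rcases Int.units_eq_one_or (Equiv.Perm.sign σ) with h | h
  · rw [h, one_smul]
    exact h1
  · rw [h]
    have e : (-1 : ℤˣ) • ∏ i, A (σ i) i = -∏ i, A (σ i) i := by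
      rw [Units.smul_def, Units.val_neg, Units.val_one, neg_smul, one_smul]
    rw [e, MvPolynomial.totalDegree_neg]
    exact h1

/-- The matrix of the functions `a ↦ P i (a * x j)`. -/
def mA {d : ℕ} (P : Fin d → Pol g) (x : Fin d → Pt g) : Matrix (Fin d) (Fin d) (Pol g) :=
  Matrix.of fun i j => subR (x j) (P i)

/-- The column of the functions `a ↦ P i (a * y)`. -/
def mb {d : ℕ} (P : Fin d → Pol g) (y : Pt g) : Fin d → Pol g := fun i => subR y (P i)

/-- The key identity. -/
theorem key {d : ℕ} {P : Fin d → Pol g} {x : Fin d → Pt g}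
    (hP : ∀ i j, ev (P i) (x j) = if i = j then 1 else 0) (y Y : Pt g) (i : Fin d) :
    ev (mA P x).det 1 * dP ((mA P x).updateCol i (mb P y)).det Y 1 -
      ev ((mA P x).updateCol i (mb P y)).det 1 * dP (mA P x).det Y 1 =
      dP (P i) Y y - ∑ k, dP (P i) Y (x k) * ev (P k) y := by
  have hA : ∀ j k, ev (mA P x j k) 1 = if j = k then 1 else 0 := by
    intro j k
    rw [← hP j k, mA, Matrix.of_apply, ev_subR, one_mul]
  have hb : ∀ j, ev (mb P y j) 1 = ev (P j) y := by
    intro j
    rw [mb, ev_subR, one_mul]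
  have h0 : ev (mA P x).det 1 = 1 := by
    rw [ev_det]
    have e : (Matrix.of fun i j => ev (mA P x i j) 1) = (1 : Matrix (Fin d) (Fin d) ℂ) := by
      ext j k
      rw [Matrix.of_apply, hA, Matrix.one_apply]
    rw [e, Matrix.det_one]
  have hc : ∀ j, ((mA P x).updateCol j (mb P y)).det = Matrix.cramer (mA P x) (mb P y) j :=
    fun j => (Matrix.cramer_apply _ _ _).symm
  have hcr : ∀ j, ∑ k, mA P x j k * Matrix.cramer (mA P x) (mb P y) k =
      (mA P x).det * mb P y j := by
    intro j
    have h := congrFun (Matrix.mulVec_cramer (mA P x) (mb P y)) j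
    exact h
  -- the values at 1
  have h1 : ∀ j, ev (Matrix.cramer (mA P x) (mb P y) j) 1 = ev (P j) y := by
    intro j
    have h := congrArg (fun Q => ev Q 1) (hcr j)
    simp only [ev_sum, ev_mul, hA, ite_mul, one_mul, zero_mul, Finset.sum_ite_eq,
      Finset.mem_univ, if_true, h0, hb] at h
    exact h
  -- the derivatives at 1
  have h2 := congrArg (fun Q => dP Q Y 1) (hcr i)
  simp only [dP_sum, dP_mul, hA, h0, hb, h1, ite_mul, one_mul, zero_mul,
    Finset.sum_add_distrib, Finset.sum_ite_eq, Finset.mem_univ, if_true] at h2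
  have h3 : ∀ k, dP (mA P x i k) Y 1 = dP (P i) Y (x k) := by
    intro k
    rw [mA, Matrix.of_apply, dP_subR, one_mul]
  have h4 : dP (mb P y i) Y 1 = dP (P i) Y y := by
    rw [mb, dP_subR, one_mul]
  simp only [h3, h4] at h2
  rw [h0, hc, h1, one_mul]
  linear_combination h2

end SEB_

open SEB_ in
theorem seb_proof : Stmt_SEB := by
  intro r g w D₀ d m N P x X hdeg hx hP hN hLie hX hind
  -- the linear map to functions
  choose L hL using fun (P : Pol g) (y : Pt g) => dP_lin P y
  let T : (Fin m → ℂ) →ₗ[ℂ] Pt g :=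
    { toFun := fun c => ∑ k, c k • X k
      map_add' := by
        intro c c'
        rw [← Finset.sum_add_distrib]
        refine Finset.sum_congr rfl fun k _ => ?_
        rw [Pi.add_apply, add_smul]
      map_smul' := by
        intro a c
        rw [RingHom.id_apply, Finset.smul_sum]
        refine Finset.sum_congr rfl fun k _ => ?_
        rw [Pi.smul_apply, smul_eq_mul, mul_smul] }
  have hT : ∀ c, T c = ∑ k, c k • X k := fun _ => rfl
  let Q : (Fin m → ℂ) →ₗ[ℂ] (Fin d × {y : Pt g // InG w y} → ℂ) :=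
    { toFun := fun c s => L (P s.1) s.2.1 (T c) - ∑ k, L (P s.1) (x k) (T c) * ev (P k) s.2.1
      map_add' := by
        intro c c'
        funext s
        simp only [map_add, Pi.add_apply, add_mul, Finset.sum_add_distrib]
        ring
      map_smul' := by
        intro a c
        funext s
        simp only [map_smul, Pi.smul_apply, RingHom.id_apply, smul_eq_mul, mul_sub,
          Finset.mul_sum, mul_assoc] }
  have hQ : ∀ c s, Q c s = dP (P s.1) (∑ k, c k • X k) s.2.1 -
      ∑ k, dP (P s.1) (∑ k, c k • X k) (x k) * ev (P k) s.2.1 := by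
    intro c s
    simp only [hL, ← hT]
    rfl
  have hinj : ∀ c, Q c = 0 → c = 0 := by
    intro c hc
    refine hind c (hLie _ ?_ ?_ ?_)
    · rw [Prod.fst_sum]
      refine Finset.sum_eq_zero fun k _ => ?_
      rw [Prod.smul_fst, (hX k).1, smul_zero]
    · intro i
      rw [Prod.snd_sum, Finset.sum_apply]
      refine Submodule.sum_mem _ fun k _ => ?_
      rw [Prod.smul_snd, Pi.smul_apply]
      exact Submodule.smul_mem _ _ ((hX k).2 i)
    · intro y hy i
      have h := congrFun hc (i, ⟨y, hy⟩)
      rw [hQ, Pi.zero_apply] at h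
      exact sub_eq_zero.1 h
  have hker : LinearMap.ker Q = ⊥ := by
    rw [LinearMap.ker_eq_bot']
    exact hinj
  have hrk : Module.finrank ℂ (LinearMap.range Q) = m := by
    rw [LinearMap.finrank_range_of_inj (LinearMap.ker_eq_bot.1 hker),
      Module.finrank_fintype_fun_eq_card, Fintype.card_fin]
  obtain ⟨s, f, -, -, hs⟩ := STB_dual (LinearMap.range Q)
  -- points which separate
  let s' : Fin m → Fin d × {y : Pt g // InG w y} := fun l => s (Fin.cast hrk.symm l)
  have hsep : ∀ c, (∀ l, Q c (s' l) = 0) → c = 0 := by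
    intro c hc
    refine hinj c (funext fun y => ?_)
    rw [hs _ (LinearMap.mem_range_self Q c) y, Pi.zero_apply]
    refine Finset.sum_eq_zero fun k _ => ?_
    have h := hc (Fin.cast hrk k)
    have e : s' (Fin.cast hrk k) = s k := rfl
    rw [e] at h
    rw [h, zero_mul]
  -- the matrices
  let A : Fin (m + 1) → Matrix (Fin d) (Fin d) (Pol g) :=
    Fin.cons (mA P x) fun l => (mA P x).updateCol (s' l).1 (mb P (s' l).2.1)
  have hA0 : A 0 = mA P x := rfl
  have hAs : ∀ l : Fin m, A l.succ = (mA P x).updateCol (s' l).1 (mb P (s' l).2.1) := fun _ => rfl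
  have hent : ∀ l j, ∃ z : Pt g, InG w z ∧ ∀ i, A l i j = subR z (P i) := by
    intro l j
    refine Fin.cases ?_ (fun l => ?_) l
    · exact ⟨x j, hx j, fun i => rfl⟩
    · by_cases hj : j = (s' l).1
      · refine ⟨(s' l).2.1, (s' l).2.2, fun i => ?_⟩
        rw [hAs, Matrix.updateCol_apply, if_pos hj]
        rfl
      · refine ⟨x j, hx j, fun i => ?_⟩
        rw [hAs, Matrix.updateCol_apply, if_neg hj]
        rfl
  refine ⟨fun l => (A l).det, fun l => deg_det _ fun i j => ?_, fun a ha => ?_, ?_, fun c hc => ?_⟩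
  · obtain ⟨z, -, hz⟩ := hent l j
    rw [hz]
    exact deg_subR _ _ _ (hdeg i)
  · refine ⟨(Matrix.of fun i k => ev (P i) (a * x k)).det, fun l y hy => ?_⟩
    rw [ev_det, ev_det, ← Matrix.det_mul]
    congr 1
    ext i j
    obtain ⟨z, hzG, hz⟩ := hent l j
    rw [Matrix.mul_apply]
    simp only [Matrix.of_apply, hz, ev_subR]
    rw [mul_assoc]
    exact hN a ha _ (DRD.InG.mul hy hzG) i
  · have e : (Matrix.of fun i j => ev (A 0 i j) 1) = (1 : Matrix (Fin d) (Fin d) ℂ) := by
      ext j k
      rw [Matrix.of_apply, hA0, Matrix.one_apply, ← hP j k, mA, Matrix.of_apply, ev_subR, one_mul]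
    rw [ev_det, e, Matrix.det_one]
    exact one_ne_zero
  · refine hsep c fun l => ?_
    have h := hc l
    simp only [hA0, hAs] at h
    rw [key hP] at h
    rw [hQ]
    exact h

end

end Pool.Agent.NEX
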