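import Pool.Agent.NEX.Stmts
import Pool.Agent.DG2.NFC
import Pool.Agent.DG2.HOMQ

set_option autoImplicit false

/-!
# NEX, module SPC: relations between the entries of symplectic matrices give relations between the
coordinates
-/

open scoped BigOperators Topology
open MvPolynomial

namespace Pool.Agent.NEX

open Pool.Agent.HGP (Ix Simil Idx fvec mvec Aof opt)

noncomputable section

namespace SPC_

open Pool.Agent.DG2.NFC_ (toQ aeval_toQ)

variable {r : ℕ} {g : Fin r → ℕ}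

/-- The coordinates of the matrices (multiplier one). -/
def subX (i : Fin r) : Option (Idx (g i)) → MvPolynomial (Σ i : Fin r, Idx (g i)) ℚ :=
  fun o => o.elim 1 (fun x => X ⟨i, x⟩)

lemma ev_subX (i : Fin r) (y : (Σ i : Fin r, Idx (g i)) → ℂ)
    (f : MvPolynomial (Option (Idx (g i))) ℤ) :
    (aeval y (bind₁ (subX i) (toQ f)) : ℂ) = aeval (opt 1 (fun x => y ⟨i, x⟩)) f := by
  rw [aeval_bind₁, ← aeval_toQ]
  congr 2
  funext o
  cases o with
  | none => simp [subX, opt]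
  | some x => simp [subX, opt]

variable (Δ : ∀ i : Fin r, MvPolynomial (Option (Idx (g i))) ℤ)
    (q : ∀ i : Fin r, Ix (g i) × Ix (g i) → MvPolynomial (Option (Idx (g i))) ℤ)

/-- The common denominator. -/
def Dl : MvPolynomial (Σ i : Fin r, Idx (g i)) ℚ := ∏ i, bind₁ (subX i) (toQ (Δ i))

/-- The numerators. -/
def nm : CrF g → MvPolynomial (Σ i : Fin r, Idx (g i)) ℚ := fun p =>
  (∏ k ∈ Finset.univ.erase p.1, bind₁ (subX k) (toQ (Δ k))) *
    bind₁ (subX p.1) (toQ (q p.1 p.2))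

lemma key (h : ∀ i, ∀ (w : Idx (g i) → ℂ) (lam : ℂ),
      MvPolynomial.aeval (opt lam w) (Δ i) = (Aof w).det ∧
      ((Aof w).det ≠ 0 → ∀ p, MvPolynomial.aeval (opt lam w) (q i p) =
        (Aof w).det * mvec w lam p.1 p.2))
    (y : (Σ i : Fin r, Idx (g i)) → ℂ) (hy : ∀ i, (Aof (fun x => y ⟨i, x⟩)).det ≠ 0) :
    (aeval y (Dl Δ) : ℂ) ≠ 0 ∧
    (fun v => (aeval y (nm Δ q v) : ℂ) / aeval y (Dl Δ)) =
      mpt (fun i => mvec (fun x => y ⟨i, x⟩) 1) := by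
  have h1 : (aeval y (Dl Δ) : ℂ) = ∏ i, (Aof (fun x => y ⟨i, x⟩)).det := by
    unfold Dl
    rw [map_prod]
    refine Finset.prod_congr rfl fun i _ => ?_
    rw [ev_subX, (h i _ _).1]
  have h2 : (aeval y (Dl Δ) : ℂ) ≠ 0 := by
    rw [h1]
    exact Finset.prod_ne_zero_iff.2 fun i _ => hy i
  refine ⟨h2, ?_⟩
  funext v
  rw [div_eq_iff h2]
  obtain ⟨i, p⟩ := v
  show aeval y ((∏ k ∈ Finset.univ.erase i, bind₁ (subX k) (toQ (Δ k))) *
    bind₁ (subX i) (toQ (q i p))) = mvec (fun x => y ⟨i, x⟩) 1 p.1 p.2 * aeval y (Dl Δ)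
  rw [map_mul, map_prod, ev_subX, (h i _ _).2 (hy i) p, h1,
    ← Finset.mul_prod_erase Finset.univ (fun i => (Aof (fun x => y ⟨i, x⟩)).det)
      (Finset.mem_univ i)]
  have h3 : ∏ k ∈ Finset.univ.erase i, (aeval y (bind₁ (subX k) (toQ (Δ k))) : ℂ) =
      ∏ k ∈ Finset.univ.erase i, (Aof (fun x => y ⟨k, x⟩)).det := by
    refine Finset.prod_congr rfl fun k _ => ?_
    rw [ev_subX, (h k _ _).1]
  rw [h3]
  ring

lemma aeval_some (Q : MvPolynomial (CrF g) ℚ) (lam : ℂ) (M : Fam g) :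
    (aeval (HGP.tpt lam M) (rename some Q) : ℂ) = aeval (mpt M) Q := by
  rw [aeval_rename]
  rfl

end SPC_

open SPC_ in
theorem spc_proof : Stmt_SPC := by
  intro r g E
  choose Δ q h using fun i => HGP.cellp_proof (g i)
  obtain ⟨E', hE'⟩ := DG2.homq_proof (CrF g) (Σ i : Fin r, Idx (g i)) (nm Δ q) (Dl Δ) E
  refine ⟨E', ?_⟩
  intro Z hZ hZd Q hQE hQ0 hne
  obtain ⟨Q', hQ'E, hQ'⟩ := hE' Q hQE
  obtain ⟨M, hM, hMne⟩ := hne
  have hat : ∀ M : Fam g, (∀ i, Simil 1 (M i)) → (∀ i, (M i).toBlocks₁₁.det ≠ 0) →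
      (aeval (fun p : Σ i : Fin r, Idx (g i) => fvec (M p.1) p.2) (Dl Δ) : ℂ) ≠ 0 ∧
      (aeval (fun p : Σ i : Fin r, Idx (g i) => fvec (M p.1) p.2) Q' : ℂ) =
        (aeval (fun p : Σ i : Fin r, Idx (g i) => fvec (M p.1) p.2) (Dl Δ)) ^ E *
          aeval (mpt M) Q := by
    intro M hM hMd
    have e2 : ∀ i, Aof (fvec (M i)) = (M i).toBlocks₁₁ ∧ mvec (fvec (M i)) 1 = M i := fun i =>
      HGP.cella_proof _ _ _ one_ne_zero (hM i) (hMd i)
    obtain ⟨k1, k2⟩ := key Δ q h (fun p : Σ i : Fin r, Idx (g i) => fvec (M p.1) p.2)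
      (fun i => by
        show (Aof (fvec (M i))).det ≠ 0
        rw [(e2 i).1]
        exact hMd i)
    refine ⟨k1, ?_⟩
    rw [hQ' _ k1, k2]
    have e3 : (fun i => mvec (fun x => fvec (M i) x) 1) = M := funext fun i => (e2 i).2
    rw [e3]
  refine ⟨Q', ?_, hQ'E, ?_⟩
  · obtain ⟨M1, hM1, hM1d, hM1ne⟩ := DG2.NFC_.big_cell (g := g) (rename some Q) 1 M one_ne_zero hM
      (by rw [aeval_some]; exact hMne)
    rw [aeval_some] at hM1ne
    obtain ⟨a1, a2⟩ := hat M1 hM1 hM1d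
    intro h0
    rw [h0, map_zero] at a2
    exact mul_ne_zero (pow_ne_zero _ a1) hM1ne a2.symm
  · rw [(hat Z hZ hZd).2, hQ0, mul_zero]

end

end Pool.Agent.NEX
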