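import Pool.Agent.NEX.Stmts

set_option autoImplicit false

open scoped BigOperators Topology

namespace Pool.Agent.NEX

open Pool.Agent.HGP (Ix Simil Idx fvec)
open Pool.Agent.UBD (Pt Crd Pol ev InG GrpS Dns Inf1 Lie nv sg1 ex)

namespace SPI_

open Matrix

variable {k : ℕ}

/-- `v (J w)ᵀ` -/
def B (v w : Ix k → ℂ) : Matrix (Ix k) (Ix k) ℂ := vecMulVec v (J (Fin k) ℂ *ᵥ w)

/-- the symplectic form -/
def om (v w : Ix k → ℂ) : ℂ := (J (Fin k) ℂ *ᵥ v) ⬝ᵥ w

lemma nv_eq (v : Ix k → ℂ) : nv v = B v v := rfl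

lemma B_mulVec (v w x : Ix k → ℂ) : B v w *ᵥ x = om w x • v := by
  unfold B om
  rw [vecMulVec_mulVec]
  funext i
  simp [mul_comm]

lemma om_neg (v w : Ix k → ℂ) : om v w = -om w v := by
  unfold om
  rw [dotProduct_comm, dotProduct_mulVec, ← mulVec_transpose, J_transpose, neg_mulVec,
    neg_dotProduct]

lemma om_self (v : Ix k → ℂ) : om v v = 0 := by
  have := om_neg v v
  have h2 : (2 : ℂ) * om v v = 0 := by linear_combination this
  exact (mul_eq_zero.1 h2).resolve_left two_ne_zero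

lemma brB {A : Matrix (Ix k) (Ix k) ℂ} (hA : A ∈ spS k) (v w : Ix k → ℂ) :
    A * B v w - B v w * A = B (A *ᵥ v) w + B v (A *ᵥ w) := by
  have h1 : A.transpose * J (Fin k) ℂ = -(J (Fin k) ℂ * A) := eq_neg_of_add_eq_zero_left hA
  unfold B
  rw [mul_vecMulVec, vecMulVec_mul, ← mulVec_transpose, mulVec_mulVec, h1, neg_mulVec,
    ← mulVec_mulVec, vecMulVec_neg, sub_neg_eq_add]

lemma B_add_left (u v w : Ix k → ℂ) : B (u + v) w = B u w + B v w := by
  unfold B; rw [add_vecMulVec]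

lemma B_add_right (u v w : Ix k → ℂ) : B u (v + w) = B u v + B u w := by
  unfold B; rw [mulVec_add, vecMulVec_add]

lemma B_smul_left (c : ℂ) (v w : Ix k → ℂ) : B (c • v) w = c • B v w := by
  unfold B; rw [smul_vecMulVec]

lemma B_smul_right (c : ℂ) (v w : Ix k → ℂ) : B v (c • w) = c • B v w := by
  unfold B; rw [mulVec_smul, vecMulVec_smul]

/-- the symmetric version -/
def s (v w : Ix k → ℂ) : Matrix (Ix k) (Ix k) ℂ := B v w + B w v

lemma s_comm (v w : Ix k → ℂ) : s v w = s w v := add_comm _ _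

lemma s_self (v : Ix k → ℂ) : s v v = (2 : ℂ) • nv v := by
  rw [nv_eq, s, two_smul]

lemma nv_add (v w : Ix k → ℂ) : nv (v + w) = nv v + nv w + s v w := by
  rw [nv_eq, nv_eq, nv_eq, B_add_left, B_add_right, B_add_right, s]
  abel

lemma s_smul_left (c : ℂ) (v w : Ix k → ℂ) : s (c • v) w = c • s v w := by
  rw [s, B_smul_left, B_smul_right, ← smul_add, s]

lemma s_mulVec (v w x : Ix k → ℂ) : s v w *ᵥ x = om w x • v + om v x • w := by
  rw [s, add_mulVec, B_mulVec, B_mulVec]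

lemma brs {A : Matrix (Ix k) (Ix k) ℂ} (hA : A ∈ spS k) (v w : Ix k → ℂ) :
    A * s v w - s v w * A = s (A *ᵥ v) w + s v (A *ᵥ w) := by
  have h1 := brB hA v w
  have h2 := brB hA w v
  unfold s
  rw [mul_add, add_mul]
  calc A * B v w + A * B w v - (B v w * A + B w v * A)
      = (A * B v w - B v w * A) + (A * B w v - B w v * A) := by abel
    _ = _ := by rw [h1, h2]; abel

lemma brnv {A : Matrix (Ix k) (Ix k) ℂ} (hA : A ∈ spS k) (v : Ix k → ℂ) :
    A * nv v - nv v * A = s (A *ᵥ v) v := by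
  rw [nv_eq, brB hA, s]

lemma nv_mem (v : Ix k → ℂ) : nv v ∈ spS k := by
  rw [mem_spS, nv_eq, B, transpose_vecMulVec, vecMulVec_mul, ← mulVec_transpose, J_transpose,
    neg_mulVec, vecMulVec_neg, mul_vecMulVec]
  exact neg_add_cancel _

lemma s_mem (v w : Ix k → ℂ) : s v w ∈ spS k := by
  have h := nv_add v w
  have : s v w = nv (v + w) - nv v - nv w := by rw [h]; abel
  rw [this]
  exact (spS k).sub_mem ((spS k).sub_mem (nv_mem _) (nv_mem _)) (nv_mem _)

lemma s_span (v w : Ix k → ℂ) :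
    s v w ∈ Submodule.span ℂ (Set.range (nv : (Ix k → ℂ) → Matrix (Ix k) (Ix k) ℂ)) := by
  have h := nv_add v w
  have : s v w = nv (v + w) - nv v - nv w := by rw [h]; abel
  rw [this]
  exact Submodule.sub_mem _ (Submodule.sub_mem _ (Submodule.subset_span ⟨_, rfl⟩)
    (Submodule.subset_span ⟨_, rfl⟩)) (Submodule.subset_span ⟨_, rfl⟩)

/-- basis vectors -/
def be (i : Ix k) : Ix k → ℂ := Pi.single i 1

/-- `- J e_i` -/
def nb (i : Ix k) : Ix k → ℂ := -(J (Fin k) ℂ *ᵥ be i)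

lemma J_nb (i : Ix k) : J (Fin k) ℂ *ᵥ nb i = be i := by
  unfold nb
  rw [mulVec_neg, mulVec_mulVec, J_squared, neg_mulVec, one_mulVec, neg_neg]

lemma B_nb (i j : Ix k) : B (nb i) (nb j) = -(J (Fin k) ℂ * Matrix.single i j 1) := by
  unfold B
  rw [J_nb, nb, ← neg_mulVec, ← mul_vecMulVec, neg_mul]
  congr 2
  ext a b
  simp only [be, vecMulVec_apply, Matrix.single_apply, Pi.single_apply]
  by_cases h1 : a = i
  · subst h1
    by_cases h2 : b = j
    · subst h2
      simp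
    · have h3 : ¬ j = b := fun h => h2 h.symm
      simp [h2, h3]
  · have h3 : ¬ i = a := fun h => h1 h.symm
    simp [h1, h3]

lemma span_all {X : Matrix (Ix k) (Ix k) ℂ} (hX : X ∈ spS k) :
    X ∈ Submodule.span ℂ (Set.range (nv : (Ix k → ℂ) → Matrix (Ix k) (Ix k) ℂ)) := by
  have h1 : X.transpose * J (Fin k) ℂ = -(J (Fin k) ℂ * X) := eq_neg_of_add_eq_zero_left hX
  set S := J (Fin k) ℂ * X with hS
  have hsym : S.transpose = S := by
    rw [hS, transpose_mul, J_transpose, mul_neg, h1, neg_neg]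
  have hXS : X = -(J (Fin k) ℂ * S) := by
    rw [hS, ← mul_assoc, J_squared, neg_mul, one_mul, neg_neg]
  have e1 : S = ∑ i, ∑ j, (S i j) • Matrix.single i j (1 : ℂ) := by
    conv_lhs => rw [matrix_eq_sum_single S]
    simp only [smul_single, smul_eq_mul, mul_one]
  have e2 : S = ∑ i, ∑ j, (S i j) • Matrix.single j i (1 : ℂ) := by
    conv_lhs => rw [← hsym, e1]
    rw [transpose_sum]
    refine Finset.sum_congr rfl fun i _ => ?_
    rw [transpose_sum]
    refine Finset.sum_congr rfl fun j _ => ?_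
    rw [transpose_smul, transpose_single]
  have e3 : ∀ (f : Ix k → Ix k → Matrix (Ix k) (Ix k) ℂ), J (Fin k) ℂ * ∑ i, ∑ j, f i j =
      ∑ i, ∑ j, J (Fin k) ℂ * f i j := by
    intro f
    rw [Finset.mul_sum]
    exact Finset.sum_congr rfl fun i _ => Finset.mul_sum _ _ _
  have e4 : X = ∑ i, ∑ j, (S i j / 2) • s (nb i) (nb j) := by
    have a1 : J (Fin k) ℂ * S = ∑ i, ∑ j, S i j • (J (Fin k) ℂ * Matrix.single i j (1 : ℂ)) := by
      conv_lhs => rw [e1]
      rw [e3]
      simp only [Matrix.mul_smul]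
    have a2 : J (Fin k) ℂ * S = ∑ i, ∑ j, S i j • (J (Fin k) ℂ * Matrix.single j i (1 : ℂ)) := by
      conv_lhs => rw [e2]
      rw [e3]
      simp only [Matrix.mul_smul]
    have a3 : (2 : ℂ) • X = ∑ i, ∑ j, (S i j) • s (nb i) (nb j) := by
      have : (2 : ℂ) • X = -(J (Fin k) ℂ * S) + -(J (Fin k) ℂ * S) := by
        rw [two_smul, ← hXS]
      rw [this]
      conv_lhs => rw [a1]
      conv_lhs =>
        enter [2]
        rw [← a1, a2]
      rw [← Finset.sum_neg_distrib, ← Finset.sum_neg_distrib, ← Finset.sum_add_distrib]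
      refine Finset.sum_congr rfl fun i _ => ?_
      rw [← Finset.sum_neg_distrib, ← Finset.sum_neg_distrib, ← Finset.sum_add_distrib]
      refine Finset.sum_congr rfl fun j _ => ?_
      rw [s, B_nb, B_nb, smul_add, smul_neg, smul_neg]
    have a4 : X = (1 / 2 : ℂ) • ((2 : ℂ) • X) := by
      rw [smul_smul]; norm_num
    rw [a4, a3, Finset.smul_sum]
    refine Finset.sum_congr rfl fun i _ => ?_
    rw [Finset.smul_sum]
    refine Finset.sum_congr rfl fun j _ => ?_
    rw [smul_smul]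
    congr 1
    ring
  rw [e4]
  exact Submodule.sum_mem _ fun i _ => Submodule.sum_mem _ fun j _ =>
    Submodule.smul_mem _ _ (s_span _ _)

/-- nondegeneracy -/
lemma om_nondeg {v : Ix k → ℂ} (hv : v ≠ 0) : ∃ y, om y v = 1 := by
  obtain ⟨i, hi⟩ := Function.ne_iff.1 hv
  refine ⟨(v i)⁻¹ • nb i, ?_⟩
  unfold om
  rw [mulVec_smul, J_nb, smul_dotProduct, be, single_dotProduct, one_mul, smul_eq_mul]
  exact inv_mul_cancel₀ hi

/-- `A v` takes all values -/
lemma trans {v : Ix k → ℂ} (hv : v ≠ 0) (u : Ix k → ℂ) : ∃ A ∈ spS k, A *ᵥ v = u := by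
  obtain ⟨y, hy⟩ := om_nondeg hv
  refine ⟨s u y - om u v • nv y, (spS k).sub_mem (s_mem _ _) ((spS k).smul_mem _ (nv_mem _)), ?_⟩
  rw [sub_mulVec, smul_mulVec, s_mulVec, nv_eq, B_mulVec, hy, one_smul, one_smul]
  abel

/-- a nonzero element of the Lie algebra has a nonzero value of the quadratic form -/
lemma quad {Y : Matrix (Ix k) (Ix k) ℂ} (hY : Y ∈ spS k) (h0 : Y ≠ 0) : ∃ v, om v (Y *ᵥ v) ≠ 0 := by
  by_contra hc
  push Not at hc
  apply h0
  -- polarisation
  have h1 : Y.transpose * J (Fin k) ℂ = -(J (Fin k) ℂ * Y) := eq_neg_of_add_eq_zero_left hY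
  have hsym : ∀ v w, om v (Y *ᵥ w) = om w (Y *ᵥ v) := by
    intro v w
    rw [om_neg w]
    unfold om
    rw [dotProduct_mulVec, ← mulVec_transpose, mulVec_mulVec, h1, neg_mulVec, neg_dotProduct,
      mulVec_mulVec]
  have hall : ∀ v w, om v (Y *ᵥ w) = 0 := by
    intro v w
    have h2 := hc (v + w)
    have h3 : om (v + w) (Y *ᵥ (v + w)) = om v (Y *ᵥ v) + om w (Y *ᵥ w) + 2 * om v (Y *ᵥ w) := by
      have h4 := hsym w v
      unfold om at h4 ⊢
      rw [mulVec_add, mulVec_add, add_dotProduct, dotProduct_add, dotProduct_add, h4]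
      ring
    rw [h3, hc v, hc w, zero_add, zero_add] at h2
    exact (mul_eq_zero.1 h2).resolve_left two_ne_zero
  ext i j
  have h2 := hall (nb i) (be j)
  unfold om at h2
  rw [J_nb, be, be, single_dotProduct, one_mul, mulVec_single_one] at h2
  exact h2

lemma ideal (N : Submodule ℂ (Matrix (Ix k) (Ix k) ℂ)) (hN : N ≤ spS k)
    (hbr : ∀ X ∈ spS k, ∀ Y ∈ N, X * Y - Y * X ∈ N) (h0 : N ≠ ⊥) : N = spS k := by
  obtain ⟨Y, hY, hY0⟩ := N.exists_mem_ne_zero_of_ne_bot h0
  have hYs := hN hY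
  obtain ⟨v, hv⟩ := quad hYs hY0
  have hv0 : v ≠ 0 := by
    intro h
    apply hv
    rw [h]
    unfold om
    rw [mulVec_zero, zero_dotProduct]
  have a1 : s (Y *ᵥ v) v ∈ N := by
    have h1 := hbr _ (nv_mem v) Y hY
    have h2 := brnv hYs v
    have h3 : s (Y *ᵥ v) v = -(nv v * Y - Y * nv v) := by rw [← h2]; abel
    rw [h3]
    exact N.neg_mem h1
  have a2 : nv v ∈ N := by
    have h1 := hbr _ (nv_mem v) _ a1
    rw [brs (nv_mem v), nv_eq, B_mulVec, B_mulVec, om_self, zero_smul] at h1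
    have h2 : s (Y *ᵥ v) (0 : Ix k → ℂ) = 0 := by
      rw [s_comm]
      have := s_smul_left (0 : ℂ) (0 : Ix k → ℂ) (Y *ᵥ v)
      rw [zero_smul, zero_smul] at this
      exact this
    rw [h2, add_zero, s_smul_left, s_self, smul_smul] at h1
    have h3 : om v (Y *ᵥ v) * 2 ≠ 0 := mul_ne_zero hv two_ne_zero
    exact (N.smul_mem_iff h3).1 h1
  have a3 : ∀ u, s u v ∈ N := by
    intro u
    obtain ⟨A, hA, hAv⟩ := trans hv0 u
    have h1 := hbr A hA _ a2
    rw [brnv hA, hAv] at h1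
    exact h1
  have a4 : ∀ u w, s u w ∈ N := by
    intro u w
    obtain ⟨A, hA, hAv⟩ := trans hv0 w
    have h1 := hbr A hA _ (a3 u)
    rw [brs hA, hAv] at h1
    exact (N.add_mem_iff_right (a3 _)).1 h1
  have a5 : ∀ u, nv u ∈ N := by
    intro u
    have h1 := a4 u u
    rw [s_self] at h1
    exact (N.smul_mem_iff two_ne_zero).1 h1
  refine le_antisymm hN fun X hX => ?_
  have h1 : Submodule.span ℂ (Set.range (nv : (Ix k → ℂ) → Matrix (Ix k) (Ix k) ℂ)) ≤ N := by
    rw [Submodule.span_le]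
    rintro _ ⟨u, rfl⟩
    exact a5 u
  exact h1 (span_all hX)

lemma nonab (hk : 0 < k) : ∃ X ∈ spS k, ∃ Y ∈ spS k, X * Y - Y * X ≠ 0 := by
  have hb : be (Sum.inl ⟨0, hk⟩ : Ix k) ≠ 0 := by
    intro h
    have := congrFun h (Sum.inl ⟨0, hk⟩)
    simp [be] at this
  obtain ⟨y, hy⟩ := om_nondeg hb
  set v := be (Sum.inl ⟨0, hk⟩ : Ix k) with hv
  refine ⟨nv y, nv_mem y, nv v, nv_mem v, fun h => ?_⟩
  rw [brnv (nv_mem y), nv_eq, B_mulVec, hy, one_smul] at h
  have h2 := congrArg (fun M : Matrix (Ix k) (Ix k) ℂ => M *ᵥ v) h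
  simp only [zero_mulVec] at h2
  rw [s_mulVec, om_self, zero_smul, zero_add, hy, one_smul] at h2
  exact hb h2

/-- block matrices with diagonal blocks -/
def blk (k : ℕ) : ((Fin k → ℂ) × (Fin k → ℂ) × (Fin k → ℂ)) →ₗ[ℂ] Matrix (Ix k) (Ix k) ℂ where
  toFun a := fromBlocks (diagonal a.1) (diagonal a.2.1) (diagonal a.2.2) (-diagonal a.1)
  map_add' a b := by
    rw [fromBlocks_add, ← neg_add, diagonal_add, diagonal_add, diagonal_add]
    rfl
  map_smul' c a := by
    rw [fromBlocks_smul, smul_neg, ← diagonal_smul, ← diagonal_smul, ← diagonal_smul]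
    rfl

lemma blk_mem (a : (Fin k → ℂ) × (Fin k → ℂ) × (Fin k → ℂ)) : blk k a ∈ spS k := by
  rw [mem_spS]
  change (fromBlocks (diagonal a.1) (diagonal a.2.1) (diagonal a.2.2) (-diagonal a.1)).transpose *
    J (Fin k) ℂ + J (Fin k) ℂ *
    fromBlocks (diagonal a.1) (diagonal a.2.1) (diagonal a.2.2) (-diagonal a.1) = 0
  rw [fromBlocks_transpose, J, fromBlocks_multiply, fromBlocks_multiply, fromBlocks_add]
  simp [diagonal_transpose]

lemma dim (hk : 2 ≤ k) : 2 * (k + 1) ≤ Module.finrank ℂ (spS k) := by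
  have hinj : Function.Injective ((blk k).codRestrict (spS k) blk_mem) := by
    intro a b h
    have h1 : blk k a = blk k b := congrArg Subtype.val h
    have h2 : fromBlocks (diagonal a.1) (diagonal a.2.1) (diagonal a.2.2) (-diagonal a.1) =
      fromBlocks (diagonal b.1) (diagonal b.2.1) (diagonal b.2.2) (-diagonal b.1) := h1
    rw [fromBlocks_inj] at h2
    obtain ⟨c1, c2, c3, -⟩ := h2
    exact Prod.ext (diagonal_injective c1) (Prod.ext (diagonal_injective c2) (diagonal_injective c3))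
  have h1 := LinearMap.finrank_le_finrank_of_injective hinj
  rw [Module.finrank_prod, Module.finrank_prod, Module.finrank_fin_fun] at h1
  omega

end SPI_

theorem spi_proof : Stmt_SPI := fun _ hk =>
  ⟨SPI_.nv_mem, fun _ hX => SPI_.span_all hX, SPI_.ideal, SPI_.nonab hk, SPI_.dim⟩

end Pool.Agent.NEX
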