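import Pool.Agent.NEX.Stmts

set_option autoImplicit false

/-!
# NEX, module SPO: a proper subalgebra of `sp_(2k)` has codimension greater than `k`
-/

open scoped BigOperators Topology
open Metric Set

namespace Pool.Agent.NEX

open Pool.Agent.HGP (Ix)
open Pool.Agent.UBD (nv)

noncomputable section

namespace SPO_

variable {k : ℕ}

/-- The symplectic form `om v w = ⟨J v, w⟩`. -/
def om (k : ℕ) : LinearMap.BilinForm ℂ (Ix k → ℂ) :=
  LinearMap.mk₂ ℂ (fun v w => ((Matrix.J (Fin k) ℂ).mulVec v) ⬝ᵥ w)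
    (by intro a b c; rw [Matrix.mulVec_add, add_dotProduct])
    (by intro a b c; rw [Matrix.mulVec_smul, smul_dotProduct])
    (by intro a b c; rw [dotProduct_add])
    (by intro a b c; rw [dotProduct_smul])

theorem om_def (v w : Ix k → ℂ) : om k v w = ((Matrix.J (Fin k) ℂ).mulVec v) ⬝ᵥ w := rfl

theorem vecMul_J (v : Ix k → ℂ) :
    Matrix.vecMul v (Matrix.J (Fin k) ℂ) = -((Matrix.J (Fin k) ℂ).mulVec v) := by
  rw [← Matrix.mulVec_transpose, Matrix.J_transpose, Matrix.neg_mulVec]

theorem om_anti (v w : Ix k → ℂ) : om k v w = -om k w v := by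
  rw [om_def, om_def, dotProduct_comm, Matrix.dotProduct_mulVec, vecMul_J, neg_dotProduct]

theorem om_self (v : Ix k → ℂ) : om k v v = 0 := by
  have h := om_anti v v
  have h2 : (2 : ℂ) * om k v v = 0 := by
    linear_combination h
  rcases mul_eq_zero.mp h2 with h3 | h3
  · exact absurd h3 two_ne_zero
  · exact h3

theorem J_mulVec_ne (v : Ix k → ℂ) (hv : (Matrix.J (Fin k) ℂ).mulVec v = 0) : v = 0 := by
  have h := congrArg (fun z => (Matrix.J (Fin k) ℂ).mulVec z) hv
  simp only [Matrix.mulVec_mulVec, Matrix.J_squared, Matrix.neg_mulVec, Matrix.one_mulVec,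
    Matrix.mulVec_zero] at h
  exact neg_eq_zero.mp h

theorem om_left (v : Ix k → ℂ) (h : ∀ w, om k v w = 0) : v = 0 := by
  apply J_mulVec_ne
  funext i
  have h1 := h (Pi.single i 1)
  rw [om_def, dotProduct_single, mul_one] at h1
  exact h1

theorem om_right (w : Ix k → ℂ) (h : ∀ v, om k v w = 0) : w = 0 := by
  apply om_left
  intro v
  rw [om_anti, h v, neg_zero]

theorem om_nondeg : (om k).Nondegenerate := ⟨om_left, om_right⟩

/-- The symmetric map `s`. -/
def s (k : ℕ) : (Ix k → ℂ) →ₗ[ℂ] (Ix k → ℂ) →ₗ[ℂ] Matrix (Ix k) (Ix k) ℂ :=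
  LinearMap.mk₂ ℂ (fun v w => Matrix.vecMulVec v ((Matrix.J (Fin k) ℂ).mulVec w) +
      Matrix.vecMulVec w ((Matrix.J (Fin k) ℂ).mulVec v))
    (by
      intro a b c
      rw [Matrix.mulVec_add, Matrix.add_vecMulVec, Matrix.vecMulVec_add]
      abel)
    (by
      intro a b c
      rw [Matrix.mulVec_smul, Matrix.smul_vecMulVec, Matrix.vecMulVec_smul, smul_add])
    (by
      intro a b c
      rw [Matrix.mulVec_add, Matrix.add_vecMulVec, Matrix.vecMulVec_add]
      abel)
    (by
      intro a b c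
      rw [Matrix.mulVec_smul, Matrix.smul_vecMulVec, Matrix.vecMulVec_smul, smul_add])

theorem s_def (v w : Ix k → ℂ) : s k v w = Matrix.vecMulVec v ((Matrix.J (Fin k) ℂ).mulVec w) +
      Matrix.vecMulVec w ((Matrix.J (Fin k) ℂ).mulVec v) := rfl

theorem s_symm (v w : Ix k → ℂ) : s k v w = s k w v := by
  rw [s_def, s_def, add_comm]

theorem s_self (v : Ix k → ℂ) : s k v v = (2 : ℂ) • nv v := by
  rw [s_def, nv, two_smul]

theorem s_mem (v w : Ix k → ℂ) : s k v w ∈ spS k := by
  rw [mem_spS, s_def, Matrix.transpose_add, Matrix.transpose_vecMulVec,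
    Matrix.transpose_vecMulVec, Matrix.add_mul, Matrix.mul_add, Matrix.vecMulVec_mul,
    Matrix.vecMulVec_mul, Matrix.mul_vecMulVec, Matrix.mul_vecMulVec, vecMul_J, vecMul_J,
    Matrix.vecMulVec_neg, Matrix.vecMulVec_neg]
  abel

theorem vm (a b c d : Ix k → ℂ) :
    Matrix.vecMulVec a ((Matrix.J (Fin k) ℂ).mulVec b) *
      Matrix.vecMulVec c ((Matrix.J (Fin k) ℂ).mulVec d) =
    om k b c • Matrix.vecMulVec a ((Matrix.J (Fin k) ℂ).mulVec d) := by
  rw [Matrix.vecMulVec_mul_vecMulVec, Matrix.vecMulVec_smul, om_def]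

theorem bracket (a b c d : Ix k → ℂ) : s k a b * s k c d - s k c d * s k a b =
    om k b c • s k a d + om k b d • s k a c + om k a c • s k b d + om k a d • s k b c := by
  simp only [s_def, Matrix.add_mul, Matrix.mul_add, vm]
  rw [om_anti d a, om_anti d b, om_anti c a, om_anti c b]
  simp only [smul_add, neg_smul]
  abel

theorem fin_V : Module.finrank ℂ (Ix k → ℂ) = 2 * k := by
  rw [Module.finrank_fintype_fun_eq_card, Fintype.card_sum, Fintype.card_fin]
  ring

theorem iso_le (S : Submodule ℂ (Ix k → ℂ)) (h : ∀ x ∈ S, ∀ y ∈ S, om k x y = 0) :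
    Module.finrank ℂ S ≤ k := by
  have h1 := LinearMap.BilinForm.finrank_orthogonal om_nondeg S
  have h2 : S ≤ (om k).orthogonal S := by
    intro x hx
    rw [LinearMap.BilinForm.mem_orthogonal_iff]
    intro y hy
    exact h y hy x hx
  have h3 := Submodule.finrank_mono h2
  have h4 := fin_V (k := k)
  have h5 := Submodule.finrank_le S
  omega

/-- The orthogonal complement of `v`. -/
def vp (v : Ix k → ℂ) : Submodule ℂ (Ix k → ℂ) := LinearMap.ker (om k v)

theorem mem_vp {v y : Ix k → ℂ} : y ∈ vp v ↔ om k v y = 0 := LinearMap.mem_ker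

theorem vp_fin (v : Ix k → ℂ) : 2 * k ≤ Module.finrank ℂ (vp v) + 1 := by
  have h1 := LinearMap.finrank_range_add_finrank_ker (om k v)
  have h2 := Submodule.finrank_le (LinearMap.range (om k v))
  rw [Module.finrank_self] at h2
  rw [fin_V] at h1
  unfold vp
  omega

section main

variable (N : Submodule ℂ (Matrix (Ix k) (Ix k) ℂ)) (v : Ix k → ℂ)

/-- The map `y ↦ s v y` modulo `N`, on the orthogonal complement of `v`. -/
def phi : vp v →ₗ[ℂ] (Matrix (Ix k) (Ix k) ℂ ⧸ N) := (N.mkQ ∘ₗ s k v).domRestrict (vp v)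

theorem mem_ker_phi (y : vp v) : y ∈ LinearMap.ker (phi N v) ↔ s k v y ∈ N := by
  rw [LinearMap.mem_ker]
  show N.mkQ (s k v y) = 0 ↔ _
  rw [Submodule.mkQ_apply, Submodule.Quotient.mk_eq_zero]

variable {N v}

theorem ker_le (hv : s k v v ∉ N) (hb : ∀ X ∈ N, ∀ Y ∈ N, X * Y - Y * X ∈ N) :
    Module.finrank ℂ (LinearMap.ker (phi N v)) + 1 ≤ k := by
  set Q : Submodule ℂ (Ix k → ℂ) := (LinearMap.ker (phi N v)).map (vp v).subtype with hQ
  have hQf : Module.finrank ℂ Q = Module.finrank ℂ (LinearMap.ker (phi N v)) :=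
    Submodule.finrank_map_subtype_eq _ _
  have hmem : ∀ y ∈ Q, om k v y = 0 ∧ s k v y ∈ N := by
    intro y hy
    obtain ⟨z, hz, rfl⟩ := hy
    exact ⟨mem_vp.mp z.2, (mem_ker_phi N v z).mp hz⟩
  have hiso : ∀ x ∈ Q, ∀ y ∈ Q, om k x y = 0 := by
    intro x hx y hy
    obtain ⟨hx1, hx2⟩ := hmem x hx
    obtain ⟨hy1, hy2⟩ := hmem y hy
    have h := hb _ hx2 _ hy2
    rw [bracket, om_anti x v, hx1, hy1, om_self, neg_zero, zero_smul, zero_smul, zero_smul,
      zero_add, add_zero, add_zero] at h
    by_contra hne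
    exact hv ((Submodule.smul_mem_iff N hne).mp h)
  have hvQ : v ∉ Q := fun h => hv (hmem v h).2
  set S : Submodule ℂ (Ix k → ℂ) := Q ⊔ Submodule.span ℂ {v} with hS
  have hlt : Q < S := by
    refine lt_of_le_of_ne le_sup_left ?_
    intro h
    apply hvQ
    rw [h]
    exact Submodule.mem_sup_right (Submodule.mem_span_singleton_self v)
  have hSiso : ∀ x ∈ S, ∀ y ∈ S, om k x y = 0 := by
    intro x hx y hy
    obtain ⟨x1, hx1, x2, hx2, rfl⟩ := Submodule.mem_sup.mp hx
    obtain ⟨y1, hy1, y2, hy2, rfl⟩ := Submodule.mem_sup.mp hy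
    obtain ⟨a, rfl⟩ := Submodule.mem_span_singleton.mp hx2
    obtain ⟨b, rfl⟩ := Submodule.mem_span_singleton.mp hy2
    simp only [map_add, map_smul, LinearMap.add_apply, LinearMap.smul_apply, om_self,
      hiso x1 hx1 y1 hy1, (hmem y1 hy1).1, om_anti x1 v, (hmem x1 hx1).1, smul_zero, neg_zero,
      add_zero]
  have h1 := iso_le S hSiso
  have h2 := Submodule.finrank_lt_finrank_of_lt hlt
  omega

theorem quot_fin (hN : N ≤ spS k) :
    Module.finrank ℂ ((spS k).map N.mkQ) + Module.finrank ℂ N = Module.finrank ℂ (spS k) := by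
  have h1 := LinearMap.finrank_range_add_finrank_ker (N.mkQ.domRestrict (spS k))
  have h2 : LinearMap.range (N.mkQ.domRestrict (spS k)) = (spS k).map N.mkQ := by
    rw [LinearMap.range_domRestrict]
  have h3 : LinearMap.ker (N.mkQ.domRestrict (spS k)) = N.comap (spS k).subtype := by
    ext x
    rw [LinearMap.mem_ker, Submodule.mem_comap]
    show N.mkQ (x : Matrix (Ix k) (Ix k) ℂ) = 0 ↔ _
    rw [Submodule.mkQ_apply, Submodule.Quotient.mk_eq_zero]
    rfl
  have h4 : Module.finrank ℂ (N.comap (spS k).subtype) = Module.finrank ℂ N := by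
    rw [← Submodule.finrank_map_subtype_eq, Submodule.map_comap_subtype, inf_eq_right.mpr hN]
  rw [h2, h3, h4] at h1
  exact h1

theorem range_le : LinearMap.range (phi N v) ≤ (spS k).map N.mkQ := by
  rintro _ ⟨y, rfl⟩
  exact ⟨s k v y, s_mem _ _, rfl⟩

/-- The contradiction. -/
theorem contra (hv : s k v v ∉ N) (hb : ∀ X ∈ N, ∀ Y ∈ N, X * Y - Y * X ∈ N)
    (hsur : ∀ X ∈ spS k, ∃ y, om k v y = 0 ∧ X - s k v y ∈ N)
    (hQ : ∃ y, y ≠ 0 ∧ om k v y = 0 ∧ s k v y ∈ N) : False := by
  have hv0 : v ≠ 0 := by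
    rintro rfl
    apply hv
    rw [map_zero]
    exact N.zero_mem
  obtain ⟨u, hvu, hh⟩ : ∃ u, om k v u = 1 ∧ s k v u ∈ N := by
    obtain ⟨x, hx⟩ : ∃ x, om k v x ≠ 0 := by
      by_contra hcon
      push Not at hcon
      exact hv0 (om_left v hcon)
    obtain ⟨y, hy1, hy2⟩ := hsur (s k v ((om k v x)⁻¹ • x)) (s_mem _ _)
    refine ⟨(om k v x)⁻¹ • x - y, ?_, ?_⟩
    · rw [map_sub, map_smul, hy1, sub_zero, smul_eq_mul, inv_mul_cancel₀ hx]
    · rw [map_sub]
      exact hy2
  have huv : om k u v = -1 := by rw [om_anti, hvu]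
  -- the action of `h = s v u`
  have hvv : s k v u * s k v v - s k v v * s k v u = (-2 : ℂ) • s k v v := by
    rw [bracket, huv, om_self, zero_smul, add_zero, add_zero, ← add_smul]
    norm_num
  have hvw : ∀ w, om k v w = 0 → om k u w = 0 →
      s k v u * s k v w - s k v w * s k v u = -s k v w := by
    intro w h1 h2
    rw [bracket, huv, om_self, h1, h2]
    simp only [zero_smul, add_zero, neg_smul, one_smul]
  have hww : ∀ w w', om k v w = 0 → om k u w = 0 → om k v w' = 0 → om k u w' = 0 →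
      s k v u * s k w w' - s k w w' * s k v u = 0 := by
    intro w w' h1 h2 h3 h4
    rw [bracket, h1, h2, h3, h4]
    simp only [zero_smul, add_zero]
  -- decomposition of the vectors orthogonal to `v`
  have dec : ∀ y, om k v y = 0 → ∃ (b : ℂ) (y' : Ix k → ℂ), y = b • v + y' ∧
      om k v y' = 0 ∧ om k u y' = 0 := by
    intro y hy
    refine ⟨-om k u y, y + om k u y • v, ?_, ?_, ?_⟩
    · rw [neg_smul]
      abel
    · rw [map_add, map_smul, om_self, hy, smul_zero, add_zero]
    · rw [map_add, map_smul, huv, smul_eq_mul]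
      ring
  -- the elements `s w w'` are in `N`
  have hWW : ∀ w w', om k v w = 0 → om k u w = 0 → om k v w' = 0 → om k u w' = 0 →
      s k w w' ∈ N := by
    intro w w' h1 h2 h3 h4
    obtain ⟨y, hy1, hy2⟩ := hsur (s k w w') (s_mem _ _)
    obtain ⟨b, y', rfl, hy3, hy4⟩ := dec y hy1
    have e0 : s k w w' - s k v (b • v + y') = s k w w' - b • s k v v - s k v y' := by
      rw [map_add, map_smul]
      abel
    rw [e0] at hy2
    have e1 := hb _ hh _ hy2
    have e2 : s k v u * (s k w w' - b • s k v v - s k v y') -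
        (s k w w' - b • s k v v - s k v y') * s k v u =
        (2 * b) • s k v v + s k v y' := by
      have a1 := hww w w' h1 h2 h3 h4
      have a2 := hvw y' hy3 hy4
      calc s k v u * (s k w w' - b • s k v v - s k v y') -
            (s k w w' - b • s k v v - s k v y') * s k v u
          = (s k v u * s k w w' - s k w w' * s k v u) -
            b • (s k v u * s k v v - s k v v * s k v u) -
            (s k v u * s k v y' - s k v y' * s k v u) := by
            rw [Matrix.mul_sub, Matrix.mul_sub, Matrix.sub_mul, Matrix.sub_mul,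
              Matrix.mul_smul, Matrix.smul_mul, smul_sub]
            abel
        _ = (2 * b) • s k v v + s k v y' := by
            rw [a1, hvv, a2, smul_smul, zero_sub, sub_neg_eq_add, ← neg_smul]
            congr 2
            ring
    rw [e2] at e1
    have e3 := hb _ hh _ e1
    have e4 : s k v u * ((2 * b) • s k v v + s k v y') -
        ((2 * b) • s k v v + s k v y') * s k v u =
        (-4 * b) • s k v v - s k v y' := by
      have a2 := hvw y' hy3 hy4
      calc s k v u * ((2 * b) • s k v v + s k v y') -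
            ((2 * b) • s k v v + s k v y') * s k v u
          = (2 * b) • (s k v u * s k v v - s k v v * s k v u) +
            (s k v u * s k v y' - s k v y' * s k v u) := by
            rw [Matrix.mul_add, Matrix.add_mul, Matrix.mul_smul, Matrix.smul_mul, smul_sub]
            abel
        _ = (-4 * b) • s k v v - s k v y' := by
            rw [hvv, a2, smul_smul, ← sub_eq_add_neg]
            congr 2
            ring
    rw [e4] at e3
    have e5 := N.add_mem e1 e3
    have e6 : (2 * b) • s k v v + s k v y' + ((-4 * b) • s k v v - s k v y') =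
        (-2 * b) • s k v v := by
      have : (-2 * b) = 2 * b + -4 * b := by ring
      rw [this, add_smul]
      abel
    rw [e6] at e5
    have hb0 : b = 0 := by
      by_contra hne
      exact hv ((Submodule.smul_mem_iff N (mul_ne_zero (by norm_num) hne)).mp e5)
    subst hb0
    rw [mul_zero, zero_smul, zero_add] at e1
    rw [zero_smul, sub_zero] at hy2
    have := N.add_mem hy2 e1
    rwa [sub_add_cancel] at this
  obtain ⟨y, hy0, hy1, hy2⟩ := hQ
  obtain ⟨b, y', rfl, hy3, hy4⟩ := dec y hy1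
  rw [map_add, map_smul] at hy2
  have f1 := hb _ hh _ hy2
  have f2 : s k v u * (b • s k v v + s k v y') - (b • s k v v + s k v y') * s k v u =
      (-2 * b) • s k v v - s k v y' := by
    have a2 := hvw y' hy3 hy4
    calc s k v u * (b • s k v v + s k v y') - (b • s k v v + s k v y') * s k v u
        = b • (s k v u * s k v v - s k v v * s k v u) +
          (s k v u * s k v y' - s k v y' * s k v u) := by
          rw [Matrix.mul_add, Matrix.add_mul, Matrix.mul_smul, Matrix.smul_mul, smul_sub]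
          abel
      _ = (-2 * b) • s k v v - s k v y' := by
          rw [hvv, a2, smul_smul, ← sub_eq_add_neg]
          congr 2
          ring
  rw [f2] at f1
  have f3 := N.add_mem hy2 f1
  have f4 : b • s k v v + s k v y' + ((-2 * b) • s k v v - s k v y') = (-b) • s k v v := by
    have : -b = b + -2 * b := by ring
    rw [this, add_smul]
    abel
  rw [f4] at f3
  have hb0 : b = 0 := by
    by_contra hne
    exact hv ((Submodule.smul_mem_iff N (neg_ne_zero.mpr hne)).mp f3)
  subst hb0
  rw [zero_smul, zero_add] at hy2 hy0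
  obtain ⟨x, hx⟩ : ∃ x, om k x y' ≠ 0 := by
    by_contra hcon
    push Not at hcon
    exact hy0 (om_right y' hcon)
  obtain ⟨w, hw1, hw2, hw3⟩ : ∃ w, om k v w = 0 ∧ om k u w = 0 ∧ om k w y' ≠ 0 := by
    refine ⟨x + om k u x • v - om k v x • u, ?_, ?_, ?_⟩
    · rw [map_sub, map_add, map_smul, map_smul, om_self, hvu, smul_eq_mul, smul_eq_mul]
      ring
    · rw [map_sub, map_add, map_smul, map_smul, om_self, huv, smul_eq_mul, smul_eq_mul]
      ring
    · rw [map_sub, map_add, map_smul, map_smul, LinearMap.sub_apply, LinearMap.add_apply,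
        LinearMap.smul_apply, LinearMap.smul_apply, hy3, hy4, smul_zero, smul_zero, add_zero,
        sub_zero]
      exact hx
  have hwv : om k w v = 0 := by rw [om_anti, hw1, neg_zero]
  have g1 := hb _ (hWW w w hw1 hw2 hw1 hw2) _ hy2
  rw [bracket, hwv, zero_smul, zero_add, add_zero, ← add_smul, s_symm w v] at g1
  have hne2 : om k w y' + om k w y' ≠ 0 := by
    rw [← two_mul]
    exact mul_ne_zero two_ne_zero hw3
  have g2 : s k v w ∈ N := by
    exact (Submodule.smul_mem_iff N hne2).mp g1
  have g3 := hb _ g2 _ hy2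
  rw [bracket, hwv, hy3, om_self, zero_smul, zero_smul, zero_smul, zero_add, add_zero,
    add_zero] at g3
  exact hv ((Submodule.smul_mem_iff N hw3).mp g3)

end main

end SPO_

theorem SPO_proof : Stmt_SPO := by
  intro k hk N hN hb ⟨v, hv⟩
  have hv' : SPO_.s k v v ∉ N := by
    rw [SPO_.s_self]
    intro h
    exact hv ((Submodule.smul_mem_iff N two_ne_zero).mp h)
  by_contra hlt
  push Not at hlt
  have h1 := LinearMap.finrank_range_add_finrank_ker (SPO_.phi N v)
  have h2 := SPO_.vp_fin v
  have h3 := SPO_.ker_le hv' hb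
  have h4 := SPO_.quot_fin hN
  have h5 := Submodule.finrank_mono (SPO_.range_le (N := N) (v := v))
  have h6 : LinearMap.range (SPO_.phi N v) = (spS k).map N.mkQ := by
    apply Submodule.eq_of_le_of_finrank_le SPO_.range_le
    omega
  have h7 : 0 < Module.finrank ℂ (LinearMap.ker (SPO_.phi N v)) := by omega
  refine SPO_.contra hv' hb ?_ ?_
  · intro X hX
    have h8 : N.mkQ X ∈ LinearMap.range (SPO_.phi N v) := by
      rw [h6]
      exact ⟨X, hX, rfl⟩
    obtain ⟨y, hy⟩ := h8
    refine ⟨y, SPO_.mem_vp.mp y.2, ?_⟩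
    rw [← Submodule.Quotient.mk_eq_zero, Submodule.Quotient.mk_sub, sub_eq_zero]
    exact hy.symm
  · have : Nontrivial (LinearMap.ker (SPO_.phi N v)) := Module.finrank_pos_iff.mp h7
    obtain ⟨z, hz⟩ := exists_ne (0 : LinearMap.ker (SPO_.phi N v))
    refine ⟨z, ?_, SPO_.mem_vp.mp z.1.2, (SPO_.mem_ker_phi N v z.1).mp z.2⟩
    intro h
    apply hz
    apply Subtype.ext
    apply Subtype.ext
    exact h

end

end Pool.Agent.NEX
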