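import Pool.Agent.NEX.Stmts
import Pool.Agent.UBD.LIEB

set_option autoImplicit false

/-!
# NEX, module STB: the stabilizer of the polynomials of bounded degree which vanish on `K`
-/

open scoped BigOperators Topology

namespace Pool.Agent.NEX

open Pool.Agent.HGP (Ix Simil Idx fvec)
open Pool.Agent.UBD (Pt Crd Pol ev InG GrpS Dns Inf1 Lie nv sg1 ex)
open Pool.Agent.DRD (subR ev_subR mul_pinv pinv_mul)

noncomputable section

/-! ### finite-dimensional spaces of functions -/

theorem STB_points {S : Type} (W : Submodule ℂ (S → ℂ)) [FiniteDimensional ℂ W] :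
    ∀ d : ℕ, d ≤ Module.finrank ℂ W → ∃ (x : Fin d → S) (f : Fin d → W),
      ∀ i j, (f i : S → ℂ) (x j) = if i = j then 1 else 0 := by
  intro d
  induction d with
  | zero =>
    intro _
    exact ⟨Fin.elim0, Fin.elim0, fun i => i.elim0⟩
  | succ d ih =>
    intro hd
    obtain ⟨x, f, hf⟩ := ih (by omega)
    -- a function in the kernel
    let L : W →ₗ[ℂ] (Fin d → ℂ) :=
      { toFun := fun h k => (h : S → ℂ) (x k)
        map_add' := fun _ _ => rfl
        map_smul' := fun _ _ => rfl }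
    have hker : LinearMap.ker L ≠ ⊥ := by
      intro h0
      have h1 := LinearMap.finrank_le_finrank_of_injective (LinearMap.ker_eq_bot.1 h0)
      rw [Module.finrank_fintype_fun_eq_card, Fintype.card_fin] at h1
      omega
    obtain ⟨h, hh, hne⟩ := Submodule.exists_mem_ne_zero_of_ne_bot hker
    have hx : ∀ k, (h : S → ℂ) (x k) = 0 := fun k => congrFun (LinearMap.mem_ker.1 hh) k
    have hne' : (h : S → ℂ) ≠ 0 := fun h0 => hne (Subtype.ext h0)
    obtain ⟨s, hs⟩ := Function.ne_iff.1 hne'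
    rw [Pi.zero_apply] at hs
    refine ⟨Fin.snoc x s, Fin.snoc (α := fun _ => W)
      (fun i => f i - ((f i : S → ℂ) s * ((h : S → ℂ) s)⁻¹) • h) (((h : S → ℂ) s)⁻¹ • h), ?_⟩
    intro i j
    refine Fin.lastCases ?_ (fun i => ?_) i
    · refine Fin.lastCases ?_ (fun j => ?_) j
      · rw [Fin.snoc_last, Fin.snoc_last, if_pos rfl]
        exact inv_mul_cancel₀ hs
      · rw [Fin.snoc_last, Fin.snoc_castSucc, if_neg (Fin.castSucc_lt_last j).ne']
        change ((h : S → ℂ) s)⁻¹ * (h : S → ℂ) (x j) = 0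
        rw [hx, mul_zero]
    · refine Fin.lastCases ?_ (fun j => ?_) j
      · rw [Fin.snoc_last, Fin.snoc_castSucc, if_neg (Fin.castSucc_lt_last i).ne]
        change (f i : S → ℂ) s - ((f i : S → ℂ) s * ((h : S → ℂ) s)⁻¹) * (h : S → ℂ) s = 0
        rw [mul_assoc, inv_mul_cancel₀ hs, mul_one, sub_self]
      · rw [Fin.snoc_castSucc, Fin.snoc_castSucc]
        change (f i : S → ℂ) (x j) - ((f i : S → ℂ) s * ((h : S → ℂ) s)⁻¹) * (h : S → ℂ) (x j) = _
        rw [hx, mul_zero, sub_zero, hf]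
        simp only [Fin.castSucc_inj]

theorem STB_dual {S : Type} (W : Submodule ℂ (S → ℂ)) [FiniteDimensional ℂ W] :
    ∃ (x : Fin (Module.finrank ℂ W) → S) (f : Fin (Module.finrank ℂ W) → (S → ℂ)),
      (∀ i, f i ∈ W) ∧ (∀ i j, f i (x j) = if i = j then 1 else 0) ∧
      ∀ h ∈ W, ∀ y, h y = ∑ k, h (x k) * f k y := by
  obtain ⟨x, f, hf⟩ := STB_points W _ le_rfl
  refine ⟨x, fun i => (f i : S → ℂ), fun i => (f i).2, hf, ?_⟩
  let L : W →ₗ[ℂ] (Fin (Module.finrank ℂ W) → ℂ) :=
    { toFun := fun h k => (h : S → ℂ) (x k)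
      map_add' := fun _ _ => rfl
      map_smul' := fun _ _ => rfl }
  have hL : ∀ (c : Fin (Module.finrank ℂ W) → ℂ) (j : Fin (Module.finrank ℂ W)),
      (((∑ k, c k • f k : W) : S → ℂ)) (x j) = c j := by
    intro c j
    have h1 : (((∑ k, c k • f k : W) : S → ℂ)) = ∑ k, c k • (f k : S → ℂ) := by
      rw [Submodule.coe_sum]
      rfl
    rw [h1, Finset.sum_apply]
    simp only [Pi.smul_apply, hf, smul_eq_mul, mul_ite, mul_one, mul_zero,
      Finset.sum_ite_eq', Finset.mem_univ, if_true]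
  have hsurj : Function.Surjective L := fun c => ⟨∑ k, c k • f k, funext fun j => hL c j⟩
  have hinj : Function.Injective L := by
    refine (LinearMap.injective_iff_surjective_of_finrank_eq_finrank ?_).2 hsurj
    rw [Module.finrank_fintype_fun_eq_card, Fintype.card_fin]
  intro h hh y
  have h1 : (⟨h, hh⟩ : W) = ∑ k, h (x k) • f k := hinj (funext fun j => (hL _ j).symm)
  have h2 := congrFun (congrArg Subtype.val h1) y
  rw [Submodule.coe_sum, Finset.sum_apply] at h2
  exact h2

/-! ### left multiplication as a substitution -/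

variable {r : ℕ} {g w : Fin r → ℕ}

/-- Left multiplication as a substitution, on the coordinates. -/
def STB_sL (c : Pt g) : Crd g → Pol g
  | none => MvPolynomial.C c.1 * MvPolynomial.X none
  | some p => ∑ l, MvPolynomial.C (c.2 p.1 p.2.1 l) * MvPolynomial.X (some ⟨p.1, (l, p.2.2)⟩)

/-- Left multiplication as a substitution. -/
def STB_L (c : Pt g) (P : Pol g) : Pol g := MvPolynomial.bind₁ (STB_sL c) P

theorem STB_eval_sL (c a : Pt g) (o : Crd g) :
    MvPolynomial.eval (HGP.tpt a.1 a.2) (STB_sL c o) = HGP.tpt (c * a).1 (c * a).2 o := by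
  cases o with
  | none =>
    rw [STB_sL, map_mul, MvPolynomial.eval_C, MvPolynomial.eval_X]
    rfl
  | some p =>
    have h : HGP.tpt (c * a).1 (c * a).2 (some p) =
        ∑ l, c.2 p.1 p.2.1 l * a.2 p.1 l p.2.2 := by
      change (c.2 p.1 * a.2 p.1) p.2.1 p.2.2 = _
      rw [Matrix.mul_apply]
    rw [h, STB_sL, map_sum]
    refine Finset.sum_congr rfl fun l _ => ?_
    rw [map_mul, MvPolynomial.eval_C, MvPolynomial.eval_X]
    rfl

theorem STB_ev_L (c : Pt g) (P : Pol g) (a : Pt g) : ev (STB_L c P) a = ev P (c * a) := by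
  unfold ev STB_L
  change MvPolynomial.eval₂Hom (RingHom.id ℂ) (HGP.tpt a.1 a.2) (MvPolynomial.bind₁ _ P) = _
  rw [MvPolynomial.eval₂Hom_bind₁]
  exact congrArg (fun f => MvPolynomial.eval f P) (funext (STB_eval_sL c a))

theorem STB_deg_sL (c : Pt g) (o : Crd g) : (STB_sL c o).totalDegree ≤ 1 := by
  cases o with
  | none =>
    rw [STB_sL]
    refine (MvPolynomial.totalDegree_mul _ _).trans ?_
    rw [MvPolynomial.totalDegree_C, MvPolynomial.totalDegree_X]
  | some p =>
    rw [STB_sL]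
    refine MvPolynomial.totalDegree_finsetSum_le fun l _ => ?_
    refine (MvPolynomial.totalDegree_mul _ _).trans ?_
    rw [MvPolynomial.totalDegree_C, MvPolynomial.totalDegree_X]

theorem STB_deg_L (c : Pt g) (P : Pol g) (D : ℕ) (hP : P.totalDegree ≤ D) :
    (STB_L c P).totalDegree ≤ D := by
  unfold STB_L
  rw [MvPolynomial.as_sum P, map_sum]
  refine MvPolynomial.totalDegree_finsetSum_le fun d hd => ?_
  rw [MvPolynomial.bind₁_monomial]
  refine (MvPolynomial.totalDegree_mul _ _).trans ?_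
  rw [MvPolynomial.totalDegree_C, zero_add]
  refine (MvPolynomial.totalDegree_finsetProd _ _).trans ?_
  have h1 : ∑ o ∈ d.support, (STB_sL c o ^ d o).totalDegree ≤ ∑ o ∈ d.support, d o := by
    refine Finset.sum_le_sum fun o _ => ?_
    refine (MvPolynomial.totalDegree_pow _ _).trans ?_
    exact (Nat.mul_le_mul_left _ (STB_deg_sL c o)).trans (le_of_eq (mul_one _))
  exact h1.trans ((MvPolynomial.le_totalDegree hd).trans hP)

/-! ### one-parameter groups -/

theorem STB_ex_add (s t : ℂ) (X : Pt g) : ex (s + t) X = ex s X * ex t X := by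
  unfold ex
  refine Prod.ext ?_ (funext fun i => ?_)
  · show Complex.exp ((s + t) * X.1) = Complex.exp (s * X.1) * Complex.exp (t * X.1)
    rw [add_mul, Complex.exp_add]
  · show NormedSpace.exp ((s + t) • X.2 i) = NormedSpace.exp (s • X.2 i) * NormedSpace.exp (t • X.2 i)
    rw [add_smul, Matrix.exp_add_of_commute]
    exact ((Commute.refl (X.2 i)).smul_left s).smul_right t

theorem STB_ex_zero (X : Pt g) : ex 0 X = 1 := by
  unfold ex
  refine Prod.ext ?_ (funext fun i => ?_)
  · simp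
  · show NormedSpace.exp ((0 : ℂ) • X.2 i) = 1
    rw [zero_smul, NormedSpace.exp_zero]

theorem STB_simil_exp {k : ℕ} (X : Matrix (Ix k) (Ix k) ℂ) (hX : X ∈ spS k) (t : ℂ) :
    Simil 1 (NormedSpace.exp (t • X)) := by
  rw [mem_spS] at hX
  have hJu : IsUnit (Matrix.J (Fin k) ℂ).det := Matrix.isUnit_det_J (Fin k) ℂ
  have hJ : IsUnit (Matrix.J (Fin k) ℂ) := (Matrix.isUnit_iff_isUnit_det _).2 hJu
  have h1 : (t • X).transpose = Matrix.J (Fin k) ℂ * (-(t • X)) * (Matrix.J (Fin k) ℂ)⁻¹ := by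
    have h2 : X.transpose * Matrix.J (Fin k) ℂ = -(Matrix.J (Fin k) ℂ * X) :=
      eq_neg_of_add_eq_zero_left hX
    have h3 : X.transpose = -(Matrix.J (Fin k) ℂ * X) * (Matrix.J (Fin k) ℂ)⁻¹ := by
      rw [← h2, Matrix.mul_assoc, Matrix.mul_nonsing_inv _ hJu, Matrix.mul_one]
    rw [Matrix.transpose_smul, h3, Matrix.mul_neg, Matrix.mul_smul, ← smul_neg, Matrix.smul_mul]
  unfold Simil
  have h4 : NormedSpace.exp (-(t • X)) * NormedSpace.exp (t • X) = 1 := by
    rw [← Matrix.exp_add_of_commute _ _ (Commute.refl (t • X)).neg_left, neg_add_cancel,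
      NormedSpace.exp_zero]
  calc (NormedSpace.exp (t • X)).transpose * Matrix.J (Fin k) ℂ * NormedSpace.exp (t • X)
      = Matrix.J (Fin k) ℂ * NormedSpace.exp (-(t • X)) * (Matrix.J (Fin k) ℂ)⁻¹ *
          Matrix.J (Fin k) ℂ * NormedSpace.exp (t • X) := by
        rw [← Matrix.exp_transpose, h1, Matrix.exp_conj _ _ hJ]
    _ = Matrix.J (Fin k) ℂ * (NormedSpace.exp (-(t • X)) * (((Matrix.J (Fin k) ℂ)⁻¹ *
          Matrix.J (Fin k) ℂ) * NormedSpace.exp (t • X))) := by
        simp only [Matrix.mul_assoc]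
    _ = (1 : ℂ) • Matrix.J (Fin k) ℂ := by
        rw [Matrix.nonsing_inv_mul _ hJu, Matrix.one_mul, h4, Matrix.mul_one, one_smul]

theorem STB_inG_ex (X : Pt g) (h1 : X.1 = 0) (h2 : ∀ i, X.2 i ∈ spS (g i)) (t : ℂ) :
    InG w (ex t X) := by
  have h0 : (ex t X).1 = 1 := by
    change Complex.exp (t * X.1) = 1
    rw [h1, mul_zero, Complex.exp_zero]
  refine ⟨by rw [h0]; exact one_ne_zero, fun i => ?_⟩
  rw [h0, one_pow]
  exact STB_simil_exp (X.2 i) (h2 i) t

/-- The derivative along the one-parameter group. -/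
theorem STB_deriv (P : Pol g) (X y : Pt g) (s : ℂ) :
    HasDerivAt (fun t : ℂ => ev P (ex t X * y)) (dP P X (ex s X * y)) s := by
  have h1 : Differentiable ℂ fun t : ℂ => ev P (ex t X * y) := by
    have h2 := UBD.LIEB_.ev_diff (subR y P) X
    simp only [ev_subR] at h2
    exact h2
  have h3 : dP P X (ex s X * y) = deriv (fun t : ℂ => ev P (ex t X * y)) s := by
    unfold dP
    have h4 := deriv_comp_add_const (fun t : ℂ => ev P (ex t X * y)) s 0
    rw [zero_add] at h4
    rw [← h4]
    congr 1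
    funext t
    rw [STB_ex_add, mul_assoc]
  rw [h3]
  exact (h1 s).hasDerivAt

/-- Uniqueness for a linear differential equation. -/
theorem STB_ode {d : ℕ} (D : Matrix (Fin d) (Fin d) ℂ) (ψ : Fin d → ℂ → ℂ)
    (h : ∀ i s, HasDerivAt (ψ i) (∑ k, D i k * ψ k s) s) (h0 : ∀ i, ψ i 0 = 0) (t : ℂ) (i : Fin d) :
    ψ i t = 0 := by
  let L : (Fin d → ℂ) →L[ℝ] (Fin d → ℂ) :=
    LinearMap.toContinuousLinearMap
      { toFun := fun u i => t * ∑ k, D i k * u k
        map_add' := by
          intro u v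
          funext i
          simp only [Pi.add_apply, mul_add, Finset.sum_add_distrib]
        map_smul' := by
          intro c u
          funext i
          simp only [Pi.smul_apply, RingHom.id_apply, Complex.real_smul, Finset.mul_sum]
          exact Finset.sum_congr rfl fun k _ => by ring }
  have hL : ∀ u i, L u i = t * ∑ k, D i k * u k := fun _ _ => rfl
  have hd : ∀ s : ℝ, HasDerivAt (fun s : ℝ => fun i => ψ i (s * t)) (L fun i => ψ i (s * t)) s := by
    intro s
    refine hasDerivAt_pi.2 fun i => ?_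
    rw [hL]
    have h1 : HasDerivAt (fun z : ℂ => z * t) (1 * t) (s : ℂ) :=
      (hasDerivAt_id (s : ℂ)).mul_const t
    rw [one_mul] at h1
    have h2 := (h i (s * t)).comp (s : ℂ) h1
    have h3 := h2.comp_ofReal
    refine h3.congr_deriv ?_
    rw [mul_comm]
  have hu := ODE_solution_unique_univ (v := fun _ => L) (s := fun _ => Set.univ)
    (K := ‖L‖₊) (f := fun s : ℝ => fun i => ψ i (s * t)) (g := fun _ => 0) (t₀ := 0)
    (fun _ => L.lipschitz.lipschitzOnWith) (fun s => ⟨hd s, Set.mem_univ _⟩)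
    (fun s => ⟨by rw [map_zero]; exact hasDerivAt_const s 0, Set.mem_univ _⟩)
    (by
      funext i
      rw [Complex.ofReal_zero, zero_mul, h0]
      rfl)
  have h4 := congrFun (congrFun hu 1) i
  rw [Complex.ofReal_one, one_mul] at h4
  exact h4

/-! ### the stabilizer -/

/-- The stabilizer of the span of the functions `P i`. -/
def STB_N (w : Fin r → ℕ) {d : ℕ} (P : Fin d → Pol g) (x : Fin d → Pt g) : Set (Pt g) :=
  {a | InG w a ∧ ∀ y, InG w y → ∀ i, ev (P i) (a * y) = ∑ k, ev (P i) (a * x k) * ev (P k) y}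

theorem STB_grp {d : ℕ} {P : Fin d → Pol g} {x : Fin d → Pt g} (hx : ∀ j, InG w (x j))
    (hP : ∀ i j, ev (P i) (x j) = if i = j then 1 else 0) : GrpS w (STB_N w P x) where
  sub := fun a ha => ha.1
  one := by
    refine ⟨DRD.InG.one, fun y _ i => ?_⟩
    simp only [one_mul, hP, ite_mul, zero_mul, Finset.sum_ite_eq, Finset.mem_univ, if_true]
  mul := by
    intro a ha b hb
    refine ⟨DRD.InG.mul ha.1 hb.1, fun y hy i => ?_⟩
    have h1 : ∀ z, InG w z → ev (P i) (a * b * z) =
        ∑ k, ev (P i) (a * x k) * ev (P k) (b * z) := by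
      intro z hz
      rw [mul_assoc]
      exact ha.2 _ (DRD.InG.mul hb.1 hz) i
    rw [h1 y hy]
    simp only [h1 _ (hx _)]
    simp only [hb.2 y hy, Finset.mul_sum, Finset.sum_mul]
    rw [Finset.sum_comm]
    refine Finset.sum_congr rfl fun k _ => Finset.sum_congr rfl fun l _ => by ring
  inv := by
    intro a ha
    have hab : a * DRD.pinv a = 1 := mul_pinv ha.1.1 (DRD.InG.det ha.1)
    have hba : DRD.pinv a * a = 1 := pinv_mul ha.1.1 (DRD.InG.det ha.1)
    have hbG : InG w (DRD.pinv a) := DRD.InG.pinv ha.1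
    refine ⟨DRD.pinv a, ⟨hbG, fun y hy j => ?_⟩, hab, hba⟩
    have h1 : ∀ z, InG w z → ∀ i, ev (P i) z =
        ∑ k, ev (P i) (a * x k) * ev (P k) (DRD.pinv a * z) := by
      intro z hz i
      have h2 := ha.2 _ (DRD.InG.mul hbG hz) i
      rw [← mul_assoc, hab, one_mul] at h2
      exact h2
    let C : Matrix (Fin d) (Fin d) ℂ := Matrix.of fun i k => ev (P i) (a * x k)
    let C' : Matrix (Fin d) (Fin d) ℂ := Matrix.of fun k l => ev (P k) (DRD.pinv a * x l)
    have hCC : C * C' = 1 := by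
      ext i l
      rw [Matrix.mul_apply, Matrix.one_apply, ← hP i l, h1 (x l) (hx l) i]
      rfl
    have hC'C : C' * C = 1 := mul_eq_one_comm.1 hCC
    have h3 : ∑ k, ev (P j) (DRD.pinv a * x k) * ev (P k) y =
        ∑ k, (C' * C) j k * ev (P k) (DRD.pinv a * y) := by
      simp only [h1 y hy, Matrix.mul_apply, Finset.mul_sum, Finset.sum_mul]
      rw [Finset.sum_comm]
      refine Finset.sum_congr rfl fun k _ => Finset.sum_congr rfl fun l _ => ?_
      change _ = ev (P j) (DRD.pinv a * x l) * ev (P l) (a * x k) * _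
      ring
    rw [h3, hC'C]
    simp only [Matrix.one_apply, ite_mul, one_mul, zero_mul, Finset.sum_ite_eq, Finset.mem_univ,
      if_true]
  closed := by
    intro a haG ha
    refine ⟨haG, fun y hy i => ?_⟩
    have h1 := ha (subR y (P i) - ∑ k, subR (x k) (P i) * MvPolynomial.C (ev (P k) y)) ?_
    · have h2 : ev (subR y (P i) - ∑ k, subR (x k) (P i) * MvPolynomial.C (ev (P k) y)) a =
          ev (P i) (a * y) - ∑ k, ev (P i) (a * x k) * ev (P k) y := by
        rw [← ev_subR]
        simp only [← ev_subR (x _)]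
        simp only [ev, map_sub, map_sum, map_mul, MvPolynomial.eval_C]
      rw [h2] at h1
      exact sub_eq_zero.1 h1
    · intro h hh
      have h2 : ev (subR y (P i) - ∑ k, subR (x k) (P i) * MvPolynomial.C (ev (P k) y)) h =
          ev (P i) (h * y) - ∑ k, ev (P i) (h * x k) * ev (P k) y := by
        rw [← ev_subR]
        simp only [← ev_subR (x _)]
        simp only [ev, map_sub, map_sum, map_mul, MvPolynomial.eval_C]
      rw [h2, sub_eq_zero]
      exact hh.2 y hy i

theorem STB_lie {d : ℕ} {P : Fin d → Pol g} {x : Fin d → Pt g} (hx : ∀ j, InG w (x j))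
    (hP : ∀ i j, ev (P i) (x j) = if i = j then 1 else 0) (X : Pt g) (h1 : X.1 = 0)
    (h2 : ∀ i, X.2 i ∈ spS (g i))
    (h3 : ∀ y, InG w y → ∀ i, dP (P i) X y = ∑ k, dP (P i) X (x k) * ev (P k) y) :
    X ∈ Lie (STB_N w P x) := by
  intro t
  refine ⟨STB_inG_ex X h1 h2 t, fun y hy i => ?_⟩
  have h4 := STB_ode (Matrix.of fun i k => dP (P i) X (x k))
    (fun i s => ev (P i) (ex s X * y) - ∑ k, ev (P i) (ex s X * x k) * ev (P k) y) ?_ ?_ t i
  · exact sub_eq_zero.1 h4
  · intro i s
    have e1 := STB_deriv (P i) X y s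
    have e2 : HasDerivAt (fun s : ℂ => ∑ k, ev (P i) (ex s X * x k) * ev (P k) y)
        (∑ k, dP (P i) X (ex s X * x k) * ev (P k) y) s :=
      HasDerivAt.fun_sum fun k _ => (STB_deriv (P i) X (x k) s).mul_const _
    refine (e1.sub e2).congr_deriv ?_
    have hex : InG w (ex s X) := STB_inG_ex X h1 h2 s
    rw [h3 _ (DRD.InG.mul hex hy) i]
    simp only [h3 _ (DRD.InG.mul hex (hx _)) i, Matrix.of_apply]
    simp only [mul_sub, Finset.sum_sub_distrib, Finset.mul_sum, Finset.sum_mul]
    congr 1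
    rw [Finset.sum_comm]
    refine Finset.sum_congr rfl fun k _ => Finset.sum_congr rfl fun l _ => by ring
  · intro i
    simp only [STB_ex_zero, one_mul, hP, ite_mul, zero_mul, Finset.sum_ite_eq, Finset.mem_univ,
      if_true, sub_self]

theorem stb_proof : Stmt_STB := by
  intro r g w D₀
  let V : Submodule ℂ (Pol g) := MvPolynomial.restrictTotalDegree (Crd g) ℂ D₀
  refine ⟨Module.finrank ℂ V, ?_⟩
  intro K hK hns
  let VK : Submodule ℂ (Pol g) :=
    { carrier := {P | P.totalDegree ≤ D₀ ∧ ∀ h ∈ K, ev P h = 0}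
      add_mem' := by
        intro P Q hP hQ
        refine ⟨(MvPolynomial.totalDegree_add _ _).trans (max_le hP.1 hQ.1), fun h hh => ?_⟩
        have e : ev (P + Q) h = ev P h + ev Q h := by simp only [ev, map_add]
        rw [e, hP.2 h hh, hQ.2 h hh, add_zero]
      zero_mem' := by
        refine ⟨by rw [MvPolynomial.totalDegree_zero]; exact Nat.zero_le _, fun h _ => ?_⟩
        simp only [ev, map_zero]
      smul_mem' := by
        intro c P hP
        refine ⟨(MvPolynomial.totalDegree_smul_le _ _).trans hP.1, fun h hh => ?_⟩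
        have e : ev (c • P) h = c * ev P h := by
          simp only [ev, MvPolynomial.smul_eval]
        rw [e, hP.2 h hh, mul_zero] }
  have hVK : VK ≤ V := fun P hP => (MvPolynomial.mem_restrictTotalDegree _ _ P).2 hP.1
  let res : Pol g →ₗ[ℂ] ({a : Pt g // InG w a} → ℂ) :=
    { toFun := fun P y => ev P y.1
      map_add' := by
        intro P Q
        funext y
        simp only [ev, map_add, Pi.add_apply]
      map_smul' := by
        intro c P
        funext y
        simp only [ev, MvPolynomial.smul_eval, Pi.smul_apply, RingHom.id_apply, smul_eq_mul] }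
  let I : Submodule ℂ ({a : Pt g // InG w a} → ℂ) := VK.map res
  have hfd1 : FiniteDimensional ℂ VK := Submodule.finiteDimensional_of_le hVK
  have hfd2 : FiniteDimensional ℂ I := Module.Finite.map VK res
  obtain ⟨x, f, hf, hfx, hfI⟩ := STB_dual I
  have hex : ∀ i, ∃ P : Pol g, P ∈ VK ∧ res P = f i := fun i => Submodule.mem_map.1 (hf i)
  choose P hPV hPf using hex
  have hPf' : ∀ i y, (hy : InG w y) → ev (P i) y = f i ⟨y, hy⟩ := by
    intro i y hy
    rw [← hPf i]
    rfl
  have hPx : ∀ i j, ev (P i) (x j).1 = if i = j then 1 else 0 := by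
    intro i j
    rw [hPf' i _ (x j).2]
    exact hfx i j
  refine ⟨STB_N w P (fun j => (x j).1), Module.finrank ℂ I, P, fun j => (x j).1,
    STB_grp (fun j => (x j).2) hPx, ?_, ?_, ?_, fun i => (hPV i).1, fun j => (x j).2, hPx,
    fun a ha => ha.2, STB_lie (fun j => (x j).2) hPx⟩
  · intro a ha
    refine ⟨hK.sub a ha, fun y hy i => ?_⟩
    have h1 : res (STB_L a (P i)) ∈ I := by
      refine Submodule.mem_map_of_mem ⟨STB_deg_L a _ _ (hPV i).1, fun h hh => ?_⟩
      rw [STB_ev_L]
      exact (hPV i).2 _ (hK.mul a ha h hh)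
    have h2 := hfI _ h1 ⟨y, hy⟩
    have h3 : ∀ z : {a : Pt g // InG w a}, res (STB_L a (P i)) z = ev (P i) (a * z.1) := by
      intro z
      exact STB_ev_L a (P i) z.1
    rw [h3] at h2
    rw [h2]
    refine Finset.sum_congr rfl fun k _ => ?_
    rw [h3, hPf' k y hy]
  · -- the stabilizer is not the whole group
    have hI : 0 < Module.finrank ℂ I := by
      rw [Module.finrank_pos_iff_exists_ne_zero]
      unfold Dns at hns
      push Not at hns
      obtain ⟨Q, hQd, hQK, a, ha, hQa⟩ := hns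
      refine ⟨⟨res Q, Submodule.mem_map_of_mem ⟨hQd, hQK⟩⟩, fun h0 => hQa ?_⟩
      exact congrFun (congrArg Subtype.val h0) ⟨a, ha⟩
    refine ⟨(x ⟨0, hI⟩).1, (x ⟨0, hI⟩).2, fun hN => ?_⟩
    have h1 := hN.2 1 DRD.InG.one ⟨0, hI⟩
    have h2 : ∀ k, ev (P k) 1 = 0 := fun k => (hPV k).2 1 hK.one
    rw [mul_one, hPx, if_pos rfl] at h1
    simp only [h2, mul_zero, Finset.sum_const_zero] at h1
    exact one_ne_zero h1
  · exact (Submodule.finrank_map_le res VK).trans (Submodule.finrank_mono hVK)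

end

end Pool.Agent.NEX
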