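import Pool.Agent.NEX.Stmts
import Pool.Agent.DRD.Tor

set_option autoImplicit false

/-!
# TOR: no proper torsor over a number field of bounded degree
-/

open scoped BigOperators Topology

namespace Pool.Agent.NEX.TOR_

open Pool.Agent.HGP (Ix Simil)
open Pool.Agent.UBD (Pt Crd Pol ev InG GrpS Inf1)
open Pool.Agent.DRD (GalL descL pinv mul_pinv pinv_mul InG.one InG.mul InG.det InG.pinv subR
  ev_subR simil_div det_ne)

noncomputable section

/-- Substitution of polynomials of degree at most one does not increase the degree. -/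
lemma deg_bind {σ τ K : Type} [Field K] (f : σ → MvPolynomial τ K)
    (hf : ∀ i, (f i).totalDegree ≤ 1) (P : MvPolynomial σ K) :
    (MvPolynomial.bind₁ f P).totalDegree ≤ P.totalDegree := by
  classical
  nth_rewrite 1 [MvPolynomial.as_sum P]
  rw [map_sum]
  refine MvPolynomial.totalDegree_finsetSum_le fun d hd => ?_
  rw [MvPolynomial.bind₁_monomial]
  refine (MvPolynomial.totalDegree_mul _ _).trans ?_
  rw [MvPolynomial.totalDegree_C, zero_add]
  refine (MvPolynomial.totalDegree_finsetProd _ _).trans ?_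
  have h1 : ∑ o ∈ d.support, (f o ^ d o).totalDegree ≤ ∑ o ∈ d.support, d o := by
    refine Finset.sum_le_sum fun o _ => ?_
    refine (MvPolynomial.totalDegree_pow _ _).trans ?_
    exact (Nat.mul_le_mul_left _ (hf o)).trans (le_of_eq (mul_one _))
  exact h1.trans (MvPolynomial.le_totalDegree hd)

variable {r : ℕ} {g w : Fin r → ℕ}

/-- The first coordinate put equal to one. -/
def s1 : Crd g → MvPolynomial (CrF g) ℂ
  | none => 1
  | some p => MvPolynomial.X p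

lemma s1_deg (o : Crd g) : (s1 o).totalDegree ≤ 1 := by
  cases o with
  | none =>
    change (1 : MvPolynomial (CrF g) ℂ).totalDegree ≤ 1
    rw [MvPolynomial.totalDegree_one]
    exact Nat.zero_le _
  | some p =>
    change (MvPolynomial.X p : MvPolynomial (CrF g) ℂ).totalDegree ≤ 1
    rw [MvPolynomial.totalDegree_X]

lemma s1_eval (P : Pol g) (a : Pt g) (ha : a.1 = 1) :
    MvPolynomial.eval (mpt a.2) (MvPolynomial.bind₁ s1 P) = ev P a := by
  unfold ev
  change MvPolynomial.eval₂Hom (RingHom.id ℂ) (mpt a.2) (MvPolynomial.bind₁ _ P) = _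
  rw [MvPolynomial.eval₂Hom_bind₁]
  refine congrArg (fun f => MvPolynomial.eval f P) (funext fun o => ?_)
  cases o with
  | none =>
    change MvPolynomial.eval (mpt a.2) (1 : MvPolynomial (CrF g) ℂ) = a.1
    rw [map_one, ha]
  | some p =>
    change MvPolynomial.eval (mpt a.2) (MvPolynomial.X p : MvPolynomial (CrF g) ℂ) = _
    rw [MvPolynomial.eval_X]
    rfl

/-- Right multiplication by a matrix over the field `K`. -/
def s2 {K : IntermediateField ℚ ℂ} (b : ∀ i, Matrix (Ix (g i)) (Ix (g i)) K) (p : CrF g) :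
    MvPolynomial (CrF g) K :=
  ∑ l, MvPolynomial.C (b p.1 l p.2.2) * MvPolynomial.X ⟨p.1, (p.2.1, l)⟩

lemma s2_deg {K : IntermediateField ℚ ℂ} (b : ∀ i, Matrix (Ix (g i)) (Ix (g i)) K) (p : CrF g) :
    (s2 b p).totalDegree ≤ 1 := by
  unfold s2
  refine MvPolynomial.totalDegree_finsetSum_le fun l _ => ?_
  refine (MvPolynomial.totalDegree_mul _ _).trans ?_
  rw [MvPolynomial.totalDegree_C, MvPolynomial.totalDegree_X]

lemma s2_eval {K : IntermediateField ℚ ℂ} (b : ∀ i, Matrix (Ix (g i)) (Ix (g i)) K)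
    (Q : MvPolynomial (CrF g) K) (M : Fam g) :
    MvPolynomial.aeval (mpt M) (MvPolynomial.bind₁ (s2 b) Q) =
      MvPolynomial.aeval (mpt (fun i => M i * (b i).map (algebraMap K ℂ))) Q := by
  rw [MvPolynomial.aeval_bind₁]
  refine congrArg (fun f => MvPolynomial.aeval f Q) (funext fun p => ?_)
  unfold s2
  rw [map_sum]
  change _ = (M p.1 * (b p.1).map (algebraMap K ℂ)) p.2.1 p.2.2
  rw [Matrix.mul_apply]
  refine Finset.sum_congr rfl fun l _ => ?_
  rw [map_mul, MvPolynomial.aeval_C, MvPolynomial.aeval_X, mul_comm]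
  rfl

/-- An automorphism applied to a point. -/
def ap (τ : ℂ ≃ₐ[ℚ] ℂ) (x : Pt g) : Pt g := (τ x.1, fun i => (x.2 i).map τ)

lemma ap_mul (τ : ℂ ≃ₐ[ℚ] ℂ) (x y : Pt g) : ap τ (x * y) = ap τ x * ap τ y := by
  apply Prod.ext
  · exact map_mul τ _ _
  · funext i
    change (x.2 i * y.2 i).map τ = (x.2 i).map τ * (y.2 i).map τ
    exact Matrix.map_mul (f := (τ : ℂ →+* ℂ))

lemma map_J (τ : ℂ ≃ₐ[ℚ] ℂ) (G : ℕ) : (Matrix.J (Fin G) ℂ).map (τ : ℂ → ℂ) = Matrix.J (Fin G) ℂ := by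
  ext u v
  rcases u with u | u <;> rcases v with v | v <;>
    simp [Matrix.J, Matrix.one_apply, apply_ite]

lemma ap_simil (τ : ℂ ≃ₐ[ℚ] ℂ) {G : ℕ} {a : ℂ} {x : Matrix (Ix G) (Ix G) ℂ} (h : Simil a x) :
    Simil (τ a) (x.map τ) := by
  unfold Simil at *
  have h1 := congrArg (fun M : Matrix (Ix G) (Ix G) ℂ => M.map (τ : ℂ → ℂ)) h
  have e1 : (x.transpose * Matrix.J (Fin G) ℂ * x).map (τ : ℂ → ℂ) =
      (x.map τ).transpose * Matrix.J (Fin G) ℂ * (x.map τ) := by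
    have e2 := Matrix.map_mul (f := (τ : ℂ →+* ℂ)) (L := x.transpose * Matrix.J (Fin G) ℂ) (M := x)
    have e3 := Matrix.map_mul (f := (τ : ℂ →+* ℂ)) (L := x.transpose) (M := Matrix.J (Fin G) ℂ)
    have e4 : (x.transpose * Matrix.J (Fin G) ℂ).map (τ : ℂ → ℂ) =
        x.transpose.map (τ : ℂ → ℂ) * (Matrix.J (Fin G) ℂ).map (τ : ℂ → ℂ) := e3
    have e5 : (x.transpose * Matrix.J (Fin G) ℂ * x).map (τ : ℂ → ℂ) =
        (x.transpose * Matrix.J (Fin G) ℂ).map (τ : ℂ → ℂ) * x.map (τ : ℂ → ℂ) := e2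
    rw [e5, e4, map_J]
    rfl
  have e6 : (a • Matrix.J (Fin G) ℂ).map (τ : ℂ → ℂ) = (τ a) • Matrix.J (Fin G) ℂ := by
    have hj : ∀ u v, τ (Matrix.J (Fin G) ℂ u v) = Matrix.J (Fin G) ℂ u v := fun u v =>
      congrFun (congrFun (map_J τ G) u) v
    ext u v
    change τ (a * Matrix.J (Fin G) ℂ u v) = τ a * Matrix.J (Fin G) ℂ u v
    rw [map_mul, hj]
  rw [e1, e6] at h1
  exact h1

lemma ap_InG (τ : ℂ ≃ₐ[ℚ] ℂ) {x : Pt g} (h : InG w x) : InG w (ap τ x) := by
  refine ⟨fun h0 => h.1 ((map_eq_zero τ).1 h0), fun i => ?_⟩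
  have h1 := ap_simil τ (h.2 i)
  rw [map_pow] at h1
  exact h1

lemma ap_det (τ : ℂ ≃ₐ[ℚ] ℂ) {G : ℕ} {x : Matrix (Ix G) (Ix G) ℂ} (h : x.det ≠ 0) :
    (x.map τ).det ≠ 0 := by
  intro h0
  have h1 : (x.map τ).det = τ x.det := (RingHom.map_det (τ : ℂ →+* ℂ) x).symm
  rw [h1] at h0
  exact h ((map_eq_zero τ).1 h0)

/-- The point with all entries in the field `L` is fixed. -/
lemma ap_fix {L : IntermediateField ℚ ℂ} {τ : ℂ ≃ₐ[ℚ] ℂ} (hτ : τ ∈ GalL L) {x : Pt g}
    (h1 : x.1 = 1) (h2 : ∀ i p q, x.2 i p q ∈ L) : ap τ x = x := by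
  apply Prod.ext
  · change τ x.1 = x.1
    rw [h1, map_one]
  · funext i
    ext p q
    exact hτ _ (h2 i p q)

/-- The group of the torsor. -/
lemma grp (L : IntermediateField ℚ ℂ) (hL : ∀ a ∈ L, IsAlgebraic ℚ a) (c : Pt g)
    (hc1 : Transcendental ℚ c.1) (hdet : ∀ i, (c.2 i).det ≠ 0)
    (A : ∀ i, Matrix (Ix (g i)) (Ix (g i)) ℚ)
    (hA : ∀ i, (c.2 i).transpose * Matrix.J (Fin (g i)) ℂ * c.2 i =
      (c.1 ^ w i) • (A i).map (fun q : ℚ => (q : ℂ)))
    (S : Set (Pt g)) (E : Set (MvPolynomial (Crd g) L))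
    (hSE : ∀ x : Pt g, x.1 ≠ 0 → (∀ i, (x.2 i).det ≠ 0) →
      (x ∈ S ↔ ∀ e ∈ E, MvPolynomial.aeval (HGP.tpt x.1 x.2) e = (0 : ℂ)))
    (hcS : c ∈ S) (hcos : ∀ a b : Pt g, InG w a → InG w b → a * c ∈ S → b * c ∈ S →
      a * pinv b * c ∈ S ∧ a * b * c ∈ S) :
    GrpS w {a | InG w a ∧ a * c ∈ S} ∧ Inf1 {a | InG w a ∧ a * c ∈ S} ∧
    ∀ τ ∈ GalL L, ∀ a, InG w a → a * c ∈ S → ∃ a', InG w a' ∧ a' * c ∈ S ∧
      ap τ (a * c) = a' * c := by
  classical
  have hc0 : c.1 ≠ 0 := by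
    intro h0
    rw [h0] at hc1
    exact hc1 isAlgebraic_zero
  -- units
  have hun : ∀ a : Pt g, InG w a → (a * c).1 ≠ 0 ∧ ∀ i, ((a * c).2 i).det ≠ 0 := by
    intro a ha
    refine ⟨mul_ne_zero ha.1 hc0, fun i => ?_⟩
    change (a.2 i * c.2 i).det ≠ 0
    rw [Matrix.det_mul]
    exact mul_ne_zero (InG.det ha i) (hdet i)
  have htor : ∀ y : Pt g, y.1 ≠ 0 → (∀ i, (y.2 i).det ≠ 0 ∧
      (y.2 i).transpose * Matrix.J (Fin (g i)) ℂ * y.2 i =
      (y.1 ^ w i) • (A i).map (fun q : ℚ => (q : ℂ))) → InG w (y * pinv c) := by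
    intro y h1 h2
    refine ⟨mul_ne_zero h1 (inv_ne_zero hc0), fun i => ?_⟩
    have h3 := simil_div (pow_ne_zero (w i) hc0) (hdet i) (hA i) (h2 i).2
    change Simil ((y.1 * c.1⁻¹) ^ w i) (y.2 i * (c.2 i)⁻¹)
    rw [mul_pow, inv_pow, ← div_eq_mul_inv]
    exact h3
  have hac : ∀ a : Pt g, InG w a → ∀ i, ((a * c).2 i).transpose * Matrix.J (Fin (g i)) ℂ *
      (a * c).2 i = ((a * c).1 ^ w i) • (A i).map (fun q : ℚ => (q : ℂ)) := by
    intro a ha i
    change (a.2 i * c.2 i).transpose * Matrix.J (Fin (g i)) ℂ * (a.2 i * c.2 i) =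
      ((a.1 * c.1) ^ w i) • _
    have h1 := ha.2 i
    unfold Simil at h1
    rw [Matrix.transpose_mul]
    calc (c.2 i).transpose * (a.2 i).transpose * Matrix.J (Fin (g i)) ℂ * (a.2 i * c.2 i)
        = (c.2 i).transpose * ((a.2 i).transpose * Matrix.J (Fin (g i)) ℂ * a.2 i) * c.2 i := by
          simp only [Matrix.mul_assoc]
      _ = (a.1 ^ w i) • ((c.2 i).transpose * Matrix.J (Fin (g i)) ℂ * c.2 i) := by
          rw [h1, Matrix.mul_smul, Matrix.smul_mul]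
      _ = _ := by rw [hA i, smul_smul, ← mul_pow]
  have hst : ∀ τ ∈ GalL L, ∀ a, InG w a → a * c ∈ S → ∃ a', InG w a' ∧ a' * c ∈ S ∧
      ap τ (a * c) = a' * c := by
    intro τ hτ a ha haS
    have hd : ∀ i, (((ap τ (a * c)).2 i)).det ≠ 0 := fun i => ap_det τ ((hun a ha).2 i)
    have h0 : (ap τ (a * c)).1 ≠ 0 := fun h => (hun a ha).1 ((map_eq_zero τ).1 h)
    have hcc : ap τ (a * c) * pinv c * c = ap τ (a * c) := by
      rw [mul_assoc, pinv_mul hc0 hdet, mul_one]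
    refine ⟨ap τ (a * c) * pinv c, htor _ h0 (fun i => ⟨hd i, ?_⟩), ?_, hcc.symm⟩
    · have h1 := congrArg (fun M : Matrix (Ix (g i)) (Ix (g i)) ℂ => M.map (τ : ℂ →+* ℂ))
        (hac a ha i)
      simp only [Matrix.map_mul] at h1
      have hJm : (Matrix.J (Fin (g i)) ℂ).map (τ : ℂ →+* ℂ) = Matrix.J (Fin (g i)) ℂ := map_J τ _
      rw [hJm] at h1
      have h2 : (((a * c).1 ^ w i) • (A i).map (fun q : ℚ => (q : ℂ))).map (τ : ℂ →+* ℂ) =
          ((τ (a * c).1) ^ w i) • (A i).map (fun q : ℚ => (q : ℂ)) := by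
        ext u v
        simp
      rw [h2] at h1
      exact h1
    · rw [hcc, hSE _ h0 hd]
      intro e he
      have h1 := (hSE _ (hun a ha).1 (hun a ha).2).1 haS e he
      have h2 := congrArg τ h1
      rw [map_zero] at h2
      have hz : (fun j => τ (HGP.tpt (a * c).1 (a * c).2 j)) =
          HGP.tpt (g := g) (ap τ (a * c)).1 (ap τ (a * c)).2 := by
        funext o
        cases o with
        | none => rfl
        | some p => rfl
      rw [← hz, ← h2, MvPolynomial.aeval_def, MvPolynomial.aeval_def, MvPolynomial.eval₂_eq',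
        MvPolynomial.eval₂_eq', map_sum]
      refine Finset.sum_congr rfl fun d _ => ?_
      rw [map_mul, map_prod]
      congr 1
      · exact (hτ _ (e.coeff d).2).symm
      · refine Finset.prod_congr rfl fun j _ => ?_
        rw [map_pow]
  refine ⟨?_, ?_, hst⟩
  · refine ⟨fun a ha => ha.1, ⟨InG.one, by rw [one_mul]; exact hcS⟩, ?_, ?_, ?_⟩
    · rintro a ⟨ha, haS⟩ b ⟨hb, hbS⟩
      exact ⟨InG.mul ha hb, (hcos a b ha hb haS hbS).2⟩
    · rintro a ⟨ha, haS⟩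
      refine ⟨pinv a, ⟨InG.pinv ha, ?_⟩, mul_pinv ha.1 (InG.det ha), pinv_mul ha.1 (InG.det ha)⟩
      have h1 := (hcos 1 a InG.one ha (by rw [one_mul]; exact hcS) haS).1
      rw [one_mul] at h1
      exact h1
    · intro a ha hP
      refine ⟨ha, ?_⟩
      rw [hSE _ (hun a ha).1 (hun a ha).2]
      intro e he
      have h1 := hP (subR c (MvPolynomial.map (algebraMap L ℂ) e)) (by
        intro h hh
        rw [ev_subR]
        have h2 := (hSE _ (hun h hh.1).1 (hun h hh.1).2).1 hh.2 e he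
        unfold ev
        rw [MvPolynomial.eval_map]
        exact h2)
      rw [ev_subR] at h1
      unfold ev at h1
      rw [MvPolynomial.eval_map] at h1
      exact h1
  · intro hfin
    have h1 : {z : ℂ | ∃ τ ∈ GalL L, τ c.1 = z}.Finite := by
      refine (hfin.image (fun z => z * c.1)).subset ?_
      rintro z ⟨τ, hτ, rfl⟩
      obtain ⟨a', ha', haS', he⟩ := hst τ hτ 1 InG.one (by rw [one_mul]; exact hcS)
      rw [one_mul] at he
      refine ⟨a'.1, ⟨a', ⟨ha', haS'⟩, rfl⟩, ?_⟩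
      exact (congrArg Prod.fst he).symm
    apply hc1
    refine Pool.Agent.DRB.aut2_proof _ ?_
    refine (h1.subset ?_).countable
    rintro z ⟨τ, hτ, rfl⟩
    exact ⟨τ, fun a ha => hτ a (hL a ha), rfl⟩

end

end Pool.Agent.NEX.TOR_

namespace Pool.Agent.NEX

open Pool.Agent.HGP (Ix Simil)
open Pool.Agent.UBD (Pt Crd Pol ev InG GrpS Inf1)
open Pool.Agent.DRD (GalL descL pinv mul_pinv pinv_mul InG.one InG.mul InG.det InG.pinv)
open TOR_

theorem tor_proof (h1 : Stmt_UBT) (h2 : Stmt_NRM) : Stmt_TOR := by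
  classical
  intro r g w hg D L₀ hL₀
  obtain ⟨D₁, hD₁⟩ := h1 r g w hg
  refine ⟨D * Module.finrank ℚ L₀ * D₁, ?_⟩
  intro L hLf hLD c z b θ v hc hc1 hdet hz hz1 hb hb1 hbL hθ hθd hv1 hvL A hA hQ S E hSE hcS hcos
  by_contra hcon
  push Not at hcon
  obtain ⟨a₀, ha₀, ha₀S⟩ := hcon
  have hLalg : ∀ a ∈ L, IsAlgebraic ℚ a := by
    intro a ha
    have h1 : IsAlgebraic ℚ (⟨a, ha⟩ : L) := Algebra.IsAlgebraic.isAlgebraic _
    exact h1.algebraMap (A := ℂ)
  obtain ⟨hG, hinf, hst⟩ := grp (w := w) L hLalg c hc1 hdet A hA S E hSE hcS hcos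
  set H : Set (Pt g) := {a | InG w a ∧ a * c ∈ S} with hH
  obtain ⟨P, hPd, hP0, a₁, ha₁, ha₁1, hPa₁⟩ := hD₁ H hG hinf ⟨a₀, ha₀, fun h => ha₀S h.2⟩ (z * b)
    (InG.mul hz hb)
  -- the field
  let L' : IntermediateField ℚ ℂ := L ⊔ L₀
  have hL'f : FiniteDimensional ℚ L' := IntermediateField.finiteDimensional_sup L L₀
  have hL'd : Module.finrank ℚ L' ≤ D * Module.finrank ℚ L₀ :=
    (IntermediateField.finrank_sup_le L L₀).trans (Nat.mul_le_mul_right _ hLD)
  have hL'alg : ∀ a ∈ L', IsAlgebraic ℚ a := by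
    intro a ha
    have h1 : IsAlgebraic ℚ (⟨a, ha⟩ : L') := Algebra.IsAlgebraic.isAlgebraic _
    exact h1.algebraMap (A := ℂ)
  have hLL' : ∀ a ∈ L, a ∈ L' := fun a ha => (le_sup_left : L ≤ L ⊔ L₀) ha
  have hL₀L' : ∀ a ∈ L₀, a ∈ L' := fun a ha => (le_sup_right : L₀ ≤ L ⊔ L₀) ha
  -- units
  have hc0 : c.1 ≠ 0 := by
    intro h0
    rw [h0] at hc1
    exact hc1 isAlgebraic_zero
  have hvd : ∀ i, (v.2 i).det ≠ 0 := by
    intro i h
    apply hdet i
    rw [hc]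
    change (z.2 i * b.2 i * θ.2 i * v.2 i).det = 0
    rw [Matrix.det_mul, h, mul_zero]
  have hv0 : v.1 ≠ 0 := by
    rw [hv1]
    exact one_ne_zero
  have hθ0 : ∀ i, (θ.2 i).det ≠ 0 := InG.det hθ
  -- the set
  let Y : Set (CrF g → ℂ) := {x | ∃ (M : Fam g) (h t : Pt g), x = mpt M ∧ h ∈ H ∧ InG w t ∧
    (∀ i, (t.2 i).IsDiag) ∧ ((1, M) : Pt g) = h * (z * b) * t}
  have hY0 : mpt (z * b).2 ∈ Y := by
    refine ⟨(z * b).2, 1, 1, rfl, hG.one, InG.one, fun i => ?_, ?_⟩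
    · change ((1 : Matrix (Ix (g i)) (Ix (g i)) ℂ)).IsDiag
      exact Matrix.isDiag_one
    · rw [one_mul, mul_one]
      apply Prod.ext
      · change (1 : ℂ) = z.1 * b.1
        rw [hz1, hb1, one_mul]
      · rfl
  have hYP : ∀ x ∈ Y, MvPolynomial.eval x (MvPolynomial.bind₁ s1 P) = 0 := by
    rintro x ⟨M, h, t, rfl, hh, ht, htd, he⟩
    have h3 := s1_eval P ((1, M) : Pt g) rfl
    change MvPolynomial.eval (mpt M) (MvPolynomial.bind₁ s1 P) = _ at h3
    rw [h3, he]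
    exact hP0 h hh t ht htd
  have hYst : ∀ τ ∈ GalL L', ∀ x ∈ Y, (fun j => τ (x j)) ∈ Y := by
    rintro τ hτ x ⟨M, h, t, rfl, hh, ht, htd, he⟩
    have hτL : τ ∈ GalL L := fun a ha => hτ a (hLL' a ha)
    obtain ⟨a', ha', ha'S, hea⟩ := hst τ hτL h hh.1 hh.2
    -- h z b t = h c v⁻¹ θ⁻¹ t
    have e1 : h * (z * b) * t = h * c * pinv v * (pinv θ * t) := by
      rw [hc]
      calc h * (z * b) * t = h * (z * b) * (θ * (v * pinv v) * pinv θ) * t := by
            rw [mul_pinv hv0 hvd, mul_one, mul_pinv hθ.1 hθ0, mul_one]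
        _ = h * (z * b * θ * v) * pinv v * (pinv θ * t) := by
            simp only [mul_assoc]
    have hpv : ap τ (pinv v) = pinv v := by
      have e2 : ap τ v = v := ap_fix hτ hv1 (fun i p q => hL₀L' _ (hvL i p q))
      have e3 := ap_mul τ v (pinv v)
      rw [mul_pinv hv0 hvd, e2] at e3
      have e4 : ap τ (1 : Pt g) = 1 := ap_fix hτ rfl (fun i p q => by
        change ((1 : Matrix (Ix (g i)) (Ix (g i)) ℂ)) p q ∈ L'
        rw [Matrix.one_apply]
        split_ifs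
        · exact L'.one_mem
        · exact L'.zero_mem)
      rw [e4] at e3
      have e5 : pinv v * 1 = pinv v * (v * ap τ (pinv v)) := congrArg (fun y => pinv v * y) e3
      rw [mul_one, ← mul_assoc, pinv_mul hv0 hvd, one_mul] at e5
      exact e5.symm
    let t' : Pt g := θ * ap τ (pinv θ * t)
    have ht' : InG w t' := InG.mul hθ (ap_InG τ (InG.mul (InG.pinv hθ) ht))
    have hpd : ∀ i, ((pinv θ).2 i).IsDiag := by
      intro i
      change ((θ.2 i)⁻¹).IsDiag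
      obtain ⟨d, hd⟩ : ∃ d, θ.2 i = Matrix.diagonal d := ⟨_, ((hθd i).diagonal_diag).symm⟩
      rw [hd, Matrix.inv_diagonal]
      exact Matrix.isDiag_diagonal _
    have hmd : ∀ {G : ℕ} {x y : Matrix (Ix G) (Ix G) ℂ}, x.IsDiag → y.IsDiag → (x * y).IsDiag := by
      intro G x y hx hy
      rw [← hx.diagonal_diag, ← hy.diagonal_diag, Matrix.diagonal_mul_diagonal]
      exact Matrix.isDiag_diagonal _
    have ht'd : ∀ i, (t'.2 i).IsDiag := by
      intro i
      refine hmd (hθd i) ?_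
      change (((pinv θ).2 i * t.2 i).map τ).IsDiag
      exact (hmd (hpd i) (htd i)).map (map_zero τ)
    have e6 : ((1, fun i => (M i).map τ) : Pt g) = a' * (z * b) * t' := by
      have e7 : ((1, fun i => (M i).map τ) : Pt g) = ap τ ((1, M) : Pt g) := by
        apply Prod.ext
        · exact (map_one τ).symm
        · rfl
      rw [e7, he, e1, ap_mul, ap_mul, hpv, hea, hc]
      change a' * (z * b * θ * v) * pinv v * ap τ (pinv θ * t) = a' * (z * b) *
        (θ * ap τ (pinv θ * t))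
      calc a' * (z * b * θ * v) * pinv v * ap τ (pinv θ * t)
          = a' * (z * b) * θ * (v * pinv v) * ap τ (pinv θ * t) := by simp only [mul_assoc]
        _ = _ := by rw [mul_pinv hv0 hvd, mul_one, mul_assoc (a' * (z * b))]
    refine ⟨fun i => (M i).map τ, a', t', ?_, ⟨ha', ha'S⟩, ht', ht'd, e6⟩
    funext p
    rfl
  -- a relation over `L'`
  obtain ⟨Q, hQd, hQ0, M₁, hM₁, hQ1⟩ : ∃ Q : MvPolynomial (CrF g) L', Q.totalDegree ≤ D₁ ∧
      MvPolynomial.aeval (mpt (z * b).2) Q = (0 : ℂ) ∧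
      ∃ M : Fam g, (∀ i, Simil 1 (M i)) ∧ MvPolynomial.aeval (mpt M) Q ≠ (0 : ℂ) := by
    by_contra hno
    push Not at hno
    have h3 := descL L' hL'alg Y {x | ∃ M : Fam g, (∀ i, Simil 1 (M i)) ∧ x = mpt M} hYst
      (mpt (z * b).2) hY0 D₁ (by
        rintro Q hQ hQc x ⟨M, hM, rfl⟩
        exact hno Q hQ hQc M hM) (MvPolynomial.bind₁ s1 P)
      ((deg_bind s1 s1_deg P).trans hPd) hYP (mpt a₁.2) ⟨a₁.2, fun i => by
        have h4 := ha₁.2 i
        rw [ha₁1, one_pow] at h4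
        exact h4, rfl⟩
    rw [s1_eval P a₁ ha₁1] at h3
    exact hPa₁ h3
  -- translation by `b`
  let b' : ∀ i, Matrix (Ix (g i)) (Ix (g i)) L' := fun i p q => ⟨b.2 i p q, hL₀L' _ (hbL i p q)⟩
  have hb' : ∀ i, (b' i).map (algebraMap L' ℂ) = b.2 i := fun i => by
    ext p q
    rfl
  have hbS : ∀ i, Simil 1 (b.2 i) := fun i => by
    have h4 := hb.2 i
    rw [hb1, one_pow] at h4
    exact h4
  obtain ⟨Q', hQ'd, hQ'0, M₂, hM₂, hQ'1⟩ := h2 r g L' hL'f z.2 (MvPolynomial.bind₁ (s2 b') Q) (by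
      rw [s2_eval]
      simp_rw [hb']
      exact hQ0) ⟨fun i => M₁ i * (b.2 i)⁻¹, fun i => by
        have h5 := DRD.simil_mul (hM₁ i) (DRD.simil_inv one_ne_zero (hbS i))
        rw [inv_one, mul_one] at h5
        exact h5, by
      rw [s2_eval]
      simp_rw [hb']
      have h6 : (fun i => M₁ i * (b.2 i)⁻¹ * b.2 i) = M₁ := by
        funext i
        rw [Matrix.mul_assoc, Matrix.nonsing_inv_mul _
          (isUnit_iff_ne_zero.2 (DRD.det_ne one_ne_zero (hbS i))), Matrix.mul_one]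
      rw [h6]
      exact hQ1⟩
  refine hQ'1 (hQ Q' (hQ'd.trans ?_) hQ'0 M₂ hM₂)
  exact Nat.mul_le_mul hL'd ((deg_bind (s2 b') (s2_deg b') Q).trans hQd)

end Pool.Agent.NEX
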