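import Pool.Agent.NEX.Stmts

set_option autoImplicit false

/-!
# NEX, module UBT: assembly of the uniform bound
-/

open scoped BigOperators Topology

namespace Pool.Agent.NEX

open Pool.Agent.HGP (Ix Simil)
open Pool.Agent.UBD (Pt Crd Pol ev InG GrpS Dns Inf1 Lie nv sg1 ex)

noncomputable section

namespace UBT_

variable {r : ℕ} {g w : Fin r → ℕ}

lemma ex_fst (t : ℂ) (X : Pt g) (h : X.1 = 0) : (ex t X).1 = 1 := by
  unfold ex
  simp [h]

/-- Exponentials of elements of the Lie algebra are in the group. -/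
lemma ex_inG (t : ℂ) (X : Pt g) (h : X.1 = 0) (hX : ∀ i, X.2 i ∈ spS (g i)) :
    InG w (ex t X) := by
  refine ⟨by rw [ex_fst t X h]; exact one_ne_zero, fun i => ?_⟩
  rw [ex_fst t X h, one_pow]
  have h1 := hX i
  rw [mem_spS] at h1
  change (NormedSpace.exp (t • X.2 i)).transpose * Matrix.J (Fin (g i)) ℂ *
    NormedSpace.exp (t • X.2 i) = (1 : ℂ) • Matrix.J (Fin (g i)) ℂ
  set Y := t • X.2 i with hY
  have h2 : Y.transpose * Matrix.J (Fin (g i)) ℂ = Matrix.J (Fin (g i)) ℂ * (-Y) := by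
    rw [hY, Matrix.transpose_smul, Matrix.smul_mul, Matrix.mul_neg, Matrix.mul_smul,
      eq_neg_of_add_eq_zero_left h1, smul_neg]
  have hJu : IsUnit (Matrix.J (Fin (g i)) ℂ).det := Matrix.isUnit_det_J (Fin (g i)) ℂ
  have hJ1 : Matrix.J (Fin (g i)) ℂ * (Matrix.J (Fin (g i)) ℂ)⁻¹ = 1 :=
    Matrix.mul_nonsing_inv _ hJu
  have hJ2 : (Matrix.J (Fin (g i)) ℂ)⁻¹ * Matrix.J (Fin (g i)) ℂ = 1 :=
    Matrix.nonsing_inv_mul _ hJu
  have h3 : Y.transpose = Matrix.J (Fin (g i)) ℂ * (-Y) * (Matrix.J (Fin (g i)) ℂ)⁻¹ := by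
    rw [← h2, Matrix.mul_assoc, hJ1, Matrix.mul_one]
  have h4 : NormedSpace.exp Y.transpose = Matrix.J (Fin (g i)) ℂ * NormedSpace.exp (-Y) *
      (Matrix.J (Fin (g i)) ℂ)⁻¹ := by
    rw [h3]
    exact Matrix.exp_conj _ _ ((Matrix.isUnit_iff_isUnit_det _).2 hJu)
  rw [← Matrix.exp_transpose, h4, one_smul]
  have h5 : NormedSpace.exp (-Y) * NormedSpace.exp Y = 1 := by
    rw [← Matrix.exp_add_of_commute _ _ (Commute.neg_left (Commute.refl Y)), neg_add_cancel,
      NormedSpace.exp_zero]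
  calc Matrix.J (Fin (g i)) ℂ * NormedSpace.exp (-Y) * (Matrix.J (Fin (g i)) ℂ)⁻¹ *
        Matrix.J (Fin (g i)) ℂ * NormedSpace.exp Y
      = Matrix.J (Fin (g i)) ℂ * (NormedSpace.exp (-Y) * (((Matrix.J (Fin (g i)) ℂ)⁻¹ *
        Matrix.J (Fin (g i)) ℂ) * NormedSpace.exp Y)) := by simp only [Matrix.mul_assoc]
    _ = Matrix.J (Fin (g i)) ℂ := by rw [hJ2, Matrix.one_mul, h5, Matrix.mul_one]

/-- Homogeneous polynomials scale. -/
lemma aeval_scale {m k : ℕ} (F : Fin (m + 1) → Pol g) (p : MvPolynomial (Fin (m + 1)) ℂ)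
    (hp : p.IsHomogeneous k) (a b : Pt g) (χ : ℂ) (h : ∀ l, ev (F l) a = χ * ev (F l) b) :
    ev (MvPolynomial.aeval F p) a = χ ^ k * ev (MvPolynomial.aeval F p) b := by
  have h1 : ∀ c : Pt g, ev (MvPolynomial.aeval F p) c =
      MvPolynomial.eval (fun l => ev (F l) c) p := by
    intro c
    unfold ev
    rw [MvPolynomial.aeval_def, MvPolynomial.eval₂_eq']
    rw [map_sum, MvPolynomial.eval_eq']
    refine Finset.sum_congr rfl fun d _ => ?_
    rw [map_mul, map_prod]
    congr 1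
    · rw [MvPolynomial.algebraMap_eq, MvPolynomial.eval_C]
    · refine Finset.prod_congr rfl fun i _ => ?_
      rw [map_pow]
  rw [h1, h1]
  rw [MvPolynomial.eval_eq', MvPolynomial.eval_eq', Finset.mul_sum]
  refine Finset.sum_congr rfl fun d hd => ?_
  have h2 : ∏ i, ev (F i) a ^ d i = χ ^ k * ∏ i, ev (F i) b ^ d i := by
    have h3 : ∀ i, ev (F i) a ^ d i = χ ^ d i * ev (F i) b ^ d i := fun i => by
      rw [h i, mul_pow]
    rw [Finset.prod_congr rfl fun i _ => h3 i, Finset.prod_mul_distrib,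
      Finset.prod_pow_eq_pow_sum]
    congr 2
    have h4 := hp (MvPolynomial.mem_support_iff.1 hd)
    rw [Finsupp.weight_apply, Finsupp.sum_fintype _ _ (fun _ => by simp)] at h4
    simpa using h4
  rw [h2]
  ring

/-- The degree of a substitution. -/
lemma deg_aeval {m k B : ℕ} (F : Fin (m + 1) → Pol g) (p : MvPolynomial (Fin (m + 1)) ℂ)
    (hp : p.IsHomogeneous k) (hF : ∀ l, (F l).totalDegree ≤ B) :
    (MvPolynomial.aeval F p).totalDegree ≤ k * B := by
  rw [MvPolynomial.aeval_def, MvPolynomial.eval₂_eq']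
  refine MvPolynomial.totalDegree_finsetSum_le fun d hd => ?_
  refine (MvPolynomial.totalDegree_mul _ _).trans ?_
  rw [MvPolynomial.algebraMap_eq, MvPolynomial.totalDegree_C, zero_add]
  refine (MvPolynomial.totalDegree_finsetProd _ _).trans ?_
  have h4 := hp (MvPolynomial.mem_support_iff.1 hd)
  rw [Finsupp.weight_apply, Finsupp.sum_fintype _ _ (fun _ => by simp)] at h4
  have h5 : ∑ i, d i = k := by simpa using h4
  calc ∑ i, ((F i) ^ d i).totalDegree ≤ ∑ i, d i * B := by
        refine Finset.sum_le_sum fun i _ => ?_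
        exact (MvPolynomial.totalDegree_pow _ _).trans (Nat.mul_le_mul_left _ (hF i))
    _ = k * B := by rw [← Finset.sum_mul, h5]

/-- Decomposition of a diagonal similitude. -/
lemma diag_form {k : ℕ} {M : Matrix (Ix k) (Ix k) ℂ} (hd : M.IsDiag) (hM : Simil 1 M) :
    ∃ τ : Fin k → ℂ, (∀ j, τ j ≠ 0) ∧
      M = Matrix.diagonal (Sum.elim τ (fun j => (τ j)⁻¹)) := by
  have h1 : M = Matrix.diagonal (fun i => M i i) := by
    ext i j
    by_cases hij : i = j
    · subst hij
      rw [Matrix.diagonal_apply_eq]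
    · rw [Matrix.diagonal_apply_ne _ hij]
      exact hd hij
  have h2 : ∀ j : Fin k, M (Sum.inl j) (Sum.inl j) * M (Sum.inr j) (Sum.inr j) = 1 := by
    intro j
    have h3 : (M.transpose * Matrix.J (Fin k) ℂ * M) (Sum.inr j) (Sum.inl j) =
        (1 : ℂ) • (Matrix.J (Fin k) ℂ) (Sum.inr j) (Sum.inl j) := by
      have h4 : M.transpose * Matrix.J (Fin k) ℂ * M = (1 : ℂ) • Matrix.J (Fin k) ℂ := hM
      rw [h4]
      rfl
    rw [h1, Matrix.diagonal_transpose, Matrix.mul_diagonal, Matrix.diagonal_mul] at h3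
    simp [Matrix.J] at h3
    rw [mul_comm]
    exact h3
  refine ⟨fun j => M (Sum.inl j) (Sum.inl j), fun j => left_ne_zero_of_mul_eq_one (h2 j), ?_⟩
  rw [h1]
  congr 1
  funext i
  rcases i with i | i
  · simp
  · simp only [Matrix.diagonal_apply_eq, Sum.elim_inr]
    exact eq_inv_of_mul_eq_one_right (h2 i)

end UBT_

open UBT_ in
/-- UBT. -/
theorem ubt_proof (hUB : UBD.Stmt_UB) (hCEN : Stmt_CEN) (hSTB : Stmt_STB) (hSEA : Stmt_SEA)
    (hSEB : Stmt_SEB) (hIND : Stmt_IND) (hCNT : Stmt_CNT) : Stmt_UBT := by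
  classical
  intro r g w hg
  obtain ⟨D₀, hD₀⟩ := hUB r g w (fun i => lt_of_lt_of_le (by norm_num) (hg i))
  obtain ⟨M, hM⟩ := hSTB r g w D₀
  choose k hk using fun J : Finset (Fin r) => hCNT r g (M * D₀) J
  refine ⟨∑ J : Finset (Fin r), k J * (M * D₀), fun H hH hinf hne Z hZ => ?_⟩
  obtain ⟨K, hK, hHK, hcen, hKne⟩ := hCEN r g w H hH hinf hne
  have hKinf : Inf1 K := by
    refine Set.Infinite.mono ?_ hinf
    rintro x ⟨h, hh, rfl⟩
    exact ⟨h, hHK hh, rfl⟩
  have hKd : ¬ Dns D₀ w K := by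
    intro h
    obtain ⟨a, ha, haK⟩ := hKne
    exact haK (hD₀ K hK hKinf h a ha)
  obtain ⟨N, d, P, x, hN, hKN, hNne, hdM, hPd, hxG, hPx, hPN, hLie⟩ := hM K hK hKd
  obtain ⟨J, X, hJ, hX, hXi⟩ := hSEA r g w hg N hN (fun s hs => hKN (hcen s hs)) hNne
  obtain ⟨F, hFd, hFχ, hF0, hFi⟩ := hSEB r g w D₀ d _ N P x X hPd hxG hPx hPN hLie hX hXi
  have hFd' : ∀ l, (F l).totalDegree ≤ M * D₀ := fun l =>
    (hFd l).trans (Nat.mul_le_mul_right _ hdM)
  obtain ⟨p, hp, hp0, hpz⟩ := hk J F hFd' Z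
  refine ⟨MvPolynomial.aeval F p, ?_, ?_, ?_⟩
  · refine (deg_aeval F p hp hFd').trans ?_
    exact Finset.single_le_sum (f := fun J : Finset (Fin r) => k J * (M * D₀))
      (fun _ _ => Nat.zero_le _) (Finset.mem_univ J)
  · intro h hh t ht htd
    obtain ⟨s, hs⟩ := IsAlgClosed.exists_pow_nat_eq t.1 (n := 2) (by norm_num)
    have hs0 : s ≠ 0 := by
      rintro rfl
      rw [zero_pow two_ne_zero] at hs
      exact ht.1 hs.symm
    -- the symplectic part
    have hu : ∀ i, ∃ τ : Fin (g i) → ℂ, (∀ j, τ j ≠ 0) ∧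
        (s ^ w i)⁻¹ • t.2 i = Matrix.diagonal (Sum.elim τ (fun j => (τ j)⁻¹)) := by
      intro i
      refine diag_form ?_ ?_
      · intro a b hab
        rw [Matrix.smul_apply, htd i hab, smul_zero]
      · have h1 := ht.2 i
        unfold Simil at h1 ⊢
        rw [Matrix.transpose_smul, Matrix.smul_mul, Matrix.smul_mul, Matrix.mul_smul, h1,
          smul_smul, smul_smul, ← hs]
        congr 1
        have : s ^ w i ≠ 0 := pow_ne_zero _ hs0
        rw [← pow_mul, mul_comm 2 (w i), pow_mul]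
        field_simp
    choose τ hτ0 hτ using hu
    have hteq : t = cen w s * dg (Finset.univ \ J) τ * dg J τ := by
      apply Prod.ext
      · change t.1 = s ^ 2 * 1 * 1
        rw [hs, mul_one, mul_one]
      · funext i
        change t.2 i = (s ^ w i) • (1 : Matrix (Ix (g i)) (Ix (g i)) ℂ) *
          (if i ∈ Finset.univ \ J then Matrix.diagonal (Sum.elim (τ i) (fun j => (τ i j)⁻¹))
            else 1) * (if i ∈ J then Matrix.diagonal (Sum.elim (τ i) (fun j => (τ i j)⁻¹)) else 1)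
        have h1 : t.2 i = (s ^ w i) • Matrix.diagonal (Sum.elim (τ i) (fun j => (τ i j)⁻¹)) := by
          rw [← hτ i, smul_smul, mul_inv_cancel₀ (pow_ne_zero _ hs0), one_smul]
        by_cases hi : i ∈ J
        · rw [if_pos hi, if_neg (by simp [hi]), mul_one, Matrix.smul_mul, Matrix.one_mul]
          exact h1
        · rw [if_neg hi, if_pos (by simp [hi]), mul_one, Matrix.smul_mul, Matrix.one_mul]
          exact h1
    have hZd := DRD.InG.det hZ
    set u : Pt g := Z * dg (Finset.univ \ J) τ * DRD.pinv Z with hudef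
    have huN : u ∈ N := by
      refine hJ u ?_ ?_ ?_
      · change Z.1 * 1 * Z.1⁻¹ = 1
        rw [mul_one, mul_inv_cancel₀ hZ.1]
      · intro i
        change Simil 1 (Z.2 i * (if i ∈ Finset.univ \ J then
          Matrix.diagonal (Sum.elim (τ i) (fun j => (τ i j)⁻¹)) else 1) * (Z.2 i)⁻¹)
        have h1 := hZ.2 i
        have h2 := DRD.simil_inv (pow_ne_zero _ hZ.1) h1
        have h3 : Simil 1 (if i ∈ Finset.univ \ J then
          Matrix.diagonal (Sum.elim (τ i) (fun j => (τ i j)⁻¹)) else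
            (1 : Matrix (Ix (g i)) (Ix (g i)) ℂ)) := by
          split_ifs
          · rw [← hτ i]
            have h4 := ht.2 i
            unfold Simil at h4 ⊢
            rw [Matrix.transpose_smul, Matrix.smul_mul, Matrix.smul_mul, Matrix.mul_smul, h4,
              smul_smul, smul_smul, ← hs]
            congr 1
            have : s ^ w i ≠ 0 := pow_ne_zero _ hs0
            rw [← pow_mul, mul_comm 2 (w i), pow_mul]
            field_simp
          · exact DRD.simil_one _
        have h4 := DRD.simil_mul (DRD.simil_mul h1 h3) h2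
        rw [mul_one, mul_inv_cancel₀ (pow_ne_zero _ hZ.1)] at h4
        exact h4
      · intro i hi
        change Z.2 i * (if i ∈ Finset.univ \ J then
          Matrix.diagonal (Sum.elim (τ i) (fun j => (τ i j)⁻¹)) else 1) * (Z.2 i)⁻¹ = 1
        rw [if_neg (by simp [hi]), Matrix.mul_one]
        exact Matrix.mul_nonsing_inv _ (isUnit_iff_ne_zero.2 (hZd i))
    have hcomm : Z * cen w s = cen w s * Z := by
      apply Prod.ext
      · exact mul_comm _ _
      · funext i
        change Z.2 i * (s ^ w i) • (1 : Matrix (Ix (g i)) (Ix (g i)) ℂ) =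
          (s ^ w i) • (1 : Matrix (Ix (g i)) (Ix (g i)) ℂ) * Z.2 i
        rw [Matrix.mul_smul, Matrix.mul_one, Matrix.smul_mul, Matrix.one_mul]
    have hfac : h * Z * t = (h * cen w s * u) * (Z * dg J τ) := by
      rw [hteq]
      have h1 : u * (Z * dg J τ) = Z * dg (Finset.univ \ J) τ * dg J τ := by
        rw [hudef, mul_assoc (Z * dg (Finset.univ \ J) τ), ← mul_assoc (DRD.pinv Z),
          DRD.pinv_mul hZ.1 hZd, one_mul]
      rw [mul_assoc (h * cen w s) u, h1]
      calc h * Z * (cen w s * dg (Finset.univ \ J) τ * dg J τ)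
          = h * (Z * cen w s) * dg (Finset.univ \ J) τ * dg J τ := by simp only [mul_assoc]
        _ = _ := by rw [hcomm]; simp only [mul_assoc]
    have hnN : h * cen w s * u ∈ N :=
      hN.mul _ (hN.mul _ (hKN (hHK hh)) _ (hKN (hcen s hs0))) _ huN
    have hyG : InG w (Z * dg J τ) := by
      refine DRD.InG.mul hZ ⟨one_ne_zero, fun i => ?_⟩
      change Simil (1 ^ w i) (if i ∈ J then
        Matrix.diagonal (Sum.elim (τ i) (fun j => (τ i j)⁻¹)) else 1)
      rw [one_pow]
      split_ifs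
      · rw [← hτ i]
        have h4 := ht.2 i
        unfold Simil at h4 ⊢
        rw [Matrix.transpose_smul, Matrix.smul_mul, Matrix.smul_mul, Matrix.mul_smul, h4,
          smul_smul, smul_smul, ← hs]
        congr 1
        have : s ^ w i ≠ 0 := pow_ne_zero _ hs0
        rw [← pow_mul, mul_comm 2 (w i), pow_mul]
        field_simp
      · exact DRD.simil_one _
    obtain ⟨χ, hχ⟩ := hFχ _ hnN
    rw [hfac, aeval_scale F p hp _ (Z * dg J τ) χ (fun l => hχ l _ hyG), hpz τ hτ0, mul_zero]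
  · obtain ⟨c, t, ht⟩ := hIND r g _ (k J) F X hF0 hFi p hp hp0
    have h1 : (∑ l, c l • X l).1 = 0 := by
      rw [Prod.fst_sum]
      refine Finset.sum_eq_zero fun l _ => ?_
      change c l • (X l).1 = 0
      rw [(hX l).1, smul_zero]
    have h2 : ∀ i, (∑ l, c l • X l).2 i ∈ spS (g i) := by
      intro i
      rw [Prod.snd_sum, Finset.sum_apply]
      exact Submodule.sum_mem _ fun l _ => Submodule.smul_mem _ _ ((hX l).2 i)
    exact ⟨_, ex_inG t _ h1 h2, ex_fst t _ h1, ht⟩

end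

end Pool.Agent.NEX
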