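import Pool.Agent.UBD.Main
import Pool.Agent.DRD.Asm
import Pool.Agent.CYD.Main
import Pool.Agent.NEX.SPI
import Pool.Agent.NEX.SPO
import Pool.Agent.NEX.COD
import Pool.Agent.NEX.CEN
import Pool.Agent.NEX.BRK
import Pool.Agent.NEX.STB
import Pool.Agent.NEX.SEA
import Pool.Agent.NEX.SEB
import Pool.Agent.NEX.IND
import Pool.Agent.NEX.CNT
import Pool.Agent.NEX.UBT
import Pool.Agent.NEX.NRM
import Pool.Agent.NEX.SPC
import Pool.Agent.NEX.TOR
import Pool.Agent.NEX.CRV
import Pool.Agent.NEX.PSI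
import Pool.Agent.NEX.EEV
import Pool.Agent.NEX.REF
import Pool.Agent.NEX.BAS
import Pool.Agent.NEX.INE
import Pool.Agent.NEX.KEY
import Pool.Agent.NEX.FIN
import Pool.Agent.NEX.INY
import Pool.Agent.NEX.BSY
import Pool.Agent.NEX.KYY
import Pool.Agent.NEX.FIY

set_option autoImplicit false

/-!
# NEX: assembly
-/

namespace Pool.Agent.NEX

theorem cod_t : Stmt_COD := cod_proof spi_proof SPO_proof
theorem cen_t : Stmt_CEN := cen_proof UBD.spg_proof UBD.clo_proof
theorem brk_t : Stmt_BRK := brk_proof UBD.liea_proof UBD.adj_proof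
theorem sea_t : Stmt_SEA := sea_proof cod_t brk_t UBD.liea_proof (UBD.ful_proof UBD.spg_proof) UBD.clo_proof
theorem ubt_t : Stmt_UBT := ubt_proof UBD.ub cen_t stb_proof sea_t seb_proof ind_proof cnt_proof
theorem tor_t : Stmt_TOR := tor_proof ubt_t nrm_proof
theorem crv_t : Stmt_CRV := crv_proof DRD.cvP
theorem eev_t : Stmt_EEV := eev_proof psi_proof
theorem ref_t : Stmt_REF := ref_proof DG2.nmq_proof
theorem bas_t : Stmt_BAS := bas_proof ref_t eev_t DG2.nmq_proof crv_t
theorem ine_t : Stmt_INE := ine_proof DRD.indX DRD.zSm spc_proof crv_t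

/-- The hyperelliptic case. -/
theorem fin_t : Stmt_FIN := fin_proof ine_t tor_t bas_t key_proof DRD.serJ DG2.nmq_proof

theorem iny_t : Stmt_INY := iny_proof CYD.indy CYD.zsy spc_proof

/-- The case of the Dwork families. -/
theorem fiy_t : Stmt_FIY := fiy_proof iny_t tor_t bsy_proof kyy_proof CYD.refy

end Pool.Agent.NEX

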