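import Pool.Agent.UBD.Stmts
import Pool.Agent.DRD.Tor
import Pool.Agent.DG2.CStmts

set_option autoImplicit false

/-!
# NEX: no exceptional set; definitions

Text: /team-store/MP_470b79_NEX.md
-/

open scoped BigOperators Topology
open Metric Set

namespace Pool.Agent.NEX

open Pool.Agent.HGP (Ix Simil Idx fvec)
open Pool.Agent.UBD (Pt Crd Pol ev InG GrpS Dns Inf1 Lie nv sg1 ex)

noncomputable section

/-- Families of square matrices. -/
abbrev Fam {r : ℕ} (g : Fin r → ℕ) : Type := ∀ i, Matrix (Ix (g i)) (Ix (g i)) ℂ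

/-- The coordinates of a family. -/
abbrev CrF {r : ℕ} (g : Fin r → ℕ) : Type := Σ i : Fin r, Ix (g i) × Ix (g i)

/-- The point with coordinates `M`. -/
def mpt {r : ℕ} {g : Fin r → ℕ} (M : Fam g) : CrF g → ℂ := fun p => M p.1 p.2.1 p.2.2

/-- The Lie algebra of the symplectic group. -/
def spS (k : ℕ) : Submodule ℂ (Matrix (Ix k) (Ix k) ℂ) where
  carrier := {X | X.transpose * Matrix.J (Fin k) ℂ + Matrix.J (Fin k) ℂ * X = 0}
  add_mem' := by
    intro X Y hX hY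
    rw [Set.mem_ofPred_eq] at *
    rw [Matrix.transpose_add, Matrix.add_mul, Matrix.mul_add]
    calc X.transpose * Matrix.J (Fin k) ℂ + Y.transpose * Matrix.J (Fin k) ℂ +
          (Matrix.J (Fin k) ℂ * X + Matrix.J (Fin k) ℂ * Y)
        = (X.transpose * Matrix.J (Fin k) ℂ + Matrix.J (Fin k) ℂ * X) +
          (Y.transpose * Matrix.J (Fin k) ℂ + Matrix.J (Fin k) ℂ * Y) := by abel
      _ = 0 := by rw [hX, hY, add_zero]
  zero_mem' := by
    rw [Set.mem_ofPred_eq, Matrix.transpose_zero, Matrix.zero_mul, Matrix.mul_zero, add_zero]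
  smul_mem' := by
    intro c X hX
    rw [Set.mem_ofPred_eq] at *
    rw [Matrix.transpose_smul, Matrix.smul_mul, Matrix.mul_smul, ← smul_add, hX, smul_zero]

theorem mem_spS {k : ℕ} {X : Matrix (Ix k) (Ix k) ℂ} : X ∈ spS k ↔
    X.transpose * Matrix.J (Fin k) ℂ + Matrix.J (Fin k) ℂ * X = 0 := Iff.rfl

/-- The central elements of the group `G` with weights `w`. -/
def cen {r : ℕ} {g : Fin r → ℕ} (w : Fin r → ℕ) (s : ℂ) : Pt g := (s ^ 2, fun i => (s ^ w i) • 1)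

/-- The elements of the diagonal torus of the symplectic group, in the components of `J`. -/
def dg {r : ℕ} {g : Fin r → ℕ} (J : Finset (Fin r)) (τ : ∀ i, Fin (g i) → ℂ) : Pt g :=
  (1, fun i => if i ∈ J then Matrix.diagonal (Sum.elim (τ i) (fun j => (τ i j)⁻¹)) else 1)

/-- The derivative of `P` at `y` in the direction `X`. -/
def dP {r : ℕ} {g : Fin r → ℕ} (P : Pol g) (X y : Pt g) : ℂ :=
  deriv (fun t : ℂ => ev P (ex t X * y)) 0

/-- No proper torsor over `L` contains `c`. -/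
def NoTor {r : ℕ} {g : Fin r → ℕ} (w : Fin r → ℕ) (L : IntermediateField ℚ ℂ) (c : Pt g) : Prop :=
  ∀ (S : Set (Pt g)) (E : Set (MvPolynomial (Crd g) L)),
  (∀ x : Pt g, x.1 ≠ 0 → (∀ i, (x.2 i).det ≠ 0) →
    (x ∈ S ↔ ∀ e ∈ E, MvPolynomial.aeval (HGP.tpt x.1 x.2) e = (0 : ℂ))) →
  c ∈ S → (∀ a b : Pt g, InG w a → InG w b → a * c ∈ S → b * c ∈ S →
    a * DRD.pinv b * c ∈ S ∧ a * b * c ∈ S) → ∀ a, InG w a → a * c ∈ S

/-- The coefficients of the polynomial `x ^ (2 g + 1) + e x`. -/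
def ce (g : ℕ) (e : ℚ) : Fin (2 * g) → ℚ := fun k => if (k : ℕ) = 0 then e else 0

/-- The polynomial `x ^ (2 g + 1) + e x + t`. -/
def crvE (g : ℕ) (e t : ℚ) : Polynomial ℂ :=
  Polynomial.X ^ (2 * g + 1) + Polynomial.C (e : ℂ) * Polynomial.X + Polynomial.C (t : ℂ)

/-- The families `y ^ 2 = x ^ (2 G a + 1) + e a x + t` are different, up to scaling. -/
structure Dif {nF : ℕ} (G : Fin nF → ℕ) (e : Fin nF → ℚ) : Prop where
  two : ∀ a, 2 ≤ G a
  ne : ∀ a, e a ≠ 0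
  dif : ∀ a b, a ≠ b → G a = G b → ∀ ρ : ℚ, e a ≠ ρ ^ (2 * G a) * e b

end

end Pool.Agent.NEX
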