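import Pool.Agent.NEX.Stmts

/-! Module PSI of NEX: a power series with algebraic singularity. -/

set_option autoImplicit false
open scoped BigOperators Topology
open Metric Set

namespace Pool.Agent.NEX
namespace PSI_

noncomputable section

/-- binomial coefficients of `-1/2` -/
def ac (n : ℕ) : ℂ := Ring.choose (-(1 / 2) : ℂ) n

lemma ac_succ (n : ℕ) : ((n : ℂ) + 1) * ac (n + 1) = ac n * (-(1 / 2) - n) := by
  unfold ac
  have h1 := Ring.descPochhammer_eq_factorial_smul_choose (-(1 / 2) : ℂ) n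
  have h2 := Ring.descPochhammer_eq_factorial_smul_choose (-(1 / 2) : ℂ) (n + 1)
  rw [descPochhammer_succ_right, Polynomial.smeval_mul, h1, Nat.factorial_succ] at h2
  have h3 : (Polynomial.X - (n : Polynomial ℤ)).smeval (-(1 / 2) : ℂ) =
      (-(1 / 2) - n : ℂ) := by
    simp [Polynomial.smeval_sub, Polynomial.smeval_natCast]
  rw [h3, nsmul_eq_mul, nsmul_eq_mul] at h2
  have h4 : ((n.factorial : ℕ) : ℂ) ≠ 0 := Nat.cast_ne_zero.2 (Nat.factorial_ne_zero n)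
  have h5 : ((n.factorial : ℕ) : ℂ) * (((n : ℂ) + 1) * Ring.choose (-(1 / 2) : ℂ) (n + 1)) =
      ((n.factorial : ℕ) : ℂ) * (Ring.choose (-(1 / 2) : ℂ) n * (-(1 / 2) - n)) := by
    push_cast at h2
    linear_combination -h2
  exact mul_left_cancel₀ h4 h5

lemma norm_ac_succ (n : ℕ) : ‖ac (n + 1)‖ = ‖ac n‖ - ‖ac n‖ / (2 * ((n : ℝ) + 1)) := by
  have h := congrArg norm (ac_succ n)
  rw [norm_mul, norm_mul] at h
  have h1 : ‖(n : ℂ) + 1‖ = (n : ℝ) + 1 := by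
    have : (n : ℂ) + 1 = (((n : ℝ) + 1 : ℝ) : ℂ) := by push_cast; ring
    rw [this, Complex.norm_real, Real.norm_of_nonneg (by positivity)]
  have h2 : ‖(-(1 / 2) - n : ℂ)‖ = (n : ℝ) + 1 / 2 := by
    have : (-(1 / 2) - n : ℂ) = ((-((n : ℝ) + 1 / 2) : ℝ) : ℂ) := by push_cast; ring
    rw [this, Complex.norm_real, norm_neg, Real.norm_of_nonneg (by positivity)]
  rw [h1, h2] at h
  have hn : (n : ℝ) + 1 ≠ 0 := by positivity
  field_simp
  linarith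

lemma norm_ac_nonneg (n : ℕ) : 0 ≤ ‖ac n‖ := norm_nonneg _

lemma norm_ac_zero : ‖ac 0‖ = 1 := by
  unfold ac
  simp

lemma norm_ac_le (n : ℕ) : ‖ac n‖ ≤ 1 := by
  induction n with
  | zero => rw [norm_ac_zero]
  | succ n ih =>
    rw [norm_ac_succ]
    have : 0 ≤ ‖ac n‖ / (2 * ((n : ℝ) + 1)) := by positivity
    linarith

lemma sum_ac (n : ℕ) : ∑ i ∈ Finset.range n, ‖ac i‖ / (2 * ((i : ℝ) + 1)) = 1 - ‖ac n‖ := by
  induction n with
  | zero => simp [norm_ac_zero]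
  | succ n ih =>
    rw [Finset.sum_range_succ, ih, norm_ac_succ]
    ring

lemma summable_ac : Summable fun i : ℕ => ‖ac i‖ / (2 * ((i : ℝ) + 1)) := by
  refine summable_of_sum_range_le (c := 1) (fun n => by positivity) fun n => ?_
  rw [sum_ac]
  linarith [norm_ac_nonneg n]

/-- the denominators -/
def dn (g l n : ℕ) : ℂ := (l : ℂ) + 1 / 2 + 2 * g * n

lemma norm_dn (g l n : ℕ) : ‖dn g l n‖ = (l : ℝ) + 1 / 2 + 2 * g * n := by
  unfold dn
  have : (l : ℂ) + 1 / 2 + 2 * g * n = (((l : ℝ) + 1 / 2 + 2 * g * n : ℝ) : ℂ) := by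
    push_cast
    ring
  rw [this, Complex.norm_real, Real.norm_of_nonneg (by positivity)]

lemma dn_ge {g : ℕ} (hg : 0 < g) (l n : ℕ) : ((n : ℝ) + 1) / 2 ≤ ‖dn g l n‖ := by
  rw [norm_dn]
  have h1 : (1 : ℝ) ≤ g := by exact_mod_cast hg
  have h2 : (0 : ℝ) ≤ n := Nat.cast_nonneg n
  have h3 : (0 : ℝ) ≤ l := Nat.cast_nonneg l
  nlinarith

lemma dn_ge' {g : ℕ} (hg : 0 < g) (l n : ℕ) : (n : ℝ) ≤ ‖dn g l n‖ := by
  rw [norm_dn]
  have h1 : (1 : ℝ) ≤ g := by exact_mod_cast hg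
  have h2 : (0 : ℝ) ≤ n := Nat.cast_nonneg n
  have h3 : (0 : ℝ) ≤ l := Nat.cast_nonneg l
  nlinarith

lemma dn_ne {g : ℕ} (hg : 0 < g) (l n : ℕ) : dn g l n ≠ 0 := by
  intro h
  have := dn_ge hg l n
  rw [h, norm_zero] at this
  have h2 : (0 : ℝ) ≤ n := Nat.cast_nonneg n
  linarith

/-- the terms -/
def tm (g l n : ℕ) (u : ℂ) : ℂ := ac n * u ^ n / dn g l n
def tm' (g l n : ℕ) (u : ℂ) : ℂ := ac n * (n * u ^ (n - 1)) / dn g l n

lemma norm_tm_le {g : ℕ} (hg : 0 < g) (l n : ℕ) {u : ℂ} (hu : ‖u‖ ≤ 1) :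
    ‖tm g l n u‖ ≤ 4 * (‖ac n‖ / (2 * ((n : ℝ) + 1))) := by
  unfold tm
  rw [norm_div, norm_mul, norm_pow]
  have h1 := dn_ge hg l n
  have h2 : (0 : ℝ) ≤ n := Nat.cast_nonneg n
  have h3 : ‖u‖ ^ n ≤ 1 := pow_le_one₀ (norm_nonneg _) hu
  calc ‖ac n‖ * ‖u‖ ^ n / ‖dn g l n‖ ≤ ‖ac n‖ * 1 / (((n : ℝ) + 1) / 2) := by
        refine div_le_div₀ (by positivity) ?_ (by positivity) h1
        exact mul_le_mul_of_nonneg_left h3 (norm_nonneg _)
    _ = 4 * (‖ac n‖ / (2 * ((n : ℝ) + 1))) := by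
        field_simp
        ring

lemma norm_tm'_le {g : ℕ} (hg : 0 < g) (l n : ℕ) {u : ℂ} {ρ : ℝ} (hu : ‖u‖ ≤ ρ) :
    ‖tm' g l n u‖ ≤ ρ ^ (n - 1) := by
  unfold tm'
  rw [norm_div, norm_mul, norm_mul, norm_pow]
  have h0 : 0 ≤ ρ := (norm_nonneg _).trans hu
  have h1 := dn_ge' hg l n
  have hpos : 0 < ‖dn g l n‖ := norm_pos_iff.2 (dn_ne hg l n)
  have h2 : (0 : ℝ) ≤ n := Nat.cast_nonneg n
  have h3 : ‖u‖ ^ (n - 1) ≤ ρ ^ (n - 1) := pow_le_pow_left₀ (norm_nonneg _) hu _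
  have h4 : ‖(n : ℂ)‖ = n := by simp
  rw [h4, div_le_iff₀ hpos]
  calc ‖ac n‖ * (n * ‖u‖ ^ (n - 1)) ≤ 1 * (‖dn g l n‖ * ρ ^ (n - 1)) := by
        refine mul_le_mul (norm_ac_le n) ?_ (by positivity) zero_le_one
        exact mul_le_mul h1 h3 (by positivity) (norm_nonneg _)
    _ = ρ ^ (n - 1) * ‖dn g l n‖ := by ring

lemma summable_tm {g : ℕ} (hg : 0 < g) (l : ℕ) {u : ℂ} (hu : ‖u‖ ≤ 1) :
    Summable fun n => tm g l n u :=
  Summable.of_norm_bounded (summable_ac.mul_left 4) fun n => norm_tm_le hg l n hu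

lemma summable_geo {ρ : ℝ} (h0 : 0 ≤ ρ) (h1 : ρ < 1) : Summable fun n : ℕ => ρ ^ (n - 1) := by
  rw [← summable_nat_add_iff 1]
  simpa using summable_geometric_of_lt_one h0 h1

lemma summable_tm' {g : ℕ} (hg : 0 < g) (l : ℕ) {u : ℂ} (hu : ‖u‖ < 1) :
    Summable fun n => tm' g l n u :=
  Summable.of_norm_bounded (summable_geo (norm_nonneg _) hu) fun n => norm_tm'_le hg l n le_rfl

lemma hasDerivAt_tm {g : ℕ} (l n : ℕ) (u : ℂ) : HasDerivAt (tm g l n) (tm' g l n u) u := by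
  unfold tm tm'
  have := ((hasDerivAt_pow n u).const_mul (ac n)).div_const (dn g l n)
  exact this

lemma hasDerivAt_sum {g : ℕ} (hg : 0 < g) (l : ℕ) {u : ℂ} (hu : ‖u‖ < 1) :
    HasDerivAt (fun z => ∑' n, tm g l n z) (∑' n, tm' g l n u) u := by
  obtain ⟨ρ, h1, h2⟩ := exists_between hu
  have h0 : 0 < ρ := (norm_nonneg _).trans_lt h1
  refine hasDerivAt_tsum_of_isPreconnected (u := fun n : ℕ => ρ ^ (n - 1)) (t := ball 0 ρ)
    (y₀ := 0) (summable_geo h0.le h2) isOpen_ball (convex_ball _ _).isPreconnected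
    (fun n y _ => hasDerivAt_tm l n y) (fun n y hy => ?_) (mem_ball_self h0) ?_ ?_
  · rw [mem_ball_zero_iff] at hy
    exact norm_tm'_le hg l n hy.le
  · exact summable_tm hg l (by simp)
  · rw [mem_ball_zero_iff]
    exact h1

lemma hasSum_bin {u : ℂ} (hu : ‖u‖ < 1) :
    HasSum (fun n => ac n * u ^ n) (((1 + u) ^ (1 / 2 : ℂ))⁻¹) := by
  have h := (Complex.one_add_cpow_hasFPowerSeriesOnBall_zero (a := (-(1 / 2) : ℂ))).hasSum
    (y := u) (by
      rw [← ENNReal.ofReal_one, Metric.eball_ofReal, mem_ball_zero_iff]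
      exact hu)
  simp only [binomialSeries_apply, List.ofFn_const, List.prod_replicate, smul_eq_mul,
    zero_add] at h
  rw [Complex.cpow_neg] at h
  exact h

theorem ode {g : ℕ} (hg : 0 < g) (l : ℕ) {u : ℂ} (hu : ‖u‖ < 1) :
    ((l : ℂ) + 1 / 2) * (∑' n, tm g l n u) + 2 * g * u * (∑' n, tm' g l n u) =
      ((1 + u) ^ (1 / 2 : ℂ))⁻¹ := by
  rw [← (hasSum_bin hu).tsum_eq, ← tsum_mul_left, ← tsum_mul_left, ← Summable.tsum_add]
  · refine tsum_congr fun n => ?_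
    unfold tm tm'
    have hd := dn_ne hg l n
    have e1 : 2 * (g : ℂ) * u * (ac n * (n * u ^ (n - 1)) / dn g l n) =
        2 * g * n * (ac n * u ^ n / dn g l n) := by
      rcases Nat.eq_zero_or_pos n with h0 | h0
      · subst h0
        simp
      · have : u ^ n = u * u ^ (n - 1) := by
          rw [← pow_succ', Nat.sub_add_cancel h0]
        rw [this]
        ring
    rw [e1, ← add_mul]
    have e2 : (l : ℂ) + 1 / 2 + 2 * g * n = dn g l n := rfl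
    rw [e2, mul_div_cancel₀ _ hd]
  · exact (summable_tm hg l hu.le).mul_left _
  · exact (summable_tm' hg l hu).mul_left _

theorem main (g : ℕ) (e : ℂ) (hg : 0 < g) (he : e ≠ 0) :
    ∃ (β : ℕ → ℂ) (Ψ Ψ' : ℕ → ℂ → ℂ),
    (∀ l, ContinuousOn (Ψ l) {x | ‖x‖ ^ (2 * g) ≤ ‖e‖}) ∧
    (∀ l x, x ^ (2 * g) = -e → Ψ l x = β l) ∧
    ∀ l x, ‖x‖ ^ (2 * g) < ‖e‖ → HasDerivAt (Ψ l) (Ψ' l x) x ∧
      ((l : ℂ) + 1 / 2) * Ψ l x + x * Ψ' l x = 1 / (1 + x ^ (2 * g) / e) ^ (1 / 2 : ℂ) := by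
  have hen : 0 < ‖e‖ := norm_pos_iff.2 he
  refine ⟨fun l => ∑' n, tm g l n (-1), fun l x => ∑' n, tm g l n (x ^ (2 * g) / e),
    fun l x => (∑' n, tm' g l n (x ^ (2 * g) / e)) * ((2 * g : ℕ) * x ^ (2 * g - 1) / e),
    ?_, ?_, ?_⟩
  · intro l
    refine continuousOn_tsum (u := fun n : ℕ => 4 * (‖ac n‖ / (2 * ((n : ℝ) + 1))))
      (fun n => ?_) (summable_ac.mul_left 4) (fun n x hx => ?_)
    · unfold tm
      fun_prop
    · refine norm_tm_le hg l n ?_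
      rw [norm_div, norm_pow, div_le_one hen]
      exact hx
  · intro l x hx
    have : x ^ (2 * g) / e = -1 := by
      rw [hx, neg_div, div_self he]
    simp only [this]
  · intro l x hx
    have hu : ‖x ^ (2 * g) / e‖ < 1 := by
      rw [norm_div, norm_pow, div_lt_one hen]
      exact hx
    have hd : HasDerivAt (fun x : ℂ => x ^ (2 * g) / e) ((2 * g : ℕ) * x ^ (2 * g - 1) / e) x :=
      (hasDerivAt_pow (2 * g) x).div_const e
    refine ⟨HasDerivAt.comp x (hasDerivAt_sum hg l hu) hd, ?_⟩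
    have ho := ode hg l hu
    show ((l : ℂ) + 1 / 2) * (∑' n, tm g l n (x ^ (2 * g) / e)) +
      x * ((∑' n, tm' g l n (x ^ (2 * g) / e)) * ((2 * g : ℕ) * x ^ (2 * g - 1) / e)) =
      1 / (1 + x ^ (2 * g) / e) ^ (1 / 2 : ℂ)
    rw [one_div ((1 + x ^ (2 * g) / e) ^ (1 / 2 : ℂ)), ← ho]
    have e1 : x * x ^ (2 * g - 1) = x ^ (2 * g) := by
      rw [← pow_succ', Nat.sub_add_cancel (by omega)]
    have e2 : x * ((∑' n, tm' g l n (x ^ (2 * g) / e)) * ((2 * g : ℕ) * x ^ (2 * g - 1) / e)) =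
        2 * g * (x ^ (2 * g) / e) * (∑' n, tm' g l n (x ^ (2 * g) / e)) := by
      rw [← e1]
      push_cast
      ring
    rw [e2]

end

end PSI_

theorem psi_proof : Stmt_PSI := fun g e hg he => PSI_.main g e hg he

end Pool.Agent.NEX
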