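import Pool.Agent.NEX.Defs
import Pool.Agent.DRD.Sealed
import Pool.Agent.DRH.Main

set_option autoImplicit false

/-!
# NEX: exact statements of the modules
-/

open scoped BigOperators Topology
open Metric Set

namespace Pool.Agent.NEX

open Pool.Agent.HGP (Ix Simil Idx fvec)
open Pool.Agent.UBD (Pt Crd Pol ev InG GrpS Dns Inf1 Lie nv sg1 ex)
open Pool.Agent.GPH (f0 P2 pol CPath num perMat fus Ord EE fz refP Tm polz)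
open Pool.Agent.DG2 (cC Yv NmC Sep Ref Ht)
open Pool.Agent.DRD (GalL)

noncomputable section

/-! ## Part A: subalgebras of products of symplectic Lie algebras -/

/-- SPI: facts on the symplectic Lie algebra. -/
def Stmt_SPI : Prop := ∀ k : ℕ, 0 < k →
  (∀ v : Ix k → ℂ, nv v ∈ spS k) ∧
  (∀ X ∈ spS k, X ∈ Submodule.span ℂ (Set.range (nv : (Ix k → ℂ) → Matrix (Ix k) (Ix k) ℂ))) ∧
  (∀ N : Submodule ℂ (Matrix (Ix k) (Ix k) ℂ), N ≤ spS k →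
    (∀ X ∈ spS k, ∀ Y ∈ N, X * Y - Y * X ∈ N) → N ≠ ⊥ → N = spS k) ∧
  (∃ X ∈ spS k, ∃ Y ∈ spS k, X * Y - Y * X ≠ 0) ∧
  (2 ≤ k → 2 * (k + 1) ≤ Module.finrank ℂ (spS k))

/-- SPO: the codimension of a proper subalgebra of one symplectic Lie algebra. -/
def Stmt_SPO : Prop := ∀ k : ℕ, 2 ≤ k → ∀ N : Submodule ℂ (Matrix (Ix k) (Ix k) ℂ), N ≤ spS k →
  (∀ X ∈ N, ∀ Y ∈ N, X * Y - Y * X ∈ N) → (∃ v : Ix k → ℂ, nv v ∉ N) →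
  Module.finrank ℂ N + (k + 1) ≤ Module.finrank ℂ (spS k)

/-- COD: the codimension of a subalgebra of the product. -/
def Stmt_COD : Prop := ∀ (r : ℕ) (g : Fin r → ℕ), (∀ i, 2 ≤ g i) → ∀ N : Submodule ℂ (Fam g),
  (∀ X ∈ N, ∀ i, X i ∈ spS (g i)) → (∀ X ∈ N, ∀ Y ∈ N, X * Y - Y * X ∈ N) →
  ∀ J : Finset (Fin r),
  (∀ j ∈ J, ∃ v : Ix (g j) → ℂ, (Pi.single j (nv v) : Fam g) ∉ N) →
  Module.finrank ℂ N + ∑ j ∈ J, (g j + 1) ≤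
    Module.finrank ℂ (Submodule.pi Set.univ fun i => spS (g i))

/-! ## Part B: the uniform bound -/

/-- CEN: a proper closed subgroup is contained in a proper closed subgroup which contains the
center. -/
def Stmt_CEN : Prop := ∀ (r : ℕ) (g w : Fin r → ℕ) (H : Set (Pt g)), GrpS w H → Inf1 H →
  (∃ a, InG w a ∧ a ∉ H) → ∃ K : Set (Pt g), GrpS w K ∧ H ⊆ K ∧ (∀ s : ℂ, s ≠ 0 → cen w s ∈ K) ∧
    ∃ a, InG w a ∧ a ∉ K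

/-- BRK: the Lie algebra is closed under brackets. -/
def Stmt_BRK : Prop := ∀ (r : ℕ) (g w : Fin r → ℕ) (H : Set (Pt g)), GrpS w H →
  ∀ X ∈ Lie H, ∀ Y ∈ Lie H, X * Y - Y * X ∈ Lie H

/-- STB: the stabilizer of the polynomials of bounded degree which vanish on `K`. -/
def Stmt_STB : Prop := ∀ (r : ℕ) (g w : Fin r → ℕ) (D₀ : ℕ), ∃ M : ℕ, ∀ K : Set (Pt g),
  GrpS w K → ¬ Dns D₀ w K → ∃ (N : Set (Pt g)) (d : ℕ) (P : Fin d → Pol g) (x : Fin d → Pt g),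
    GrpS w N ∧ K ⊆ N ∧ (∃ a, InG w a ∧ a ∉ N) ∧ d ≤ M ∧ (∀ i, (P i).totalDegree ≤ D₀) ∧
    (∀ j, InG w (x j)) ∧ (∀ i j, ev (P i) (x j) = if i = j then 1 else 0) ∧
    (∀ a ∈ N, ∀ y, InG w y → ∀ i, ev (P i) (a * y) = ∑ k, ev (P i) (a * x k) * ev (P k) y) ∧
    ∀ X : Pt g, X.1 = 0 → (∀ i, X.2 i ∈ spS (g i)) →
      (∀ y, InG w y → ∀ i, dP (P i) X y = ∑ k, dP (P i) X (x k) * ev (P k) y) → X ∈ Lie N

/-- SEA: the factors on which `N` is not full, and directions which are independent modulo the Lie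
algebra of `N`. -/
def Stmt_SEA : Prop := ∀ (r : ℕ) (g w : Fin r → ℕ), (∀ i, 2 ≤ g i) → ∀ N : Set (Pt g),
  GrpS w N → (∀ s : ℂ, s ≠ 0 → cen w s ∈ N) → (∃ a, InG w a ∧ a ∉ N) →
  ∃ (J : Finset (Fin r)) (X : Fin ((∑ i ∈ J, g i) + 1) → Pt g),
    (∀ a : Pt g, a.1 = 1 → (∀ i, Simil 1 (a.2 i)) → (∀ i ∈ J, a.2 i = 1) → a ∈ N) ∧
    (∀ l, (X l).1 = 0 ∧ ∀ i, (X l).2 i ∈ spS (g i)) ∧
    ∀ c : Fin ((∑ i ∈ J, g i) + 1) → ℂ, ∑ k, c k • X k ∈ Lie N → c = 0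

/-- SEB: functions which are multiplied by characters under `N`, with independent
differentials. -/
def Stmt_SEB : Prop := ∀ (r : ℕ) (g w : Fin r → ℕ) (D₀ d m : ℕ) (N : Set (Pt g))
  (P : Fin d → Pol g) (x : Fin d → Pt g) (X : Fin m → Pt g),
  (∀ i, (P i).totalDegree ≤ D₀) → (∀ j, InG w (x j)) →
  (∀ i j, ev (P i) (x j) = if i = j then 1 else 0) →
  (∀ a ∈ N, ∀ y, InG w y → ∀ i, ev (P i) (a * y) = ∑ k, ev (P i) (a * x k) * ev (P k) y) →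
  (∀ Y : Pt g, Y.1 = 0 → (∀ i, Y.2 i ∈ spS (g i)) →
    (∀ y, InG w y → ∀ i, dP (P i) Y y = ∑ k, dP (P i) Y (x k) * ev (P k) y) → Y ∈ Lie N) →
  (∀ l, (X l).1 = 0 ∧ ∀ i, (X l).2 i ∈ spS (g i)) →
  (∀ c : Fin m → ℂ, ∑ k, c k • X k ∈ Lie N → c = 0) →
  ∃ F : Fin (m + 1) → Pol g, (∀ l, (F l).totalDegree ≤ d * D₀) ∧
    (∀ a ∈ N, ∃ χ : ℂ, ∀ l, ∀ y, InG w y → ev (F l) (a * y) = χ * ev (F l) y) ∧
    ev (F 0) 1 ≠ 0 ∧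
    ∀ c : Fin m → ℂ, (∀ l : Fin m, ev (F 0) 1 * dP (F l.succ) (∑ k, c k • X k) 1 -
      ev (F l.succ) 1 * dP (F 0) (∑ k, c k • X k) 1 = 0) → c = 0

/-- IND: functions with independent differentials satisfy no homogeneous relation. -/
def Stmt_IND : Prop := ∀ (r : ℕ) (g : Fin r → ℕ) (m k : ℕ) (F : Fin (m + 1) → Pol g)
  (X : Fin m → Pt g), ev (F 0) 1 ≠ 0 →
  (∀ c : Fin m → ℂ, (∀ l : Fin m, ev (F 0) 1 * dP (F l.succ) (∑ k, c k • X k) 1 -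
    ev (F l.succ) 1 * dP (F 0) (∑ k, c k • X k) 1 = 0) → c = 0) →
  ∀ p : MvPolynomial (Fin (m + 1)) ℂ, p.IsHomogeneous k → p ≠ 0 →
  ∃ (c : Fin m → ℂ) (t : ℂ), ev (MvPolynomial.aeval F p) (ex t (∑ l, c l • X l)) ≠ 0

/-- CNT: a homogeneous combination which vanishes on `Z T_J`. -/
def Stmt_CNT : Prop := ∀ (r : ℕ) (g : Fin r → ℕ) (B : ℕ) (J : Finset (Fin r)), ∃ k : ℕ,
  ∀ F : Fin ((∑ i ∈ J, g i) + 2) → Pol g, (∀ l, (F l).totalDegree ≤ B) → ∀ Z : Pt g,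
  ∃ p : MvPolynomial (Fin ((∑ i ∈ J, g i) + 2)) ℂ, p.IsHomogeneous k ∧ p ≠ 0 ∧
    ∀ τ : (∀ i, Fin (g i) → ℂ), (∀ i j, τ i j ≠ 0) →
      ev (MvPolynomial.aeval F p) (Z * dg J τ) = 0

/-- UBT: the uniform bound for the sets `H Z T`. -/
def Stmt_UBT : Prop := ∀ (r : ℕ) (g w : Fin r → ℕ), (∀ i, 2 ≤ g i) → ∃ D : ℕ,
  ∀ H : Set (Pt g), GrpS w H → Inf1 H → (∃ a, InG w a ∧ a ∉ H) → ∀ Z, InG w Z →
  ∃ P : Pol g, P.totalDegree ≤ D ∧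
    (∀ h ∈ H, ∀ t, InG w t → (∀ i, (t.2 i).IsDiag) → ev P (h * Z * t) = 0) ∧
    ∃ a, InG w a ∧ a.1 = 1 ∧ ev P a ≠ 0

/-! ## Part C: torsors -/

/-- NRM: from relations with coefficients in a number field to rational relations, on the
symplectic group. -/
def Stmt_NRM : Prop := ∀ (r : ℕ) (g : Fin r → ℕ) (L : IntermediateField ℚ ℂ),
  FiniteDimensional ℚ L → ∀ (Z : Fam g) (P : MvPolynomial (CrF g) L),
  MvPolynomial.aeval (mpt Z) P = (0 : ℂ) →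
  (∃ M : Fam g, (∀ i, Simil 1 (M i)) ∧ MvPolynomial.aeval (mpt M) P ≠ (0 : ℂ)) →
  ∃ Q : MvPolynomial (CrF g) ℚ, Q.totalDegree ≤ Module.finrank ℚ L * P.totalDegree ∧
    MvPolynomial.aeval (mpt Z) Q = (0 : ℂ) ∧
    ∃ M : Fam g, (∀ i, Simil 1 (M i)) ∧ MvPolynomial.aeval (mpt M) Q ≠ (0 : ℂ)

/-- SPC: relations between the entries of symplectic matrices give relations between the
coordinates. -/
def Stmt_SPC : Prop := ∀ (r : ℕ) (g : Fin r → ℕ) (E : ℕ), ∃ E' : ℕ, ∀ Z : Fam g,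
  (∀ i, Simil 1 (Z i)) → (∀ i, (Z i).toBlocks₁₁.det ≠ 0) → ∀ Q : MvPolynomial (CrF g) ℚ,
  Q.totalDegree ≤ E → MvPolynomial.aeval (mpt Z) Q = (0 : ℂ) →
  (∃ M : Fam g, (∀ i, Simil 1 (M i)) ∧ MvPolynomial.aeval (mpt M) Q ≠ (0 : ℂ)) →
  ∃ Q' : MvPolynomial (Σ i : Fin r, Idx (g i)) ℚ, Q' ≠ 0 ∧ Q'.totalDegree ≤ E' ∧
    MvPolynomial.aeval (fun p : Σ i : Fin r, Idx (g i) => fvec (Z p.1) p.2) Q' = (0 : ℂ)

/-- TOR: no proper torsor over a number field of bounded degree. -/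
def Stmt_TOR : Prop := ∀ (r : ℕ) (g w : Fin r → ℕ), (∀ i, 2 ≤ g i) →
  ∀ (D : ℕ) (L₀ : IntermediateField ℚ ℂ), FiniteDimensional ℚ L₀ → ∃ E : ℕ,
  ∀ L : IntermediateField ℚ ℂ, FiniteDimensional ℚ L → Module.finrank ℚ L ≤ D →
  ∀ c z b θ v : Pt g, c = z * b * θ * v → Transcendental ℚ c.1 → (∀ i, (c.2 i).det ≠ 0) →
  InG w z → z.1 = 1 → InG w b → b.1 = 1 → (∀ i p q, b.2 i p q ∈ L₀) →
  InG w θ → (∀ i, (θ.2 i).IsDiag) → v.1 = 1 → (∀ i p q, v.2 i p q ∈ L₀) →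
  ∀ A : (∀ i, Matrix (Ix (g i)) (Ix (g i)) ℚ),
  (∀ i, (c.2 i).transpose * Matrix.J (Fin (g i)) ℂ * c.2 i =
    (c.1 ^ w i) • (A i).map (fun q : ℚ => (q : ℂ))) →
  (∀ Q : MvPolynomial (CrF g) ℚ, Q.totalDegree ≤ E → MvPolynomial.aeval (mpt z.2) Q = (0 : ℂ) →
    ∀ M : Fam g, (∀ i, Simil 1 (M i)) → MvPolynomial.aeval (mpt M) Q = (0 : ℂ)) →
  NoTor w L c

/-! ## Part D: the base point -/

/-- CRV: the singular fibres of the family. -/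
def Stmt_CRV : Prop := ∀ (g : ℕ), 0 < g → ∀ e : ℚ, e ≠ 0 → P2 (ce g e) ≠ 0 ∧
  ∀ z : ℂ, Sep (ce g e) z ↔
    z ^ (2 * g) ≠ -((2 * g : ℂ) ^ (2 * g) * (e : ℂ) ^ (2 * g + 1)) / (2 * g + 1) ^ (2 * g + 1)

/-- PSI: the primitives of `x ^ l dx / √(x (x ^ (2 g) + e))` near the origin. -/
def Stmt_PSI : Prop := ∀ (g : ℕ) (e : ℂ), 0 < g → e ≠ 0 → ∃ (β : ℕ → ℂ) (Ψ Ψ' : ℕ → ℂ → ℂ),
  (∀ l, ContinuousOn (Ψ l) {x | ‖x‖ ^ (2 * g) ≤ ‖e‖}) ∧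
  (∀ l x, x ^ (2 * g) = -e → Ψ l x = β l) ∧
  ∀ l x, ‖x‖ ^ (2 * g) < ‖e‖ → HasDerivAt (Ψ l) (Ψ' l x) x ∧
    ((l : ℂ) + 1 / 2) * Ψ l x + x * Ψ' l x = 1 / HGP.csq (1 + x ^ (2 * g) / e)

/-- EEV: the reference integrals of the curve `y ^ 2 = x ^ (2 g + 1) + e x`. -/
def Stmt_EEV : Prop := ∀ (g : ℕ) (e : ℂ), 0 < g → e ≠ 0 → ∃ β : ℕ → ℂ, ∀ (κ : ℂ) (z : ℕ → ℂ),
  Ord (2 * g + 1) κ z → (∀ x, fz (2 * g + 1) z x = x ^ (2 * g + 1) + e * x) →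
  ∀ m, m + 1 < 2 * g + 1 → ∃ ε a b q : ℂ, ε ^ 4 = 1 ∧ a ^ 2 = z m ∧ b ^ 2 = z (m + 1) ∧
    q ^ 2 = e ∧ ∀ l, EE (2 * g + 1) z m l = ε * β l * (b * z (m + 1) ^ l - a * z m ^ l) / q

/-- REF: the reference periods at `s` are the reference integrals, up to an integral matrix. -/
def Stmt_REF : Prop := ∀ (g : ℕ) (c : Fin (2 * g) → ℚ) (s : ℚ), 0 < g → Sep c s →
  ∃ (R : ℝ) (W : ℂ → Matrix (Fin (2 * g)) (Ix g) ℂ) (κ : ℂ) (z : ℕ → ℂ)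
    (K : Matrix (Ix g) (Ix g) ℤ), Ref g c s R W ∧ Ord (2 * g + 1) κ z ∧
    fus g (cC c) (s : ℂ) = polz g z ∧
    W (s : ℂ) = (refP g z).transpose * (Tm g).transpose * K.map (fun x : ℤ => (x : ℂ))

/-- BAS: the period matrix of `y ^ 2 = x ^ (2 g + 1) + e x` is a diagonal matrix times a matrix
with entries in a number field. -/
def Stmt_BAS : Prop := ∀ (g : ℕ) (e : ℚ), 0 < g → e ≠ 0 →
  ∃ (R : ℝ) (W : ℂ → Matrix (Fin (2 * g)) (Ix g) ℂ) (L₀ : IntermediateField ℚ ℂ)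
    (Θ V : Matrix (Ix g) (Ix g) ℂ), Ref g (ce g e) 0 R W ∧ FiniteDimensional ℚ L₀ ∧
    Θ.IsDiag ∧ Simil (2 * Real.pi * Complex.I) Θ ∧ (∀ i j, V i j ∈ L₀) ∧
    NmC g (ce g e) * W ((0 : ℚ) : ℂ) = Θ * V

/-! ## Part E: the final theorem -/

/-- INE: the matrices `Z` of the families satisfy no relation of bounded degree. -/
def Stmt_INE : Prop := ∀ (nF : ℕ) (G : Fin nF → ℕ) (e : Fin nF → ℚ), Dif G e →
  ∀ (r : ℕ) (φ : Fin r → Fin nF) (E : ℕ), ∃ δ : ℝ, 0 < δ ∧ ∃ n₀ : ℕ, ∀ n : ℕ, n₀ ≤ n →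
  ∀ ρ : Fin r → ℚ, (∀ i j, i ≠ j → φ i = φ j → ρ i ≠ ρ j) →
  (∀ i, 0 < ρ i ∧ Ht n δ (ρ i)) →
  ∀ Z : Fam (fun i => G (φ i)), (∀ i, Z i * NmC (G (φ i)) (ce (G (φ i)) (e (φ i))) =
    NmC (G (φ i)) (ce (G (φ i)) (e (φ i))) *
      Yv (ce (G (φ i)) (e (φ i))) 0 ((ρ i : ℝ) / n)) →
  (∀ i, Simil 1 (Z i)) ∧ ∀ Q : MvPolynomial (CrF (fun i => G (φ i))) ℚ, Q.totalDegree ≤ E →
    MvPolynomial.aeval (mpt Z) Q = (0 : ℂ) →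
    ∀ M : Fam (fun i => G (φ i)), (∀ i, Simil 1 (M i)) →
      MvPolynomial.aeval (mpt M) Q = (0 : ℂ)

/-- KEY: from the abstract form to the torsors and classes of the curves. -/
def Stmt_KEY : Prop := ∀ (r : ℕ) (g : Fin r → ℕ) (F : Fin r → Polynomial ℂ),
  (∀ l, ∃ M : Matrix (Ix (g l)) (Ix (g l)) ℂ, Simil (2 * Real.pi * Complex.I) M ∧
    ∀ γ : CPath (F l), ∃ K : Ix (g l) → ℤ, ∀ k,
      γ.per (num (g l) (F l) k) = ∑ j, M k j * K j) →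
  ∀ L : IntermediateField ℚ ℂ, FiniteDimensional ℚ L →
  (∀ γ : ∀ l, Fin (2 * g l) → CPath (F l), DRD.IsBasis γ →
    NoTor (fun _ => 1) L ((2 * Real.pi * Complex.I, fun l =>
      (perMat (g l) (γ l)).submatrix id (DRH.ee (g l))) : Pt g)) →
  (∀ γ : ∀ l, Fin (2 * g l) → CPath (F l), DRD.IsBasis γ → ∀ H : Subgroup (DRD.Aut g),
    DRD.IsTorsor L γ H → ∀ x : DRD.Aut g,
    (∀ l, Simil (x.1 : ℂ) (x.2 l : Matrix (Ix (g l)) (Ix (g l)) ℂ)) → x ∈ H) ∧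
  ∀ (m : ℕ) (k : ℤ) (i : Fin m → Fin r) (α : (∀ s, Ix (g (i s))) → ℂ),
    DRD.IsDRB F L m k i α → DRH.IsHodge m k i α

/-- FIN: the final theorem. -/
def Stmt_FIN : Prop := ∀ (nF : ℕ) (G : Fin nF → ℕ) (e : Fin nF → ℚ), Dif G e →
  ∀ (r : ℕ) (φ : Fin r → Fin nF) (D : ℕ), ∃ δ : ℝ, 0 < δ ∧ ∃ n₀ : ℕ, ∀ n : ℕ, n₀ ≤ n →
  ∀ ρ : Fin r → ℚ, (∀ i j, i ≠ j → φ i = φ j → ρ i ≠ ρ j) →
  (∀ i, 0 < ρ i ∧ Ht n δ (ρ i)) →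
  ∀ L : IntermediateField ℚ ℂ, FiniteDimensional ℚ L → Module.finrank ℚ L ≤ D →
  (∀ (γ : ∀ l, Fin (2 * G (φ l)) → CPath (crvE (G (φ l)) (e (φ l)) (ρ l / n))),
    DRD.IsBasis (g := fun l => G (φ l)) γ → ∀ H : Subgroup (DRD.Aut (fun l => G (φ l))),
    DRD.IsTorsor (g := fun l => G (φ l)) L γ H →
    ∀ x : DRD.Aut (fun l => G (φ l)), (∀ l, Simil (x.1 : ℂ)
      (x.2 l : Matrix (Ix (G (φ l))) (Ix (G (φ l))) ℂ)) → x ∈ H) ∧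
  ∀ (m : ℕ) (k : ℤ) (i : Fin m → Fin r) (α : (∀ s, Ix (G (φ (i s)))) → ℂ),
    DRD.IsDRB (g := fun l => G (φ l))
      (fun l => crvE (G (φ l)) (e (φ l)) (ρ l / n)) L m k i α →
    DRH.IsHodge (g := fun l => G (φ l)) m k i α

end

end Pool.Agent.NEX
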