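import Pool.Agent.NEX.Main

/-!
# The de Rham–Betti conjecture over all number fields of degree at most `D`, without exceptions,
for the hyperelliptic curves `y ^ 2 = x ^ (2 g + 1) + e x + ρ / n` and their products

Let `g_a ≥ 2` and `e_a ≠ 0` rational, `a = 1, ..., nF` (if `g_a = g_b`, `a ≠ b`, then
`e_a ≠ ρ ^ (2 g_a) e_b` for all rational `ρ`). The curves are
`C_l : y ^ 2 = x ^ (2 g + 1) + e x + ρ_l / n`, `g = g_(φ l)`, `e = e_(φ l)`, `l = 1, ..., r`. For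
all `D` there are `δ > 0` and `n₀` such that for all `n ≥ n₀`, all positive rational numbers `ρ_l`
with numerators and denominators at most `n ^ δ`, different for equal `φ l`, and all number fields
`L` of degree at most `D`

(1) every torsor over `L` which contains the comparison point `(2 π i, period matrices)` contains
the whole torsor under the group of all tuples of symplectic similitudes with a common multiplier;

(2) every de Rham–Betti class over `L` on every `H¹(C_{i_1}) ⊗ ⋯ ⊗ H¹(C_{i_m}) (k)` is invariant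
under this group and of Hodge type `(0, 0)`.

For example, if `n` is large enough, this holds for `y ^ 2 = x ^ 5 + x + 1 / n`.
-/

open scoped BigOperators

open Pool.Agent.HGP Pool.Agent.GPH Pool.Agent.DRD Polynomial in
theorem Pool.Agent.Results.MP_470b79_ag.TrinomialDRB.result (nF : ℕ) (G : Fin nF → ℕ)
    (e : Fin nF → ℚ) (hG : ∀ a, 2 ≤ G a) (he : ∀ a, e a ≠ 0)
    (hd : ∀ a b, a ≠ b → G a = G b → ∀ ρ : ℚ, e a ≠ ρ ^ (2 * G a) * e b)
    (r : ℕ) (φ : Fin r → Fin nF) (D : ℕ) : ∃ δ : ℝ, 0 < δ ∧ ∃ n₀ : ℕ, ∀ n : ℕ, n₀ ≤ n →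
    ∀ ρ : Fin r → ℚ, (∀ i j, i ≠ j → φ i = φ j → ρ i ≠ ρ j) →
    (∀ i, 0 < ρ i ∧ ((ρ i).num : ℝ) ≤ (n : ℝ) ^ δ ∧ ((ρ i).den : ℝ) ≤ (n : ℝ) ^ δ) →
    ∀ L : IntermediateField ℚ ℂ, FiniteDimensional ℚ L → Module.finrank ℚ L ≤ D →
    (∀ (γ : ∀ l, Fin (2 * G (φ l)) → CPath (X ^ (2 * G (φ l) + 1) + C ((e (φ l) : ℚ) : ℂ) * X +
        C ((ρ l / n : ℚ) : ℂ))), IsBasis (g := fun l => G (φ l)) γ →
      ∀ H : Subgroup (Aut (fun l => G (φ l))), IsTorsor (g := fun l => G (φ l)) L γ H →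
      ∀ x : Aut (fun l => G (φ l)), (∀ l, Simil (x.1 : ℂ)
        (x.2 l : Matrix (Ix (G (φ l))) (Ix (G (φ l))) ℂ)) → x ∈ H) ∧
    ∀ (m : ℕ) (k : ℤ) (i : Fin m → Fin r) (α : (∀ s, Ix (G (φ (i s)))) → ℂ),
      IsDRB (g := fun l => G (φ l)) (fun l => X ^ (2 * G (φ l) + 1) + C ((e (φ l) : ℚ) : ℂ) * X +
        C ((ρ l / n : ℚ) : ℂ)) L m k i α →
      Pool.Agent.DRH.IsHodge (g := fun l => G (φ l)) m k i α :=
  Pool.Agent.NEX.fin_t nF G e ⟨hG, he, hd⟩ r φ D
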