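import Pool.Agent.NEX.Stmts
import Pool.Agent.DRC.CyMain
import Pool.Agent.CYD.CStmts

set_option autoImplicit false

/-!
# NEX, part F: the Dwork families; exact statements of the modules
-/

open scoped BigOperators Topology
open Metric Set

namespace Pool.Agent.NEX

open Pool.Agent.HGP (Ix Simil Idx fvec)
open Pool.Agent.UBD (Pt Crd Pol ev InG GrpS Dns Inf1 Lie nv sg1 ex)
open Pool.Agent.DG2 (Ht)
open Pool.Agent.CYP (IsF IsE Ps Mx Per Tors Qm Rm)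
open Pool.Agent.CYD (Zm RefY)

noncomputable section

/-- Rational matrices as complex matrices. -/
def qC {m n : Type} (A : Matrix m n ℚ) : Matrix m n ℂ := A.map (fun q : ℚ => (q : ℂ))

/-- BSY: the period matrix at the Fermat point. -/
def Stmt_BSY : Prop := ∀ g : ℕ, 0 < g →
  ∀ (F F' : Matrix (Fin (2 * g)) (Ix g) (Polynomial ℤ)) (E E' : Matrix (Fin (2 * g)) (Ix g) ℚ),
  RefY g F F' E E' → ∃ (L₀ : IntermediateField ℚ ℂ) (B Θ V : Matrix (Ix g) (Ix g) ℂ),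
    FiniteDimensional ℚ L₀ ∧ Simil 1 B ∧ (∀ i j, B i j ∈ L₀) ∧ Θ.IsDiag ∧
    Simil ((2 * Real.pi * Complex.I) ^ (2 * g - 1)) Θ ∧ (∀ i j, V i j ∈ L₀) ∧
    Ps F E' 0 (Mx (2 * g) 0) = B * Θ * V

/-- INY: the matrices `A Z`, `A` rational symplectic, satisfy no relation of bounded degree. -/
def Stmt_INY : Prop := ∀ (nF : ℕ) (G : Fin nF → ℕ)
  (F F' : ∀ a, Matrix (Fin (2 * G a)) (Ix (G a)) (Polynomial ℤ)), (∀ a, 0 < G a) →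
  (∀ a, IsF (G a) (F a) (F' a)) → ∀ (r : ℕ) (φ : Fin r → Fin nF) (E : ℕ),
  ∃ δ : ℝ, 0 < δ ∧ ∃ n₀ : ℕ, ∀ n : ℕ, n₀ ≤ n → ∀ ρ : Fin r → ℚ, Function.Injective ρ →
  (∀ i, 0 < ρ i ∧ Ht n δ (ρ i)) →
  (∀ i, |(ρ i : ℝ) / n| < 1) ∧ (∀ i, Simil 1 (Zm (F (φ i)) (F' (φ i)) ((ρ i : ℝ) / n))) ∧
  ∀ A : (∀ i, Matrix (Ix (G (φ i))) (Ix (G (φ i))) ℚ), (∀ i, Simil 1 (qC (A i))) →
  ∀ Q : MvPolynomial (CrF (fun i => G (φ i))) ℚ, Q.totalDegree ≤ E →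
    MvPolynomial.aeval (mpt (g := fun i => G (φ i))
      (fun i => qC (A i) * Zm (F (φ i)) (F' (φ i)) ((ρ i : ℝ) / n))) Q = (0 : ℂ) →
    ∀ M : Fam (fun i => G (φ i)), (∀ i, Simil 1 (M i)) →
      MvPolynomial.aeval (mpt M) Q = (0 : ℂ)

/-- KYY: from the abstract form to the torsors and classes of the Dwork families. -/
def Stmt_KYY : Prop := ∀ (r : ℕ) (g : Fin r → ℕ) (ψ : Fin r → ℚ) (B : DRC.Bas g ψ),
  (∀ l, 0 < g l) → (∀ l, Tors (2 * g l) (ψ l) (2 * Real.pi * Complex.I) (Per (2 * g l) (ψ l))) →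
  ∀ L : IntermediateField ℚ ℂ, FiniteDimensional ℚ L → NoTor (DRC.wt g) L (DRC.cp B) →
  (∀ H : Subgroup (DRC.Aut (fun l => 2 * g l)),
    DRC.IsTorsor (fun l => 2 * g l) (fun l => (ψ l : ℂ)) L H →
    ∀ x : DRC.Aut (fun l => 2 * g l), (∀ l, DRC.SimilR (2 * g l) (ψ l) (x.1 : ℂ)
      (x.2 l : Matrix (Fin (2 * g l)) (Fin (2 * g l)) ℂ)) → x ∈ H) ∧
  ∀ (m : ℕ) (k : ℤ) (i : Fin m → Fin r) (α : (∀ s, Fin (2 * g (i s))) → ℂ),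
    DRC.IsDRB (fun l => 2 * g l) (fun l => (ψ l : ℂ)) L m k i α →
    DRC.IsHodge (fun l => 2 * g l) (fun l => (ψ l : ℂ)) m k i α

/-- FIY: the final theorem for the Dwork families. -/
def Stmt_FIY : Prop := ∀ (nF : ℕ) (G : Fin nF → ℕ), (∀ a, 2 ≤ G a) →
  ∀ (r : ℕ) (φ : Fin r → Fin nF) (D : ℕ), ∃ δ : ℝ, 0 < δ ∧ ∃ n₀ : ℕ, ∀ n : ℕ, n₀ ≤ n →
    ∀ ρ : Fin r → ℚ, Function.Injective ρ →
    (∀ i, 0 < ρ i ∧ ((ρ i).num : ℝ) ≤ (n : ℝ) ^ δ ∧ ((ρ i).den : ℝ) ≤ (n : ℝ) ^ δ) →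
    ∀ (L : IntermediateField ℚ ℂ), FiniteDimensional ℚ L → Module.finrank ℚ L ≤ D →
    (∀ H : Subgroup (DRC.Aut (fun l => 2 * G (φ l))),
      DRC.IsTorsor (fun l => 2 * G (φ l)) (fun l => ((ρ l / n : ℚ) : ℂ)) L H →
      ∀ x : DRC.Aut (fun l => 2 * G (φ l)),
        (∀ l, DRC.SimilR (2 * G (φ l)) ((ρ l / n : ℚ) : ℂ) (x.1 : ℂ)
          (x.2 l : Matrix (Fin (2 * G (φ l))) (Fin (2 * G (φ l))) ℂ)) → x ∈ H) ∧
    ∀ (m : ℕ) (k : ℤ) (i : Fin m → Fin r) (α : (∀ s, Fin (2 * G (φ (i s)))) → ℂ),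
      DRC.IsDRB (fun l => 2 * G (φ l)) (fun l => ((ρ l / n : ℚ) : ℂ)) L m k i α →
      DRC.IsHodge (fun l => 2 * G (φ l)) (fun l => ((ρ l / n : ℚ) : ℂ)) m k i α

end

end Pool.Agent.NEX
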